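import Mathlib

namespace Pool.Agent.Lib.MP_147f4d_co

open Set

/-- a ranked closure system with the covering property -/
structure ClSys {α : Type} (S : Set (Set α)) (ρ : Set α → ℕ) : Prop where
  bot : ∃ F ∈ S, ρ F = 0 ∧ ∀ F' ∈ S, F ⊆ F'
  step : ∀ F ∈ S, ∀ e ∉ F, ∃ F' ∈ S, F ⊆ F' ∧ e ∈ F' ∧ ρ F' = ρ F + 1 ∧
    ∀ F'' ∈ S, F ⊆ F'' → e ∈ F'' → F' ⊆ F''
  mono : ∀ F ∈ S, ∀ F' ∈ S, F ⊆ F' → ρ F ≤ ρ F'

variable {α : Type} [Finite α] {S : Set (Set α)} {ρ : Set α → ℕ}

lemma ClSys.exists_cl (h : ClSys S ρ) (X : Set α) :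
    ∃ F ∈ S, X ⊆ F ∧ ∀ F' ∈ S, X ⊆ F' → F ⊆ F' := by
  induction X, (toFinite X) using Set.Finite.induction_on with
  | empty =>
    obtain ⟨F, hF, -, h2⟩ := h.bot
    exact ⟨F, hF, empty_subset _, fun F' hF' _ => h2 F' hF'⟩
  | @insert e X _ _ ih =>
    obtain ⟨F, hF, h1, h2⟩ := ih
    by_cases he : e ∈ F
    · exact ⟨F, hF, insert_subset he h1, fun F' hF' h3 => h2 F' hF' ((subset_insert _ _).trans h3)⟩
    · obtain ⟨F', hF', h3, h4, -, h5⟩ := h.step F hF e he
      exact ⟨F', hF', insert_subset h4 (h1.trans h3), fun F'' hF'' h6 =>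
        h5 F'' hF'' (h2 F'' hF'' ((subset_insert _ _).trans h6)) (h6 (mem_insert _ _))⟩

theorem ClSys.exists_matroid (h : ClSys S ρ) : ∃ M : Matroid α, M.E = univ ∧
    (∀ F, M.IsFlat F ↔ F ∈ S) ∧ ∀ F ∈ S, M.eRk F = ρ F := by
  choose cl hcl hsub hmin using h.exists_cl
  have cl_self : ∀ F ∈ S, cl F = F := fun F hF => (hmin F F hF subset_rfl).antisymm (hsub F)
  have cl_mono : ∀ X Y, X ⊆ cl Y → cl X ⊆ cl Y := fun X Y hXY => hmin X _ (hcl Y) hXY
  have r_empty : ρ (cl ∅) = 0 := by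
    obtain ⟨F, hF, h1, h2⟩ := h.bot
    rw [(hmin ∅ F hF (empty_subset _)).antisymm (h2 _ (hcl ∅)), h1]
  have r_in : ∀ X e, e ∈ cl X → cl (insert e X) = cl X := fun X e he =>
    (cl_mono _ _ (insert_subset he (hsub X))).antisymm
      (cl_mono _ _ ((subset_insert _ _).trans (hsub _)))
  have r_out : ∀ X e, e ∉ cl X → ρ (cl (insert e X)) = ρ (cl X) + 1 := fun X e he => by
    obtain ⟨F', hF', h3, h4, h5, h6⟩ := h.step _ (hcl X) e he
    have : cl (insert e X) = F' := (hmin _ _ hF' (insert_subset h4 ((hsub X).trans h3))).antisymm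
      (h6 _ (hcl _) (cl_mono _ _ ((subset_insert _ _).trans (hsub _))) (hsub _ (mem_insert _ _)))
    rw [this, h5]
  have r_ins : ∀ X e, ρ (cl (insert e X)) ≤ ρ (cl X) + 1 := fun X e => by
    by_cases he : e ∈ cl X
    · rw [r_in X e he]; omega
    · rw [r_out X e he]
  have r_union : ∀ Y X : Set α, ρ (cl (Y ∪ X)) ≤ ρ (cl X) + Y.ncard := fun Y X => by
    induction Y, (toFinite Y) using Set.Finite.induction_on with
    | empty => simp
    | @insert e Y he hY ih =>
      rw [insert_union, ncard_insert_of_notMem he hY]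
      have := r_ins (Y ∪ X) e
      omega
  have r_le : ∀ X : Set α, ρ (cl X) ≤ X.ncard := fun X => by
    have := r_union X ∅
    rwa [union_empty, r_empty, zero_add] at this
  have ind_ins : ∀ I e, ρ (cl I) = I.ncard → e ∉ cl I → ρ (cl (insert e I)) = (insert e I).ncard :=
    fun I e hI he => by
      rw [r_out I e he, ncard_insert_of_notMem (fun h' => he (hsub I h')) (toFinite I), hI]
  let M : Matroid α := (IndepMatroid.ofFinite (E := univ) finite_univ
    (fun I => ρ (cl I) = I.ncard) (by simp [r_empty])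
    (fun I J hJ hIJ => by
      have h1 := r_union (J \ I) I
      rw [sdiff_union_of_subset hIJ] at h1
      have h2 := ncard_sdiff_add_ncard_of_subset hIJ (toFinite J)
      have h3 := r_le I
      omega)
    (fun I J hI hJ hIJ => by
      by_contra hcon
      push Not at hcon
      have h1 : J ⊆ cl I := fun e he => by
        by_contra he'
        exact hcon e he (fun h' => he' (hsub I h')) (ind_ins I e hI he')
      have h2 := h.mono _ (hcl J) _ (hcl I) (cl_mono _ _ h1)
      omega)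
    (fun _ _ => subset_univ _)).matroid
  have hE : M.E = univ := rfl
  have hI : ∀ I, M.Indep I ↔ ρ (cl I) = I.ncard := fun I => Iff.rfl
  have basis_sub : ∀ I X, M.IsBasis I X → X ⊆ cl I := fun I X hb e he => by
    by_contra he'
    exact he' (hsub I (hb.mem_of_insert_indep he ((hI _).2 (ind_ins I e ((hI _).1 hb.indep) he'))))
  have basis_cl : ∀ I X, M.IsBasis I X → cl I = cl X := fun I X hb =>
    (cl_mono _ _ (hb.subset.trans (hsub X))).antisymm (cl_mono _ _ (basis_sub I X hb))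
  refine ⟨M, hE, fun F => ⟨fun hF => ?_, fun hF => ⟨fun I X h1 h2 => ?_, by simp [hE]⟩⟩,
    fun F hF => ?_⟩
  · obtain ⟨I, hb⟩ := M.exists_isBasis F (by simp [hE])
    have h1 : M.IsBasis I (cl I) := by
      refine hb.indep.isBasis_of_forall_insert (hsub I) fun e he => ⟨fun hi => ?_, by simp [hE]⟩
      have h2 := (hI _).1 hi
      rw [r_in I e he.1, (hI _).1 hb.indep, ncard_insert_of_notMem he.2 (toFinite I)] at h2
      omega
    have h2 := hF.subset_of_isBasis_of_isBasis hb h1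
    rw [(basis_sub I F hb).antisymm h2]
    exact hcl I
  · have := basis_sub I X h2
    rwa [basis_cl I F h1, cl_self F hF] at this
  · obtain ⟨I, hb⟩ := M.exists_isBasis F (by simp [hE])
    rw [hb.eRk_eq_encard, ← (toFinite I).cast_ncard_eq, ← (hI _).1 hb.indep, basis_cl I F hb,
      cl_self F hF]

omit [Finite α] in
theorem ext_flats {M N : Matroid α} (hE : M.E = N.E) (h : ∀ F, M.IsFlat F ↔ N.IsFlat F) :
    M = N := by
  refine Matroid.ext_closure fun X => ?_
  rw [Matroid.closure_def, Matroid.closure_def, hE]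
  simp only [h]

end Pool.Agent.Lib.MP_147f4d_co
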