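import Mathlib

namespace Pool.Agent.Lib.MP_147f4d_co

open Polynomial Finset

section poset
variable {L : Type} [PartialOrder L] [Fintype L] [DecidableEq L] [DecidableLE L]
  [LocallyFiniteOrder L]

/-- Characteristic polynomial of the interval `[F, G]` of a ranked poset. -/
noncomputable def charPoly (rk : L → ℕ) (F G : L) : ℤ[X] :=
  ∑ H ∈ Icc F G, C (IncidenceAlgebra.mu ℤ F H) * X ^ (rk G - rk H)

/-- `Q G` is the inverse Kazhdan-Lusztig polynomial of the lower interval below `G`, for all `G`.
Here `reflect k p` is `t ^ k * p (1 / t)`. -/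
def IsInvKL (rk : L → ℕ) (Q : L → ℤ[X]) : Prop :=
  ∀ G : L, (rk G = 0 → Q G = 1) ∧ (0 < rk G → 2 * (Q G).natDegree < rk G) ∧
    (-1) ^ rk G * reflect (rk G) (Q G) =
      ∑ F ∈ univ.filter (fun F => F ≤ G),
        (-1) ^ rk F * Q F * reflect (rk G - rk F) (charPoly rk F G)

/-- The inverse `Z`-polynomial of the lower interval below `G`. -/
noncomputable def invZ (rk : L → ℕ) (Q : L → ℤ[X]) (G : L) : ℤ[X] :=
  (-1) ^ rk G * ∑ F ∈ univ.filter (fun F => F ≤ G),
    (-1) ^ rk F * Q F * X ^ (rk G - rk F) * C (IncidenceAlgebra.mu ℤ F G)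

end poset

/-- The flats of a matroid, ordered by inclusion. -/
abbrev Flat {α : Type} (M : Matroid α) : Type := {F : Set α // M.IsFlat F}

noncomputable instance flatFintype {α : Type} [Finite α] (M : Matroid α) : Fintype (Flat M) :=
  Fintype.ofFinite _

noncomputable instance flatDecEq {α : Type} (M : Matroid α) : DecidableEq (Flat M) :=
  Classical.decEq _

noncomputable instance flatDecLE {α : Type} (M : Matroid α) : DecidableLE (Flat M) :=
  Classical.decRel _

noncomputable instance flatDecLT {α : Type} (M : Matroid α) : DecidableLT (Flat M) :=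
  Classical.decRel _

noncomputable instance flatLocFin {α : Type} [Finite α] (M : Matroid α) :
    LocallyFiniteOrder (Flat M) :=
  Fintype.toLocallyFiniteOrder

/-- The rank of a flat. -/
noncomputable def flatRank {α : Type} (M : Matroid α) (F : Flat M) : ℕ := (M.eRk F.1).toNat

/-- Ground set of the Dowling geometry `Q_n(G)`: joints `i` and edges `(i, j, g)` with `i < j`. -/
abbrev Ground (n : ℕ) (G : Type) : Type := Fin n ⊕ ({p : Fin n × Fin n // p.1 < p.2} × G)

/-- The action of `g` on the pointed `G`-set made of a zero (`none`) and `n` free orbits. -/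
def act {n : ℕ} {G : Type} [Group G] (g : G) : Option (Fin n × G) → Option (Fin n × G)
  | none => none
  | some p => some (p.1, g * p.2)

/-- The set of joints `i` with `x i = 0` and of edges `(i, j, g)` with `x i = g • x j`. -/
def flatOf {n : ℕ} {G : Type} [Group G] (x : Fin n → Option (Fin n × G)) : Set (Ground n G) :=
  {e | Sum.elim (fun i => x i = none) (fun p => x p.1.1.1 = act p.2 (x p.1.1.2)) e}

/-- `M` is the Dowling geometry `Q_n(G)`: its flats are the sets `flatOf x`. -/
def IsDowling {n : ℕ} {G : Type} [Group G] (M : Matroid (Ground n G)) : Prop :=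
  M.E = Set.univ ∧ ∀ F, M.IsFlat F ↔ ∃ x, F = flatOf x

end Pool.Agent.Lib.MP_147f4d_co
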