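import Pool.Agent.Lib.MP_147f4d_co.DenseNear

namespace Pool.Agent.Lib.MP_147f4d_co.Dense

open Finset Classical

lemma num_fin {x u1 u2 r1 r0 p T : ℝ} (h0 : 0 < x) (hT : 1 ≤ T) (a1 : 0 ≤ u1)
    (h1 : u1 ^ 2 ≤ x ^ 2 + 8 * u2) (h2 : 2 * 10 ^ 7 * T * x ^ 2 ≤ u2) (b1 : |r1| ≤ 128 * x)
    (b2 : 1 / 2 ≤ r0) (b3 : r0 ≤ 128) (h : |p - u1 * r1 - u2 * r0| ≤ 1064964 * T * x ^ 2) :
    u2 / 4 ≤ p ∧ p ≤ 129 * u2 := by
  have c0 : 0 < x ^ 2 := by positivity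
  have c5 := mul_le_mul_of_nonneg_right hT c0.le
  have c1 : |u1 * r1| ≤ u1 * (128 * x) := by rw [abs_mul, abs_of_nonneg a1]; gcongr
  have c2 : u1 * (128 * x) ≤ u1 ^ 2 / 64 + 262144 * x ^ 2 := by
    nlinarith [sq_nonneg (u1 - 4096 * x)]
  have c3 : u2 * (1 / 2) ≤ u2 * r0 := by gcongr; linarith
  have c4 : u2 * r0 ≤ u2 * 128 := by gcongr; linarith
  rw [abs_le] at c1 h
  constructor <;> linarith [c1.1, c1.2, h.1, h.2]

theorem main_abs : ∃ C : ℕ, ∀ (P : Type) [Fintype P] [PartialOrder P] [OrderBot P] (x : ℝ)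
    (rk : P → ℕ) (good : P → Prop) (f : P → ℤ → ℝ), 0 < x → x ≤ 1 / 2 → Geo x rk →
    Dat rk good f → ∀ (W : P) (k N1 N2 : ℕ), good W → rk W = k → 3 ≤ k →
    N1 = #(univ.filter fun H => H ≤ W ∧ good H ∧ rk H = 1) →
    N2 = #(univ.filter fun H => H ≤ W ∧ good H ∧ rk H = 2) →
    (N1 : ℝ) ^ 2 ≤ N1 + N2 * (1 / x + 1) ^ 2 →
    ((C : ℝ) ≤ N1 * x ^ (k - 2) ∨ (C : ℝ) ≤ N2 * x ^ (2 * k - 6) ∨
      (1 - 1 / C) * (1 - x ^ k) ≤ N1 * ((1 - x) * x ^ (k - 1))) →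
    (∀ n : ℕ, 1 ≤ n → 2 * n ≤ k → 0 ≤ (-1) ^ k * f W n) ∧
    ∀ n : ℕ, 1 ≤ n → 2 * (n + 1) ≤ k → (-1) ^ k * f W (n + 1) ≤ (-1) ^ k * f W n := by
  obtain ⟨C, hC⟩ := exists_nat_ge (2 * 10 ^ 7 * TB)
  have hB := one_le_TB
  refine ⟨C, fun P _ _ _ x rk good f h0 hh2 g d W k N1 N2 hW hk h3 e1 e2 hp hN => ?_⟩
  obtain ⟨l, rfl⟩ : ∃ l, k = l + 3 := ⟨k - 3, by omega⟩
  rw [← or_assoc] at hN
  refine hN.elim (fun hN => ?_) fun hN =>
    near_main h0 hh2 g d W hW (l := l + 2) hk (by linarith) (e1 ▸ hN)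
  have hx : x < 1 := by linarith
  have w1 := ww_pos h0 hx (l + 1)
  have w2 := ww_pos h0 hx (l + 2)
  have w3 := ww_pos h0 hx (l + 3)
  have y0 := pow_pos h0 l
  have y1 : x ^ l ≤ 1 := pow_le_one₀ h0.le hx.le
  have s1 := ww_succ h0 hx (l + 1)
  have s2 := ww_succ h0 hx (l + 2)
  have d1 := den_pos h0 hx (l + 1)
  have d2 := den_pos h0 hx (l + 2)
  have n1 : (0 : ℝ) ≤ N1 := Nat.cast_nonneg _
  have n2 : (0 : ℝ) ≤ N2 := Nat.cast_nonneg _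
  obtain ⟨r1, hr1⟩ : ∃ r, r = ww x (l + 2) / ww x (l + 3) := ⟨_, rfl⟩
  obtain ⟨r2, hr2⟩ : ∃ r, r = ww x (l + 1) / ww x (l + 2) := ⟨_, rfl⟩
  have t1 : r1 = x ^ (l + 2) / (1 - x ^ (l + 2 + 1)) := by
    rw [hr1, div_eq_div_iff w3.ne' d2.ne', ← s2]; ring
  have t2 : r2 = x ^ (l + 1) / (1 - x ^ (l + 1 + 1)) := by
    rw [hr2, div_eq_div_iff w2.ne' d1.ne', ← s1]; ring
  have a1 : x ^ (l + 2) ≤ r1 := by
    rw [t1]; exact le_div_self (by positivity) d2 (by linarith [pow_pos h0 (l + 2 + 1)])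
  have a2 : x ^ (l + 1) ≤ r2 := by
    rw [t2]; exact le_div_self (by positivity) d1 (by linarith [pow_pos h0 (l + 1 + 1)])
  have a3 : r1 ≤ x * r2 := by
    rw [t1, t2, ← mul_div_assoc, ← pow_succ']
    have : x ^ (l + 2 + 1) ≤ x ^ (l + 1 + 1) := pow_le_pow_of_le_one h0.le hx.le (by omega)
    exact div_le_div_of_nonneg_left (by positivity) d1 (by linarith)
  have a4 : r1 ≤ x := by
    rw [t1, div_le_iff₀ d2]
    have z1 : x ^ (l + 2) ≤ x ^ 2 := pow_le_pow_of_le_one h0.le hx.le (by omega)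
    have z2 : x ^ (l + 2 + 1) ≤ x ^ 1 := pow_le_pow_of_le_one h0.le hx.le (by omega)
    have z3 : x * x ≤ x * (1 - x ^ (l + 2 + 1)) := by gcongr; linarith
    linarith
  have a5 : 0 < r1 := lt_of_lt_of_le (by positivity) a1
  have a6 : 0 < r2 := lt_of_lt_of_le (by positivity) a2
  obtain ⟨u1, hu1⟩ : ∃ u, u = N1 * r1 := ⟨_, rfl⟩
  obtain ⟨u2, hu2⟩ : ∃ u, u = N2 * r1 * r2 / x := ⟨_, rfl⟩
  have b0 : 0 ≤ u1 := by rw [hu1]; positivity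
  have b1 : u1 ^ 2 ≤ x ^ 2 + 8 * u2 := by
    have z1 : (1 / x + 1) ^ 2 ≤ (2 / x) ^ 2 := by
      gcongr
      rw [div_add_one h0.ne']; gcongr; linarith
    have z2 : (N1 : ℝ) ^ 2 ≤ 1 + 2 * (N2 * (2 / x) ^ 2) := by
      linarith [sq_nonneg ((N1 : ℝ) - 1), mul_le_mul_of_nonneg_left z1 n2]
    calc u1 ^ 2 = N1 ^ 2 * r1 ^ 2 := by rw [hu1]; ring
      _ ≤ (1 + 2 * (N2 * (2 / x) ^ 2)) * r1 ^ 2 := by gcongr
      _ = r1 ^ 2 + 8 * (N2 * r1 * r1 / x / x) := by ring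
      _ ≤ x ^ 2 + 8 * (N2 * r1 * (x * r2) / x / x) := by gcongr
      _ = _ := by rw [hu2]; field_simp
  have c0 : 0 < x ^ 2 := by positivity
  have b2 : 2 * 10 ^ 7 * TB * x ^ 2 ≤ u2 := by
    refine le_trans (b := C * x ^ 2) (by gcongr) ?_
    rcases hN with h | h
    · have z1 : C * x ≤ u1 := by
        calc _ ≤ N1 * x ^ (l + 3 - 2) * x := by gcongr
          _ = N1 * x ^ (l + 2) := by rw [show l + 3 - 2 = l + 1 by omega]; ring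
          _ ≤ _ := by rw [hu1]; gcongr
      have z2 : (C * x) ^ 2 ≤ u1 ^ 2 := by gcongr
      have z3 : 9 * (C * x ^ 2) ≤ C * (C * x ^ 2) := by gcongr; linarith
      have z4 : 1 * x ^ 2 ≤ C * x ^ 2 := by gcongr; linarith
      linarith
    · calc _ ≤ N2 * x ^ (2 * (l + 3) - 6) * x ^ 2 := by gcongr
        _ = N2 * x ^ (l + 2) * x ^ (l + 1) / x := by
          rw [show 2 * (l + 3) - 6 = 2 * l by omega]; field_simp; ring
        _ ≤ _ := by rw [hu2]; gcongr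
  have b3 : u2 ≤ 4 := by
    have z1 := g.cnt ⊥ W 2 (l + 1) bot_le (by rw [hk, g.bot]; omega)
    have z2 : (N2 : ℝ) ≤ #(univ.filter fun H => ⊥ ≤ H ∧ H ≤ W ∧ rk H = rk ⊥ + 2) := by
      rw [e2, Nat.cast_le]
      refine card_le_card fun H hH => ?_
      obtain ⟨-, p1, -, p2⟩ := mem_filter.1 hH
      exact mem_filter.2 ⟨mem_univ _, bot_le, p1, by rw [p2, g.bot]⟩
    have z3 := ww_succ h0 hx 1
    have z4 := ww_succ h0 hx 0
    rw [ww_zero] at z4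
    have z5 := ww_pos h0 hx 2
    have z6 : 1 ≤ 4 * x * ww x 2 := by
      norm_num at z3 z4
      rw [z4] at z3
      have p : x ^ 2 ≤ (1 / 2) ^ 2 := by gcongr
      have : 1 / 2 * (3 / 4) ≤ (1 - x) * (1 - x ^ 2) := by gcongr <;> linarith
      linarith
    rw [show 2 + (l + 1) = l + 3 by omega] at z1
    have z7 : N2 * (ww x 2 * ww x (l + 1)) ≤ ww x (l + 3) := by rw [← z1]; gcongr
    have z8 : u2 = N2 * ww x (l + 1) / (x * ww x (l + 3)) := by rw [hu2, hr1, hr2]; field_simp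
    rw [z8, div_le_iff₀ (by positivity)]
    calc _ = N2 * ww x (l + 1) * 1 := by ring
      _ ≤ N2 * ww x (l + 1) * (4 * x * ww x 2) := by gcongr
      _ = 4 * x * (N2 * (ww x 2 * ww x (l + 1))) := by ring
      _ ≤ 4 * x * ww x (l + 3) := by gcongr
      _ = _ := by ring
  have h70 : 516 * x ≤ 1 := abs_le_of_sq_le_sq'
    (by linarith [mul_le_mul_of_nonneg_right hB c0.le]) zero_le_one |>.2
  have hb : W ≠ ⊥ := fun h => by rw [h, g.bot] at hk; omega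
  have key : ∀ a : ℕ, 2 * (a + 1) ≤ l + 3 →
      u2 / 4 * (ww x (l + 3) * x ^ (a + 1)) ≤ (-1) ^ (l + 3) * f W (a + 1 : ℕ) ∧
      (-1) ^ (l + 3) * f W (a + 1 : ℕ) ≤ 129 * u2 * (ww x (l + 3) * x ^ (a + 1)) := by
    intro a ha
    have z0 : 0 < ww x (l + 3) * x ^ (a + 1) := by positivity
    have xa := pow_pos h0 a
    have z1 := est h0 hh2 g d W l hk (a + 1) (by omega) ha
    rw [← e1, ← e2, ← d.eq_tt hW hb (by omega)] at z1
    have z2 := RR_abs h0 hh2 1 (n := (a + 1 : ℕ)) (k := (l + 3 : ℕ)) a rfl (by omega)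
    obtain ⟨z3, z4⟩ := RR_bot h0 hh2 a (k := (l + 1 : ℕ)) (by omega)
    have k1 : KK x 1 0 (l + 3) (a + 1 : ℕ) =
        (-1) ^ l * ww x (l + 2) * RR x 1 (a + 1 : ℕ) (l + 3 : ℕ) := by
      simp [KK, pow_add]
    have k2 : KK x 2 1 (l + 3) (a + 1 : ℕ) =
        -(-1) ^ l * ww x (l + 1) * RR x 0 a (l + 1 : ℕ) := by
      rw [KK, show ((a + 1 : ℕ) : ℤ) - (1 : ℕ) = a by omega,
        show ((l + 3 : ℕ) : ℤ) - 2 * (1 : ℕ) = (l + 1 : ℕ) by omega]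
      simp [pow_add]
    rw [← le_div_iff₀ z0, ← div_le_iff₀ z0]
    refine num_fin (r1 := RR x 1 (a + 1 : ℕ) (l + 3 : ℕ) / x ^ (a + 1))
      (r0 := RR x 0 a (l + 1 : ℕ) / x ^ a) h0 hB b0 b1 b2 ?_ ?_ ?_ ?_
    · rw [abs_div, abs_of_pos (pow_pos h0 _), div_le_iff₀ (pow_pos h0 _)]
      exact z2.trans (le_of_eq (by ring))
    · rw [le_div_iff₀ xa]; linarith
    · rwa [div_le_iff₀ xa]
    have sq1 : ((-1 : ℝ) ^ l) * (-1) ^ l = 1 := by rw [← mul_pow]; simp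
    have k3 : (-1) ^ (l + 3) * f W (a + 1 : ℕ) / (ww x (l + 3) * x ^ (a + 1)) -
        u1 * (RR x 1 (a + 1 : ℕ) (l + 3 : ℕ) / x ^ (a + 1)) - u2 * (RR x 0 a (l + 1 : ℕ) / x ^ a) =
        -(-1) ^ l * (f W (a + 1 : ℕ) + N1 * KK x 1 0 (l + 3) (a + 1 : ℕ) -
          N2 * KK x 2 1 (l + 3) (a + 1 : ℕ)) / (ww x (l + 3) * x ^ (a + 1)) := by
      rw [k1, k2, hu1, hu2, hr1, hr2]
      field_simp
      linear_combination (N1 * ww x (l + 2) * RR x 1 (a + 1 : ℕ) (l + 3 : ℕ) +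
        N2 * ww x (l + 1) * RR x 0 a (l + 1 : ℕ)) * x * x ^ a * sq1
    rw [k3, abs_div, abs_of_pos z0, div_le_iff₀ z0, abs_mul, abs_neg, abs_pow, abs_neg, abs_one,
      one_pow, one_mul]
    exact z1.trans (le_of_eq (by ring))
  have b4 : 0 ≤ u2 := le_trans (by positivity) b2
  refine ⟨fun n h1 hn => ?_, fun n h1 hn => ?_⟩
  · obtain ⟨a, rfl⟩ : ∃ a, n = a + 1 := ⟨n - 1, by omega⟩
    exact le_trans (by positivity) (key a hn).1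
  · obtain ⟨a, rfl⟩ : ∃ a, n = a + 1 := ⟨n - 1, by omega⟩
    refine ((key (a + 1) hn).2.trans ?_).trans (key a (by omega)).1
    calc _ = 129 * x * (u2 * (ww x (l + 3) * x ^ (a + 1))) := by ring
      _ ≤ 1 / 4 * (u2 * (ww x (l + 3) * x ^ (a + 1))) := by gcongr; linarith
      _ = _ := by ring

end Pool.Agent.Lib.MP_147f4d_co.Dense
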