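import Mathlib

namespace Pool.Agent.Lib.MP_147f4d_co.Dense

open Finset

/-- triangular numbers `m (m - 1) / 2` -/
def tri : ℕ → ℕ
  | 0 => 0
  | m + 1 => tri m + m

/-- `1 / ∏_{j = 1..m} (1 - x ^ j)` -/
noncomputable def hh (x : ℝ) : ℕ → ℝ
  | 0 => 1
  | m + 1 => hh x m / (1 - x ^ (m + 1))

/-- the weight `∏_{i < m} (q ^ i - 1 / q)` for `x = 1 / q` -/
noncomputable def ww (x : ℝ) (m : ℕ) : ℝ := 1 / (x ^ tri m * hh x m)

open Classical in
/-- a ranked poset whose intervals have the rank numbers of subspace lattices -/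
structure Geo {P : Type} [Fintype P] [PartialOrder P] [OrderBot P] (x : ℝ) (rk : P → ℕ) :
    Prop where
  bot : rk ⊥ = 0
  lt : ∀ U W, U < W → rk U < rk W
  cnt : ∀ U W j l, U ≤ W → rk W = rk U + (j + l) →
    (#(univ.filter fun H => U ≤ H ∧ H ≤ W ∧ rk H = rk U + j) : ℝ) * (ww x j * ww x l) =
      ww x (j + l)

open Classical in
/-- signed first differences of the inverse `Z`-polynomials, carried by the good elements -/
structure Dat {P : Type} [Fintype P] [PartialOrder P] [OrderBot P] (rk : P → ℕ)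
    (good : P → Prop) (f : P → ℤ → ℝ) : Prop where
  bot : good ⊥
  fbot : ∀ n, f ⊥ n = (if n = 0 then 1 else 0) - (if n = 1 then 1 else 0)
  zero : ∀ W, ¬ good W → ∀ n, f W n = 0
  neg : ∀ W n, n < 0 → f W n = 0
  anti : ∀ W n, f W (rk W + 1 - n) = - f W n
  sum : ∀ W, good W → W ≠ ⊥ → ∀ n : ℤ, 2 * n ≤ rk W →
    ∑ H ∈ univ.filter (fun H => H ≤ W), f H n = 0
  int : ∀ W, ∃ F, good F ∧ F ≤ W ∧ ∀ H, good H → H ≤ W → H ≤ F

end Pool.Agent.Lib.MP_147f4d_co.Dense
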