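import Pool.Agent.Lib.MP_147f4d_co.DenseRep

namespace Pool.Agent.Lib.MP_147f4d_co.Dense

open Finset Classical

variable {P : Type} [Fintype P] [PartialOrder P] [OrderBot P] {x : ℝ} {rk : P → ℕ}
  {good : P → Prop} {f : P → ℤ → ℝ}

lemma ww_zero : ww x 0 = 1 := by simp [ww, tri, hh]

lemma geo34 (r : ℕ) : ∑ s ∈ range r, (3 / 4 : ℝ) ^ s ≤ 4 := by
  have : ∀ r, ∑ s ∈ range r, (3 / 4 : ℝ) ^ s + 4 * (3 / 4) ^ r ≤ 4 := by
    intro r
    induction r with
    | zero => simp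
    | succ r ih => rw [sum_range_succ, pow_succ]; linarith
  have h := this r
  have : (0 : ℝ) < (3 / 4) ^ r := by positivity
  linarith

/-- the growth factor -/
noncomputable def TT (r : ℕ) : ℝ := ∏ s ∈ range r, (1 + 260 * (128 * (3 / 4) ^ s))

/-- its bound -/
noncomputable def TB : ℝ := Real.exp 133120

lemma TT_pos (r : ℕ) : 0 < TT r := prod_pos fun s _ => by positivity

lemma TT_sum (r : ℕ) : 1 + ∑ s ∈ range r, 260 * (128 * (3 / 4) ^ s * TT s) = TT r := by
  induction r with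
  | zero => simp [TT]
  | succ r ih => rw [sum_range_succ, ← add_assoc, ih, TT, TT, prod_range_succ]; ring

lemma TT_mono : Monotone TT := monotone_nat_of_le_succ fun r => by
  have := TT_pos r
  have h : 0 < 260 * (128 * (3 / 4) ^ r * TT r) := by positivity
  rw [← TT_sum (r + 1), sum_range_succ, ← add_assoc, TT_sum]; linarith

lemma one_le_TT (r : ℕ) : 1 ≤ TT r := by simpa [TT] using TT_mono (Nat.zero_le r)

lemma TT_le (r : ℕ) : TT r ≤ TB := by
  refine (Real.prod_one_add_le_exp_sum _ fun s => by positivity).trans (Real.exp_le_exp.2 ?_)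
  rw [← mul_sum, ← mul_sum]
  linarith [geo34 r]

lemma one_le_TB : 1 ≤ TB := (one_le_TT 0).trans (TT_le 0)

lemma lin_le (s : ℕ) : (s : ℝ) * (1 / 2) ^ s ≤ 2 * (3 / 4) ^ s := by
  have h := one_add_mul_le_pow (show (-2 : ℝ) ≤ 1 / 2 by norm_num) s
  calc _ ≤ 2 * (1 + 1 / 2) ^ s * (1 / 2 : ℝ) ^ s := by gcongr; linarith
    _ = _ := by rw [mul_assoc, ← mul_pow]; norm_num

lemma Dat.tt_int (d : Dat rk good f) {U : P} (hU : ¬ good U) :
    ∃ F, good F ∧ F < U ∧ ∀ n, tt f U n = - ∑ H ∈ univ.filter (fun H => H ≤ F), f H n := by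
  obtain ⟨F, h1, h2, h3⟩ := d.int U
  have h4 : F < U := lt_of_le_of_ne h2 fun h => hU (h ▸ h1)
  refine ⟨F, h1, h4, fun n => ?_⟩
  rw [tt, neg_inj]
  refine (sum_subset (fun H hH => ?_) fun H hH h5 => d.zero H (fun h6 => h5 ?_) n).symm
  · exact mem_filter.2 ⟨mem_univ _, (mem_filter.1 hH).2.trans_lt h4⟩
  · exact mem_filter.2 ⟨mem_univ _, h3 H h6 (mem_filter.1 hH).2.le⟩

/-- the size bound -/
def Bd (x : ℝ) (rk : P → ℕ) (f : P → ℤ → ℝ) (W : P) : Prop :=
  ∀ n : ℕ, 2 * n ≤ rk W → |tt f W n| ≤ TT (rk W) * ww x (rk W) * x ^ n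

section three
variable (h0 : 0 < x) (h3 : x ≤ 1 / 2) (g : Geo x rk) (d : Dat rk good f)
include h0 h3 g d

lemma f_bd {H : P} (hH : Bd x rk f H) (n : ℕ) (hn : 2 * n ≤ rk H) :
    |f H n| ≤ TT (rk H) * ww x (rk H) * x ^ n := by
  have := ww_pos h0 (by linarith) (rk H)
  have := TT_pos (rk H)
  by_cases h1 : H = ⊥
  · subst h1
    rw [g.bot] at hn ⊢
    rw [show n = 0 by omega, d.fbot, ww_zero]; simp [TT]
  by_cases h2 : good H
  · rw [d.eq_tt h2 h1 (by omega)]; exact hH n hn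
  · rw [d.zero H h2, abs_zero]; positivity

lemma f_bd2 {H : P} (hH : Bd x rk f H) (m : ℕ) (hm : rk H < 2 * m) :
    |f H m| * x ^ m ≤ TT (rk H) * ww x (rk H) * x ^ (rk H + 1) := by
  have := ww_pos h0 (by linarith) (rk H)
  have := TT_pos (rk H)
  by_cases h1 : 2 * m = rk H + 1
  · rw [d.mid (by omega), abs_zero, zero_mul]; positivity
  have h2 := d.anti H (rk H + 1 - m)
  rw [sub_sub_cancel] at h2
  by_cases h4 : rk H + 1 < m
  · rw [h2, d.neg _ _ (by omega), neg_zero, abs_zero, zero_mul]; positivity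
  obtain ⟨n, hn⟩ : ∃ n, rk H + 1 = n + m := ⟨rk H + 1 - m, by omega⟩
  rw [h2, abs_neg, show (rk H : ℤ) + 1 - m = n by omega, hn, pow_add, ← mul_assoc]
  gcongr
  exact f_bd h0 h3 g d hH n (by omega)

lemma tt_bd2 {U : P} (ih : ∀ H, H < U → Bd x rk f H) (hU : ¬ good U) (hs : 3 ≤ rk U) (m : ℕ)
    (hm : 2 * m ≤ rk U) :
    |tt f U m| ≤ 16 * rk U * TT (rk U) * ww x (rk U) * x ^ (2 + (rk U - 4)) * x ^ m := by
  have h1 : x < 1 := by linarith
  have hw := ww_pos h0 h1 (rk U)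
  have hT := one_le_TT (rk U)
  have hr : (3 : ℝ) ≤ rk U := by exact_mod_cast hs
  obtain ⟨F, a1, a2, a3⟩ := d.tt_int hU
  have a4 := g.lt _ _ a2
  obtain ⟨s, hs2⟩ : ∃ s, rk U = s + 1 := ⟨rk U - 1, by omega⟩
  have t1 : tri (rk U) = tri s + s := by rw [hs2]; rfl
  rw [a3, abs_neg]
  by_cases b1 : F = ⊥
  · have t2 := le_tri s
    have e : univ.filter (fun H => H ≤ F) = {⊥} := by ext H; simp [b1]
    rw [e, sum_singleton, d.fbot]
    by_cases b2 : m ≤ 1
    · have p1 := ww_low h0 h3 (rk U)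
      have p2 : x ^ tri (rk U) ≤ x ^ (2 + (rk U - 4) + m) :=
        pow_le_pow_of_le_one h0.le h1.le (by omega)
      calc _ ≤ (1 : ℝ) := by split_ifs <;> norm_num
        _ ≤ 4 * 1 * 1 * (ww x (rk U) * x ^ tri (rk U)) := by linarith
        _ ≤ 16 * rk U * TT (rk U) * (ww x (rk U) * x ^ (2 + (rk U - 4) + m)) := by
          gcongr <;> linarith
        _ = _ := by ring
    · rw [if_neg (by omega), if_neg (by omega), sub_zero, abs_zero]; positivity
  by_cases b2 : 2 * m ≤ rk F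
  · rw [d.sum F a1 b1 m (by omega), abs_zero]; positivity
  have b3 : 1 ≤ rk F := Nat.one_le_iff_ne_zero.2 fun h => b1 (g.eq_bot h)
  have t2 := tri_mono b3 (show rk F ≤ s by omega)
  refine le_of_mul_le_mul_right ?_ (pow_pos h0 m)
  have e := sum_rank h0 h1 g (bot_le : ⊥ ≤ F) (N := rk F) (by rw [g.bot, zero_add])
    (fun j => TT j * ww x j * x ^ (j + 1))
  simp only [bot_le, true_and, g.bot, zero_add] at e
  have key : ∀ j ∈ range (rk F + 1),
      ww x (rk F) / (ww x j * ww x (rk F - j)) * (TT j * ww x j * x ^ (j + 1)) ≤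
      TT (rk U) * (16 * ww x (rk U) * x ^ (2 + (rk U - 4) + m + m)) := by
    intro j hj
    have hj2 := mem_range.1 hj
    have t3 := le_tri (rk F - j)
    have p1 := ww_pos h0 h1 j
    have p2 := ww_pos h0 h1 (rk F - j)
    have p3 := ww_pos h0 h1 (rk F)
    have q1 := ww_up h0 h3 (rk F)
    have q2 := ww_low h0 h3 (rk U)
    have q3 := ww_low h0 h3 (rk F - j)
    have q4 : x ^ (tri (rk U) + tri (rk F - j) + (j + 1)) ≤
        x ^ (2 + (rk U - 4) + m + m + tri (rk F)) := pow_le_pow_of_le_one h0.le h1.le (by omega)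
    have q5 : ww x (rk F) * x ^ (j + 1) ≤
        16 * ww x (rk U) * x ^ (2 + (rk U - 4) + m + m) * ww x (rk F - j) := by
      refine le_of_mul_le_mul_right ?_ (pow_pos h0 (tri (rk F)))
      calc _ = ww x (rk F) * x ^ tri (rk F) * 1 * x ^ (j + 1) := by ring
        _ ≤ 4 * (ww x (rk U) * x ^ tri (rk U)) * (4 * (ww x (rk F - j) * x ^ tri (rk F - j))) *
            x ^ (j + 1) := by gcongr ?_ * ?_ * _; linarith
        _ = 16 * ww x (rk U) * ww x (rk F - j) * x ^ (tri (rk U) + tri (rk F - j) + (j + 1)) := by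
            ring
        _ ≤ 16 * ww x (rk U) * ww x (rk F - j) * x ^ (2 + (rk U - 4) + m + m + tri (rk F)) := by
            gcongr
        _ = _ := by ring
    calc _ = TT j * (ww x (rk F) * x ^ (j + 1) / ww x (rk F - j)) := by field_simp
      _ ≤ _ := by
        gcongr
        · exact TT_mono (by omega)
        · rwa [div_le_iff₀ p2]
  calc _ ≤ (∑ H ∈ univ.filter (fun H => H ≤ F), |f H m|) * x ^ m := by
        gcongr; exact abs_sum_le_sum_abs _ _
    _ ≤ ∑ H ∈ univ.filter (fun H => H ≤ F), TT (rk H) * ww x (rk H) * x ^ (rk H + 1) := by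
        rw [sum_mul]
        refine sum_le_sum fun H hH => f_bd2 h0 h3 g d (ih H ((mem_filter.1 hH).2.trans_lt a2)) m ?_
        have := g.mono (mem_filter.1 hH).2
        omega
    _ ≤ (rk F + 1 : ℕ) * (TT (rk U) * (16 * ww x (rk U) * x ^ (2 + (rk U - 4) + m + m))) := by
        rw [e]
        refine (sum_le_sum key).trans (le_of_eq ?_)
        rw [sum_const, card_range, nsmul_eq_mul]
    _ ≤ rk U * (TT (rk U) * (16 * ww x (rk U) * x ^ (2 + (rk U - 4) + m + m))) := by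
        gcongr; omega
    _ = _ := by ring

lemma tt_bd3 {U : P} (ih : ∀ H, H < U → Bd x rk f H) (hU : ¬ good U) (hs : 3 ≤ rk U) (m : ℕ)
    (hm : 2 * m ≤ rk U) :
    |tt f U m| ≤ 512 * x ^ 2 * (3 / 4) ^ rk U * TT (rk U) * ww x (rk U) * x ^ m := by
  refine (tt_bd2 h0 h3 g d ih hU hs m hm).trans ?_
  have hw := ww_pos h0 (by linarith) (rk U)
  have hT := TT_pos (rk U)
  have p1 : x ^ (rk U - 4) ≤ 16 * (1 / 2) ^ rk U := by
    calc _ ≤ (1 / 2 : ℝ) ^ (rk U - 4) := by gcongr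
      _ = 16 * (1 / 2) ^ (4 + (rk U - 4)) := by ring
      _ ≤ _ := by
        gcongr 16 * ?_
        exact pow_le_pow_of_le_one (by norm_num) (by norm_num) (by omega)
  calc _ = 16 * x ^ 2 * (rk U * x ^ (rk U - 4)) * TT (rk U) * ww x (rk U) * x ^ m := by ring
    _ ≤ 16 * x ^ 2 * (rk U * (16 * (1 / 2) ^ rk U)) * TT (rk U) * ww x (rk U) * x ^ m := by gcongr
    _ = 256 * x ^ 2 * (rk U * (1 / 2) ^ rk U) * TT (rk U) * ww x (rk U) * x ^ m := by ring
    _ ≤ 256 * x ^ 2 * (2 * (3 / 4) ^ rk U) * TT (rk U) * ww x (rk U) * x ^ m := by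
      gcongr _ * ?_ * _ * _ * _; exact lin_le _
    _ = _ := by ring

lemma cf_bd {U : P} (ih : ∀ H, H ≤ U → Bd x rk f H) (m : ℕ) (hm : 2 * m ≤ rk U) :
    |cf good f U m| ≤ 128 * (3 / 4) ^ rk U * TT (rk U) * ww x (rk U) * x ^ m := by
  have := ww_pos h0 (by linarith) (rk U)
  have := TT_pos (rk U)
  unfold cf
  split_ifs with h1 h2 h4
  · rw [h1, h2, g.bot, ww_zero]; simp [TT]
  · rw [abs_zero]; positivity
  · rw [abs_zero]; positivity
  rw [abs_neg]
  by_cases hs : 3 ≤ rk U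
  · refine (tt_bd3 h0 h3 g d (fun H h => ih H h.le) h4 hs m hm).trans ?_
    have : x ^ 2 ≤ (1 / 2) ^ 2 := by gcongr
    gcongr ?_ * _ * _ * _ * _; linarith
  · have p : (3 / 4 : ℝ) ^ 2 ≤ (3 / 4) ^ rk U :=
      pow_le_pow_of_le_one (by norm_num) (by norm_num) (by omega)
    calc _ ≤ 1 * TT (rk U) * ww x (rk U) * x ^ m := by rw [one_mul]; exact ih U le_rfl m hm
      _ ≤ _ := by gcongr; linarith

lemma kap_bd {U : P} (ih : ∀ H, H ≤ U → Bd x rk f H) {r n : ℕ} (hn : 2 * n ≤ r) :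
    |kap x rk good f U r n| ≤
      260 * (128 * (3 / 4) ^ rk U * TT (rk U)) * x ^ n * (ww x (rk U) * ww x (r - rk U)) := by
  have := ww_pos h0 (by linarith) (rk U)
  have := TT_pos (rk U)
  refine (KK_sum h0 h3 hn (by positivity) (cf_bd h0 h3 g d ih)).trans (le_of_eq ?_)
  ring

lemma tt_bd (W : P) : Bd x rk f W := by
  have h1 : x < 1 := by linarith
  induction W using (wellFounded_lt (α := P)).induction with
  | _ W ih =>
    intro n hn
    rw [tt_eq h0 h1 g d W (by omega)]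
    refine (sum_bd h0 h1 g W (b := fun s => 260 * (128 * (3 / 4) ^ s * TT s) * x ^ n)
      fun U hU => kap_bd h0 h3 g d (fun H h => ih H (h.trans_lt hU)) hn).trans ?_
    have := ww_pos h0 h1 (rk W)
    rw [← sum_mul]
    calc _ ≤ ww x (rk W) * (TT (rk W) * x ^ n) := by gcongr; linarith [TT_sum (rk W)]
      _ = _ := by ring

end three

/-- the main terms of rank at most two -/
noncomputable def mu0 (x : ℝ) (k : ℕ) (n : ℤ) (s : ℕ) : ℝ :=
  if s = 0 then KK x 0 0 k n else if s = 1 then KK x 1 0 k n else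
    if s = 2 then - KK x 2 1 k n else 0

section seventy
variable (h0 : 0 < x) (h3 : x ≤ 1 / 2) (g : Geo x rk) (d : Dat rk good f)
include h0 h3 g d

lemma kap_err (U : P) {k n : ℕ} (h1 : 1 ≤ n) (hn : 2 * n ≤ k) :
    |kap x rk good f U k n - (mu0 x k n (rk U) -
      (if good U ∧ rk U = 1 then KK x 1 0 k n else 0) +
      (if good U ∧ rk U = 2 then KK x 2 1 k n else 0))| ≤
    133120 * TB * x ^ (n + 2) * (3 / 4) ^ rk U * (ww x (rk U) * ww x (k - rk U)) := by
  have hx : x < 1 := by linarith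
  have w1 := ww_pos h0 hx (rk U)
  have w2 := ww_pos h0 hx (k - rk U)
  have hB := one_le_TB
  have hT := TT_pos (rk U)
  have hT2 := TT_le (rk U)
  have pos : 0 ≤ 133120 * TB * x ^ (n + 2) * (3 / 4) ^ rk U *
      (ww x (rk U) * ww x (k - rk U)) := by positivity
  by_cases hb : U = ⊥
  · subst hb
    simpa [kap, mu0, cf, g.bot] using by simpa [g.bot] using pos
  have hr : rk U ≠ 0 := fun h => hb (g.eq_bot h)
  by_cases hg : good U
  · have e : kap x rk good f U k n = 0 := sum_eq_zero fun m _ => by simp [cf, hb, hg]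
    refine le_trans (le_of_eq ?_) pos
    rw [e, mu0, if_neg hr]
    by_cases r1 : rk U = 1
    · simp [hg, r1]
    · by_cases r2 : rk U = 2 <;> simp [hg, r1, r2]
  have ec : ∀ m, cf good f U m = - tt f U m := fun m => by simp [cf, hb, hg]
  have hmem : ⊥ ∈ univ.filter (fun H => H < U) := mem_filter.2 ⟨mem_univ _, bot_lt_iff_ne_bot.2 hb⟩
  simp only [hg, false_and, if_false, sub_zero, add_zero, mu0, if_neg hr]
  split_ifs with r1 r2
  · have e : cf good f U 0 = 1 := by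
      rw [ec, tt, neg_neg, sum_eq_single_of_mem ⊥ hmem fun H hH hH2 => by
        have := g.lt _ _ (mem_filter.1 hH).2
        exact absurd (g.eq_bot (by omega)) hH2, d.fbot]
      simp
    refine le_trans (le_of_eq ?_) pos
    simp [kap, r1, e]
  · have e : cf good f U 1 = -1 := by
      rw [ec, tt, neg_neg, sum_eq_single_of_mem ⊥ hmem fun H hH hH2 => by
        have := g.lt _ _ (mem_filter.1 hH).2
        have : rk H ≠ 0 := fun h => hH2 (g.eq_bot h)
        exact d.mid (by omega), d.fbot]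
      simp
    have e2 := tt_bd h0 h3 g d U 0 (by omega)
    obtain ⟨a, rfl⟩ : ∃ a, n = a + 1 := ⟨n - 1, by omega⟩
    have e3 := RR_abs h0 h3 2 (n := (a + 1 : ℕ)) (k := k) a rfl (by omega)
    have e4 : kap x rk good f U k (a + 1 : ℕ) - - KK x 2 1 k (a + 1 : ℕ) =
        - tt f U (0 : ℕ) * ((-1) ^ (k - 2) * ww x (k - 2) * RR x 2 (a + 1 : ℕ) k) := by
      simp [kap, r2, sum_range_succ, e, ec 0, KK]
    rw [r2] at e2 w1 w2 hT hT2
    rw [e4, r2, abs_mul, abs_mul, abs_mul, abs_neg, abs_pow, abs_neg, abs_one, one_pow, one_mul,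
      abs_of_pos w2]
    calc _ ≤ TT 2 * ww x 2 * x ^ 0 * (ww x (k - 2) * (128 * x ^ (a + 1 + 2))) := by gcongr
      _ = 2048 / 9 * TT 2 * x ^ (a + 1 + 2) * (3 / 4) ^ 2 * (ww x 2 * ww x (k - 2)) := by ring
      _ ≤ _ := by gcongr; norm_num
  · rw [sub_zero]
    refine (KK_sum h0 h3 hn (b := 512 * x ^ 2 * (3 / 4) ^ rk U * TT (rk U) * ww x (rk U))
      (by positivity) fun m hm => ?_).trans ?_
    · rw [ec, abs_neg]; exact tt_bd3 h0 h3 g d (fun H _ => tt_bd h0 h3 g d H) hg (by omega) m hm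
    calc _ = 133120 * TT (rk U) * x ^ (n + 2) * (3 / 4) ^ rk U *
          (ww x (rk U) * ww x (k - rk U)) := by ring
      _ ≤ _ := by gcongr

lemma err (W : P) (hk : 3 ≤ rk W) (n : ℕ) (h1 : 1 ≤ n) (hn : 2 * n ≤ rk W) :
    |tt f W n - (∑ U ∈ univ.filter (fun U => U < W), mu0 x (rk W) n (rk U) -
      (#(univ.filter fun H => H ≤ W ∧ good H ∧ rk H = 1) : ℝ) * KK x 1 0 (rk W) n +
      (#(univ.filter fun H => H ≤ W ∧ good H ∧ rk H = 2) : ℝ) * KK x 2 1 (rk W) n)| ≤
    532480 * TB * ww x (rk W) * x ^ (n + 2) := by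
  have hx : x < 1 := by linarith
  have e : ∀ j, j < 3 → ∀ c : ℝ, (#(univ.filter fun H => H ≤ W ∧ good H ∧ rk H = j) : ℝ) * c =
      ∑ U ∈ univ.filter (fun U => U < W), if good U ∧ rk U = j then c else 0 := by
    intro j hj c
    rw [← sum_filter, sum_const, nsmul_eq_mul, filter_filter]
    congr 3
    ext H
    simp only [mem_filter, mem_univ, true_and]
    exact ⟨fun h => ⟨lt_of_le_of_ne h.1 fun h2 => by have := h.2.2; rw [h2] at this; omega, h.2⟩,
      fun h => ⟨h.1.le, h.2⟩⟩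
  rw [tt_eq h0 hx g d W (by omega), e 1 (by omega), e 2 (by omega), ← sum_sub_distrib,
    ← sum_add_distrib, ← sum_sub_distrib]
  refine (sum_bd h0 hx g W (b := fun s => 133120 * TB * x ^ (n + 2) * (3 / 4) ^ s)
    fun U _ => kap_err h0 h3 g d U h1 hn).trans ?_
  have := ww_pos h0 hx (rk W)
  have hB := one_le_TB
  rw [← mul_sum]
  calc _ ≤ ww x (rk W) * (133120 * TB * x ^ (n + 2) * 4) := by gcongr; exact geo34 _
    _ = _ := by ring

lemma est (W : P) (l : ℕ) (hk : rk W = l + 3) (n : ℕ) (h1 : 1 ≤ n) (hn : 2 * n ≤ l + 3) :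
    |tt f W n + (#(univ.filter fun H => H ≤ W ∧ good H ∧ rk H = 1) : ℝ) * KK x 1 0 (l + 3) n -
      (#(univ.filter fun H => H ≤ W ∧ good H ∧ rk H = 2) : ℝ) * KK x 2 1 (l + 3) n| ≤
    1064964 * TB * ww x (l + 3) * x ^ (n + 2) := by
  have hx : x < 1 := by linarith
  set f0 : P → ℤ → ℝ := fun U n => if U = ⊥ then f ⊥ n else 0 with hf0
  have d0 : Dat rk (fun U => U = ⊥) f0 := by
    refine ⟨rfl, fun n => by simp [hf0, d.fbot], fun U hU n => by simp [hf0, hU],
      fun U n h => by simp [hf0, d.neg _ _ h], fun U n => ?_, fun U h h2 => absurd h h2,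
      fun U => ⟨⊥, rfl, bot_le, fun H h _ => h.le⟩⟩
    by_cases h : U = ⊥
    · simp only [hf0, h, if_true]; exact d.anti _ _
    · simp [hf0, h]
  have e1 := err h0 h3 g d W (by omega) n h1 (by omega)
  have e2 := err h0 h3 g d0 W (by omega) n h1 (by omega)
  have e3 : ∀ j, j ≠ 0 → (univ.filter fun H => H ≤ W ∧ H = ⊥ ∧ rk H = j) = ∅ := fun j hj =>
    filter_eq_empty_iff.2 fun H _ h => hj (by rw [← h.2.2, h.2.1, g.bot])
  have hW : W ≠ ⊥ := fun h => by rw [h, g.bot] at hk; omega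
  have e4 : tt f0 W n = - f ⊥ n := by
    have hmem : ⊥ ∈ univ.filter (fun H => H < W) :=
      mem_filter.2 ⟨mem_univ _, bot_lt_iff_ne_bot.2 hW⟩
    rw [tt, sum_eq_single_of_mem ⊥ hmem fun H _ h => by simp [hf0, h]]
    simp [hf0]
  have hw := ww_pos h0 hx (l + 3)
  have e5 : |f ⊥ n| ≤ 4 * (ww x (l + 3) * x ^ (n + 2)) := by
    rw [d.fbot, if_neg (by omega)]
    split_ifs with h
    · have p1 := ww_low h0 h3 (l + 3)
      have p2 : x ^ tri (l + 3) ≤ x ^ (n + 2) :=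
        pow_le_pow_of_le_one h0.le hx.le (by simp only [tri]; omega)
      calc _ = (1 : ℝ) := by norm_num
        _ ≤ _ := p1
        _ ≤ _ := by gcongr
    · rw [sub_zero, abs_zero]; positivity
  simp only [e3 1 one_ne_zero, e3 2 two_ne_zero, card_empty, Nat.cast_zero, zero_mul, sub_zero,
    add_zero, e4, hk] at e1 e2
  have p : 0 < ww x (l + 3) * x ^ (n + 2) := by positivity
  have p2 := mul_le_mul_of_nonneg_right one_le_TB p.le
  rw [abs_le] at e1 e2 e5 ⊢
  constructor <;> linarith [e1.1, e1.2, e2.1, e2.2, e5.1, e5.2]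

end seventy

end Pool.Agent.Lib.MP_147f4d_co.Dense
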