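import Pool.Agent.Lib.MP_147f4d_co.DenseDefs
import Pool.Agent.Lib.MP_147f4d_co.DenseDefsEq

/-! The lattice of subspaces of a finite vector space. -/

set_option autoImplicit false

namespace Pool.Agent.Lib.MP_147f4d_co.Dense

open Finset Module

variable {F V : Type} [Field F] [Fintype F] [AddCommGroup V] [Module F V] [Fintype V]

lemma ww_step {x : ℝ} (h : x ≠ 0) (m : ℕ) :
    ww x (m + 1) = ww x m * (x * ((1 / x) ^ (m + 1) - 1)) := by
  have e : x ^ m * (1 / x) ^ m = 1 := by rw [← mul_pow, mul_one_div_cancel h, one_pow]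
  simp only [ww, hh, tri, pow_add, pow_one]
  field_simp
  rw [mul_sub, e]

open Classical in
lemma card_sdiff_sub {U W : Submodule F V} (h : U ≤ W) :
    (#(univ.filter fun v => v ∈ W ∧ v ∉ U) : ℝ) =
      (Fintype.card F : ℝ) ^ finrank F W - (Fintype.card F : ℝ) ^ finrank F U := by
  have e : ∀ U : Submodule F V, #(univ.filter fun v => v ∈ U) = Fintype.card F ^ finrank F U :=
    fun U => by rw [← Module.card_eq_pow_finrank, Fintype.card_subtype]
  have e2 := card_filter_add_card_filter_not (s := univ.filter fun v => v ∈ W) fun v => v ∈ U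
  rw [filter_filter, filter_filter, e, filter_congr (q := fun v => v ∈ U)
    fun v _ => ⟨fun k => k.2, fun k => ⟨h k, k⟩⟩, e] at e2
  rw [eq_sub_iff_add_eq']
  exact_mod_cast e2

theorem geo_sub [Fintype (Submodule F V)] :
    Geo (1 / (Fintype.card F : ℝ)) fun U : Submodule F V => finrank F U := by
  classical
  refine ⟨finrank_bot F V, fun U W h => Submodule.finrank_lt_finrank_of_lt h, fun U W j l => ?_⟩
  have hq : (1 : ℝ) < Fintype.card F := by exact_mod_cast Fintype.one_lt_card
  set q : ℝ := (Fintype.card F : ℝ) with hqe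
  induction j generalizing U with
  | zero =>
    intro h _
    rw [filter_congr (q := fun H => H = U) fun H _ => ⟨fun k =>
      (Submodule.eq_of_le_of_finrank_eq k.1 k.2.2.symm).symm, fun k => by subst k; simp [h]⟩,
      filter_eq']
    simp [ww, tri, hh]
  | succ j ih =>
    intro h hr
    set c := univ.filter fun H : Submodule F V => U ≤ H ∧ H ≤ W ∧
      finrank F H = finrank F U + (j + 1) with hc
    have key := sum_card_bipartiteAbove_eq_sum_card_bipartiteBelow (s := c)
      (t := univ.filter fun v => v ∈ W ∧ v ∉ U) fun H v => v ∈ H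
    have k1 : ∀ H ∈ c, (#((univ.filter fun v => v ∈ W ∧ v ∉ U).bipartiteAbove
        (fun (H : Submodule F V) v => v ∈ H) H) : ℝ) =
        q ^ finrank F U * (q ^ (j + 1) - 1) := fun H hH => by
      obtain ⟨h1, h2, h3⟩ := (mem_filter.1 hH).2
      rw [bipartiteAbove, filter_filter, filter_congr (q := fun v => v ∈ H ∧ v ∉ U) fun v _ =>
        ⟨fun k => ⟨k.2, k.1.2⟩, fun k => ⟨⟨h2 k.1, k.2⟩, k.1⟩⟩, card_sdiff_sub h1, h3]
      ring
    have k2 : ∀ v ∈ univ.filter fun v => v ∈ W ∧ v ∉ U,
        (#(c.bipartiteBelow (fun (H : Submodule F V) v => v ∈ H) v) : ℝ) *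
          (ww (1 / q) j * ww (1 / q) l) = ww (1 / q) (j + l) := fun v hv => by
      obtain ⟨h1, h2⟩ := (mem_filter.1 hv).2
      have e := Submodule.finrank_sup_span_singleton (K := F) h2
      rw [← ih (U ⊔ Submodule.span F {v}) (sup_le h ((Submodule.span_singleton_le_iff_mem _ _).2 h1))
        (by simp only [e, hr]; omega), bipartiteBelow, hc, filter_filter]
      congr 3
      ext H
      simp only [sup_le_iff, Submodule.span_singleton_le_iff_mem, e, mem_filter, mem_univ]
      rw [add_assoc, add_comm 1 j]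
      tauto
    have k3 : (#c : ℝ) * (q ^ finrank F U * (q ^ (j + 1) - 1)) * (ww (1 / q) j * ww (1 / q) l) =
        q ^ finrank F U * (q ^ (j + l + 1) - 1) * ww (1 / q) (j + l) := by
      have e := congrArg (fun n : ℕ => (n : ℝ) * (ww (1 / q) j * ww (1 / q) l)) key
      simp only [Nat.cast_sum] at e
      rw [sum_congr rfl k1, sum_const, nsmul_eq_mul, sum_mul, sum_congr rfl k2, sum_const,
        nsmul_eq_mul, card_sdiff_sub h] at e
      rw [e, show finrank F W = finrank F U + (j + l + 1) by omega]
      ring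
    have h0 : (1 / q) ≠ 0 := by positivity
    rw [show j + 1 + l = j + l + 1 by omega, ww_step h0, ww_step h0, one_div_one_div]
    refine mul_left_cancel₀ (a := q ^ finrank F U) (by positivity) ?_
    linear_combination (1 / q) * k3

end Pool.Agent.Lib.MP_147f4d_co.Dense
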