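import Pool.Agent.Lib.MP_147f4d_co.DenseDefs
import Pool.Agent.Lib.MP_147f4d_co.DenseDefsEq

namespace Pool.Agent.Lib.MP_147f4d_co.Dense

open Finset

/-- `hh` extended by zero -/
noncomputable def hz (x : ℝ) (m : ℤ) : ℝ := if 0 ≤ m then hh x m.toNat else 0

/-- the convolution inverse of `hh` -/
noncomputable def ee (x : ℝ) (m : ℕ) : ℝ := (-1) ^ m * x ^ tri m * hh x m

/-- truncated convolution -/
noncomputable def sg (x : ℝ) (N : ℤ) (M : ℕ) : ℝ := ∑ l ∈ range (M + 1), ee x l * hz x (N - l)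

/-- the normalised kernel -/
noncomputable def RR (x : ℝ) (s : ℕ) (n k : ℤ) : ℝ :=
  hz x (k - n - s) * sg x n s - hz x (n - s - 1) * sg x (k + 1 - n) s

/-- the kernel -/
noncomputable def KK (x : ℝ) (s m r : ℕ) (n : ℤ) : ℝ :=
  (-1) ^ (r - s) * ww x (r - s) * RR x (s - 2 * m) (n - m) (r - 2 * m)

variable {x : ℝ}

lemma hz_neg {m : ℤ} (h : m < 0) : hz x m = 0 := by simp [hz, h]

lemma hz_nat (m : ℕ) : hz x m = hh x m := by simp [hz]

lemma hz_zero : hz x 0 = 1 := by simp [hz, hh]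

lemma sg_neg {N : ℤ} (h : N < 0) (M : ℕ) : sg x N M = 0 :=
  sum_eq_zero fun l _ => by rw [hz_neg (by omega), mul_zero]

lemma sg_zero (M : ℕ) : sg x 0 M = 1 := by
  rw [sg, sum_range_succ', sum_eq_zero fun l _ => by rw [hz_neg (by omega), mul_zero]]
  simp [ee, tri, hh, hz_zero]

lemma RR_anti (s : ℕ) (n k : ℤ) : RR x s (k + 1 - n) k = - RR x s n k := by
  unfold RR
  rw [show k - (k + 1 - n) - s = n - s - 1 by ring, show k + 1 - n - s - 1 = k - n - s by ring,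
    show k + 1 - (k + 1 - n) = n by ring]
  ring

lemma RR_neg (s : ℕ) {n : ℤ} (h : n < 0) (k : ℤ) : RR x s n k = 0 := by
  rw [RR, sg_neg h, hz_neg (m := n - s - 1) (by omega)]; ring

lemma RR_zero (s : ℕ) (k : ℤ) : RR x s 0 k = hz x (k - s) := by
  rw [RR, sg_zero, hz_neg (m := 0 - s - 1) (by omega)]; simp

lemma RR_diag (s : ℕ) {n : ℤ} (h : n ≤ s) : RR x s n s = if n = 0 then 1 else 0 := by
  split_ifs with h0
  · rw [h0, RR_zero, sub_self, hz_zero]
  · rcases lt_or_gt_of_ne h0 with h1 | h1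
    · exact RR_neg s h1 _
    · rw [RR, hz_neg (by omega), hz_neg (by omega)]; ring

section one
variable (h0 : 0 < x) (h1 : x < 1)
include h0 h1

lemma den_pos (m : ℕ) : 0 < 1 - x ^ (m + 1) := sub_pos.2 (pow_lt_one₀ h0.le h1 (by omega))

lemma one_le_hh (m : ℕ) : 1 ≤ hh x m := by
  induction m with
  | zero => simp [hh]
  | succ m ih =>
    rw [hh, le_div_iff₀ (den_pos h0 h1 m)]
    have := pow_pos h0 (m + 1)
    linarith

lemma hh_pos (m : ℕ) : 0 < hh x m := lt_of_lt_of_le one_pos (one_le_hh h0 h1 m)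

lemma hz_nonneg (m : ℤ) : 0 ≤ hz x m := by
  unfold hz; split_ifs
  · exact (hh_pos h0 h1 _).le
  · rfl

lemma ww_pos (m : ℕ) : 0 < ww x m := by
  have := hh_pos h0 h1 m
  unfold ww; positivity

lemma ww_mul (m : ℕ) : ww x m * (x ^ tri m * hh x m) = 1 := by
  have := hh_pos h0 h1 m
  unfold ww; field_simp

lemma ee_eq (m : ℕ) : ee x m * ww x m = (-1) ^ m := by
  have := ww_mul h0 h1 m
  unfold ee; linear_combination (-1) ^ m * this

lemma ww_succ (m : ℕ) : ww x (m + 1) * x ^ m = ww x m * (1 - x ^ (m + 1)) := by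
  have h2 := hh_pos h0 h1 m
  have h3 := den_pos h0 h1 m
  simp only [ww, tri, hh, pow_add]
  field_simp

lemma hz_step (j : ℕ) : hz x j * (1 - x ^ j) = hz x (j - 1) := by
  cases j with
  | zero => simp [hz]
  | succ j =>
    rw [hz_nat, hh, div_mul_cancel₀ _ (den_pos h0 h1 j).ne']
    push_cast; rw [add_sub_cancel_right, hz_nat]

lemma sg_closed (N M : ℕ) : sg x N M * (1 - x ^ N) =
    (-1) ^ M * x ^ tri (M + 1) * hh x M * hz x (N - 1 - M) := by
  induction M with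
  | zero => simp [sg, ee, tri, hh, hz_step h0 h1]
  | succ M ih =>
    rw [sg, sum_range_succ, ← sg, add_mul, ih]
    by_cases h : N < M + 1
    · rw [hz_neg (by omega), hz_neg (by omega), hz_neg (by omega)]; ring
    · obtain ⟨j, rfl⟩ : ∃ j, N = M + 1 + j := ⟨N - (M + 1), by omega⟩
      have e1 : ((M + 1 + j : ℕ) : ℤ) - 1 - M = j := by push_cast; ring
      have e2 : ((M + 1 + j : ℕ) : ℤ) - (M + 1 : ℕ) = j := by push_cast; ring
      have e3 : ((M + 1 + j : ℕ) : ℤ) - 1 - (M + 1 : ℕ) = j - 1 := by push_cast; ring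
      have e4 : hh x M = hh x (M + 1) * (1 - x ^ (M + 1)) := by
        rw [hh, div_mul_cancel₀ _ (den_pos h0 h1 M).ne']
      rw [e1, e2, e3, ← hz_step h0 h1 j, ee, e4, show tri (M + 1 + 1) = tri (M + 1) + (M + 1) from rfl]
      ring

lemma sg_full {N : ℤ} {M : ℕ} (h : N ≤ M) (h2 : N ≠ 0) : sg x N M = 0 := by
  rcases lt_or_gt_of_ne h2 with h3 | h3
  · exact sg_neg h3 M
  · obtain ⟨j, rfl⟩ : ∃ j : ℕ, N = (j + 1 : ℕ) := ⟨(N - 1).toNat, by omega⟩
    have h4 := sg_closed h0 h1 (j + 1) M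
    rw [hz_neg (by omega), mul_zero] at h4
    exact (mul_eq_zero.1 h4).resolve_right (den_pos h0 h1 j).ne'

lemma RR_conv (s N : ℕ) (hN : 1 ≤ N) {n k : ℤ} (hk : k = s + N) (hn : 2 * n ≤ k) :
    ∑ i ∈ range (N + 1), ee x i * RR x s n (k - i) = 0 := by
  by_cases h2 : n < 0
  · exact sum_eq_zero fun i _ => by rw [RR_neg s h2, mul_zero]
  have e1 : ∑ i ∈ range (N + 1), ee x i * (hz x (k - i - n - s) * sg x n s) =
      sg x (N - n) N * sg x n s := by
    rw [sg.eq_1 x (N - n), sum_mul]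
    refine sum_congr rfl fun i _ => ?_
    rw [show k - i - n - s = N - n - i by omega]; ring
  have e2 : ∑ i ∈ range (N + 1), ee x i * (hz x (n - s - 1) * sg x (k - i + 1 - n) s) =
      hz x (n - s - 1) * ∑ l ∈ range (s + 1), ee x l * sg x (k + 1 - n - l) N := by
    simp only [sg, mul_sum]
    rw [sum_comm]
    refine sum_congr rfl fun l _ => sum_congr rfl fun i _ => ?_
    rw [show k - i + 1 - n - l = k + 1 - n - l - i by ring]; ring
  simp only [RR, mul_sub, sum_sub_distrib, e1, e2]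
  have e3 : sg x (N - n) N * sg x n s = 0 := by
    by_cases h3 : n = N
    · rw [sg_full h0 h1 (N := n) (by omega) (by omega), mul_zero]
    · rw [sg_full h0 h1 (N := N - n) (by omega) (by omega), zero_mul]
  rw [e3]
  by_cases h3 : n < s + 1
  · rw [hz_neg (by omega)]; ring
  · rw [sum_eq_zero fun l hl => by
      have := mem_range.1 hl
      rw [sg_full h0 h1 (by omega) (by omega), mul_zero]]
    ring

lemma RR_form (s a b : ℕ) {n k : ℤ} (ha : n = (a + 1 : ℕ)) (hb : k + 1 - n = (b + 1 : ℕ)) :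
    RR x s n k = (-1) ^ s * x ^ tri (s + 1) * hh x s * hz x (b - s) * hz x (a - s) *
      (1 / (1 - x ^ (a + 1)) - 1 / (1 - x ^ (b + 1))) := by
  have e1 := sg_closed h0 h1 (a + 1) s
  have e2 := sg_closed h0 h1 (b + 1) s
  have d1 := (den_pos h0 h1 a).ne'
  have d2 := (den_pos h0 h1 b).ne'
  rw [← eq_div_iff d1] at e1
  rw [← eq_div_iff d2] at e2
  rw [RR, hb, show k - n - s = b - s by omega, show n - s - 1 = a - s by omega, ha, e1, e2,
    show ((a + 1 : ℕ) : ℤ) - 1 - s = a - s by omega, show ((b + 1 : ℕ) : ℤ) - 1 - s = b - s by omega]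
  ring

end one

lemma le_tri (a : ℕ) : a ≤ tri a + 1 := by
  induction a with
  | zero => simp
  | succ a ih => simp only [tri]; cases a <;> simp only [tri] at * <;> omega

lemma tri_mono {a b : ℕ} (h1 : 1 ≤ a) (h : a ≤ b) : tri a + b ≤ tri b + a := by
  induction b, h using Nat.le_induction with
  | base => rfl
  | succ b hb ih => simp only [tri]; omega

section three
variable (h0 : 0 < x) (h3 : x ≤ 1 / 2)
include h0 h3

lemma hh_le_four (m : ℕ) : hh x m ≤ 4 := by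
  have h1 : x < 1 := by linarith
  have : ∀ m, hh x (m + 1) * (1 + 2 * x ^ (m + 1)) ≤ 4 := by
    intro m
    induction m with
    | zero =>
      rw [hh, div_mul_eq_mul_div, div_le_iff₀ (den_pos h0 h1 0)]
      simp only [hh, zero_add, pow_one]; linarith
    | succ m ih =>
      rw [hh, div_mul_eq_mul_div, div_le_iff₀ (den_pos h0 h1 (m + 1))]
      have h4 := hh_pos h0 h1 (m + 1)
      have h5 := pow_pos h0 (m + 1)
      have h6 : x ^ (m + 1) ≤ x ^ 1 := pow_le_pow_of_le_one h0.le h1.le (by omega)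
      have h7 : 1 + 2 * x ^ (m + 1 + 1) ≤ (1 + 2 * x ^ (m + 1)) * (1 - x ^ (m + 1 + 1)) := by
        rw [pow_succ x (m + 1)]
        have h9 : x ^ (m + 1) * x ≤ x ^ (m + 1) * (1 / 2) := by gcongr
        have h10 : x ^ (m + 1) * (x ^ (m + 1) * x) ≤ 1 / 2 * (x ^ (m + 1) * (1 / 2)) := by
          gcongr; linarith
        linarith
      have h8 := den_pos h0 h1 (m + 1)
      calc _ ≤ hh x (m + 1) * ((1 + 2 * x ^ (m + 1)) * (1 - x ^ (m + 1 + 1))) := by gcongr
        _ = hh x (m + 1) * (1 + 2 * x ^ (m + 1)) * (1 - x ^ (m + 1 + 1)) := by ring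
        _ ≤ 4 * (1 - x ^ (m + 1 + 1)) := by gcongr
  cases m with
  | zero => norm_num [hh]
  | succ m => nlinarith [this m, mul_pos (hh_pos h0 h1 (m + 1)) (pow_pos h0 (m + 1))]

lemma hz_le_four (m : ℤ) : hz x m ≤ 4 := by
  unfold hz; split_ifs
  · exact hh_le_four h0 h3 _
  · norm_num

lemma ww_up (m : ℕ) : ww x m * x ^ tri m ≤ 1 := by
  have h1 : x < 1 := by linarith
  have := ww_mul h0 h1 m
  have h4 := one_le_hh h0 h1 m
  have h5 : 0 < ww x m * x ^ tri m := mul_pos (ww_pos h0 h1 m) (pow_pos h0 _)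
  nlinarith

lemma ww_low (m : ℕ) : 1 ≤ 4 * (ww x m * x ^ tri m) := by
  have h1 : x < 1 := by linarith
  have := ww_mul h0 h1 m
  have h4 := hh_le_four h0 h3 m
  have h5 : 0 < ww x m * x ^ tri m := mul_pos (ww_pos h0 h1 m) (pow_pos h0 _)
  nlinarith

lemma diff_bd {a b : ℕ} (h : a < b) :
    x ^ (a + 1) / 2 ≤ 1 / (1 - x ^ (a + 1)) - 1 / (1 - x ^ (b + 1)) ∧
    1 / (1 - x ^ (a + 1)) - 1 / (1 - x ^ (b + 1)) ≤ 2 * x ^ (a + 1) := by
  have h1 : x < 1 := by linarith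
  have d1 := den_pos h0 h1 a
  have d2 := den_pos h0 h1 b
  have p1 := pow_pos h0 (a + 1)
  have p2 := pow_pos h0 (b + 1)
  have p3 : x ^ (a + 1) ≤ x := by
    have : x ^ a ≤ 1 := pow_le_one₀ h0.le h1.le
    rw [pow_succ]; nlinarith
  have p4 : x ^ (b + 1) ≤ x ^ (a + 1) * x := by
    rw [← pow_succ]; exact pow_le_pow_of_le_one h0.le h1.le (by omega)
  rw [div_sub_div _ _ d1.ne' d2.ne', le_div_iff₀ (mul_pos d1 d2), div_le_iff₀ (mul_pos d1 d2)]
  set u := x ^ (a + 1)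
  set v := x ^ (b + 1)
  have p5 : (1 - u) * (1 - v) ≤ 1 := by nlinarith
  have p6 : v ≤ u / 2 := by nlinarith
  have p7 : u * (1 - v) ≤ 2 * u * ((1 - u) * (1 - v)) := by
    have : u * (1 - v) * 1 ≤ u * (1 - v) * (2 * (1 - u)) := by gcongr; linarith
    linarith
  constructor <;> nlinarith

lemma RR_abs (s : ℕ) {n k : ℤ} (a : ℕ) (ha : n = (a + 1 : ℕ)) (hn : 2 * n ≤ k) :
    |RR x s n k| ≤ 128 * x ^ (a + 1 + s) := by
  have h1 : x < 1 := by linarith
  obtain ⟨b, hb⟩ : ∃ b : ℕ, k + 1 - n = (b + 1 : ℕ) := ⟨(k - n).toNat, by omega⟩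
  obtain ⟨d1, d2⟩ := diff_bd h0 h3 (show a < b by omega)
  have d3 : 0 ≤ 1 / (1 - x ^ (a + 1)) - 1 / (1 - x ^ (b + 1)) := le_trans (by positivity) d1
  have p1 : x ^ tri (s + 1) ≤ x ^ s := pow_le_pow_of_le_one h0.le h1.le (by simp [tri])
  rw [RR_form h0 h1 s a b ha hb]
  simp only [abs_mul, abs_pow, abs_neg, abs_one, one_pow, one_mul, abs_of_pos h0,
    abs_of_pos (hh_pos h0 h1 s), abs_of_nonneg (hz_nonneg h0 h1 _), abs_of_nonneg d3]
  have := hz_nonneg h0 h1 (b - s)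
  have := hz_nonneg h0 h1 (a - s)
  have := hh_pos h0 h1 s
  calc _ ≤ x ^ s * 4 * 4 * 4 * (2 * x ^ (a + 1)) := by
        gcongr
        · exact hh_le_four h0 h3 s
        · exact hz_le_four h0 h3 _
        · exact hz_le_four h0 h3 _
    _ = _ := by ring

lemma RR_zero_abs (s : ℕ) (k : ℤ) : |RR x s 0 k| ≤ 4 := by
  rw [RR_zero, abs_of_nonneg (hz_nonneg h0 (by linarith) _)]; exact hz_le_four h0 h3 _

lemma RR_bot (n : ℕ) {k : ℤ} (hn : 2 * n ≤ k) :
    x ^ n / 2 ≤ RR x 0 n k ∧ RR x 0 n k ≤ 128 * x ^ n := by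
  have h1 : x < 1 := by linarith
  cases n with
  | zero =>
    obtain ⟨j, rfl⟩ : ∃ j : ℕ, k = j := ⟨k.toNat, by omega⟩
    have := one_le_hh h0 h1 j
    have := hh_le_four h0 h3 j
    simp only [Nat.cast_zero, RR_zero, sub_zero, hz_nat, pow_zero]
    constructor <;> linarith
  | succ a =>
    refine ⟨?_, (le_abs_self _).trans (RR_abs h0 h3 0 a rfl hn)⟩
    obtain ⟨b, hb⟩ : ∃ b : ℕ, k + 1 - (a + 1 : ℕ) = (b + 1 : ℕ) := ⟨(k - (a + 1)).toNat, by omega⟩
    obtain ⟨d1, d2⟩ := diff_bd h0 h3 (show a < b by omega)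
    rw [RR_form h0 h1 0 a b rfl hb]
    simp only [tri, pow_zero, hh, Nat.cast_zero, sub_zero, hz_nat, add_zero, one_mul]
    have p1 := one_le_hh h0 h1 a
    have p2 := one_le_hh h0 h1 b
    have p3 : 1 ≤ hh x b * hh x a := one_le_mul_of_one_le_of_one_le p2 p1
    have p4 : 0 ≤ x ^ (a + 1) / 2 := by positivity
    nlinarith

lemma RR_step (a : ℕ) {k : ℤ} (hn : 2 * (a + 2 : ℕ) ≤ k) :
    RR x 0 (a + 2 : ℕ) k ≤ 2 / 3 * RR x 0 (a + 1 : ℕ) k := by
  have h1 : x < 1 := by linarith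
  obtain ⟨b, hb⟩ : ∃ b : ℕ, k + 1 - (a + 2 : ℕ) = (b + 1 : ℕ) := ⟨(k - (a + 2)).toNat, by omega⟩
  rw [RR_form h0 h1 0 (a + 1) b rfl hb, RR_form h0 h1 0 a (b + 1) rfl (by omega)]
  simp only [tri, pow_zero, hh, Nat.cast_zero, sub_zero, hz_nat, add_zero, one_mul]
  have d1 := den_pos h0 h1 a
  have d2 := den_pos h0 h1 b
  have d3 := den_pos h0 h1 (a + 1)
  have d4 := den_pos h0 h1 (b + 1)
  have p1 := mul_pos (hh_pos h0 h1 b) (hh_pos h0 h1 a)
  have p2 := pow_pos h0 (a + 1)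
  have p3 := pow_pos h0 (b + 1)
  have p4 : x ^ (a + 1) ≤ x ^ 1 := pow_le_pow_of_le_one h0.le h1.le (by omega)
  have p5 : x ^ (b + 1) ≤ x ^ (a + 1) := pow_le_pow_of_le_one h0.le h1.le (by omega)
  rw [pow_succ x (a + 1), pow_succ x (b + 1)] at *
  generalize x ^ (a + 1) = u at *
  generalize x ^ (b + 1) = v at *
  have q0 := mul_pos p3 h0
  have q1 : v * x ≤ v * (1 / 2) := by gcongr
  have q2 : u * x ≤ 1 / 2 * (1 / 2) := by gcongr; linarith
  have q3 : u * x - v ≤ 1 / 2 * (u - v * x) := by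
    have : u * x ≤ u * (1 / 2) := by gcongr
    linarith
  have q4 : (u * x - v) * (1 - v * x) ≤ 2 / 3 * (u - v * x) * (1 - u * x) := by
    calc _ ≤ 1 / 2 * (u - v * x) * 1 := by gcongr <;> linarith
      _ = 2 / 3 * (u - v * x) * (3 / 4) := by ring
      _ ≤ _ := by gcongr <;> linarith
  generalize v * x = v' at *
  generalize u * x = u' at *
  have e1 : hh x b * (hh x a / (1 - u)) * (1 / (1 - u') - 1 / (1 - v)) =
      hh x b * hh x a / ((1 - u) * (1 - v) * (1 - u') * (1 - v')) *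
        ((u' - v) * (1 - v')) := by field_simp; ring
  have e2 : 2 / 3 * (hh x b / (1 - v) * hh x a * (1 / (1 - u) - 1 / (1 - v'))) =
      hh x b * hh x a / ((1 - u) * (1 - v) * (1 - u') * (1 - v')) *
        (2 / 3 * (u - v') * (1 - u')) := by field_simp; ring
  rw [e1, e2]
  gcongr

lemma geo_le (N : ℕ) : ∑ j ∈ range N, x ^ j ≤ 2 := by
  have : ∀ N, ∑ j ∈ range N, x ^ j + 2 * x ^ N ≤ 2 := by
    intro N
    induction N with
    | zero => simp
    | succ N ih =>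
      rw [sum_range_succ, pow_succ]
      nlinarith [pow_pos h0 N]
  linarith [this N, pow_pos h0 N]

lemma KK_sum {s r n : ℕ} (hn : 2 * n ≤ r) {b : ℝ} (hb : 0 ≤ b) {c : ℕ → ℝ}
    (hc : ∀ m, 2 * m ≤ s → |c m| ≤ b * x ^ m) :
    |∑ m ∈ range (s / 2 + 1), c m * KK x s m r n| ≤ 260 * b * ww x (r - s) * x ^ n := by
  have h1 : x < 1 := by linarith
  have hw := ww_pos h0 h1 (r - s)
  have key : ∀ m ∈ range (s / 2 + 1), |c m * KK x s m r n| ≤
      b * ww x (r - s) * x ^ n * ((if m = n then 4 else 0) + 128 * x ^ (s / 2 + 1 - 1 - m)) := by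
    intro m hm
    have hm2 := mem_range.1 hm
    have e : x ^ m * |RR x (s - 2 * m) (n - m) (r - 2 * m)| ≤
        x ^ n * ((if m = n then 4 else 0) + 128 * x ^ (s / 2 + 1 - 1 - m)) := by
      rcases lt_trichotomy m n with h | h | h
      · obtain ⟨a, rfl⟩ : ∃ a, n = m + (a + 1) := ⟨n - m - 1, by omega⟩
        have h4 := RR_abs h0 h3 (s - 2 * m) (n := (m + (a + 1) : ℕ) - m) (k := r - 2 * m) a
          (by omega) (by omega)
        have h5 : x ^ (s - 2 * m) ≤ x ^ (s / 2 + 1 - 1 - m) :=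
          pow_le_pow_of_le_one h0.le h1.le (by omega)
        rw [if_neg h.ne, zero_add]
        calc _ ≤ x ^ m * (128 * x ^ (a + 1 + (s - 2 * m))) := by gcongr
          _ = x ^ (m + (a + 1)) * (128 * x ^ (s - 2 * m)) := by ring
          _ ≤ _ := by gcongr
      · subst h
        rw [sub_self, if_pos rfl]
        have := RR_zero_abs h0 h3 (s - 2 * m) (r - 2 * m)
        have : 0 < x ^ (s / 2 + 1 - 1 - m) := by positivity
        gcongr; linarith
      · rw [RR_neg _ (by omega), abs_zero, mul_zero, if_neg h.ne']; positivity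
    rw [KK, abs_mul, abs_mul, abs_mul, abs_pow, abs_neg, abs_one, one_pow, one_mul, abs_of_pos hw]
    calc _ ≤ b * x ^ m * (ww x (r - s) * |RR x (s - 2 * m) (n - m) (r - 2 * m)|) := by
          gcongr; exact hc m (by omega)
      _ = b * ww x (r - s) * (x ^ m * |RR x (s - 2 * m) (n - m) (r - 2 * m)|) := by ring
      _ ≤ b * ww x (r - s) * (x ^ n * ((if m = n then 4 else 0) +
          128 * x ^ (s / 2 + 1 - 1 - m))) := by gcongr
      _ = _ := by ring
  refine (abs_sum_le_sum_abs _ _).trans ((sum_le_sum key).trans ?_)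
  rw [← mul_sum, sum_add_distrib, ← mul_sum, sum_range_reflect (fun j => x ^ j), sum_ite_eq']
  have h4 := geo_le h0 h3 (s / 2 + 1)
  have h5 : (if n ∈ range (s / 2 + 1) then (4 : ℝ) else 0) ≤ 4 := by split_ifs <;> norm_num
  calc _ ≤ b * ww x (r - s) * x ^ n * (4 + 128 * 2) := by gcongr
    _ = _ := by ring

end three

end Pool.Agent.Lib.MP_147f4d_co.Dense
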