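import Pool.Agent.Lib.MP_147f4d_co.NestMat

/-! Existence of the signed inverse `Z`-polynomials and the sign of their constant terms. -/

set_option autoImplicit false

namespace Pool.Agent.Lib.MP_147f4d_co

open Polynomial Finset Split

section poset
variable {L : Type} [PartialOrder L] [Fintype L] [DecidableEq L] [DecidableLE L]

open Classical in
/-- the solution of the palindromic recursion -/
noncomputable def sol (rk : L → ℕ) : L → ℚ[X] :=
  (wellFounded_lt (α := L)).fix fun G Y => if rk G = 0 then 1 else
    pal (rk G) (-∑ H ∈ (univ.filter fun H => H ≤ G ∧ H ≠ G).attach,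
      Y H.1 (lt_of_le_of_ne (mem_filter.1 H.2).2.1 (mem_filter.1 H.2).2.2))

lemma sol_eq (rk : L → ℕ) (G : L) : sol rk G = if rk G = 0 then 1 else
    pal (rk G) (-∑ H ∈ univ.filter fun H => H ≤ G ∧ H ≠ G, sol rk H) := by
  rw [sol, WellFounded.fix_eq, ← sum_attach (univ.filter fun H => H ≤ G ∧ H ≠ G)]

theorem exists_cand [LocallyFiniteOrder L] {rk : L → ℕ} (h1 : Monotone rk)
    (h2 : ∀ G, rk G = 0 → ∀ F, F ≤ G → F = G) : ∃ Y, Cand rk Y := by
  refine ⟨sol rk, h1, h2, fun G h => by rw [sol_eq, if_pos h], fun G => ?_, fun G h i hi => ?_⟩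
  · rw [sol_eq]
    split_ifs with h
    · rw [h]; exact sym_one
    · exact sym_pal _ _
  · rw [coeff_cc, sum_le_split, coeff_add, sol_eq, if_neg h.ne', coeff_pal_low _ hi, coeff_neg,
      neg_add_cancel]

end poset

variable {α : Type} [Finite α] {M : Matroid α} {Y : Flat M → ℚ[X]}

theorem exists_cand_flat (M : Matroid α) : ∃ Y, Cand (flatRank M) Y :=
  exists_cand (flatRank_mono M) (flat_min M)

lemma rank_lt {F G : Flat M} (h : F < G) : flatRank M F < flatRank M G := by
  by_contra h0
  have h1 := (M.isRkFinite_set F.1).closure_eq_closure_of_subset_of_eRk_ge_eRk (Y := G.1) h.le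
    (by rw [← cast_rank F, ← cast_rank G]; exact_mod_cast not_lt.1 h0)
  rw [F.2.closure, G.2.closure] at h1
  exact h.ne (Subtype.ext h1)

/-- the join with an element -/
def jn (e : α) (H : Flat M) : Flat M := ⟨M.closure (insert e H.1), M.isFlat_closure _⟩

omit [Finite α] in
lemma le_jn (e : α) (H : Flat M) : H ≤ jn e H := fun _ hx =>
  M.mem_closure_of_mem' (Set.mem_insert_of_mem e hx) (H.2.subset_ground hx)

omit [Finite α] in
lemma jn_le {e : α} {H G : Flat M} (he : e ∈ G.1) (h : H ≤ G) : jn e H ≤ G := by
  change M.closure _ ⊆ G.1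
  rw [← G.2.closure]
  exact M.closure_subset_closure (Set.insert_subset he h)

lemma Cand.weisner (c : Cand (flatRank M) Y) {e : α} (he : M.IsNonloop e) (K : Flat M) :
    ∑ H ∈ univ.filter (fun H => jn e H = K), (Y H).coeff 0 = 0 := by
  induction K using (wellFounded_lt (α := Flat M)).induction with
  | _ K ih =>
    by_cases hK : e ∈ K.1
    · have h0 : 0 < flatRank M K := by
        have h1 := M.eRk_mono (Set.singleton_subset_iff.2 hK)
        rw [he.eRk_eq, ← cast_rank K] at h1
        exact_mod_cast h1
      have h1 := c.high K h0 0 (by omega)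
      rw [coeff_cc, finsetSum_coeff, ← sum_fiberwise_of_maps_to (g := jn e)
        (t := univ.filter fun H => H ≤ K) (fun H hH => by
          simpa using jn_le hK (mem_filter.1 hH).2), sum_le_split] at h1
      have e1 : ∀ K' ≤ K, (univ.filter fun H => H ≤ K).filter (fun H => jn e H = K') =
          univ.filter fun H => jn e H = K' := fun K' h => by
        ext H
        simp only [mem_filter, mem_univ, true_and, and_iff_right_iff_imp]
        exact fun h2 => ((le_jn e H).trans h2.le).trans h
      rw [e1 K le_rfl, sum_eq_zero (s := univ.filter fun H => H ≤ K ∧ H ≠ K), add_zero] at h1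
      · exact h1
      · intro K' hK'
        have h2 := (mem_filter.1 hK').2
        rw [e1 K' h2.1, ih K' (lt_of_le_of_ne h2.1 h2.2)]
    · refine sum_eq_zero fun H hH => absurd ?_ hK
      rw [← (mem_filter.1 hH).2]
      exact M.mem_closure_of_mem' (Set.mem_insert _ _) he.mem_ground

/-- The sign of the constant term (Rota). -/
theorem Cand.sign (c : Cand (flatRank M) Y) (G : Flat M) :
    0 < (-1) ^ flatRank M G * (Y G).coeff 0 := by
  induction G using (wellFounded_lt (α := Flat M)).induction with
  | _ G ih =>
    by_cases h0 : flatRank M G = 0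
    · rw [c.one G h0, h0]; simp
    obtain ⟨e, heG, he⟩ : ∃ e ∈ G.1, e ∉ M.loops := by
      by_contra h
      refine h0 ?_
      rw [flatRank, (Matroid.eRk_eq_zero_iff G.2.subset_ground).2 fun e he => by_contra fun k =>
        h ⟨e, he, k⟩]
      rfl
    have hn := (Matroid.isNonloop_iff_notMem_loops (G.2.subset_ground heG)).2 he
    have h1 := c.weisner hn G
    have hG : G ∈ univ.filter fun H => jn e H = G := by
      simpa using le_antisymm (jn_le heG le_rfl) (le_jn e G)
    rw [← add_sum_erase _ _ hG] at h1
    rw [eq_neg_of_add_eq_zero_left h1, mul_neg, mul_sum, ← sum_neg_distrib]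
    refine sum_pos (fun H hH => ?_) ?_
    · have h2 := (mem_filter.1 (mem_erase.1 hH).2).2
      have h3 : H < G := lt_of_le_of_ne ((le_jn e H).trans h2.le) (mem_erase.1 hH).1
      have h4 := rank_lt h3
      have h5 : flatRank M G ≤ flatRank M H + 1 := by
        have h6 := M.eRk_insert_le_add_one e H.1
        rw [← M.eRk_closure_eq, show M.closure (insert e H.1) = G.1 from congrArg Subtype.val h2,
          ← cast_rank G, ← cast_rank H] at h6
        exact_mod_cast h6
      rw [show flatRank M G = flatRank M H + 1 by omega, pow_succ]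
      linarith [ih H h3]
    · obtain ⟨B, hB, heB⟩ := hn.indep.subset_isBasis_of_subset (Set.singleton_subset_iff.2 heG)
        G.2.subset_ground
      have hB' : e ∈ B := heB rfl
      refine ⟨⟨M.closure (B \ {e}), M.isFlat_closure _⟩, mem_erase.2 ⟨fun h => ?_, ?_⟩⟩
      · exact hB.indep.notMem_closure_sdiff_of_mem hB' (by
          rw [show M.closure (B \ {e}) = G.1 from congrArg Subtype.val h]; exact heG)
      · refine mem_filter.2 ⟨mem_univ _, Subtype.ext ?_⟩
        change M.closure (insert e (M.closure (B \ {e}))) = G.1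
        rw [M.closure_insert_closure_eq_closure_insert, Set.insert_sdiff_singleton,
          Set.insert_eq_of_mem hB', hB.closure_eq_closure, G.2.closure]

end Pool.Agent.Lib.MP_147f4d_co
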