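import Pool.Agent.Lib.MP_147f4d_co.DenseAbs
import Pool.Agent.Lib.MP_147f4d_co.DenseGeo
import Pool.Agent.Lib.MP_147f4d_co.DenseSign

/-! From represented matroids to subspace lattices. -/

set_option autoImplicit false

namespace Pool.Agent.Lib.MP_147f4d_co.Dense

open Finset Polynomial Split Module Submodule

lemma lc_of_concave {a : ℕ → ℚ} {k : ℕ} (hi : ∀ j, k < j → a j = 0)
    (sym : ∀ i j, i + j = k → a i = a j) (h0 : 0 < a 0)
    (h1 : ∀ n, 2 * (n + 1) ≤ k → a n ≤ a (n + 1))
    (h2 : ∀ n, 2 * (n + 2) ≤ k → a (n + 2) - a (n + 1) ≤ a (n + 1) - a n) :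
    (∀ i ≤ k, 0 < a i) ∧ ∀ i, a i * a (i + 2) ≤ a (i + 1) ^ 2 := by
  have low : ∀ i, 2 * i ≤ k → 0 < a i := fun i => by
    induction i with
    | zero => exact fun _ => h0
    | succ i ih => exact fun h => (ih (by omega)).trans_le (h1 i h)
  have pos : ∀ i ≤ k, 0 < a i := fun i h => by
    by_cases e : 2 * i ≤ k
    · exact low i e
    · rw [sym i (k - i) (by omega)]
      exact low _ (by omega)
  refine ⟨pos, fun i => ?_⟩
  by_cases e : k < i + 2
  · rw [hi _ e, mul_zero]
    positivity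
  have c : a i + a (i + 2) ≤ 2 * a (i + 1) := by
    by_cases e1 : 2 * (i + 2) ≤ k
    · linarith [h2 i e1]
    by_cases e2 : k ≤ 2 * i
    · obtain ⟨j, hj⟩ : ∃ j, k = j + (i + 2) := ⟨k - (i + 2), by omega⟩
      linarith [h2 j (by omega), sym i (j + 2) (by omega), sym (i + 1) (j + 1) (by omega),
        sym (i + 2) j (by omega)]
    obtain e3 | e3 | e3 : k = 2 * i + 1 ∨ k = 2 * i + 2 ∨ k = 2 * i + 3 := by omega
    · obtain ⟨j, rfl⟩ : ∃ j, i = j + 1 := ⟨i - 1, by omega⟩
      linarith [h1 j (by omega), sym (j + 1) (j + 1 + 1) (by omega), sym (j + 1 + 2) j (by omega)]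
    · linarith [h1 i (by omega), sym i (i + 2) (by omega)]
    · linarith [h1 i (by omega), sym (i + 1) (i + 2) (by omega)]
  nlinarith [pos i (by omega), pos (i + 2) (by omega), sq_nonneg (a i - a (i + 2))]

variable {F V α : Type} [Field F] [AddCommGroup V] [Module F V] {M : Matroid α} {v : α → V}

/-- the matroid is represented by the vectors -/
def Rp (F : Type) [Field F] [Module F V] (M : Matroid α) (v : α → V) : Prop :=
  ∀ I, M.Indep I ↔ I ⊆ M.E ∧ LinearIndepOn F v I

lemma Rp.cl0 (h : Rp F M v) {I : Set α} (hI : M.Indep I) (e : α) :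
    e ∈ M.closure I ↔ e ∈ M.E ∧ v e ∈ span F (v '' I) := by
  rw [hI.mem_closure_iff', ((h I).1 hI).2.mem_span_iff, h, and_congr_right_iff]
  exact fun he => by simp [Set.insert_subset_iff, he, hI.subset_ground]

lemma Rp.bas (h : Rp F M v) {I X : Set α} (hI : M.IsBasis I X) :
    span F (v '' I) = span F (v '' X) := by
  refine le_antisymm (span_mono (Set.image_mono hI.subset)) (span_le.2 ?_)
  rintro _ ⟨e, he, rfl⟩
  exact ((h.cl0 hI.indep e).1 (hI.subset_closure he)).2

lemma Rp.cl (h : Rp F M v) {X : Set α} (hX : X ⊆ M.E) (e : α) :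
    e ∈ M.closure X ↔ e ∈ M.E ∧ v e ∈ span F (v '' X) := by
  obtain ⟨I, hI⟩ := M.exists_isBasis X hX
  rw [← hI.closure_eq_closure, h.cl0 hI.indep, h.bas hI]

/-- the span of a flat -/
def sp (F : Type) [Field F] [Module F V] (v : α → V) (G : Flat M) : Submodule F V :=
  span F (v '' G.1)

/-- spans of sets of elements -/
def good (F : Type) [Field F] [Module F V] (M : Matroid α) (v : α → V) (U : Submodule F V) : Prop :=
  ∃ X ⊆ M.E, span F (v '' X) = U

lemma Rp.le (h : Rp F M v) {G H : Flat M} : sp F v G ≤ sp F v H ↔ G ≤ H := by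
  refine ⟨fun k e he => ?_, fun k => span_mono (Set.image_mono k)⟩
  rw [← H.2.closure, h.cl H.2.subset_ground]
  exact ⟨G.2.subset_ground he, k (subset_span ⟨e, he, rfl⟩)⟩

lemma Rp.inj (h : Rp F M v) : Function.Injective (sp F v : Flat M → _) := fun _ _ k =>
  le_antisymm (h.le.1 k.le) (h.le.1 k.ge)

lemma good_sp (G : Flat M) : good F M v (sp F v G) := ⟨_, G.2.subset_ground, rfl⟩

lemma Rp.ex (h : Rp F M v) {U : Submodule F V} (hU : good F M v U) : ∃ G : Flat M, sp F v G = U := by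
  obtain ⟨X, hX, rfl⟩ := hU
  refine ⟨⟨M.closure X, M.isFlat_closure X⟩, le_antisymm (span_le.2 ?_)
    (span_mono (Set.image_mono (M.subset_closure X hX)))⟩
  rintro _ ⟨e, he, rfl⟩
  exact ((h.cl hX e).1 he).2

variable [Finite α] {Y : Flat M → ℚ[X]}

lemma Rp.rank (h : Rp F M v) (G : Flat M) : finrank F (sp F v G) = flatRank M G := by
  obtain ⟨I, hI⟩ := M.exists_isBasis G.1 G.2.subset_ground
  have := Fintype.ofFinite I
  rw [sp, ← h.bas hI, Set.image_eq_range, finrank_span_eq_card ((h I).1 hI.indep).2, flatRank,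
    hI.eRk_eq_encard, Set.encard_eq_coe_toFinset_card, Set.toFinset_card, ENat.toNat_natCast]

/-- coefficients with integer index -/
noncomputable def yz (p : ℚ[X]) (n : ℤ) : ℝ := if n < 0 then 0 else (p.coeff n.toNat : ℚ)

lemma yz_nat (p : ℚ[X]) (n : ℕ) : yz p n = (p.coeff n : ℚ) := by
  rw [yz, if_neg (by omega), Int.toNat_natCast]

lemma yz_sym {r : ℕ} {p : ℚ[X]} (h : Sym r p) {m n : ℤ} (e : m + n = r) : yz p m = yz p n := by
  unfold yz
  split_ifs with h1 h2 h2
  · rfl
  · rw [h.hi _ (by omega), Rat.cast_zero]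
  · rw [h.hi _ (by omega), Rat.cast_zero]
  · rw [h.sym m.toNat n.toNat (by omega)]

open Classical in
/-- first differences -/
noncomputable def ff (F : Type) [Field F] [Module F V] (v : α → V) (Y : Flat M → ℚ[X])
    (W : Submodule F V) (n : ℤ) : ℝ :=
  ∑ G ∈ univ.filter fun G => sp F v G = W, (yz (Y G) n - yz (Y G) (n - 1))

lemma Rp.ff_sp (h : Rp F M v) (G : Flat M) (n : ℤ) :
    ff F v Y (sp F v G) n = yz (Y G) n - yz (Y G) (n - 1) := by
  simp only [ff, h.inj.eq_iff, filter_eq', mem_univ, if_true, sum_singleton]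

theorem Rp.dat [Fintype (Submodule F V)] (h : Rp F M v) (c : Cand (flatRank M) Y) :
    Dat (fun U : Submodule F V => finrank F U) (good F M v) (ff F v Y) := by
  classical
  have hb : good F M v ⊥ := ⟨∅, Set.empty_subset _, by simp⟩
  have z : ∀ W, ¬ good F M v W → ∀ n, ff F v Y W n = 0 := fun W hW n =>
    sum_eq_zero fun G hG => absurd ((mem_filter.1 hG).2 ▸ good_sp G) hW
  refine ⟨hb, fun n => ?_, z, fun W n hn => sum_eq_zero fun G _ => ?_, fun W n => ?_,
    fun W hW h0 n hn => ?_, fun W => ?_⟩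
  · obtain ⟨G, hG⟩ := h.ex hb
    rw [← hG, h.ff_sp, c.one G (by rw [← h.rank, hG, finrank_bot])]
    simp only [yz, coeff_one]
    split_ifs <;> first | omega | simp
  · rw [yz, yz, if_pos hn, if_pos (by omega), sub_zero]
  · by_cases hW : good F M v W
    · obtain ⟨G, rfl⟩ := h.ex hW
      simp only [h.ff_sp, h.rank]
      rw [yz_sym (c.sym G) (n := n - 1) (by ring), yz_sym (c.sym G) (m := _ - _ - 1) (n := n)
        (by ring), neg_sub]
    · rw [z W hW, z W hW, neg_zero]
  · obtain ⟨G, rfl⟩ := h.ex hW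
    simp only [h.rank] at hn
    have h1 : 0 < flatRank M G := by
      rw [← h.rank]
      by_contra k
      exact h0 (by
        have : Module.Finite F (sp F v G) := Module.Finite.span_of_finite F (Set.toFinite _)
        exact finrank_eq_zero.1 (by omega))
    have h2 : ∀ m : ℤ, 2 * m ≤ flatRank M G →
        ∑ H ∈ univ.filter (fun H => H ≤ G), yz (Y H) m = 0 := fun m hm => by
      by_cases e : m < 0
      · simp [yz, e]
      · have := c.high G h1 m.toNat (by omega)
        rw [coeff_cc, finsetSum_coeff] at this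
        simp only [yz, if_neg e]
        exact_mod_cast this
    have h3 := sum_fiberwise_of_maps_to (s := univ.filter fun H => H ≤ G)
      (t := univ.filter fun U => U ≤ sp F v G) (g := sp F v)
      (fun H hH => by simpa using h.le.2 (mem_filter.1 hH).2)
      fun H => yz (Y H) n - yz (Y H) (n - 1)
    rw [sum_sub_distrib (s := univ.filter fun H => H ≤ G), h2 n hn, h2 _ (by omega), sub_zero] at h3
    rw [← h3]
    refine sum_congr (by congr) fun U hU => sum_congr ?_ fun _ _ => rfl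
    ext H
    simp only [mem_filter, mem_univ, true_and, iff_and_self]
    exact fun k => h.le.1 (k ▸ (mem_filter.1 hU).2)
  · refine ⟨span F (v '' {e ∈ M.E | v e ∈ W}), ⟨_, Set.sep_subset _ _, rfl⟩, span_le.2 ?_, ?_⟩
    · rintro _ ⟨e, he, rfl⟩
      exact he.2
    · rintro _ ⟨X, hX, rfl⟩ k
      exact span_mono (Set.image_mono fun e he => ⟨hX he, k (subset_span ⟨e, he, rfl⟩)⟩)

open Classical in
lemma Rp.count [Fintype (Submodule F V)] (h : Rp F M v) (j : ℕ) :
    Nat.card {G : Flat M // flatRank M G = j} = #(univ.filter fun H : Submodule F V =>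
      H ≤ sp F v (tp M) ∧ good F M v H ∧ finrank F H = j) := by
  rw [Nat.card_eq_fintype_card, Fintype.card_subtype, ← card_image_of_injective _ h.inj]
  congr 1
  ext H
  simp only [mem_image, mem_filter, mem_univ, true_and]
  constructor
  · rintro ⟨G, h1, rfl⟩
    exact ⟨h.le.2 (le_tp G), good_sp G, by rw [h.rank, h1]⟩
  · rintro ⟨-, h1, h2⟩
    obtain ⟨G, rfl⟩ := h.ex h1
    exact ⟨G, by rw [← h.rank, h2], rfl⟩

omit [Finite α] in
open Classical in
lemma pairs [Fintype F] [Fintype V] [Fintype (Submodule F V)] (W : Submodule F V) {N1 N2 : ℕ}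
    (h1 : N1 = #(univ.filter fun H : Submodule F V => H ≤ W ∧ good F M v H ∧ finrank F H = 1))
    (h2 : N2 = #(univ.filter fun H : Submodule F V => H ≤ W ∧ good F M v H ∧ finrank F H = 2)) :
    N1 ^ 2 ≤ N1 + N2 * (Fintype.card F + 1) ^ 2 := by
  have hq : (1 : ℝ) < (Fintype.card F : ℝ) := by exact_mod_cast Fintype.one_lt_card
  have pt : ∀ L : Submodule F V, finrank F L = 2 → #(univ.filter fun H : Submodule F V =>
      H ≤ L ∧ finrank F H = 1) = Fintype.card F + 1 := fun L hL => by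
    have e := (geo_sub (F := F) (V := V)).cnt ⊥ L 1 1 bot_le (by simp [hL])
    have h0 : (1 / (Fintype.card F : ℝ)) ≠ 0 := by positivity
    have w0 : ww (1 / (Fintype.card F : ℝ)) 0 = 1 := by simp [ww, tri, hh]
    simp only [bot_le, true_and, finrank_bot, zero_add] at e
    rw [ww_step h0 1, ww_step h0 0, w0, one_div_one_div] at e
    have e2 : (#(univ.filter fun H : Submodule F V => H ≤ L ∧ finrank F H = 1) : ℝ) =
        Fintype.card F + 1 := by
      refine mul_right_cancel₀ (b := (1 / (Fintype.card F : ℝ) * (Fintype.card F - 1)) ^ 2)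
        (pow_ne_zero _ (mul_ne_zero h0 (by linarith))) ?_
      linear_combination e
    exact_mod_cast e2
  set A := univ.filter fun H : Submodule F V => H ≤ W ∧ good F M v H ∧ finrank F H = 1 with hA
  have key := card_le_mul_card_image_of_maps_to (s := A.offDiag) (f := fun p => p.1 ⊔ p.2)
    (t := univ.filter fun H : Submodule F V => H ≤ W ∧ good F M v H ∧ finrank F H = 2)
    (fun p hp => by
      obtain ⟨a, b, ab⟩ := mem_offDiag.1 hp
      obtain ⟨a1, ⟨X, hX, a2⟩, a3⟩ := (mem_filter.1 a).2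
      obtain ⟨b1, ⟨Z, hZ, b2⟩, b3⟩ := (mem_filter.1 b).2
      refine mem_filter.2 ⟨mem_univ _, sup_le a1 b1, ⟨X ∪ Z, Set.union_subset hX hZ, by
        rw [Set.image_union, span_union, a2, b2]⟩, ?_⟩
      have e1 := finrank_add_le_finrank_add_finrank p.1 p.2
      have e2 := finrank_lt_finrank_of_lt (left_lt_sup.2 fun k : p.2 ≤ p.1 =>
        ab (eq_of_le_of_finrank_eq k (by rw [a3, b3])).symm)
      omega)
    ((Fintype.card F + 1) ^ 2) fun L hL => by
      rw [← pt L (mem_filter.1 hL).2.2.2, sq, ← card_product]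
      refine card_le_card fun p hp => ?_
      obtain ⟨k1, k2⟩ := mem_filter.1 hp
      obtain ⟨a, b, -⟩ := mem_offDiag.1 k1
      simp only [mem_product, mem_filter, mem_univ, true_and, ← k2, le_sup_left, le_sup_right]
      exact ⟨(mem_filter.1 a).2.2.2, (mem_filter.1 b).2.2.2⟩
  rw [offDiag_card, ← h1, ← h2, ← sq, mul_comm] at key
  omega

theorem dense_main : ∃ C : ℕ, ∀ (F : Type) [Field F] [Fintype F] (d : ℕ) (α : Type) [Finite α]
    (M : Matroid α) (v : α → Fin d → F) (k : ℕ),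
    (∀ I, M.Indep I ↔ I ⊆ M.E ∧ LinearIndepOn F v I) → M.eRank = k → 3 ≤ k →
    (min ((C : ℝ) * Fintype.card F ^ (k - 2))
        ((1 - 1 / C) * ((Fintype.card F ^ k - 1) / (Fintype.card F - 1))) ≤
        Nat.card {G : Flat M // flatRank M G = 1} ∨
      (C : ℝ) * Fintype.card F ^ (2 * k - 6) ≤ Nat.card {G : Flat M // flatRank M G = 2}) →
    (∃! Q, IsInvKL (flatRank M) Q) ∧ ∀ Q, IsInvKL (flatRank M) Q →
      (invZ (flatRank M) Q ⟨M.E, M.ground_isFlat⟩).natDegree = k ∧
      (∀ i ≤ k, 0 < (invZ (flatRank M) Q ⟨M.E, M.ground_isFlat⟩).coeff i) ∧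
      ∀ i, (invZ (flatRank M) Q ⟨M.E, M.ground_isFlat⟩).coeff i *
          (invZ (flatRank M) Q ⟨M.E, M.ground_isFlat⟩).coeff (i + 2) ≤
        (invZ (flatRank M) Q ⟨M.E, M.ground_isFlat⟩).coeff (i + 1) ^ 2 := by
  classical
  obtain ⟨C, hC⟩ := main_abs
  refine ⟨C, fun F _ _ d α _ M v k (h : Rp F M v) hk h3 hN => ?_⟩
  have : Fintype (Submodule F (Fin d → F)) :=
    @Fintype.ofFinite _ (Finite.of_injective _ SetLike.coe_injective)
  obtain ⟨Y, c⟩ := exists_cand_flat M
  have hr : flatRank M (tp M) = k := by rw [flatRank, Matroid.eRk_ground, hk, ENat.toNat_natCast]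
  have hq : (2 : ℝ) ≤ (Fintype.card F : ℝ) := by exact_mod_cast Fintype.one_lt_card
  have key : ∀ a m : ℕ, (C : ℝ) * Fintype.card F ^ m ≤ a →
      (C : ℝ) ≤ a * (1 / Fintype.card F) ^ m := fun a m e => by
    rwa [one_div_pow, mul_one_div, le_div_iff₀ (by positivity)]
  have key2 : ∀ a c : ℝ, c * ((Fintype.card F ^ k - 1) / (Fintype.card F - 1)) ≤ a →
      c * (1 - (1 / Fintype.card F) ^ k) ≤
        a * ((1 - 1 / Fintype.card F) * (1 / Fintype.card F) ^ (k - 1)) := fun a c e => by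
    obtain ⟨l, rfl⟩ : ∃ l, k = l + 1 := ⟨k - 1, by omega⟩
    generalize (Fintype.card F : ℝ) = q at *
    have p1 : 0 < q - 1 := by linarith
    have p2 : 0 < q := by linarith
    calc _ = c * ((q ^ (l + 1) - 1) / (q - 1)) * ((q - 1) / q ^ (l + 1)) := by
          rw [one_div_pow]; field_simp
      _ ≤ a * ((q - 1) / q ^ (l + 1)) := by gcongr
      _ = _ := by rw [one_div_pow, Nat.add_sub_cancel]; field_simp; ring
  obtain ⟨h1, h2⟩ := hC _ _ _ _ _ (by positivity) (one_div_le_one_div_of_le two_pos hq) geo_sub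
    (h.dat c) (sp F v (tp M)) k _ _ (good_sp _) (by rw [h.rank, hr]) h3 (h.count 1) (h.count 2)
    (by rw [one_div_one_div]; exact_mod_cast pairs _ (h.count 1) (h.count 2))
    (hN.elim (fun e => (min_le_iff.1 e).imp (key _ _) fun e => Or.inr (key2 _ _ e))
      fun e => Or.inr (Or.inl (key _ _ e)))
  have e : ∀ n : ℕ, (-1) ^ k * ff F v Y (sp F v (tp M)) (n + 1) =
      (((-1) ^ k * (Y (tp M)).coeff (n + 1) - (-1) ^ k * (Y (tp M)).coeff n : ℚ) : ℝ) := fun n => by
    rw [h.ff_sp, add_sub_cancel_right, yz_nat, ← Nat.cast_succ, yz_nat]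
    push_cast
    ring
  have s := hr ▸ c.sym (tp M)
  obtain ⟨p1, p2⟩ := lc_of_concave (a := fun i => (-1) ^ k * (Y (tp M)).coeff i) (k := k)
    (fun j hj => by rw [s.hi j hj, mul_zero]) (fun i j e => by rw [s.sym i j e])
    (hr ▸ c.sign (tp M))
    (fun n hn => by
      have := h1 (n + 1) (by omega) hn
      rw [Nat.cast_succ, e] at this
      exact sub_nonneg.1 (by exact_mod_cast this))
    (fun n hn => by
      have := h2 (n + 1) (by omega) hn
      rw [e, Nat.cast_succ, e] at this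
      exact_mod_cast this)
  refine (Good.main ⟨Y, Polynomial.C ((-1) ^ k) * Y (tp M), c, hr, ?_, ?_, ?_⟩).2
  · rw [← mul_assoc, ← C_mul, sgn_sq, C_1, one_mul]
  · simpa only [coeff_C_mul] using p1
  · simpa only [coeff_C_mul] using p2

end Pool.Agent.Lib.MP_147f4d_co.Dense
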