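import Pool.Agent.Lib.MP_147f4d_co.DenseEst

namespace Pool.Agent.Lib.MP_147f4d_co.Dense

open Finset Classical

variable {P : Type} [Fintype P] [PartialOrder P] [OrderBot P] {x : ℝ} {rk : P → ℕ}
  {good : P → Prop} {f : P → ℤ → ℝ}

/-- the number of points below `U` that are not good -/
noncomputable def nb (rk : P → ℕ) (good : P → Prop) (U : P) : ℕ :=
  #(univ.filter fun H => H ≤ U ∧ ¬ good H ∧ rk H = 1)

variable (h0 : 0 < x) (h3 : x ≤ 1 / 2) (g : Geo x rk) (d : Dat rk good f)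
include h0 h3 g

lemma pts {U : P} {a : ℕ} (h : rk U = a + 1) :
    (#(univ.filter fun H => H ≤ U ∧ rk H = 1) : ℝ) * (ww x 1 * x ^ a) = 1 - x ^ (a + 1) := by
  have hx : x < 1 := by linarith
  have z1 := g.cnt ⊥ U 1 a bot_le (by rw [h, g.bot]; omega)
  simp only [bot_le, true_and, g.bot, zero_add, add_comm 1 a] at z1
  refine mul_left_cancel₀ (ww_pos h0 hx a).ne' ?_
  rw [← ww_succ h0 hx a, ← z1]; ring

omit h0 h3 g [OrderBot P] in
lemma pts_split (U : P) : #(univ.filter fun H => H ≤ U ∧ rk H = 1) =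
    #(univ.filter fun H => H ≤ U ∧ good H ∧ rk H = 1) + nb rk good U := by
  rw [← card_filter_add_card_filter_not (s := univ.filter fun H => H ≤ U ∧ rk H = 1) good, nb,
    filter_filter, filter_filter]
  congr 2 <;> ext H <;> simp only [mem_filter, mem_univ, true_and] <;> tauto

include d

lemma nb_low {U : P} (hU : ¬ good U) :
    ww x (rk U) ≤ 2 * nb rk good U * (ww x 1 * ww x (rk U - 1)) := by
  have hx : x < 1 := by linarith
  obtain ⟨F, a1, a2, a3⟩ := d.int U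
  have a4 := g.lt _ _ (lt_of_le_of_ne a2 fun h => hU (h ▸ a1))
  obtain ⟨a, ha⟩ : ∃ a, rk U = a + 1 := ⟨rk U - 1, by omega⟩
  have w1 := ww_pos h0 hx 1
  have z1 := pts h0 h3 g ha
  have z2 : (#(univ.filter fun H => H ≤ U ∧ good H ∧ rk H = 1) : ℝ) ≤
      #(univ.filter fun H => H ≤ F ∧ rk H = 1) := by
    rw [Nat.cast_le]
    refine card_le_card fun H hH => ?_
    obtain ⟨-, p1, p2, p3⟩ := mem_filter.1 hH
    exact mem_filter.2 ⟨mem_univ _, a3 H p2 p1, p3⟩
  have d1 := den_pos h0 hx a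
  have z3 : (#(univ.filter fun H => H ≤ F ∧ rk H = 1) : ℝ) * (ww x 1 * x ^ a) ≤
      (1 - x ^ (a + 1)) / 2 := by
    by_cases h : rk F = 0
    · rw [filter_eq_empty_iff.2 fun H _ hH => by have := g.mono hH.1; omega]
      simp only [card_empty, Nat.cast_zero, zero_mul]; linarith
    obtain ⟨b, hb⟩ : ∃ b, rk F = b + 1 := ⟨rk F - 1, by omega⟩
    have p1 := pts h0 h3 g hb
    have p2 : x ^ a ≤ x ^ (b + 1) := pow_le_pow_of_le_one h0.le hx.le (by omega)
    have p3 : x ^ (a + 1) ≤ x ^ (b + 1) := pow_le_pow_of_le_one h0.le hx.le (by omega)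
    have d2 := den_pos h0 hx b
    calc _ ≤ (#(univ.filter fun H => H ≤ F ∧ rk H = 1) : ℝ) * (ww x 1 * x ^ (b + 1)) := by gcongr
      _ = (1 - x ^ (b + 1)) * x := by rw [← p1]; ring
      _ ≤ (1 - x ^ (a + 1)) * (1 / 2) := by gcongr
      _ = _ := by ring
  rw [pts_split (good := good), Nat.cast_add, add_mul] at z1
  have z4 : 1 - x ^ (a + 1) ≤ 2 * nb rk good U * (ww x 1 * x ^ a) := by
    have := mul_le_mul_of_nonneg_right z2 (show 0 ≤ ww x 1 * x ^ a by positivity)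
    linarith
  have wa := ww_pos h0 hx a
  rw [ha, Nat.add_sub_cancel]
  refine le_of_mul_le_mul_right ?_ (pow_pos h0 a)
  calc _ = ww x a * (1 - x ^ (a + 1)) := ww_succ h0 hx a
    _ ≤ ww x a * (2 * nb rk good U * (ww x 1 * x ^ a)) := by gcongr
    _ = _ := by ring

lemma near (W : P) {l n : ℕ} (hk : rk W = l + 1) (hn : 2 * n ≤ l + 1) :
    |tt f W n - KK x 0 0 (l + 1) n| ≤
      266240 * TB * x ^ n * (nb rk good W * (ww x 1 * ww x l)) := by
  have hx : x < 1 := by linarith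
  have hW : W ≠ ⊥ := fun h => by rw [h, g.bot] at hk; omega
  have hmem : ⊥ ∈ univ.filter (fun H => H < W) := mem_filter.2 ⟨mem_univ _, bot_lt_iff_ne_bot.2 hW⟩
  have hB := one_le_TB
  have w1 := ww_pos h0 hx 1
  set φ : ℕ → ℝ := fun s => 66560 * TB * x ^ n * ww x 1 * (3 / 4) ^ (s - 1) *
    (ww x (s - 1) * ww x (l + 1 - s)) with hφ
  have pφ : ∀ s, 0 ≤ φ s := fun s => by
    have := ww_pos h0 hx (s - 1)
    have := ww_pos h0 hx (l + 1 - s)
    positivity
  have e1 : KK x 0 0 (l + 1) n = kap x rk good f ⊥ (l + 1) n := by simp [kap, cf, g.bot]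
  have key : ∀ U ∈ (univ.filter (fun H => H < W)).erase ⊥, |kap x rk good f U (l + 1) n| ≤
      ∑ A ∈ univ.filter (fun H => H ≤ U ∧ ¬ good H ∧ rk H = 1), φ (rk U) := by
    intro U hU
    rw [sum_const, nsmul_eq_mul]
    by_cases hg : good U
    · rw [show kap x rk good f U (l + 1) n = 0 from
        sum_eq_zero fun m _ => by simp [cf, (mem_erase.1 hU).1, hg], abs_zero]
      have := pφ (rk U)
      positivity
    have p1 := nb_low h0 h3 g d hg
    have p2 := ww_pos h0 hx (l + 1 - rk U)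
    have p3 := ww_pos h0 hx (rk U)
    have p4 := TT_le (rk U)
    have p5 := TT_pos (rk U)
    have p6 : (3 / 4 : ℝ) ^ rk U ≤ (3 / 4) ^ (rk U - 1) :=
      pow_le_pow_of_le_one (by norm_num) (by norm_num) (by omega)
    refine (kap_bd h0 h3 g d (fun H _ => tt_bd h0 h3 g d H) hn).trans ?_
    calc _ ≤ 260 * (128 * (3 / 4) ^ (rk U - 1) * TB) * x ^ n *
          (2 * nb rk good U * (ww x 1 * ww x (rk U - 1)) * ww x (l + 1 - rk U)) := by gcongr
      _ = _ := by rw [hφ, nb]; ring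
  rw [tt_eq h0 hx g d W (by omega), hk, ← add_sum_erase _ _ hmem, e1, add_sub_cancel_left]
  refine (abs_sum_le_sum_abs _ _).trans ((sum_le_sum key).trans ?_)
  refine (sum_le_sum_of_subset_of_nonneg (t := univ.filter (fun H => H ≤ W)) (fun U hU => ?_)
    fun U _ _ => sum_nonneg fun _ _ => pφ _).trans ?_
  · exact mem_filter.2 ⟨mem_univ _, (mem_filter.1 (mem_erase.1 hU).2).2.le⟩
  rw [sum_comm' (t' := univ.filter (fun H => H ≤ W ∧ ¬ good H ∧ rk H = 1))
    (s' := fun A => univ.filter (fun U => A ≤ U ∧ U ≤ W)) (fun U A => by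
      simp only [mem_filter, mem_univ, true_and]
      exact ⟨fun h => ⟨⟨h.2.1, h.1⟩, h.2.1.trans h.1, h.2.2⟩, fun h => ⟨h.1.2, h.1.1, h.2.2⟩⟩)]
  have wl := ww_pos h0 hx l
  refine (sum_le_sum (g := fun _ => 266240 * TB * x ^ n * (ww x 1 * ww x l)) fun A hA => ?_).trans
    (le_of_eq (by rw [sum_const, nsmul_eq_mul, nb]; ring))
  obtain ⟨-, q1, -, q2⟩ := mem_filter.1 hA
  rw [sum_rank h0 hx g q1 (N := l) (by omega) φ, q2, sum_congr rfl
    (g := fun j => 66560 * TB * x ^ n * (ww x 1 * ww x l) * (3 / 4) ^ j) fun j _ => by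
      have := (ww_pos h0 hx j).ne'
      have := (ww_pos h0 hx (l - j)).ne'
      simp only [hφ, show 1 + j - 1 = j by omega, show l + 1 - (1 + j) = l - j by omega]
      field_simp, ← mul_sum]
  calc _ ≤ 66560 * TB * x ^ n * (ww x 1 * ww x l) * 4 := by gcongr; exact geo34 _
    _ = _ := by ring

lemma near_main (W : P) (hW : good W) {l : ℕ} (hk : rk W = l + 1) {C : ℝ} (hC : 4 * 10 ^ 6 * TB ≤ C)
    (hN : (1 - 1 / C) * (1 - x ^ (l + 1)) ≤
      (#(univ.filter fun H => H ≤ W ∧ good H ∧ rk H = 1) : ℝ) * ((1 - x) * x ^ l)) :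
    (∀ n : ℕ, 1 ≤ n → 2 * n ≤ l + 1 → 0 ≤ (-1) ^ (l + 1) * f W n) ∧
    ∀ n : ℕ, 1 ≤ n → 2 * (n + 1) ≤ l + 1 →
      (-1) ^ (l + 1) * f W (n + 1) ≤ (-1) ^ (l + 1) * f W n := by
  have hx : x < 1 := by linarith
  have hb : W ≠ ⊥ := fun h => by rw [h, g.bot] at hk; omega
  have hB := one_le_TB
  have hC0 : 0 < C := by linarith
  have wl := ww_pos h0 hx l
  have wk := ww_pos h0 hx (l + 1)
  have e1 : ww x 1 = 1 - x := by simpa [ww_zero] using ww_succ h0 hx 0
  have z1 := pts h0 h3 g hk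
  rw [pts_split (good := good), Nat.cast_add, add_mul] at z1
  rw [← e1] at hN
  have z2 : nb rk good W * (ww x 1 * ww x l) ≤ ww x (l + 1) / C := by
    refine le_of_mul_le_mul_right ?_ (pow_pos h0 l)
    calc _ = ww x l * (nb rk good W * (ww x 1 * x ^ l)) := by ring
      _ ≤ ww x l * (1 / C * (1 - x ^ (l + 1))) := by gcongr _ * ?_; linarith
      _ = _ := by rw [div_mul_eq_mul_div (ww x (l + 1)), ww_succ h0 hx l]; ring
  have key : ∀ n : ℕ, 2 * n ≤ l + 1 →
      |(-1) ^ (l + 1) * f W n - ww x (l + 1) * RR x 0 n (l + 1 : ℕ)| ≤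
        ww x (l + 1) * x ^ n / 12 := by
    intro n hn
    have p1 := near h0 h3 g d W hk hn
    have sq1 : ((-1 : ℝ) ^ (l + 1)) * (-1) ^ (l + 1) = 1 := by rw [← mul_pow]; simp
    have p2 : (-1) ^ (l + 1) * f W n - ww x (l + 1) * RR x 0 n (l + 1 : ℕ) =
        (-1) ^ (l + 1) * (tt f W n - KK x 0 0 (l + 1) n) := by
      rw [d.eq_tt hW hb (by omega), KK]
      simp only [Nat.sub_zero, mul_zero, Nat.cast_zero, sub_zero]
      linear_combination (ww x (l + 1) * RR x 0 n (l + 1 : ℕ)) * sq1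
    rw [p2, abs_mul, abs_pow, abs_neg, abs_one, one_pow, one_mul]
    have p3 : TB / C ≤ 1 / (4 * 10 ^ 6) := by
      rw [div_le_div_iff₀ hC0 (by norm_num)]; linarith
    calc _ ≤ 266240 * TB * x ^ n * (ww x (l + 1) / C) := p1.trans (by gcongr)
      _ = ww x (l + 1) * x ^ n * (266240 * (TB / C)) := by ring
      _ ≤ ww x (l + 1) * x ^ n * (1 / 12) := by gcongr; linarith
      _ = _ := by ring
  have low : ∀ n : ℕ, 2 * n ≤ l + 1 →
      ww x (l + 1) * (x ^ n / 2) ≤ ww x (l + 1) * RR x 0 n (l + 1 : ℕ) := fun n hn => by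
    gcongr; exact (RR_bot h0 h3 n (by omega)).1
  refine ⟨fun n _ hn => ?_, fun n h1 hn => ?_⟩
  · have := mul_pos wk (pow_pos h0 n)
    linarith [(abs_le.1 (key n hn)).1, low n hn]
  · obtain ⟨a, rfl⟩ : ∃ a, n = a + 1 := ⟨n - 1, by omega⟩
    have p0 := mul_pos wk (pow_pos h0 (a + 1))
    have p1 := (abs_le.1 (key (a + 1) (by omega))).1
    have p2 := (abs_le.1 (key (a + 2) (by omega))).2
    have p3 := mul_le_mul_of_nonneg_left (RR_step h0 h3 a (k := (l + 1 : ℕ)) (by omega)) wk.le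
    have p4 := low (a + 1) (by omega)
    have p5 : ww x (l + 1) * x ^ (a + 2) ≤ ww x (l + 1) * x ^ (a + 1) * (1 / 2) := by
      rw [pow_succ x (a + 1), ← mul_assoc]; gcongr
    rw [show ((a + 1 : ℕ) : ℤ) + 1 = (a + 2 : ℕ) by omega]
    linarith

end Pool.Agent.Lib.MP_147f4d_co.Dense
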