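import Pool.Agent.Lib.MP_147f4d_co.DenseKer

namespace Pool.Agent.Lib.MP_147f4d_co.Dense

open Finset Classical

variable {P : Type} [Fintype P] [PartialOrder P] [OrderBot P] {x : ℝ} {rk : P → ℕ}
  {good : P → Prop} {f : P → ℤ → ℝ}

/-- minus the sum over the proper subobjects -/
noncomputable def tt (f : P → ℤ → ℝ) (W : P) (n : ℤ) : ℝ :=
  - ∑ H ∈ univ.filter (fun H => H < W), f H n

/-- the source terms -/
noncomputable def cf (good : P → Prop) (f : P → ℤ → ℝ) (U : P) (m : ℕ) : ℝ :=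
  if U = ⊥ then (if m = 0 then 1 else 0) else if good U then 0 else - tt f U m

/-- the contribution of one source -/
noncomputable def kap (x : ℝ) (rk : P → ℕ) (good : P → Prop) (f : P → ℤ → ℝ) (U : P) (r : ℕ)
    (n : ℤ) : ℝ :=
  ∑ m ∈ range (rk U / 2 + 1), cf good f U m * KK x (rk U) m r n

lemma Geo.mono (g : Geo x rk) {U W : P} (h : U ≤ W) : rk U ≤ rk W := by
  rcases h.eq_or_lt with h | h
  · rw [h]
  · exact (g.lt _ _ h).le

lemma Geo.eq_bot (g : Geo x rk) {U : P} (h : rk U = 0) : U = ⊥ := by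
  by_contra h2
  have := g.lt _ _ (bot_lt_iff_ne_bot.2 h2)
  omega

omit [OrderBot P] in
lemma sum_top (p : P → Prop) (W : P) (hW : p W) (φ : P → ℝ) :
    ∑ H ∈ univ.filter (fun H => p H ∧ H ≤ W), φ H =
      φ W + ∑ H ∈ univ.filter (fun H => p H ∧ H < W), φ H := by
  rw [← sum_insert (by simp)]
  refine sum_congr ?_ fun _ _ => rfl
  ext H
  simp only [mem_filter, mem_univ, true_and, mem_insert]
  constructor
  · rintro ⟨h1, h2⟩
    exact h2.eq_or_lt.imp id fun h => ⟨h1, h⟩
  · rintro (h | h)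
    · subst h; exact ⟨hW, le_rfl⟩
    · exact ⟨h.1, h.2.le⟩

omit [OrderBot P] in
lemma sum_top' (W : P) (φ : P → ℝ) :
    ∑ H ∈ univ.filter (fun H => H ≤ W), φ H = φ W + ∑ H ∈ univ.filter (fun H => H < W), φ H := by
  simpa using sum_top (fun _ => True) W trivial φ

lemma tt_bot (n : ℤ) : tt f ⊥ n = 0 := by simp [tt]

lemma Dat.eq_tt (d : Dat rk good f) {W : P} (h : good W) (h2 : W ≠ ⊥) {n : ℤ}
    (hn : 2 * n ≤ rk W) : f W n = tt f W n := by
  have := d.sum W h h2 n hn
  rw [sum_top'] at this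
  rw [tt]; linarith

lemma Dat.mid (d : Dat rk good f) {W : P} {n : ℤ} (hn : 2 * n = rk W + 1) : f W n = 0 := by
  have := d.anti W n
  rw [show (rk W : ℤ) + 1 - n = n by omega] at this
  linarith

lemma KK_anti (s m r : ℕ) (n : ℤ) : KK x s m r (r + 1 - n) = - KK x s m r n := by
  rw [KK, KK, show (r : ℤ) + 1 - n - m = r - 2 * m + 1 - (n - m) by ring, RR_anti]; ring

lemma KK_diag {r m : ℕ} {n : ℤ} (hm : 2 * m ≤ r) (hn : 2 * n ≤ r) :
    KK x r m r n = if n = m then 1 else 0 := by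
  rw [KK, show (r : ℤ) - 2 * m = (r - 2 * m : ℕ) by omega, RR_diag _ (by omega)]
  simp [ww, tri, hh, sub_eq_zero]

section one
variable (h0 : 0 < x) (h1 : x < 1) (g : Geo x rk)
include h0 h1 g

lemma sum_rank {U W : P} (h : U ≤ W) {N : ℕ} (hN : rk W = rk U + N) (φ : ℕ → ℝ) :
    ∑ H ∈ univ.filter (fun H => U ≤ H ∧ H ≤ W), φ (rk H) =
      ∑ j ∈ range (N + 1), ww x N / (ww x j * ww x (N - j)) * φ (rk U + j) := by
  rw [← sum_fiberwise_of_maps_to (g := fun H => rk H - rk U) (t := range (N + 1))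
    (fun H hH => by
      have := g.mono (mem_filter.1 hH).2.2
      exact mem_range.2 (by omega))]
  refine sum_congr rfl fun j hj => ?_
  have hj2 := mem_range.1 hj
  have e : (univ.filter (fun H => U ≤ H ∧ H ≤ W)).filter (fun H => rk H - rk U = j) =
      univ.filter fun H => U ≤ H ∧ H ≤ W ∧ rk H = rk U + j := by
    ext H
    simp only [mem_filter, mem_univ, true_and]
    constructor
    · rintro ⟨⟨a, b⟩, c⟩
      have := g.mono a
      exact ⟨a, b, by omega⟩
    · rintro ⟨a, b, c⟩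
      exact ⟨⟨a, b⟩, by omega⟩
  have e2 := g.cnt U W j (N - j) h (by omega)
  rw [show j + (N - j) = N by omega] at e2
  have e3 := mul_pos (ww_pos h0 h1 j) (ww_pos h0 h1 (N - j))
  rw [e, sum_congr rfl (g := fun _ => φ (rk U + j)) fun H hH => by rw [(mem_filter.1 hH).2.2.2],
    sum_const, nsmul_eq_mul, ← e2, mul_div_cancel_right₀ _ e3.ne']

lemma ker_sum {U W : P} (h : U < W) {m : ℕ} (hm : 2 * m ≤ rk U) {n : ℤ} (hn : 2 * n ≤ rk W) :
    ∑ H ∈ univ.filter (fun H => U ≤ H ∧ H ≤ W), KK x (rk U) m (rk H) n = 0 := by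
  have h2 := g.lt _ _ h
  obtain ⟨N, hN⟩ : ∃ N, rk W = rk U + N := ⟨rk W - rk U, by omega⟩
  rw [sum_rank h0 h1 g h.le hN (fun r => KK x (rk U) m r n)]
  have h3 := RR_conv h0 h1 (rk U - 2 * m) N (by omega) (n := n - m) (k := rk W - 2 * m)
    (by omega) (by omega)
  rw [← sum_range_reflect] at h3
  have h4 := congrArg (fun t => (-1) ^ N * ww x N * t) h3
  simp only [mul_sum, mul_zero] at h4
  rw [← h4]
  refine sum_congr rfl fun j hj => ?_
  have hj2 := mem_range.1 hj
  obtain ⟨i, rfl⟩ : ∃ i, N = j + i := ⟨N - j, by omega⟩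
  have p1 := (ww_pos h0 h1 j).ne'
  have p2 := (ww_pos h0 h1 i).ne'
  have p3 : ee x i = (-1) ^ i / ww x i := by rw [eq_div_iff p2, ee_eq h0 h1]
  have p4 : ((-1 : ℝ) ^ i) * (-1) ^ i = 1 := by rw [← mul_pow]; simp
  rw [KK, show j + i + 1 - 1 - j = i by omega, show rk U + j - rk U = j by omega,
    show j + i - j = i by omega, p3,
    show ((rk U + j : ℕ) : ℤ) - 2 * m = rk W - 2 * m - i by omega, pow_add]
  field_simp
  rw [sq, p4]; ring

lemma tt_of_rep {W : P}
    (ih : ∀ H, H < W → ∀ n, f H n = ∑ U ∈ univ.filter (fun U => U ≤ H), kap x rk good f U (rk H) n)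
    {n : ℤ} (hn : 2 * n ≤ rk W) :
    tt f W n = ∑ U ∈ univ.filter (fun U => U < W), kap x rk good f U (rk W) n := by
  rw [tt, sum_congr rfl fun H hH => ih H (mem_filter.1 hH).2 n,
    sum_comm' (t' := univ.filter (fun U => U < W))
      (s' := fun U => univ.filter (fun H => U ≤ H ∧ H < W)) (fun H U => by
        simp only [mem_filter, mem_univ, true_and]
        exact ⟨fun h => ⟨⟨h.2, h.1⟩, h.2.trans_lt h.1⟩, fun h => ⟨h.1.2, h.1.1⟩⟩),
    ← sum_neg_distrib]
  refine sum_congr rfl fun U hU => ?_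
  have hU2 := (mem_filter.1 hU).2
  have h2 : ∑ H ∈ univ.filter (fun H => U ≤ H ∧ H ≤ W), kap x rk good f U (rk H) n = 0 := by
    unfold kap
    rw [sum_comm]
    refine sum_eq_zero fun m hm => ?_
    have := mem_range.1 hm
    rw [← mul_sum, ker_sum h0 h1 g hU2 (by omega) hn, mul_zero]
  rw [sum_top (fun H => U ≤ H) W hU2.le] at h2
  linarith

lemma rep (d : Dat rk good f) (H : P) :
    ∀ n, f H n = ∑ U ∈ univ.filter (fun U => U ≤ H), kap x rk good f U (rk H) n := by
  induction H using (wellFounded_lt (α := P)).induction with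
  | _ H ih =>
    have low : ∀ n : ℤ, 2 * n ≤ rk H →
        f H n = ∑ U ∈ univ.filter (fun U => U ≤ H), kap x rk good f U (rk H) n := by
      intro n hn
      rw [sum_top', ← tt_of_rep h0 h1 g ih hn, kap, sum_congr rfl
        (g := fun m : ℕ => cf good f H m * if n = m then 1 else 0) fun m hm => by
          have := mem_range.1 hm
          rw [KK_diag (by omega) hn]]
      by_cases h2 : n < 0
      · rw [d.neg _ _ h2, tt, sum_eq_zero fun m _ => by rw [if_neg (by omega), mul_zero],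
          sum_eq_zero fun U _ => d.neg _ _ h2]
        simp
      obtain ⟨m, rfl⟩ : ∃ m : ℕ, n = m := ⟨n.toNat, by omega⟩
      rw [sum_eq_single m (fun l _ hl => by rw [if_neg (by omega), mul_zero])
        (fun h => absurd (mem_range.2 (by omega)) h), if_pos rfl, mul_one, cf]
      split_ifs with h3 h4 h5
      · rw [h3, h4, d.fbot, tt_bot]; simp
      · rw [h3, g.bot] at hn; omega
      · rw [d.eq_tt h5 h3 hn, zero_add]
      · rw [d.zero _ h5]; ring
    have anti : ∀ n : ℤ,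
        ∑ U ∈ univ.filter (fun U => U ≤ H), kap x rk good f U (rk H) (rk H + 1 - n) =
        - ∑ U ∈ univ.filter (fun U => U ≤ H), kap x rk good f U (rk H) n := by
      intro n
      simp only [kap, KK_anti, mul_neg, sum_neg_distrib]
    intro n
    by_cases h2 : 2 * n ≤ rk H
    · exact low n h2
    have h3 := anti n
    have h4 := d.anti H n
    by_cases h5 : 2 * n = rk H + 1
    · rw [show (rk H : ℤ) + 1 - n = n by omega] at h3 h4
      linarith
    · rw [← low _ (by omega)] at h3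
      linarith

lemma tt_eq (d : Dat rk good f) (W : P) {n : ℤ} (hn : 2 * n ≤ rk W) :
    tt f W n = ∑ U ∈ univ.filter (fun U => U < W), kap x rk good f U (rk W) n :=
  tt_of_rep h0 h1 g (fun H _ => rep h0 h1 g d H) hn

lemma sum_bd (W : P) {φ : P → ℝ} {b : ℕ → ℝ}
    (h : ∀ U, U < W → |φ U| ≤ b (rk U) * (ww x (rk U) * ww x (rk W - rk U))) :
    |∑ U ∈ univ.filter (fun U => U < W), φ U| ≤ ww x (rk W) * ∑ s ∈ range (rk W), b s := by
  have h2 := sum_rank h0 h1 g (bot_le : ⊥ ≤ W) (N := rk W) (by rw [g.bot, zero_add])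
    (fun s => b s * (ww x s * ww x (rk W - s)))
  have p : ∀ j, ww x (rk W) / (ww x j * ww x (rk W - j)) * (b j * (ww x j * ww x (rk W - j))) =
      ww x (rk W) * b j := fun j => by
    have := (ww_pos h0 h1 j).ne'
    have := (ww_pos h0 h1 (rk W - j)).ne'
    field_simp
  simp only [bot_le, true_and, g.bot, zero_add, p] at h2
  rw [sum_top', sum_range_succ, ← mul_sum, Nat.sub_self, show ww x 0 = 1 by simp [ww, tri, hh]] at h2
  refine (abs_sum_le_sum_abs _ _).trans ((sum_le_sum fun U hU => h U (mem_filter.1 hU).2).trans ?_)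
  linarith

end one

end Pool.Agent.Lib.MP_147f4d_co.Dense
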