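import Pool.Agent.Lib.MP_147f4d_co.Poly

namespace Pool.Agent.Lib.MP_147f4d_co

open Finset PowerSeries Finset.HasAntidiagonal

section general
variable {A B : Type} [CommRing A] [Algebra ℚ A] [CommRing B] [Algebra ℚ B]

/-- `E` is the exponential of the series with derivative `a` -/
def IsEx (a E : A⟦X⟧) : Prop := coeff 0 E = 1 ∧ derivative A E = a * E

lemma IsEx.rec' {a E : A⟦X⟧} (h : IsEx a E) (n : ℕ) :
    coeff (n + 1) E = ((1 : ℚ) / (n + 1)) • ∑ p ∈ antidiagonal n, coeff p.1 a * coeff p.2 E := by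
  have h1 := congrArg (coeff n) h.2
  rw [coeff_derivative, coeff_mul] at h1
  rw [← h1]
  have h2 : ((n : A) + 1) = algebraMap ℚ A ((n : ℚ) + 1) := by simp
  have h3 : ((n : ℚ) + 1) ≠ 0 := by positivity
  rw [h2, mul_comm, ← Algebra.smul_def, smul_smul, one_div_mul_cancel h3, one_smul]

lemma IsEx.unique {a E F : A⟦X⟧} (h : IsEx a E) (h' : IsEx a F) : E = F := by
  ext n
  induction n using Nat.strong_induction_on with
  | _ n ih =>
    rcases n with _ | n
    · rw [h.1, h'.1]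
    · rw [h.rec', h'.rec']
      congr 1
      refine sum_congr rfl fun p hp => ?_
      have := mem_antidiagonal.1 hp
      rw [ih p.2 (by omega)]

omit [Algebra ℚ A] in
lemma IsEx.mul {a b E F : A⟦X⟧} (h : IsEx a E) (h' : IsEx b F) : IsEx (a + b) (E * F) := by
  refine ⟨?_, ?_⟩
  · rw [coeff_mul]; simp [h.1, h'.1, -coeff_zero_eq_constantCoeff]
  · rw [Derivation.leibniz, h.2, h'.2]; simp only [smul_eq_mul]; ring

/-- coefficients of the exponential -/
noncomputable def exs (a : A⟦X⟧) : ℕ → A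
  | 0 => 1
  | n + 1 => ((1 : ℚ) / (n + 1)) • ∑ i : Fin (n + 1), coeff i a * exs a (n - i)
decreasing_by omega

/-- the exponential -/
noncomputable def ex (a : A⟦X⟧) : A⟦X⟧ := mk (exs a)

lemma isEx_ex (a : A⟦X⟧) : IsEx a (ex a) := by
  refine ⟨by simp [ex, exs, -coeff_zero_eq_constantCoeff], ?_⟩
  ext n
  rw [coeff_derivative, coeff_mul, ex, coeff_mk, exs, Nat.sum_antidiagonal_eq_sum_range_succ_mk,
    Finset.sum_range]
  simp only [coeff_mk]
  have h2 : ((n : A) + 1) = algebraMap ℚ A ((n : ℚ) + 1) := by simp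
  have h3 : ((n : ℚ) + 1) ≠ 0 := by positivity
  rw [h2, mul_comm, ← Algebra.smul_def, smul_smul, mul_one_div_cancel h3, one_smul]

omit [Algebra ℚ A] [Algebra ℚ B] in
lemma IsEx.map (φ : A →+* B) {a E : A⟦X⟧} (h : IsEx a E) :
    IsEx (PowerSeries.map φ a) (PowerSeries.map φ E) := by
  refine ⟨by rw [coeff_map, h.1, map_one], ?_⟩
  rw [← map_mul, ← h.2]
  ext n
  simp [coeff_derivative, coeff_map]

end general

/-- all coefficients up to degree `k / 2` vanish -/
def High (k : ℕ) (p : ℚ⟦X⟧) : Prop := ∀ i, 2 * i ≤ k → coeff i p = 0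

/-- `High`, when `k` is positive -/
def HW (k : ℕ) (p : ℚ⟦X⟧) : Prop := 0 < k → High k p

lemma High.mul_HW {a b : ℕ} {p q : ℚ⟦X⟧} (hp : High a p) (hq : HW b q) : High (a + b) (p * q) := by
  intro i hi
  rw [coeff_mul]
  refine sum_eq_zero fun x hx => ?_
  have := mem_antidiagonal.1 hx
  by_cases h1 : 2 * x.1 ≤ a
  · rw [hp _ h1, zero_mul]
  · rw [hq (by omega) _ (by omega), mul_zero]

lemma HW.mul {a b : ℕ} {p q : ℚ⟦X⟧} (hp : HW a p) (hq : HW b q) : HW (a + b) (p * q) := by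
  intro h
  by_cases ha : 0 < a
  · exact (hp ha).mul_HW hq
  · rw [mul_comm, add_comm]; exact (hq (by omega)).mul_HW hp

lemma hw_zero (p : ℚ⟦X⟧) : HW 0 p := fun h => absurd h (lt_irrefl 0)

lemma hw_prod {ι : Type*} (s : Finset ι) (d : ι → ℕ) (f : ι → ℚ⟦X⟧)
    (h : ∀ i ∈ s, HW (d i) (f i)) : HW (∑ i ∈ s, d i) (∏ i ∈ s, f i) := by
  classical
  induction s using Finset.induction_on with
  | empty => simpa using hw_zero 1
  | insert x s hx ih =>
    rw [sum_insert hx, prod_insert hx]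
    exact (h x (mem_insert_self _ _)).mul (ih fun i hi => h i (mem_insert_of_mem hi))

lemma HW.smul {a : ℕ} {p : ℚ⟦X⟧} (hp : HW a p) (c : ℚ) : HW a (c • p) := fun h i hi => by
  rw [coeff_smul, hp h i hi, smul_zero]

lemma IsEx.hw {a E : ℚ⟦X⟧⟦X⟧} (h : IsEx a E) (ha : ∀ j, High (j + 1) (coeff j a)) (n : ℕ) :
    HW n (coeff n E) := by
  induction n using Nat.strong_induction_on with
  | _ n ih =>
    rcases n with _ | n
    · exact hw_zero _
    · rw [h.rec']
      refine HW.smul (fun _ i hi => ?_) _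
      rw [map_sum]
      refine sum_eq_zero fun p hp => ?_
      have := mem_antidiagonal.1 hp
      exact (ha p.1).mul_HW (ih p.2 (by omega)) i (by omega)

lemma coeff_fold_pred (j i : ℕ) (h : 2 * i ≤ j + 1) : (fold (j + 1) j).coeff i = pois (j + 1) i := by
  by_cases h1 : 2 * i ≤ j
  · exact coeff_fold_low _ _ _ h1
  · obtain ⟨l, rfl⟩ : ∃ l, i = l + 1 := ⟨i - 1, by omega⟩
    rw [coeff_fold, if_pos (by omega), show j - (l + 1) = l by omega, min_eq_right (by omega)]
    have h2 := pois_succ (j + 1) l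
    have h3 : ((j + 1 : ℕ) : ℚ) / 2 = (l : ℚ) + 1 := by
      have : j + 1 = 2 * (l + 1) := by omega
      rw [this]; push_cast; ring
    rw [h3] at h2
    have h4 : (l : ℚ) + 1 ≠ 0 := by positivity
    exact (mul_left_cancel₀ h4 h2).symm

/-- derivative of the cycle series -/
noncomputable def Lp : (Polynomial ℚ)⟦X⟧ := mk fun j => psi (j + 1)

/-- derivative of the braid series -/
noncomputable def Kp : (Polynomial ℚ)⟦X⟧ := mk fun j => fold (j + 1) j

/-- normalised Dowling polynomials -/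
noncomputable def dd (θ : ℚ) : (Polynomial ℚ)⟦X⟧ := ex (θ • Lp)

/-- normalised partition sums -/
noncomputable def ee (θ : ℚ) : (Polynomial ℚ)⟦X⟧ := ex (-(θ • Kp))

/-- inclusion of polynomials in power series -/
noncomputable def cc : Polynomial ℚ →+* ℚ⟦X⟧ := Polynomial.coeToPowerSeries.ringHom

lemma coeff_cc (p : Polynomial ℚ) (i : ℕ) : coeff i (cc p) = p.coeff i := by
  simp [cc]

lemma hw_dd_ee (θ : ℚ) (n : ℕ) : HW n (cc (coeff n (dd θ * ee θ))) := by
  have h := ((isEx_ex (θ • Lp)).mul (isEx_ex (-(θ • Kp)))).map cc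
  have := h.hw (fun j i hi => ?_) n
  · rwa [coeff_map] at this
  · rw [coeff_map, coeff_cc]
    simp only [Lp, Kp, map_add, map_neg, coeff_smul, coeff_mk, Polynomial.coeff_add,
      Polynomial.coeff_neg, Polynomial.coeff_smul]
    rw [psi, coeff_fold_low _ _ _ hi, coeff_fold_pred _ _ hi]; ring

/-- the series `exp (c t / 2)` -/
noncomputable def FF (c : ℕ) : ℚ⟦X⟧ := mk (pois c)

lemma isEx_FF (c : ℕ) : IsEx (C ((c : ℚ) / 2)) (FF c) := by
  refine ⟨by simp [FF, pois_zero, -coeff_zero_eq_constantCoeff], ?_⟩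
  ext n
  rw [coeff_derivative, coeff_C_mul, FF, coeff_mk, coeff_mk, ← pois_succ]; ring

lemma FF_succ (c : ℕ) : FF (c + 1) = FF c * FF 1 := by
  refine (isEx_FF (c + 1)).unique ?_
  have := (isEx_FF c).mul (isEx_FF 1)
  rw [← map_add] at this
  rw [show ((c + 1 : ℕ) : ℚ) / 2 = (c : ℚ) / 2 + ((1 : ℕ) : ℚ) / 2 by push_cast; ring]
  exact this

lemma isEx_lin : IsEx (-(mk fun j => FF (j + 1)) : ℚ⟦X⟧⟦X⟧) (1 - X * C (FF 1)) := by
  refine ⟨by simp, ?_⟩
  ext1 n
  rw [coeff_derivative, mul_sub, mul_one, mul_left_comm]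
  rcases n with _ | n
  · simp [coeff_one]
  · simp only [map_sub, coeff_succ_X_mul, coeff_one, coeff_mul_C, map_neg, coeff_mk]
    rw [FF_succ (n + 1)]; simp [coeff_X]

lemma hw_ee_one (s : ℕ) : HW s (cc (coeff (s + 1) (ee 1))) := by
  set a : ℚ⟦X⟧⟦X⟧ := (mk fun j => FF (j + 1)) - PowerSeries.map cc Kp with ha
  have h1 := isEx_ex a
  have h2 := h1.hw (fun j i hi => by
    rw [ha, map_sub, coeff_map, coeff_mk, map_sub, coeff_cc, FF, coeff_mk, Kp, coeff_mk,
      coeff_fold_pred _ _ hi, sub_self])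
  have h3 := isEx_lin.mul h1
  have h4 := (isEx_ex (-((1 : ℚ) • Kp))).map cc
  have h5 : -(mk fun j => FF (j + 1)) + a = PowerSeries.map cc (-((1 : ℚ) • Kp)) := by
    rw [ha, one_smul, map_neg]; ring
  rw [h5] at h3
  have h6 := congrArg (coeff (s + 1)) (h4.unique h3)
  rw [coeff_map, sub_mul, one_mul, mul_assoc, map_sub, coeff_succ_X_mul, coeff_C_mul] at h6
  rw [ee, h6]
  intro hs i hi
  rw [map_sub, h2 (s + 1) (by omega) i (by omega), mul_comm]
  have := (h2 s hs).mul_HW (hw_zero (FF 1)) i (by omega)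
  rw [this, sub_zero]

lemma coeff_zero_dd (θ : ℚ) : coeff 0 (dd θ) = 1 := (isEx_ex _).1

lemma coeff_zero_ee (θ : ℚ) : coeff 0 (ee θ) = 1 := (isEx_ex _).1

lemma dd_rec (θ : ℚ) (n : ℕ) : coeff (n + 1) (dd θ) =
    (θ / (n + 1)) • ∑ p ∈ antidiagonal n, psi (p.1 + 1) * coeff p.2 (dd θ) := by
  rw [dd, (isEx_ex _).rec', div_eq_mul_one_div θ, mul_comm θ, ← smul_smul, smul_sum (r := θ)]
  congr 1
  refine sum_congr rfl fun p _ => ?_
  rw [coeff_smul, Lp, coeff_mk, smul_mul_assoc]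

lemma ee_rec (θ : ℚ) (n : ℕ) : coeff (n + 1) (ee θ) =
    (-θ / (n + 1)) • ∑ p ∈ antidiagonal n, fold (p.1 + 1) p.1 * coeff p.2 (ee θ) := by
  rw [ee, (isEx_ex _).rec', div_eq_mul_one_div (-θ), mul_comm (-θ), ← smul_smul,
    smul_sum (r := -θ)]
  congr 1
  refine sum_congr rfl fun p _ => ?_
  rw [map_neg, coeff_smul, Kp, coeff_mk, ← neg_smul, smul_mul_assoc]

lemma sym_dd (θ : ℚ) (n : ℕ) : Sym n (coeff n (dd θ)) := by
  induction n using Nat.strong_induction_on with
  | _ n ih =>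
    rcases n with _ | n
    · rw [coeff_zero_dd]; exact sym_one
    · rw [dd_rec]
      refine Sym.smul (sym_sum _ _ fun p hp => ?_) _
      have h := mem_antidiagonal.1 hp
      have := (pp_psi (p.1 + 1)).toSym.mul (ih p.2 (by omega))
      rwa [show p.1 + 1 + p.2 = n + 1 by omega] at this

lemma Sym.eq_zero {n : ℕ} {p : Polynomial ℚ} (h : Sym n p) (h2 : High n (cc p)) : p = 0 := by
  ext i
  rw [Polynomial.coeff_zero]
  by_cases h3 : 2 * i ≤ n
  · rw [← coeff_cc, h2 i h3]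
  by_cases h4 : i ≤ n
  · rw [h.sym i (n - i) (by omega), ← coeff_cc, h2 _ (by omega)]
  · exact h.hi i (by omega)

lemma dd_one (n : ℕ) : coeff n (dd 1) = fold (n + 1) n := by
  induction n using Nat.strong_induction_on with
  | _ n ih =>
    rcases n with _ | n
    · rw [coeff_zero_dd]; simp [fold, pois_zero]
    · have h1 := hw_dd_ee 1 (n + 1) (by omega)
      have h2 := hw_ee_one (n + 1) (by omega)
      rw [ee_rec, Nat.sum_antidiagonal_succ'] at h2
      rw [coeff_mul, Nat.sum_antidiagonal_succ'] at h1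
      have h3 : ∑ p ∈ antidiagonal n, coeff p.1 (dd 1) * coeff (p.2 + 1) (ee 1) =
          ∑ p ∈ antidiagonal n, fold (p.1 + 1) p.1 * coeff (p.2 + 1) (ee 1) := by
        refine sum_congr rfl fun p hp => ?_
        have := mem_antidiagonal.1 hp
        rw [ih p.1 (by omega)]
      simp only [coeff_zero_ee, mul_one] at h1 h2
      rw [h3] at h1
      refine sub_eq_zero.1 (((sym_dd 1 (n + 1)).sub (sym_fold _ _)).eq_zero fun i hi => ?_)
      have h4 := h1 i hi
      have h5 := h2 i hi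
      rw [coeff_cc] at h4 h5 ⊢
      rw [Polynomial.coeff_smul, smul_eq_mul] at h5
      have h6 : (-1 / (((n + 1 : ℕ) : ℚ) + 1)) ≠ 0 := by
        apply div_ne_zero (by norm_num); positivity
      have h7 := (mul_eq_zero.1 h5).resolve_left h6
      rw [Polynomial.coeff_add] at h4 h7
      rw [Polynomial.coeff_sub]; linarith

/-- normalising constants -/
noncomputable def sc (θ : ℚ) : ℕ → ℚ
  | 0 => 1
  | j + 1 => sc θ j * (1 + θ / (j + 1))

lemma sc_pos {θ : ℚ} (hθ : 0 < θ) (j : ℕ) : 0 < sc θ j := by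
  induction j with
  | zero => exact one_pos
  | succ j ih => rw [sc]; positivity

lemma sc_one (j : ℕ) : sc 1 j = j + 1 := by
  induction j with
  | zero => simp [sc]
  | succ j ih => rw [sc, ih]; push_cast; field_simp

lemma sum_eq_Phi {θ : ℚ} (hθ : 0 < θ) (j : ℕ) : ∀ c,
    ∑ p ∈ antidiagonal j, psi (c + p.1 + 1) * coeff p.2 (dd θ) = sc θ j • Phi θ j c := by
  induction j with
  | zero => intro c; simp [coeff_zero_dd, sc, Phi, -coeff_zero_eq_constantCoeff]
  | succ j ih =>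
    intro c
    rw [Nat.sum_antidiagonal_succ]
    have h1 := ih (c + 1)
    have h2 := ih 0
    simp only [zero_add] at h2
    have h3 : ∑ p ∈ antidiagonal j, psi (c + (p.1 + 1) + 1) * coeff p.2 (dd θ) =
        ∑ p ∈ antidiagonal j, psi (c + 1 + p.1 + 1) * coeff p.2 (dd θ) :=
      sum_congr rfl fun p _ => by rw [show c + (p.1 + 1) = c + 1 + p.1 by omega]
    simp only []
    rw [h3, h1, dd_rec, h2, sc, Phi, smul_add, smul_smul, smul_smul, smul_smul, add_zero,
      mul_smul_comm]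
    have h4 : (0 : ℚ) < (j : ℚ) + 1 := by positivity
    have h5 : (0 : ℚ) < θ + j + 1 := by positivity
    congr 2
    · field_simp; ring
    · field_simp; ring

lemma dd_eq_Phi {θ : ℚ} (hθ : 0 < θ) (j : ℕ) :
    coeff (j + 1) (dd θ) = (θ / (j + 1) * sc θ j) • Phi θ j 0 := by
  have h2 := sum_eq_Phi hθ j 0
  simp only [zero_add] at h2
  rw [dd_rec, h2, smul_smul]

lemma Phi_one (j i : ℕ) (hi : 2 * i ≤ j + 1) : (Phi 1 j 0).coeff i = pois (j + 2) i := by
  have h := dd_eq_Phi one_pos j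
  have h4 : (j : ℚ) + 1 ≠ 0 := by positivity
  rw [sc_one, one_div_mul_cancel h4, one_smul, dd_one] at h
  rw [← h, coeff_fold_low _ _ _ hi]

lemma dd_pos {θ : ℚ} (hθ : 0 < θ) (n i : ℕ) (hi : i ≤ n) : 0 < (coeff n (dd θ)).coeff i := by
  rcases n with _ | n
  · rw [coeff_zero_dd, show i = 0 by omega]; simp
  · rw [dd_eq_Phi hθ, Polynomial.coeff_smul, smul_eq_mul]
    have := sc_pos hθ n
    have := pos_Phi hθ n i hi
    positivity

lemma dd_lc {θ : ℚ} (hθ : 0 < θ) (hθ1 : θ ≤ 1) (n i : ℕ) :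
    (coeff n (dd θ)).coeff i * (coeff n (dd θ)).coeff (i + 2) ≤
      (coeff n (dd θ)).coeff (i + 1) ^ 2 := by
  rcases n with _ | n
  · rw [coeff_zero_dd, Polynomial.coeff_one (n := i + 2), if_neg (by omega), mul_zero]; positivity
  · rw [dd_eq_Phi hθ]
    simp only [Polynomial.coeff_smul, smul_eq_mul]
    have h := lc_Phi hθ hθ1 n (Phi_one n) i
    have h2 := mul_le_mul_of_nonneg_left h (sq_nonneg (θ / (n + 1) * sc θ n))
    nlinarith

end Pool.Agent.Lib.MP_147f4d_co
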