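import Pool.Agent.Lib.MP_147f4d_co.Defs
import Pool.Agent.Lib.MP_147f4d_co.Exp

namespace Pool.Agent.Lib.MP_147f4d_co

open Polynomial Finset IncidenceAlgebra

variable {L : Type} [PartialOrder L] [Fintype L] [DecidableEq L] [DecidableLE L]
  [LocallyFiniteOrder L]

/-- the signed inverse `Z`-polynomial -/
noncomputable def hatY (rk : L → ℕ) (Q : L → ℤ[X]) (G : L) : ℤ[X] :=
  ∑ F ∈ univ.filter (fun F => F ≤ G),
    (-1) ^ rk F * Q F * X ^ (rk G - rk F) * C (IncidenceAlgebra.mu ℤ F G)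

lemma swap_sum {R : Type} [AddCommMonoid R] (G : L) (f : L → L → R) :
    ∑ H ∈ univ.filter (fun H => H ≤ G), ∑ F ∈ univ.filter (fun F => F ≤ H), f F H =
    ∑ F ∈ univ.filter (fun F => F ≤ G), ∑ H ∈ Icc F G, f F H := by
  refine sum_comm' fun H F => ?_
  simp only [mem_filter, mem_univ, true_and, mem_Icc]
  exact ⟨fun h => ⟨⟨h.2, h.1⟩, h.2.trans h.1⟩, fun h => ⟨h.1.2, h.1.1⟩⟩

lemma reflect_sum' {ι R : Type} [Semiring R] (s : Finset ι) (f : ι → R[X]) (N : ℕ) :
    reflect N (∑ i ∈ s, f i) = ∑ i ∈ s, reflect N (f i) := by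
  classical
  induction s using Finset.induction_on with
  | empty => simp
  | insert x s hx ih => rw [sum_insert hx, sum_insert hx, reflect_add, ih]

lemma reflect_charPoly {rk : L → ℕ} (hm : Monotone rk) (F G : L) :
    reflect (rk G - rk F) (charPoly rk F G) = ∑ H ∈ Icc F G, C (mu ℤ F H) * X ^ (rk H - rk F) := by
  rw [charPoly, reflect_sum']
  refine sum_congr rfl fun H hH => ?_
  have h := mem_Icc.1 hH
  have h1 := hm h.1
  have h2 := hm h.2
  rw [reflect_C_mul_X_pow, revAt_le (by omega)]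
  congr 2; omega

lemma sum_hatY {rk : L → ℕ} (hm : Monotone rk) (Q : L → ℤ[X]) (G : L) :
    ∑ H ∈ univ.filter (fun H => H ≤ G), hatY rk Q H =
      ∑ F ∈ univ.filter (fun F => F ≤ G),
        (-1) ^ rk F * Q F * reflect (rk G - rk F) (charPoly rk F G) := by
  unfold hatY
  rw [swap_sum]
  refine sum_congr rfl fun F _ => ?_
  rw [reflect_charPoly hm, mul_sum]
  refine sum_congr rfl fun H _ => by ring

lemma moebius (Y : L → ℤ[X]) (G : L) :
    ∑ F ∈ univ.filter (fun F => F ≤ G),
      (∑ H ∈ univ.filter (fun H => H ≤ F), Y H) * C (mu ℤ F G) = Y G := by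
  simp_rw [sum_mul]
  rw [swap_sum G (fun H F => Y H * C (mu ℤ F G))]
  simp_rw [← mul_sum, ← map_sum, sum_Icc_mu_left]
  rw [sum_eq_single G]
  · simp
  · intro H _ hH; simp [hH]
  · intro h; simp at h

lemma neg_one_pow_eq_C (k : ℕ) : ((-1 : ℤ[X]) ^ k) = C ((-1) ^ k) := by simp

lemma reflect_term {a b : ℕ} (hab : a ≤ b) {p : ℤ[X]} (hp : p.natDegree ≤ a) (m : ℤ) :
    reflect b ((-1) ^ a * p * X ^ (b - a) * C m) = (-1) ^ a * reflect a p * C m := by
  have e : (-1) ^ a * p * X ^ (b - a) * C m = C ((-1) ^ a * m) * (p * X ^ (b - a)) := by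
    rw [neg_one_pow_eq_C, C_mul]; ring
  have e2 : reflect b (p * X ^ (b - a)) = reflect a p := by
    conv_lhs => rw [show b = a + (b - a) by omega, show a + (b - a) - a = b - a by omega]
    rw [reflect_mul _ _ hp (natDegree_X_pow_le _), reflect_monomial, revAt_le le_rfl]; simp
  rw [e, reflect_C_mul, e2, neg_one_pow_eq_C, C_mul]; ring

lemma natDegree_term {a b : ℕ} (hab : a ≤ b) {p : ℤ[X]} (hp : p.natDegree ≤ a) (m : ℤ) :
    ((-1) ^ a * p * X ^ (b - a) * C m).natDegree ≤ b := by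
  have e : (-1) ^ a * p * X ^ (b - a) * C m = C ((-1) ^ a * m) * (p * X ^ (b - a)) := by
    rw [neg_one_pow_eq_C, C_mul]; ring
  rw [e]
  refine (natDegree_C_mul_le _ _).trans (natDegree_mul_le.trans ?_)
  have := natDegree_X_pow_le (R := ℤ) (b - a)
  omega

lemma IsInvKL.deg {rk : L → ℕ} {Q : L → ℤ[X]} (h : IsInvKL rk Q) (G : L) :
    (Q G).natDegree ≤ rk G := by
  by_cases h0 : rk G = 0
  · rw [(h G).1 h0]; simp
  · have := (h G).2.1 (by omega); omega

lemma IsInvKL.sum_hatY {rk : L → ℕ} (hm : Monotone rk) {Q : L → ℤ[X]} (h : IsInvKL rk Q) (G : L) :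
    ∑ H ∈ univ.filter (fun H => H ≤ G), hatY rk Q H = (-1) ^ rk G * reflect (rk G) (Q G) := by
  rw [MP_147f4d_co.sum_hatY hm, (h G).2.2]

lemma IsInvKL.reflect_hatY {rk : L → ℕ} (hm : Monotone rk) {Q : L → ℤ[X]} (h : IsInvKL rk Q)
    (G : L) : reflect (rk G) (hatY rk Q G) = hatY rk Q G := by
  conv_rhs => rw [← moebius (hatY rk Q) G]
  rw [hatY, reflect_sum']
  refine sum_congr rfl fun F hF => ?_
  rw [reflect_term (hm (mem_filter.1 hF).2) (h.deg F), h.sum_hatY hm]

lemma IsInvKL.natDegree_hatY {rk : L → ℕ} (hm : Monotone rk) {Q : L → ℤ[X]} (h : IsInvKL rk Q)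
    (G : L) : (hatY rk Q G).natDegree ≤ rk G :=
  natDegree_sum_le_of_forall_le _ _ fun F hF => natDegree_term (hm (mem_filter.1 hF).2) (h.deg F) _

/-- the data of a rational solution of the palindromic recursion -/
structure Cand (rk : L → ℕ) (Y : L → ℚ[X]) : Prop where
  mono : Monotone rk
  min : ∀ G, rk G = 0 → ∀ F, F ≤ G → F = G
  one : ∀ G, rk G = 0 → Y G = 1
  sym : ∀ G, Sym (rk G) (Y G)
  high : ∀ G, HW (rk G) (cc (∑ H ∈ univ.filter (fun H => H ≤ G), Y H))

lemma filter_le_eq (G : L) :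
    univ.filter (fun H => H ≤ G) = insert G (univ.filter (fun H => H ≤ G ∧ H ≠ G)) := by
  ext H
  simp only [mem_filter, mem_univ, true_and, mem_insert]
  constructor
  · intro h; by_cases h2 : H = G
    · exact Or.inl h2
    · exact Or.inr ⟨h, h2⟩
  · rintro (h | h)
    · exact h.le
    · exact h.1

lemma sum_le_split {R : Type} [AddCommMonoid R] (G : L) (f : L → R) :
    ∑ H ∈ univ.filter (fun H => H ≤ G), f H =
      f G + ∑ H ∈ univ.filter (fun H => H ≤ G ∧ H ≠ G), f H := by
  rw [filter_le_eq, sum_insert (by simp)]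

lemma Cand.eq_hatY {rk : L → ℕ} {Y : L → ℚ[X]} (c : Cand rk Y) {Q : L → ℤ[X]}
    (h : IsInvKL rk Q) (G : L) : (hatY rk Q G).map (Int.castRingHom ℚ) = Y G := by
  induction G using (wellFounded_lt (α := L)).induction with
  | _ G ih =>
    have hs := h.sum_hatY c.mono G
    by_cases h0 : rk G = 0
    · have : univ.filter (fun H => H ≤ G) = {G} := by
        ext H; simp only [mem_filter, mem_univ, true_and, mem_singleton]
        exact ⟨c.min G h0 H, fun h => h.le⟩
      rw [this, sum_singleton, h0, (h G).1 h0] at hs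
      rw [hs, c.one G h0]; simp
    · have hsym : Sym (rk G) ((hatY rk Q G).map (Int.castRingHom ℚ)) :=
        sym_of_reflect (natDegree_map_le.trans (h.natDegree_hatY c.mono G))
          (by rw [reflect_map, h.reflect_hatY c.mono])
      refine sub_eq_zero.1 ((hsym.sub (c.sym G)).eq_zero fun i hi => ?_)
      have h1 := c.high G (by omega) i hi
      rw [coeff_cc, sum_le_split, coeff_add] at h1
      have h2 := congrArg (fun p => (p.map (Int.castRingHom ℚ)).coeff i) hs
      simp only [sum_le_split, Polynomial.map_add, Polynomial.map_sum, coeff_add] at h2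
      have h3 : ∑ H ∈ univ.filter (fun H => H ≤ G ∧ H ≠ G),
          (hatY rk Q H).map (Int.castRingHom ℚ) =
          ∑ H ∈ univ.filter (fun H => H ≤ G ∧ H ≠ G), Y H :=
        sum_congr rfl fun H hH => ih H (lt_of_le_of_ne (mem_filter.1 hH).2.1 (mem_filter.1 hH).2.2)
      have h4 : (Q G).coeff (rk G - i) = 0 := by
        have := (h G).2.1 (by omega)
        exact coeff_eq_zero_of_natDegree_lt (by omega)
      rw [h3, coeff_map ((Int.castRingHom ℚ)) (p := (-1) ^ rk G * reflect (rk G) (Q G)),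
        neg_one_pow_eq_C, coeff_C_mul, coeff_reflect, revAt_le (by omega), h4, mul_zero,
        map_zero] at h2
      rw [coeff_cc, coeff_sub]; linarith

lemma Cand.unique {rk : L → ℕ} {Y : L → ℚ[X]} (c : Cand rk Y) {Q Q' : L → ℤ[X]}
    (h : IsInvKL rk Q) (h' : IsInvKL rk Q') : Q = Q' := by
  funext G
  have h1 : hatY rk Q = hatY rk Q' := by
    funext H
    apply map_injective (Int.castRingHom ℚ) (RingHom.injective_int _)
    rw [c.eq_hatY h, c.eq_hatY h']
  have h2 := h.sum_hatY c.mono G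
  rw [h1, h'.sum_hatY c.mono G] at h2
  have h3 : ((-1 : ℤ[X]) ^ rk G) ≠ 0 := pow_ne_zero _ (by simp)
  have h4 := congrArg (reflect (rk G)) (mul_left_cancel₀ h3 h2)
  simpa using h4.symm

lemma Cand.int {rk : L → ℕ} {Y : L → ℚ[X]} (c : Cand rk Y) (G : L) :
    ∀ i, ∃ z : ℤ, (Y G).coeff i = z := by
  induction G using (wellFounded_lt (α := L)).induction with
  | _ G ih =>
    by_cases h0 : rk G = 0
    · intro i
      rw [c.one G h0, coeff_one]; split_ifs
      · exact ⟨1, by simp⟩
      · exact ⟨0, by simp⟩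
    have low : ∀ i, 2 * i ≤ rk G → ∃ z : ℤ, (Y G).coeff i = z := by
      intro i hi
      have h1 := c.high G (by omega) i hi
      rw [coeff_cc, sum_le_split, coeff_add, finsetSum_coeff] at h1
      have h2 : ∃ z : ℤ, ∑ H ∈ univ.filter (fun H => H ≤ G ∧ H ≠ G), (Y H).coeff i = z := by
        refine sum_induction _ (fun x : ℚ => ∃ z : ℤ, x = z) ?_ ⟨0, by simp⟩ fun H hH => ?_
        · rintro _ _ ⟨a, rfl⟩ ⟨b, rfl⟩; exact ⟨a + b, by simp⟩
        · exact ih H (lt_of_le_of_ne (mem_filter.1 hH).2.1 (mem_filter.1 hH).2.2) i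
      obtain ⟨z, hz⟩ := h2
      exact ⟨-z, by push_cast; linarith⟩
    intro i
    by_cases h1 : 2 * i ≤ rk G
    · exact low i h1
    by_cases h2 : i ≤ rk G
    · rw [(c.sym G).sym i (rk G - i) (by omega)]; exact low _ (by omega)
    · exact ⟨0, by rw [(c.sym G).hi i (by omega)]; simp⟩

lemma Cand.exists_Q {rk : L → ℕ} {Y : L → ℚ[X]} (c : Cand rk Y) : ∃ Q, IsInvKL rk Q := by
  have h1 : ∀ G, ∃ p : ℤ[X], p.map (Int.castRingHom ℚ) = Y G := by
    intro G
    have : Y G ∈ lifts (Int.castRingHom ℚ) :=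
      (lifts_iff_coeff_lifts _).2 fun i => by
        obtain ⟨z, hz⟩ := c.int G i
        exact ⟨z, hz.symm⟩
    exact (mem_lifts _).1 this
  choose Z hZ using h1
  have inj := map_injective (Int.castRingHom ℚ) (RingHom.injective_int _)
  have hco : ∀ G i, ((Z G).coeff i : ℚ) = (Y G).coeff i := fun G i => by
    rw [← hZ, coeff_map]; rfl
  have hdeg : ∀ G, (Z G).natDegree ≤ rk G := fun G =>
    natDegree_le_iff_coeff_eq_zero.2 fun i hi => by
      have := hco G i
      rw [(c.sym G).hi i hi] at this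
      exact_mod_cast this
  have hrefl : ∀ G, reflect (rk G) (Z G) = Z G := fun G => inj (by
    rw [← reflect_map, hZ, (c.sym G).reflect_eq])
  set S : L → ℤ[X] := fun G => ∑ H ∈ univ.filter (fun H => H ≤ G), Z H with hS
  have hSdeg : ∀ G, (S G).natDegree ≤ rk G := fun G =>
    natDegree_sum_le_of_forall_le _ _ fun H hH => (hdeg H).trans (c.mono (mem_filter.1 hH).2)
  set Q : L → ℤ[X] := fun G => (-1) ^ rk G * reflect (rk G) (S G) with hQ
  have hsq : ∀ k : ℕ, ((-1 : ℤ[X]) ^ k) * (-1) ^ k = 1 := fun k => by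
    rw [← mul_pow]; simp
  have hQS : ∀ G, (-1) ^ rk G * reflect (rk G) (Q G) = S G := fun G => by
    simp only [hQ]
    rw [neg_one_pow_eq_C, reflect_C_mul, reflect_reflect, ← neg_one_pow_eq_C, ← mul_assoc, hsq,
      one_mul]
  have hQdeg : ∀ G, (Q G).natDegree ≤ rk G := fun G => by
    simp only [hQ]
    rw [neg_one_pow_eq_C]
    refine (natDegree_C_mul_le _ _).trans (natDegree_reflect_le.trans ?_)
    exact max_le le_rfl (hSdeg G)
  have hY : ∀ G, hatY rk Q G = Z G := fun G => by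
    have h2 : reflect (rk G) (hatY rk Q G) = Z G := by
      rw [← moebius Z G, hatY, reflect_sum']
      refine sum_congr rfl fun F hF => ?_
      rw [reflect_term (c.mono (mem_filter.1 hF).2) (hQdeg F), hQS]
    rw [← reflect_reflect (N := rk G) (p := hatY rk Q G), h2, hrefl]
  refine ⟨Q, fun G => ⟨fun h0 => ?_, fun h0 => ?_, ?_⟩⟩
  · have : univ.filter (fun H => H ≤ G) = {G} := by
      ext H; simp only [mem_filter, mem_univ, true_and, mem_singleton]
      exact ⟨c.min G h0 H, fun h => h.le⟩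
    have h2 : Z G = 1 := inj (by rw [hZ, c.one G h0]; simp)
    simp only [hQ, hS, this, sum_singleton, h0, h2]; simp
  · have : (Q G).natDegree ≤ (rk G - 1) / 2 := by
      refine natDegree_le_iff_coeff_eq_zero.2 fun i hi => ?_
      simp only [hQ]
      rw [neg_one_pow_eq_C, coeff_C_mul, coeff_reflect]
      by_cases h3 : i ≤ rk G
      · rw [revAt_le h3]
        have h4 := c.high G h0 (rk G - i) (by omega)
        rw [coeff_cc, finsetSum_coeff] at h4
        simp only [← hco] at h4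
        have h5 : (S G).coeff (rk G - i) = 0 := by
          simp only [hS]; rw [finsetSum_coeff]; exact_mod_cast h4
        rw [h5, mul_zero]
      · rw [revAt_eq_self_of_lt (by omega),
          coeff_eq_zero_of_natDegree_lt ((hSdeg G).trans_lt (by omega)), mul_zero]
    omega
  · rw [hQS, ← sum_hatY c.mono]
    exact sum_congr rfl fun H _ => (hY H).symm

end Pool.Agent.Lib.MP_147f4d_co
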