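import Pool.Agent.Lib.MP_147f4d_co.Defs
import Pool.Agent.Lib.MP_147f4d_co.ClSys

namespace Pool.Agent.Lib.MP_147f4d_co

open Finset

variable {n : ℕ} {G : Type} [Group G]

/-- labellings -/
abbrev Lab (n : ℕ) (G : Type) : Type := Fin n → Option (Fin n × G)

@[simp] lemma act_none (g : G) : act (n := n) g none = none := rfl

@[simp] lemma act_some (g : G) (r : Fin n) (h : G) : act g (some (r, h)) = some (r, g * h) := rfl

lemma act_act (g h : G) (a : Option (Fin n × G)) : act g (act h a) = act (g * h) a := by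
  rcases a with _ | ⟨r, b⟩ <;> simp [mul_assoc]

@[simp] lemma act_one (a : Option (Fin n × G)) : act (1 : G) a = a := by
  rcases a with _ | ⟨r, b⟩ <;> simp

lemma act_eq_none {g : G} {a : Option (Fin n × G)} : act g a = none ↔ a = none := by
  rcases a with _ | ⟨r, b⟩ <;> simp

lemma act_inv {g : G} {a b : Option (Fin n × G)} (h : a = act g b) : b = act g⁻¹ a := by
  rw [h, act_act, inv_mul_cancel, act_one]

/-- the orbit of a value -/
def blk (a : Option (Fin n × G)) : Option (Fin n) := a.map Prod.fst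

omit [Group G] in
@[simp] lemma blk_none : blk (none : Option (Fin n × G)) = none := rfl

omit [Group G] in
@[simp] lemma blk_some (r : Fin n) (h : G) : blk (some (r, h)) = some r := rfl

@[simp] lemma blk_act (g : G) (a : Option (Fin n × G)) : blk (act g a) = blk a := by
  rcases a with _ | ⟨r, b⟩ <;> simp

omit [Group G] in
lemma blk_eq_none {a : Option (Fin n × G)} : blk a = none ↔ a = none := by
  rcases a with _ | ⟨r, b⟩ <;> simp

omit [Group G] in
lemma blk_eq_some {a : Option (Fin n × G)} {r : Fin n} : blk a = some r ↔ ∃ h, a = some (r, h) := by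
  rcases a with _ | ⟨r, b⟩ <;> simp

lemma exists_act {a b : Option (Fin n × G)} (h : blk a = blk b) : ∃ g, a = act g b := by
  rcases a with _ | ⟨r, a⟩ <;> rcases b with _ | ⟨s, b⟩
  · exact ⟨1, rfl⟩
  · simp at h
  · simp at h
  · simp only [blk_some, Option.some.injEq] at h
    exact ⟨a * b⁻¹, by simp [h]⟩

/-- the order on labellings -/
def Le (x y : Lab n G) : Prop :=
  (∀ i, x i = none → y i = none) ∧ ∀ i j g, x i = act g (x j) → y i = act g (y j)

lemma flatOf_subset_iff {x y : Lab n G} : flatOf x ⊆ flatOf y ↔ Le x y := by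
  constructor
  · intro h
    have h0 : ∀ i, x i = none → y i = none := fun i hi => h (a := Sum.inl i) hi
    have h1 : ∀ i j g, i < j → x i = act g (x j) → y i = act g (y j) :=
      fun i j g hij hi => h (a := Sum.inr (⟨(i, j), hij⟩, g)) hi
    refine ⟨h0, fun i j g hi => ?_⟩
    rcases lt_trichotomy i j with hij | rfl | hij
    · exact h1 i j g hij hi
    · rcases hx : x i with _ | ⟨r, a⟩
      · rw [h0 i hx]; rfl
      · rw [hx] at hi
        have : g = 1 := by simpa using hi
        rw [this, act_one]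
    · have := act_inv (h1 j i g⁻¹ hij (act_inv hi))
      rwa [inv_inv] at this
  · rintro h (i | p) he
    · exact h.1 i he
    · exact h.2 _ _ _ he

lemma le_comp (x : Lab n G) (Φ : Option (Fin n × G) → Option (Fin n × G)) (h0 : Φ none = none)
    (h1 : ∀ g a, Φ (act g a) = act g (Φ a)) : Le x (fun i => Φ (x i)) :=
  ⟨fun i hi => by simp only [hi, h0], fun i j g hi => by simp only [hi, h1]⟩

/-- the set of orbits used -/
def blocks (x : Lab n G) : Finset (Fin n) := univ.filter fun r => ∃ i, blk (x i) = some r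

omit [Group G] in
lemma mem_blocks {x : Lab n G} {r : Fin n} : r ∈ blocks x ↔ ∃ i, blk (x i) = some r := by
  simp [blocks]

lemma Le.card_blocks {x y : Lab n G} (h : Le x y) : #(blocks y) ≤ #(blocks x) := by
  have key : ∀ r ∈ blocks y, ∃ s ∈ blocks x, ∃ i, blk (y i) = some r ∧ blk (x i) = some s := by
    intro r hr
    obtain ⟨i, hi⟩ := (mem_filter.1 hr).2
    rcases hx : x i with _ | ⟨s, a⟩
    · rw [h.1 i hx] at hi; simp at hi
    · exact ⟨s, mem_filter.2 ⟨mem_univ _, i, by rw [hx]; rfl⟩, i, hi, by rw [hx]; rfl⟩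
  choose! f hf hf2 using key
  refine card_le_card_of_injOn f hf fun r hr r' hr' hrr => ?_
  obtain ⟨i, h1, h2⟩ := hf2 r hr
  obtain ⟨j, h3, h4⟩ := hf2 r' hr'
  obtain ⟨g, hg⟩ := exists_act (h2.trans (hrr ▸ h4.symm))
  have := congrArg blk (h.2 i j g hg)
  rw [blk_act, h1, h3] at this
  exact Option.some.inj this

/-- send an orbit to zero -/
def killV (r : Fin n) (a : Option (Fin n × G)) : Option (Fin n × G) :=
  if blk a = some r then none else a

/-- identify two orbits -/
def mergeV (r s : Fin n) (c : G) : Option (Fin n × G) → Option (Fin n × G)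
  | none => none
  | some p => if p.1 = r then some (s, p.2 * c) else some p

lemma le_kill (x : Lab n G) (r : Fin n) : Le x (fun i => killV r (x i)) :=
  le_comp x _ (by simp [killV]) fun g a => by
    unfold killV; rw [blk_act]; split_ifs <;> rfl

lemma le_merge (x : Lab n G) (r s : Fin n) (c : G) : Le x (fun i => mergeV r s c (x i)) :=
  le_comp x _ rfl fun g a => by
    rcases a with _ | ⟨t, b⟩
    · rfl
    · simp only [act_some, mergeV]; split_ifs <;> simp [mul_assoc]

omit [Group G] in
lemma blocks_kill (x : Lab n G) (r : Fin n) :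
    blocks (fun i => killV r (x i)) = (blocks x).erase r := by
  ext t
  rw [mem_erase, mem_blocks, mem_blocks]
  simp only [killV]
  constructor
  · rintro ⟨i, hi⟩
    split_ifs at hi with h
    · simp at hi
    · exact ⟨fun h' => h (h' ▸ hi), i, hi⟩
  · rintro ⟨h, i, hi⟩
    exact ⟨i, by rw [if_neg (by rw [hi]; simpa using h), hi]⟩

lemma blocks_merge (x : Lab n G) {r s : Fin n} (c : G) (hrs : r ≠ s) (hs : s ∈ blocks x) :
    blocks (fun i => mergeV r s c (x i)) = (blocks x).erase r := by
  ext t
  rw [mem_erase, mem_blocks, mem_blocks]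
  rw [mem_blocks] at hs
  constructor
  · rintro ⟨i, hi⟩
    rcases hx : x i with _ | ⟨u, a⟩
    · rw [hx] at hi; simp [mergeV] at hi
    · rw [hx] at hi
      simp only [mergeV] at hi
      split_ifs at hi with h
      · have : s = t := by simpa using hi
        exact ⟨this ▸ hrs.symm, this ▸ hs⟩
      · have : u = t := by simpa using hi
        exact ⟨this ▸ h, i, by rw [hx, ← this]; rfl⟩
  · rintro ⟨h, i, hi⟩
    obtain ⟨a, ha⟩ := blk_eq_some.1 hi
    exact ⟨i, by rw [ha]; simp [mergeV, h]⟩

lemma kill_le {x z : Lab n G} (h : Le x z) {r : Fin n} {i : Fin n} (hi : blk (x i) = some r)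
    (hz : z i = none) : Le (fun i => killV r (x i)) z := by
  have key : ∀ k, killV r (x k) = none → z k = none := by
    intro k hk
    unfold killV at hk
    split_ifs at hk with h1
    · obtain ⟨g, hg⟩ := exists_act (h1.trans hi.symm)
      rw [h.2 k i g hg, hz]; rfl
    · exact h.1 k hk
  refine ⟨key, fun k l g hkl => ?_⟩
  by_cases h1 : killV r (x l) = none
  · have h2 : killV r (x k) = none := by simp only [hkl, h1]; rfl
    rw [key k h2, key l h1]; rfl
  · have h2 : killV r (x k) ≠ none := by
      simp only [hkl]; exact fun h' => h1 (act_eq_none.1 h')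
    have h3 : ∀ a : Option (Fin n × G), killV r a ≠ none → killV r a = a := fun a ha => by
      unfold killV at ha ⊢; split_ifs at ha ⊢
      · exact absurd rfl ha
      · rfl
    simp only [h3 _ h1, h3 _ h2] at hkl
    exact h.2 k l g hkl

lemma merge_le {x z : Lab n G} (h : Le x z) {r s i j : Fin n} {a b g : G}
    (hi : x i = some (r, a)) (hj : x j = some (s, b)) (hz : z i = act g (z j)) :
    Le (fun k => mergeV r s (a⁻¹ * g * b) (x k)) z := by
  have key : ∀ k c, mergeV r s (a⁻¹ * g * b) (x k) = some (s, c) → z k = act (c * b⁻¹) (z j) := by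
    intro k c hk
    rcases hx : x k with _ | ⟨u, d⟩
    · rw [hx] at hk; simp [mergeV] at hk
    · rw [hx] at hk
      simp only [mergeV] at hk
      split_ifs at hk with h1
      · have h2 : d * (a⁻¹ * g * b) = c := by simpa using hk
        rw [h.2 k i (d * a⁻¹) (by rw [hx, hi, h1]; simp), hz, act_act, ← h2]
        congr 1; group
      · have h2 : u = s ∧ d = c := by simpa using hk
        exact h.2 k j _ (by rw [hx, hj, h2.1, h2.2]; simp)
  have k0 : ∀ k, mergeV r s (a⁻¹ * g * b) (x k) = none → x k = none := by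
    intro k hk
    rcases hx : x k with _ | ⟨u, d⟩
    · rfl
    · rw [hx] at hk; simp only [mergeV] at hk; split_ifs at hk
  have k1 : ∀ k u d, u ≠ s → mergeV r s (a⁻¹ * g * b) (x k) = some (u, d) → x k = some (u, d) := by
    intro k u d hu hk
    rcases hx : x k with _ | ⟨v, e⟩
    · rw [hx] at hk; simp [mergeV] at hk
    · rw [hx] at hk; simp only [mergeV] at hk
      split_ifs at hk with h1
      · exact absurd (congrArg Prod.fst (Option.some.inj hk)).symm hu
      · exact hk
  refine ⟨fun k hk => h.1 k (k0 k hk), fun k l e hkl => ?_⟩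
  rcases hl : mergeV r s (a⁻¹ * g * b) (x l) with _ | ⟨u, d⟩
  · simp only [hl, act_none] at hkl
    rw [h.1 k (k0 k hkl), h.1 l (k0 l hl)]; rfl
  · simp only [hl, act_some] at hkl
    by_cases hu : u = s
    · subst hu
      rw [key k _ hkl, key l _ hl, act_act, mul_assoc]
    · exact h.2 k l e (by rw [k1 k _ _ hu hkl, k1 l _ _ hu hl]; rfl)

lemma step_lab (x : Lab n G) (e : Ground n G) (he : e ∉ flatOf x) :
    ∃ y : Lab n G, Le x y ∧ e ∈ flatOf y ∧ #(blocks y) + 1 = #(blocks x) ∧
      ∀ z, Le x z → e ∈ flatOf z → Le y z := by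
  have kl : ∀ r i, blk (x i) = some r → #(blocks fun i => killV r (x i)) + 1 = #(blocks x) :=
    fun r i hi => by
      rw [blocks_kill, card_erase_add_one (mem_blocks.2 ⟨i, hi⟩)]
  rcases e with i | ⟨⟨⟨i, j⟩, hij⟩, g⟩
  · rcases hx : x i with _ | ⟨r, a⟩
    · exact absurd hx he
    · have hi : blk (x i) = some r := by rw [hx]; rfl
      exact ⟨_, le_kill x r, (if_pos hi : killV r (x i) = none), kl r i hi,
        fun z hz hez => kill_le hz hi hez⟩
  · have he' : x i ≠ act g (x j) := he
    rcases hi : x i with _ | ⟨r, a⟩ <;> rcases hj : x j with _ | ⟨s, b⟩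
    · rw [hi, hj] at he'; exact absurd rfl he'
    · have h1 : blk (x j) = some s := by rw [hj]; rfl
      refine ⟨_, le_kill x s, ?_, kl s j h1, fun z hz hez => kill_le hz h1 ?_⟩
      · change killV s (x i) = act g (killV s (x j))
        rw [hi, hj]; simp [killV]
      · have h2 : z i = act g (z j) := hez
        rw [hz.1 i hi] at h2
        exact act_eq_none.1 h2.symm
    · have h1 : blk (x i) = some r := by rw [hi]; rfl
      refine ⟨_, le_kill x r, ?_, kl r i h1, fun z hz hez => kill_le hz h1 ?_⟩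
      · change killV r (x i) = act g (killV r (x j))
        rw [hi, hj]; simp [killV]
      · have h2 : z i = act g (z j) := hez
        rw [h2, hz.1 j hj]; rfl
    · by_cases hrs : r = s
      · subst hrs
        have h1 : blk (x j) = some r := by rw [hj]; rfl
        refine ⟨_, le_kill x r, ?_, kl r j h1, fun z hz hez => kill_le hz h1 ?_⟩
        · change killV r (x i) = act g (killV r (x j))
          rw [hi, hj]; simp [killV]
        · have h2 : z i = act g (z j) := hez
          have h3 := hz.2 i j (a * b⁻¹) (by rw [hi, hj]; simp)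
          rcases hz' : z j with _ | ⟨t, c⟩
          · rfl
          · rw [h2, hz'] at h3
            have h4 : g = a * b⁻¹ := by simpa using h3
            rw [hi, hj, h4] at he'; simp at he'
      · refine ⟨_, le_merge x r s (a⁻¹ * g * b), ?_, ?_, fun z hz hez => merge_le hz hi hj hez⟩
        · change mergeV r s _ (x i) = act g (mergeV r s _ (x j))
          rw [hi, hj]; simp [mergeV, Ne.symm hrs, mul_assoc]
        · rw [blocks_merge x _ hrs (mem_blocks.2 ⟨j, by rw [hj]; rfl⟩),
            card_erase_add_one (mem_blocks.2 ⟨i, by rw [hi]; rfl⟩)]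

omit [Group G] in
lemma card_blocks_le (x : Lab n G) : #(blocks x) ≤ n := by
  simpa using card_le_univ (blocks x)

open Classical in
/-- the rank of a Dowling flat -/
noncomputable def rho (F : Set (Ground n G)) : ℕ :=
  if h : ∃ x : Lab n G, F = flatOf x then n - #(blocks h.choose) else 0

lemma rho_flatOf (x : Lab n G) : rho (flatOf x) = n - #(blocks x) := by
  have h : ∃ y : Lab n G, flatOf x = flatOf y := ⟨x, rfl⟩
  rw [rho, dif_pos h]
  have h1 := (flatOf_subset_iff.1 h.choose_spec.le).card_blocks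
  have h2 := (flatOf_subset_iff.1 h.choose_spec.ge).card_blocks
  omega

lemma clSys : ClSys {F : Set (Ground n G) | ∃ x, F = flatOf x} rho := by
  refine ⟨⟨_, ⟨fun i => some (i, 1), rfl⟩, ?_, ?_⟩, ?_, ?_⟩
  · rw [rho_flatOf]
    have : blocks (fun i : Fin n => some (i, (1 : G))) = univ := by
      ext r; simp [blocks]
    rw [this]; simp
  · rintro _ ⟨y, rfl⟩
    refine flatOf_subset_iff.2 ⟨fun i hi => by simp at hi, fun i j g h => ?_⟩
    have : i = j ∧ 1 = g := by simpa using h
    rw [this.1, ← this.2, act_one]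
  · rintro _ ⟨x, rfl⟩ e he
    obtain ⟨y, h1, h2, h3, h4⟩ := step_lab x e he
    refine ⟨_, ⟨y, rfl⟩, flatOf_subset_iff.2 h1, h2, ?_, ?_⟩
    · rw [rho_flatOf, rho_flatOf]
      have := card_blocks_le x
      omega
    · rintro _ ⟨z, rfl⟩ h5 h6
      exact flatOf_subset_iff.2 (h4 z (flatOf_subset_iff.1 h5) h6)
  · rintro _ ⟨x, rfl⟩ _ ⟨y, rfl⟩ h
    rw [rho_flatOf, rho_flatOf]
    have := (flatOf_subset_iff.1 h).card_blocks
    omega

theorem exists_dowling [Finite G] : ∃ M : Matroid (Ground n G), IsDowling M := by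
  obtain ⟨M, h1, h2, -⟩ := (clSys (n := n) (G := G)).exists_matroid
  exact ⟨M, h1, h2⟩

theorem IsDowling.rank [Finite G] {M : Matroid (Ground n G)} (h : IsDowling M) (x : Lab n G) :
    (M.eRk (flatOf x)).toNat = n - #(blocks x) := by
  obtain ⟨N, h1, h2, h3⟩ := (clSys (n := n) (G := G)).exists_matroid
  have : M = N := ext_flats (h.1.trans h1.symm) fun F => (h.2 F).trans (h2 F).symm
  rw [this, h3 _ ⟨x, rfl⟩, ENat.toNat_natCast, rho_flatOf]

/-- normalised labellings -/
def Norm (x : Lab n G) : Prop := ∀ i r h, x i = some (r, h) → r ≤ i ∧ x r = some (r, 1)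

lemma norm_unique {x y : Lab n G} (hx : Norm x) (hy : Norm y) (h1 : Le x y) (h2 : Le y x) :
    x = y := by
  funext i
  rcases hi : x i with _ | ⟨r, a⟩
  · exact (h1.1 i hi).symm
  · have h3 := (hx i r a hi).2
    have h4 := h1.2 i r a (by rw [hi, h3]; simp)
    rcases hr : y r with _ | ⟨s, b⟩
    · rw [h2.1 r hr] at h3; simp at h3
    · obtain ⟨h5, h6⟩ := hy r s b hr
      have h7 := act_inv (h2.2 r s b (by rw [hr, h6]; simp))
      rw [h3, act_some] at h7
      have h8 : r = s := le_antisymm (hx s r _ h7).1 h5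
      subst h8
      rw [h4, h6]; simp

lemma exists_norm (x : Lab n G) : ∃ y, Norm y ∧ Le x y ∧ Le y x := by
  have key : ∀ r : Fin n, ∃ p : Fin n × G, ∀ i h, x i = some (r, h) →
      p.1 ≤ i ∧ x p.1 = some (r, p.2) := by
    intro r
    by_cases hne : (univ.filter fun i => blk (x i) = some r).Nonempty
    · obtain ⟨a, ha⟩ := blk_eq_some.1 (mem_filter.1 (min'_mem _ hne)).2
      exact ⟨(_, a), fun i h hi => ⟨min'_le _ _ (mem_filter.2 ⟨mem_univ _, by rw [hi]; rfl⟩), ha⟩⟩
    · exact ⟨(r, 1), fun i h hi => absurd ⟨i, mem_filter.2 ⟨mem_univ _, by rw [hi]; rfl⟩⟩ hne⟩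
  choose p hp using key
  refine ⟨fun i => (x i).map fun q => ((p q.1).1, q.2 * (p q.1).2⁻¹), ?_, ?_, ?_, ?_⟩
  · intro i r h hi
    rcases hx : x i with _ | ⟨s, a⟩
    · simp [hx] at hi
    · have h1 : (p s).1 = r ∧ a * (p s).2⁻¹ = h := by simpa [hx] using hi
      obtain ⟨h2, h3⟩ := hp s i a hx
      refine ⟨h1.1 ▸ h2, ?_⟩
      rw [← h1.1]; simp [h3]
  · refine le_comp x (fun a => a.map fun q => ((p q.1).1, q.2 * (p q.1).2⁻¹)) rfl fun g a => ?_
    rcases a with _ | ⟨s, a⟩
    · rfl
    · simp [mul_assoc]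
  · intro i hi; simpa using hi
  · intro i j g hij
    rcases hi : x i with _ | ⟨r, a⟩ <;> rcases hj : x j with _ | ⟨s, b⟩
    · rfl
    · simp [hi, hj] at hij
    · simp [hi, hj] at hij
    · have h1 : (p r).1 = (p s).1 ∧ a * (p r).2⁻¹ = g * (b * (p s).2⁻¹) := by
        simpa [hi, hj] using hij
      have h2 := (hp r i a hi).2
      have h3 := (hp s j b hj).2
      rw [h1.1, h3] at h2
      have h4 : s = r ∧ (p s).2 = (p r).2 := by simpa using h2
      obtain ⟨rfl, -⟩ := h4
      have h5 : a = g * b := by simpa [← mul_assoc] using h1.2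
      rw [h5]; rfl

end Pool.Agent.Lib.MP_147f4d_co
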