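import Pool.Agent.Lib.MP_147f4d_co.Sums
import Pool.Agent.Lib.MP_147f4d_co.KLS

namespace Pool.Agent.Lib.MP_147f4d_co

open Finset Polynomial

variable {n : ℕ} {G : Type} [Group G] [Fintype G] {M : Matroid (Ground n G)}

omit [Fintype G] in
lemma IsDowling.exists_lab (h : IsDowling M) (F : Flat M) :
    ∃ x : Lab n G, Norm x ∧ F.1 = flatOf x := by
  obtain ⟨x, hx⟩ := (h.2 F.1).1 F.2
  obtain ⟨y, h1, h2, h3⟩ := exists_norm x
  exact ⟨y, h1, hx.trans ((flatOf_subset_iff.2 h2).antisymm (flatOf_subset_iff.2 h3))⟩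

lemma IsDowling.cand (h : IsDowling M) : ∃ lab : Flat M → Lab n G,
    (∀ F, F.1 = flatOf (lab F)) ∧ Cand (flatRank M) (fun F => wt (lab F)) := by
  classical
  choose lab hN hF using h.exists_lab
  have hrk : ∀ F, flatRank M F = n - #(blocks (lab F)) := fun F => by
    rw [flatRank, hF F, h.rank]
  have hle : ∀ F H : Flat M, F ≤ H ↔ Le (lab F) (lab H) := fun F H => by
    rw [← flatOf_subset_iff, ← hF, ← hF]; rfl
  refine ⟨lab, hF, fun F H hFH => ?_, fun H h0 F hFH => ?_, fun H h0 => ?_, fun H => ?_,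
    fun H => ?_⟩
  · rw [hrk, hrk]
    have := ((hle F H).1 hFH).card_blocks
    omega
  · refine le_antisymm hFH fun e he => ?_
    by_contra he'
    rw [hF F] at he'
    obtain ⟨y, -, -, h3, h4⟩ := step_lab (lab F) e he'
    have h5 := (h4 (lab H) ((hle F H).1 hFH) (hF H ▸ he)).card_blocks
    have h6 := card_blocks_le (lab F)
    rw [hrk] at h0
    omega
  · exact wt_one _ (hrk H ▸ h0)
  · rw [hrk]; exact sym_wt _
  · have : ∑ F ∈ univ.filter (fun F => F ≤ H), wt (lab F) =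
        ∑ y ∈ univ.filter (fun y => Norm y ∧ Le y (lab H)), wt y := by
      refine sum_bij (fun F _ => lab F) (fun F hF' => ?_) (fun F _ F' _ hFF => ?_)
        (fun y hy => ?_) fun _ _ => rfl
      · rw [mem_filter] at hF' ⊢
        exact ⟨mem_univ _, hN F, (hle F H).1 hF'.2⟩
      · exact Subtype.ext (by rw [hF F, hF F', hFF])
      · rw [mem_filter] at hy
        have h1 : lab ⟨flatOf y, (h.2 _).2 ⟨y, rfl⟩⟩ = y := by
          have h2 := hF ⟨flatOf y, (h.2 _).2 ⟨y, rfl⟩⟩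
          exact norm_unique (hN _) hy.2.1 (flatOf_subset_iff.1 h2.ge) (flatOf_subset_iff.1 h2.le)
        refine ⟨⟨flatOf y, (h.2 _).2 ⟨y, rfl⟩⟩, ?_, h1⟩
        rw [mem_filter, hle, h1]
        exact ⟨mem_univ _, hy.2.2⟩
    rw [this, hrk]
    exact hw_sum_wt _

lemma IsDowling.invZ_eq (h : IsDowling M) {Q : Flat M → ℤ[X]} (hQ : IsInvKL (flatRank M) Q)
    (i : ℕ) : (((invZ (flatRank M) Q ⟨M.E, M.ground_isFlat⟩).coeff i : ℤ) : ℚ) =
      (n.factorial * (Fintype.card G : ℚ) ^ n) *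
        (PowerSeries.coeff n (dd (1 / (Fintype.card G : ℚ)))).coeff i := by
  obtain ⟨lab, hF, c⟩ := h.cand
  set T : Flat M := ⟨M.E, M.ground_isFlat⟩ with hT
  have h0 : ∀ j, lab T j = none := fun j => by
    have h1 : (Sum.inl j : Ground n G) ∈ T.1 := by
      change _ ∈ M.E
      rw [h.1]; trivial
    rw [hF T] at h1
    exact h1
  have hb : blocks (lab T) = ∅ := by
    ext r; simp [mem_blocks, h0]
  have hrk : flatRank M T = n := by rw [flatRank, hF T, h.rank, hb]; simp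
  have h1 := c.eq_hatY hQ T
  have h2 : wt (lab T) = DD (Fintype.card G) n := by
    have h3 : fib (lab T) none = univ := by ext j; simp [mem_fib, h0]
    have h4 : ∀ r, fib (lab T) (some r) = ∅ := fun r => by ext j; simp [mem_fib, h0]
    simp [wt, WW, h3, h4, kap]
  have h3 := congrArg (fun p => p.coeff i) h1
  simp only [coeff_map, h2, DD, coeff_smul, smul_eq_mul, eq_intCast] at h3
  have h4 : invZ (flatRank M) Q T = C ((-1) ^ n) * hatY (flatRank M) Q T := by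
    rw [invZ, hatY, neg_one_pow_eq_C, hrk]
  rw [h4, coeff_C_mul]
  push_cast
  rw [h3, neg_pow (Fintype.card G : ℚ)]
  have h5 : ((-1 : ℚ) ^ n) * (-1) ^ n = 1 := by rw [← mul_pow]; simp
  linear_combination (n.factorial * (Fintype.card G : ℚ) ^ n *
    (PowerSeries.coeff n (dd (1 / (Fintype.card G : ℚ)))).coeff i) * h5

theorem IsDowling.main (h : IsDowling M) :
    (∃! Q, IsInvKL (flatRank M) Q) ∧ ∀ Q, IsInvKL (flatRank M) Q →
      (invZ (flatRank M) Q ⟨M.E, M.ground_isFlat⟩).natDegree = n ∧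
      (∀ i ≤ n, 0 < (invZ (flatRank M) Q ⟨M.E, M.ground_isFlat⟩).coeff i) ∧
      ∀ i, (invZ (flatRank M) Q ⟨M.E, M.ground_isFlat⟩).coeff i *
          (invZ (flatRank M) Q ⟨M.E, M.ground_isFlat⟩).coeff (i + 2) ≤
        (invZ (flatRank M) Q ⟨M.E, M.ground_isFlat⟩).coeff (i + 1) ^ 2 := by
  have hm : (1 : ℚ) ≤ Fintype.card G := by exact_mod_cast Fintype.card_pos
  have hθ : (0 : ℚ) < 1 / (Fintype.card G : ℚ) := by positivity
  have hθ1 : 1 / (Fintype.card G : ℚ) ≤ 1 := by rw [div_le_one (by positivity)]; exact hm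
  have hc : (0 : ℚ) < n.factorial * (Fintype.card G : ℚ) ^ n := by positivity
  refine ⟨?_, fun Q hQ => ?_⟩
  · obtain ⟨lab, -, c⟩ := h.cand
    obtain ⟨Q, hQ⟩ := c.exists_Q
    exact ⟨Q, hQ, fun Q' hQ' => c.unique hQ' hQ⟩
  have hpos : ∀ i ≤ n, 0 < (invZ (flatRank M) Q ⟨M.E, M.ground_isFlat⟩).coeff i := fun i hi => by
    have h1 := mul_pos hc (dd_pos hθ n i hi)
    rw [← h.invZ_eq hQ] at h1
    exact_mod_cast h1
  refine ⟨le_antisymm (natDegree_le_iff_coeff_eq_zero.2 fun i hi => ?_)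
    (le_natDegree_of_ne_zero (hpos n le_rfl).ne'), hpos, fun i => ?_⟩
  · have h1 := h.invZ_eq hQ i
    rw [(sym_dd _ n).hi i hi, mul_zero] at h1
    exact_mod_cast h1
  · have h1 := mul_le_mul_of_nonneg_left (dd_lc hθ hθ1 n i)
      (sq_nonneg (n.factorial * (Fintype.card G : ℚ) ^ n))
    have h2 : (((invZ (flatRank M) Q ⟨M.E, M.ground_isFlat⟩).coeff i : ℤ) : ℚ) *
          ((invZ (flatRank M) Q ⟨M.E, M.ground_isFlat⟩).coeff (i + 2) : ℤ) ≤
        (((invZ (flatRank M) Q ⟨M.E, M.ground_isFlat⟩).coeff (i + 1) : ℤ) : ℚ) ^ 2 := by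
      rw [h.invZ_eq hQ, h.invZ_eq hQ, h.invZ_eq hQ]
      nlinarith
    exact_mod_cast h2

end Pool.Agent.Lib.MP_147f4d_co
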