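import Pool.Agent.Lib.MP_147f4d_co.SplitProd

namespace Pool.Agent.Lib.MP_147f4d_co.Split

open Polynomial Finset

/-- the inequalities satisfied by the signed sum over the flats of rank below `k` -/
structure Cone (k : ℕ) (p : ℚ[X]) : Prop where
  nn : Nn p
  hi : ∀ i, k ≤ i → p.coeff i = 0
  low : ∀ i, 2 * (i + 1) ≤ k → ((k : ℚ) - 1 - i) * p.coeff i ≤ (i + 1) * p.coeff (i + 1)
  up : ∀ i, 2 * (i + 1) ≤ k → ((i : ℚ) + 1) * p.coeff (i + 1) ≤ (k - i) * p.coeff i
  th : ∀ i j, i + j + 1 = k → i ≤ j → p.coeff i ≤ p.coeff j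
  qn : ∀ i j, i + j = k → i ≤ j → p.coeff j ≤ p.coeff i

lemma Cone.add {k : ℕ} {p q : ℚ[X]} (hp : Cone k p) (hq : Cone k q) : Cone k (p + q) := by
  refine ⟨hp.nn.add hq.nn, fun i h => ?_, fun i h => ?_, fun i h => ?_, fun i j h h' => ?_,
    fun i j h h' => ?_⟩ <;> simp only [coeff_add]
  · rw [hp.hi i h, hq.hi i h, add_zero]
  · linarith [hp.low i h, hq.low i h]
  · linarith [hp.up i h, hq.up i h]
  · linarith [hp.th i j h h', hq.th i j h h']
  · linarith [hp.qn i j h h', hq.qn i j h h']

lemma cone_zero (k : ℕ) : Cone k 0 :=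
  ⟨fun _ => by simp, fun _ _ => by simp, fun _ _ => by simp, fun _ _ => by simp,
    fun _ _ _ _ => by simp, fun _ _ _ _ => by simp⟩

lemma cone_one : Cone 1 1 :=
  ⟨fun i => by rw [coeff_one]; split_ifs <;> norm_num, fun i h => by rw [coeff_one, if_neg (by omega)],
    fun i h => by omega, fun i h => by omega, fun i j h h' => by rw [show i = j by omega],
    fun i j h h' => by
      rw [show i = 0 by omega, show j = 1 by omega]; simp [coeff_one]⟩

lemma coeff_step_zero (p : ℚ[X]) : ((1 + X) * p).coeff 0 = p.coeff 0 := by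
  rw [add_mul, one_mul, coeff_add, coeff_X_mul_zero, add_zero]

lemma coeff_step (p : ℚ[X]) (i : ℕ) : ((1 + X) * p).coeff (i + 1) = p.coeff (i + 1) + p.coeff i := by
  rw [add_mul, one_mul, coeff_add, coeff_X_mul]

lemma Cone.step {k : ℕ} {p : ℚ[X]} (h : Cone k p) : Cone (k + 1) ((1 + X) * p) := by
  refine ⟨fun i => ?_, fun i hi => ?_, fun i hi => ?_, fun i hi => ?_, fun i j hij hle => ?_,
    fun i j hij hle => ?_⟩
  · have := (nn_pw 1).mul h.nn i
    rwa [pow_one] at this
  · obtain ⟨i, rfl⟩ : ∃ l, i = l + 1 := ⟨i - 1, by omega⟩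
    rw [coeff_step, h.hi _ (by omega), h.hi _ (by omega), add_zero]
  · by_cases h1 : 2 * (i + 1) ≤ k
    · have a1 := h.low i h1
      rcases i with _ | i
      · rw [coeff_step, coeff_step_zero]; push_cast at a1 ⊢; linarith
      · have a2 := h.low i (by omega)
        rw [coeff_step, coeff_step]; push_cast at a1 ⊢; linarith
    · have e : (k : ℚ) = 2 * i + 1 := by exact_mod_cast (by omega : k = 2 * i + 1)
      rcases i with _ | i
      · rw [coeff_step, coeff_step_zero]; push_cast at e ⊢; rw [e]; linarith [h.nn (0 + 1)]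
      · have a2 := h.th i (i + 1 + 1) (by omega) (by omega)
        have a3 : (0 : ℚ) ≤ i + 2 := by positivity
        rw [coeff_step, coeff_step]; push_cast at e ⊢; rw [e]; nlinarith
  · have a1 : ((i : ℚ) + 1) * p.coeff (i + 1) ≤ (k - i) * p.coeff i := by
      by_cases h1 : 2 * (i + 1) ≤ k
      · exact h.up i h1
      · have e : (k : ℚ) - i = i + 1 := by
          have : (k : ℚ) = 2 * i + 1 := by exact_mod_cast (by omega : k = 2 * i + 1)
          linarith
        rw [e]
        exact mul_le_mul_of_nonneg_left (h.qn i (i + 1) (by omega) (by omega)) (by positivity)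
    rcases i with _ | i
    · rw [coeff_step, coeff_step_zero]; push_cast at a1 ⊢; linarith
    · have a2 := h.up i (by omega)
      rw [coeff_step, coeff_step]; push_cast at a1 ⊢; linarith
  · rcases hle.eq_or_lt with rfl | hlt
    · exact le_rfl
    obtain ⟨j, rfl⟩ : ∃ l, j = l + 1 := ⟨j - 1, by omega⟩
    have a1 := h.th i j (by omega) (by omega)
    rcases i with _ | i
    · rw [coeff_step, coeff_step_zero]; linarith [h.nn (j + 1)]
    · have a2 := h.th i (j + 1) (by omega) (by omega)
      rw [coeff_step, coeff_step]; linarith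
  · rcases hle.eq_or_lt with rfl | hlt
    · exact le_rfl
    obtain ⟨j, rfl⟩ : ∃ l, j = l + 1 := ⟨j - 1, by omega⟩
    have a1 := h.qn i j (by omega) (by omega)
    rcases i with _ | i
    · rw [coeff_step, coeff_step_zero, h.hi (j + 1) (by omega)]; linarith
    · have a2 := h.qn i (j + 1) (by omega) (by omega)
      rw [coeff_step, coeff_step]; linarith

lemma Cone.le_pal {k : ℕ} {p : ℚ[X]} (h : Cone k p) (i : ℕ) : p.coeff i ≤ (pal k p).coeff i := by
  rw [coeff_pal]
  split_ifs with h1
  · by_cases h2 : 2 * i ≤ k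
    · rw [min_eq_left (by omega)]
    · rw [min_eq_right (by omega)]; exact h.qn _ _ (by omega) (by omega)
  · rw [h.hi i (by omega)]

lemma Cone.top {k : ℕ} {p : ℚ[X]} (h : Cone k p) : Cone (k + 1) (pal k p - p + (1 + X) * p) := by
  have hs := h.step
  have ge : ∀ i, ((1 + X) * p).coeff i ≤ (pal k p - p + (1 + X) * p).coeff i := fun i => by
    rw [coeff_add, coeff_sub]; linarith [h.le_pal i]
  have eq : ∀ i, 2 * i ≤ k → (pal k p - p + (1 + X) * p).coeff i = ((1 + X) * p).coeff i :=
    fun i hi => by rw [coeff_add, coeff_sub, coeff_pal_low _ hi, sub_self, zero_add]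
  have hi' : ∀ i j, i + j = k → i ≤ j + 1 →
      (pal k p - p + (1 + X) * p).coeff (j + 1) = ((1 + X) * p).coeff i - p.coeff i + p.coeff j := by
    intro i j hij hle
    rw [coeff_add, coeff_sub, coeff_step, coeff_pal]
    rcases i with _ | i
    · rw [if_neg (by omega), coeff_step_zero]; ring
    · rw [if_pos (by omega), coeff_step, show min (j + 1) (k - (j + 1)) = i by omega]; ring
  refine ⟨fun i => (hs.nn i).trans (ge i), fun i hi => ?_, fun i hi => ?_, fun i hi => ?_,
    fun i j hij hle => ?_, fun i j hij hle => ?_⟩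
  · rw [coeff_add, coeff_sub, hs.hi i hi, h.hi i (by omega), (sym_pal k p).hi i (by omega)]; ring
  · rw [eq i (by omega)]
    exact (hs.low i hi).trans (mul_le_mul_of_nonneg_left (ge _) (by positivity))
  · rw [eq i (by omega)]
    by_cases h1 : 2 * (i + 1) ≤ k
    · rw [eq _ h1]; exact hs.up i hi
    have e : (k : ℚ) = 2 * i + 1 := by exact_mod_cast (by omega : k = 2 * i + 1)
    rw [hi' (i + 1) i (by omega) (by omega), coeff_step]
    rcases i with _ | i
    · rw [coeff_step_zero]; push_cast at e ⊢; rw [e]; linarith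
    · have a2 := h.up i (by omega)
      rw [coeff_step]; push_cast at e ⊢; rw [e] at a2 ⊢; linarith
  · rw [eq i (by omega)]
    exact (hs.th i j hij hle).trans (ge j)
  · rcases hle.eq_or_lt with rfl | hlt
    · exact le_rfl
    obtain ⟨j, rfl⟩ : ∃ l, j = l + 1 := ⟨j - 1, by omega⟩
    rw [hi' i j (by omega) (by omega), eq i (by omega)]
    linarith [h.qn i j (by omega) (by omega)]

lemma Cone.lc {k : ℕ} {p : ℚ[X]} (h : Cone k p) (h0 : 0 < p.coeff 0) :
    (∀ i ≤ k, 0 < (pal k p).coeff i) ∧
      ∀ i, (pal k p).coeff i * (pal k p).coeff (i + 2) ≤ (pal k p).coeff (i + 1) ^ 2 := by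
  refine lc_of_window (sym_pal _ _) ?_ (fun i hi => ?_) (fun i hi => ?_) fun i hi => ?_
  · rwa [coeff_pal_low _ (by omega)]
  · rw [coeff_pal_low _ (by omega), coeff_pal_low _ hi]
    linarith [h.low i hi, h.nn i]
  · rw [coeff_pal_low _ (by omega), coeff_pal_low _ hi.le]
    have h1 := h.low i hi.le
    have e : (k : ℚ) - 1 - i = i + 1 := by
      have : (k : ℚ) = 2 * (i + 1) := by exact_mod_cast hi.symm
      linarith
    rw [e] at h1
    exact le_of_mul_le_mul_left h1 (by positivity)
  · rw [coeff_pal_low (j := i) _ (by omega), coeff_pal_low _ hi]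
    exact h.up i hi

end Pool.Agent.Lib.MP_147f4d_co.Split
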