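import Pool.Agent.Lib.MP_147f4d_co.Defs

namespace Pool.Agent.Lib.MP_147f4d_co.Split

/-- Nested matroids (Schubert matroids): there is a chain of sets `H 0 ⊆ H 1 ⊆ ⋯` with capacities
`r a` such that the independent sets are the subsets `X` of the ground set with
`|X ∩ H a| ≤ r a` for all `a`. -/
def IsNested {α : Type} (M : Matroid α) : Prop :=
  ∃ (q : ℕ) (H : Fin q → Set α) (r : Fin q → ℕ), Monotone H ∧
    ∀ X, M.Indep X ↔ X ⊆ M.E ∧ ∀ a, (X ∩ H a).ncard ≤ r a

end Pool.Agent.Lib.MP_147f4d_co.Split
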