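import Pool.Agent.Lib.MP_147f4d_co.NestCone
import Pool.Agent.Lib.MP_147f4d_co.NestDefs

namespace Pool.Agent.Lib.MP_147f4d_co.Split

open Polynomial Finset

variable {α : Type} [Finite α] {M N : Matroid α}

/-- the ground set as a flat -/
abbrev tp (M : Matroid α) : Flat M := ⟨M.E, M.ground_isFlat⟩

omit [Finite α] in
lemma le_tp (F : Flat M) : F ≤ tp M := F.2.subset_ground

lemma cast_rank (F : Flat M) : (flatRank M F : ℕ∞) = M.eRk F.1 :=
  ENat.natCast_toNat (Matroid.eRk_ne_top_iff.2 (M.isRkFinite_set _))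

lemma eq_tp {F : Flat M} (h : flatRank M (tp M) ≤ flatRank M F) : F = tp M := by
  have h1 := (M.isRkFinite_set F.1).closure_eq_closure_of_subset_of_eRk_ge_eRk (Y := M.E)
    F.2.subset_ground (by
      rw [← cast_rank F, ← cast_rank (tp M)]; exact_mod_cast h)
  rw [F.2.closure, M.closure_ground] at h1
  exact Subtype.ext h1

/-- signed sum over the flats of rank at most `j` -/
noncomputable def low (M : Matroid α) (Y : Flat M → ℚ[X]) (j : ℕ) : ℚ[X] :=
  C ((-1) ^ j) * ∑ F, if flatRank M F ≤ j then Y F else 0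

lemma sum_tp {d : ℕ} (hk : flatRank M (tp M) = d + 1) (Y : Flat M → ℚ[X]) :
    ∑ F ∈ univ.filter (fun F => F ≤ tp M), Y F =
      Y (tp M) + ∑ F, if flatRank M F ≤ d then Y F else 0 := by
  rw [sum_le_split, ← sum_filter]
  congr 2
  refine filter_congr fun F _ => ⟨fun h => ?_, fun h => ⟨le_tp F, fun h1 => ?_⟩⟩
  · by_contra h1
    exact h.2 (eq_tp (by omega))
  · rw [h1] at h; omega

lemma sgn_sq (d : ℕ) : ((-1 : ℚ) ^ d) * (-1) ^ d = 1 := by rw [← mul_pow]; simp

lemma top_eq {Y : Flat M → ℚ[X]} (c : Cand (flatRank M) Y) {d : ℕ}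
    (hk : flatRank M (tp M) = d + 1) :
    Y (tp M) = C ((-1) ^ (d + 1)) * pal (d + 1) (low M Y d) := by
  have h1 : Sym (d + 1) (C ((-1) ^ (d + 1)) * pal (d + 1) (low M Y d)) := by
    rw [← smul_eq_C_mul]; exact (sym_pal _ _).smul _
  refine sub_eq_zero.1 (((hk ▸ c.sym (tp M)).sub h1).eq_zero fun i hi => ?_)
  have h2 := c.high (tp M) (by omega) i (by omega)
  rw [coeff_cc, sum_tp hk, coeff_add] at h2
  rw [coeff_cc, coeff_sub, coeff_C_mul, coeff_pal_low _ hi, low, coeff_C_mul, pow_succ]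
  linear_combination h2 + (∑ F, if flatRank M F ≤ d then Y F else 0).coeff i * sgn_sq d

/-- all truncations satisfy the cone inequalities -/
def Good2 (M : Matroid α) (k : ℕ) : Prop :=
  ∃ Y : Flat M → ℚ[X], Cand (flatRank M) Y ∧ flatRank M (tp M) = k ∧
    ∀ j < k, Cone (j + 1) (low M Y j) ∧ 0 < (low M Y j).coeff 0

lemma Good2.good {k : ℕ} (h : Good2 M k) : Good M k := by
  obtain ⟨Y, c, hk, h⟩ := h
  rcases k with _ | d
  · exact good_zero hk
  · exact ⟨Y, _, c, hk, top_eq c hk, (h d (by omega)).1.lc (h d (by omega)).2⟩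

lemma good2_zero (h : flatRank M (tp M) = 0) : Good2 M 0 := by
  obtain ⟨Y, -, c, -⟩ := good_zero h
  exact ⟨Y, c, h, fun j hj => by omega⟩

lemma cand_sum {h : Disjoint M.E N.E} {Y : Flat M → ℚ[X]} {Y' : Flat N → ℚ[X]}
    (c : Cand (flatRank M) Y) (c' : Cand (flatRank N) Y') :
    Cand (flatRank (M.disjointSum N h)) (fun F => Y (fl F) * Y' (fr F)) := by
  refine ⟨flatRank_mono _, flat_min _, fun G h0 => ?_, fun G => ?_, fun G => ?_⟩
  · rw [sum_rank] at h0
    rw [c.one _ (by omega), c'.one _ (by omega), one_mul]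
  · rw [sum_rank]; exact (c.sym _).mul (c'.sym _)
  · have e : ∑ F ∈ univ.filter (fun F => F ≤ G), Y (fl F) * Y' (fr F) =
        (∑ A ∈ univ.filter (fun A => A ≤ fl G), Y A) *
          ∑ B ∈ univ.filter (fun B => B ≤ fr G), Y' B := by
      rw [sum_mul_sum, ← sum_product']
      refine sum_nbij' (fun F => (fl F, fr F)) (fun x => fj h x.1 x.2) (fun F hF => ?_)
        (fun x hx => ?_) (fun F _ => fj_fl F) (fun x _ => Prod.ext (fl_fj _ _) (fr_fj _ _))
        fun _ _ => rfl
      · simp only [mem_product, mem_filter, mem_univ, true_and] at hF ⊢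
        exact ⟨Set.inter_subset_inter_left _ hF, Set.inter_subset_inter_left _ hF⟩
      · simp only [mem_product, mem_filter, mem_univ, true_and] at hx ⊢
        exact Set.union_subset (Set.Subset.trans hx.1 Set.inter_subset_left)
          (Set.Subset.trans hx.2 Set.inter_subset_left)
    rw [e, map_mul, sum_rank]
    exact (c.high _).mul (c'.high _)

lemma sum_pairs {h : Disjoint M.E N.E} (g : Flat M → Flat N → ℚ[X]) :
    ∑ F : Flat (M.disjointSum N h), g (fl F) (fr F) = ∑ B, ∑ A, g A B := by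
  rw [← sum_product_right']
  exact sum_nbij' (fun F => (fl F, fr F)) (fun x => fj h x.1 x.2) (fun _ _ => by simp)
    (fun _ _ => mem_univ _) (fun F _ => fj_fl F) (fun x _ => Prod.ext (fl_fj _ _) (fr_fj _ _))
    fun _ _ => rfl

/-- the empty flat of a coloop -/
def bt (e : α) : Flat (Matroid.freeOn {e}) :=
  ⟨∅, Matroid.isFlat_iff_closure_eq.2 (by simp)⟩

omit [Finite α] in
lemma rank_bt (e : α) : flatRank _ (bt e) = 0 := by simp [flatRank, bt]

omit [Finite α] in
lemma rank_tp_free (e : α) : flatRank _ (tp (Matroid.freeOn {e})) = 1 := by simp [flatRank]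

omit [Finite α] in
lemma free_cases {e : α} (B : Flat (Matroid.freeOn {e})) : B = bt e ∨ B = tp _ :=
  (Set.subset_singleton_iff_eq.1 B.2.subset_ground).imp Subtype.ext Subtype.ext

lemma sum_free {e : α} (g : Flat (Matroid.freeOn {e}) → ℚ[X]) : ∑ B, g B = g (bt e) + g (tp _) := by
  have h : bt e ≠ tp _ := fun h => by
    have := rank_bt e
    rw [h, rank_tp_free] at this
    omega
  rw [← sum_pair h]
  exact sum_congr (by ext B; simpa using free_cases B) fun _ _ => rfl

lemma cand_free (e : α) : Cand (flatRank (Matroid.freeOn {e})) (fun B => u ^ flatRank _ B) := by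
  refine ⟨flatRank_mono _, flat_min _, fun G h0 => by rw [h0, pow_zero], fun G => sym_u _,
    fun G h0 i hi => ?_⟩
  rcases free_cases G with rfl | rfl
  · rw [rank_bt] at h0; omega
  · rw [rank_tp_free] at hi
    rw [coeff_cc, filter_true_of_mem fun B _ => le_tp B, sum_free, rank_bt, rank_tp_free,
      show i = 0 by omega]
    simp [u]

theorem Good2.coloop {k : ℕ} {e : α} (h : Disjoint M.E (Matroid.freeOn {e}).E) (hM : Good2 M k) :
    Good2 (M.disjointSum (Matroid.freeOn {e}) h) (k + 1) := by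
  obtain ⟨Y, c, hk, hc⟩ := hM
  have t1 : fl (tp (M.disjointSum _ h)) = tp M := Subtype.ext (by
    change (M.disjointSum _ h).E ∩ M.E = M.E
    rw [Matroid.disjointSum_ground_eq, inter_left h le_rfl le_rfl])
  have t2 : fr (tp (M.disjointSum _ h)) = tp _ := Subtype.ext (by
    change (M.disjointSum _ h).E ∩ _ = _
    rw [Matroid.disjointSum_ground_eq, inter_right h le_rfl le_rfl])
  refine ⟨_, cand_sum c (cand_free e), by rw [sum_rank, t1, t2, hk, rank_tp_free], fun j hj => ?_⟩
  have e0 : ∀ j, ∑ F : Flat (M.disjointSum _ h),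
      (if flatRank _ F ≤ j then Y (fl F) * u ^ flatRank _ (fr F) else 0) =
      (∑ A, if flatRank M A ≤ j then Y A else 0) +
        u * ∑ A, if flatRank M A + 1 ≤ j then Y A else 0 := fun j => by
    simp only [sum_rank]
    rw [sum_pairs (fun A B => if flatRank M A + flatRank _ B ≤ j then Y A * u ^ flatRank _ B else 0),
      sum_free, rank_bt, rank_tp_free, mul_sum]
    simp [mul_comm]
  rcases j with _ | j
  · have e1 : low (M.disjointSum _ h) (fun F => Y (fl F) * u ^ flatRank _ (fr F)) 0 = low M Y 0 := by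
      rw [low, e0, low]; simp
    rw [e1]
    rcases k with _ | k
    · have e2 : low M Y 0 = 1 := by
        rw [low, Fintype.sum_eq_single (tp M) fun A hA => absurd (eq_tp (by omega)) hA,
          if_pos hk.le, c.one _ hk]
        simp
      rw [e2]; exact ⟨cone_one, by simp⟩
    · exact hc 0 (by omega)
  have e1 : low (M.disjointSum _ h) (fun F => Y (fl F) * u ^ flatRank _ (fr F)) (j + 1) =
      low M Y (j + 1) + (1 + X) * low M Y j := by
    rw [low, e0, low, low, u]
    simp only [Nat.add_le_add_iff_right, pow_succ, map_mul, map_neg, map_one]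
    ring
  rw [e1]
  obtain ⟨h1, h2⟩ := hc j (by omega)
  by_cases h3 : j + 1 < k
  · obtain ⟨h4, h5⟩ := hc (j + 1) h3
    exact ⟨h4.add h1.step, by rw [coeff_add, coeff_step_zero]; linarith⟩
  have hk' : flatRank M (tp M) = j + 1 := by omega
  have e2 : low M Y (j + 1) = pal (j + 1) (low M Y j) - low M Y j := by
    have h4 := sum_tp hk' Y
    rw [filter_true_of_mem fun B _ => le_tp B, top_eq c hk'] at h4
    rw [low, sum_congr rfl fun A _ => if_pos (hk' ▸ flatRank_mono M (le_tp A)), h4, mul_add,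
      ← mul_assoc, ← map_mul, sgn_sq, map_one, one_mul, sub_eq_add_neg]
    congr 1
    rw [low, pow_succ, map_mul, map_neg, map_one]; ring
  rw [e2]
  refine ⟨h1.top, ?_⟩
  rwa [coeff_add, coeff_sub, coeff_pal_low _ (by omega), sub_self, zero_add, coeff_step_zero]

/-- `N` is the truncation of `M` to rank `k` -/
structure Trunc (M N : Matroid α) (k : ℕ) : Prop where
  ground : N.E = M.E
  indep : ∀ Z, N.Indep Z ↔ M.Indep Z ∧ Z.ncard ≤ k

omit [Finite α] in
lemma Trunc.cl_indep {k : ℕ} (h : Trunc M N k) {I : Set α} (hI : M.Indep I) (hc : I.ncard < k) :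
    N.closure I = M.closure I := by
  ext e
  have := Set.ncard_insert_le e I
  rw [((h.indep I).2 ⟨hI, hc.le⟩).mem_closure_iff', hI.mem_closure_iff', h.ground, h.indep,
    and_iff_left (show (insert e I).ncard ≤ k by omega)]

lemma Trunc.eq {k : ℕ} (h : Trunc M N k) {Z : Set α} (hZ : Z ⊆ M.E)
    (hr : N.eRk Z < k ∨ M.eRk Z < k) : N.closure Z = M.closure Z ∧ N.eRk Z = M.eRk Z := by
  have key : ∃ I, N.IsBasis I Z ∧ M.IsBasis I Z ∧ I.ncard < k := by
    rcases hr with hr | hr
    · obtain ⟨I, hI⟩ := N.exists_isBasis Z (h.ground ▸ hZ)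
      have h1 := ((h.indep I).1 hI.indep).1
      rw [← hI.encard_eq_eRk, ← (Set.toFinite I).cast_ncard_eq, Nat.cast_lt] at hr
      exact ⟨I, hI, h1.isBasis_of_subset_of_subset_closure hI.subset
        (h.cl_indep h1 hr ▸ hI.subset_closure), hr⟩
    · obtain ⟨I, hI⟩ := M.exists_isBasis Z hZ
      rw [← hI.encard_eq_eRk, ← (Set.toFinite I).cast_ncard_eq, Nat.cast_lt] at hr
      exact ⟨I, ((h.indep I).2 ⟨hI.indep, hr.le⟩).isBasis_of_subset_of_subset_closure hI.subset
        ((h.cl_indep hI.indep hr).symm ▸ hI.subset_closure), hI, hr⟩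
  obtain ⟨I, h1, h2, h3⟩ := key
  exact ⟨by rw [← h1.closure_eq_closure, ← h2.closure_eq_closure, h.cl_indep h2.indep h3],
    by rw [← h1.encard_eq_eRk, ← h2.encard_eq_eRk]⟩

/-- closure of a flat of another matroid -/
def cl (M : Matroid α) {N : Matroid α} (F : Flat N) : Flat M := ⟨M.closure F.1, M.isFlat_closure _⟩

lemma Trunc.up {k : ℕ} (h : Trunc M N k) {F : Flat N} (hF : flatRank N F < k) :
    (cl M F).1 = F.1 ∧ flatRank M (cl M F) = flatRank N F := by
  have h1 := h.eq (h.ground ▸ F.2.subset_ground)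
    (Or.inl (by rw [← cast_rank]; exact_mod_cast hF))
  rw [F.2.closure] at h1
  exact ⟨h1.1.symm, by rw [flatRank, flatRank, h1.2, cl, Matroid.eRk_closure_eq]⟩

lemma Trunc.down {k : ℕ} (h : Trunc M N k) {A : Flat M} (hA : flatRank M A < k) :
    (cl N A).1 = A.1 ∧ flatRank N (cl N A) = flatRank M A := by
  have h1 := h.eq A.2.subset_ground (Or.inr (by rw [← cast_rank]; exact_mod_cast hA))
  rw [A.2.closure] at h1
  exact ⟨h1.1, by rw [flatRank, flatRank, ← h1.2, cl, Matroid.eRk_closure_eq]⟩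

lemma Trunc.sum_eq {k : ℕ} (h : Trunc M N k) (s : Finset (Flat N)) (t : Finset (Flat M))
    (hs : ∀ F ∈ s, flatRank N F < k) (ht : ∀ A ∈ t, flatRank M A < k)
    (hst : ∀ F A, F.1 = A.1 → flatRank N F = flatRank M A → (F ∈ s ↔ A ∈ t))
    (Y : Flat M → ℚ[X]) : ∑ F ∈ s, Y (cl M F) = ∑ A ∈ t, Y A := by
  refine sum_nbij' (cl M) (cl N) (fun F hF => ?_) (fun A hA => ?_) (fun F hF => ?_)
    (fun A hA => ?_) fun _ _ => rfl
  · exact (hst F _ (h.up (hs F hF)).1.symm (h.up (hs F hF)).2.symm).1 hF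
  · exact (hst _ A (h.down (ht A hA)).1 (h.down (ht A hA)).2).2 hA
  · have h1 := h.up (hs F hF)
    exact Subtype.ext ((h.down (h1.2 ▸ hs F hF)).1.trans h1.1)
  · have h1 := h.down (ht A hA)
    exact Subtype.ext ((h.up (h1.2 ▸ ht A hA)).1.trans h1.1)

theorem Good2.trunc {k l : ℕ} (h : Trunc M N k) (hM : Good2 M l) (hk : flatRank N (tp N) = k)
    (hl : k ≤ l) : Good2 N k := by
  rcases k with _ | d
  · exact good2_zero hk
  obtain ⟨Y, c, -, hc⟩ := hM
  have lt : ∀ F : Flat N, F ≠ tp N → flatRank N F < d + 1 := fun F hF => by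
    by_contra h1
    exact hF (eq_tp (by omega))
  set Z : Flat N → ℚ[X] := fun F =>
    if F = tp N then C ((-1) ^ (d + 1)) * pal (d + 1) (low M Y d) else Y (cl M F) with hZ
  have ZF : ∀ F, flatRank N F < d + 1 → Z F = Y (cl M F) := fun F hF =>
    if_neg fun h1 => by rw [h1] at hF; omega
  have e0 : ∀ j ≤ d, (∑ F, if flatRank N F ≤ j then Z F else 0) =
      ∑ A, if flatRank M A ≤ j then Y A else 0 := fun j hj => by
    rw [← sum_filter, ← sum_filter, sum_congr rfl fun F hF => ZF F (by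
      have := (mem_filter.1 hF).2; omega)]
    refine h.sum_eq _ _ (fun F hF => ?_) (fun F hF => ?_) (fun F A _ h1 => by simp [h1]) Y <;>
      have := (mem_filter.1 hF).2 <;> omega
  refine ⟨Z, ⟨flatRank_mono _, flat_min _, fun G h0 => ?_, fun G => ?_, fun G => ?_⟩, hk,
    fun j hj => ?_⟩
  · rw [ZF G (by omega), c.one _ ((h.up (by omega)).2.trans h0)]
  · by_cases hG : G = tp N
    · simp only [hZ, hG, if_true, hk]
      rw [← smul_eq_C_mul]; exact (sym_pal _ _).smul _
    · rw [ZF G (lt G hG), ← (h.up (lt G hG)).2]; exact c.sym _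
  · by_cases hG : G = tp N
    · intro _ i hi
      rw [hG, hk] at hi
      rw [coeff_cc, hG, sum_tp hk, e0 d le_rfl, coeff_add]
      simp only [hZ, if_true]
      rw [coeff_C_mul, coeff_pal_low _ hi, low, coeff_C_mul, pow_succ]
      linear_combination -(∑ F, if flatRank M F ≤ d then Y F else 0).coeff i * sgn_sq d
    · have h1 := lt G hG
      have h2 := h.up h1
      rw [sum_congr rfl fun F hF => ZF F ((flatRank_mono N (mem_filter.1 hF).2).trans_lt h1),
        h.sum_eq _ (univ.filter fun A => A ≤ cl M G)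
          (fun F hF => (flatRank_mono N (mem_filter.1 hF).2).trans_lt h1)
          (fun A hA => (flatRank_mono M (mem_filter.1 hA).2).trans_lt (h2.2 ▸ h1))
          (fun F A h3 _ => by
            simp only [mem_filter, mem_univ, true_and]
            change F.1 ⊆ G.1 ↔ A.1 ⊆ (cl M G).1
            rw [h3, h2.1]), ← h2.2]
      exact c.high _
  · rw [low, e0 j (by omega)]
    exact hc j (by omega)

theorem IsNested.good2 (h : IsNested M) : ∃ k, Good2 M k := by
  induction hn : M.E.ncard generalizing M with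
  | zero =>
    refine ⟨0, good2_zero ?_⟩
    rw [flatRank, show (tp M).1 = ∅ from (Set.ncard_eq_zero (Set.toFinite _)).1 hn]; simp
  | succ n ih =>
    obtain ⟨q, H, r, hH, hI⟩ := h
    obtain ⟨e, he, hmax⟩ : ∃ e ∈ M.E, ∀ a, e ∈ H a → M.E ⊆ H a := by
      by_cases h1 : ∃ a, ¬ M.E ⊆ H a
      · obtain ⟨a, ha, h2⟩ := Set.exists_max_image {a | ¬ M.E ⊆ H a} id (Set.toFinite _) h1
        obtain ⟨e, he, h3⟩ := Set.not_subset.1 ha
        refine ⟨e, he, fun b hb => ?_⟩
        by_contra h4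
        exact h3 (hH (h2 b h4) hb)
      · obtain ⟨e, he⟩ := Set.nonempty_of_ncard_ne_zero (s := M.E) (by omega)
        exact ⟨e, he, fun a _ => not_not.1 (not_exists.1 h1 a)⟩
    obtain ⟨l, hl⟩ := ih (M := M.restrict (M.E \ {e})) ⟨q, H, r, hH, fun Z => by
      rw [Matroid.restrict_indep_iff, hI, Matroid.restrict_ground_eq]
      exact ⟨fun h1 => ⟨h1.2, h1.1.2⟩, fun h1 => ⟨⟨h1.1.trans Set.sdiff_subset, h1.2⟩, h1.1⟩⟩⟩
      (by rw [Matroid.restrict_ground_eq, Set.ncard_sdiff_singleton_of_mem he, hn]; rfl)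
    have hd : Disjoint (M.restrict (M.E \ {e})).E (Matroid.freeOn {e}).E := Set.disjoint_sdiff_left
    have h1 := hl.coloop hd
    have hE : (M.restrict (M.E \ {e})).E ∪ (Matroid.freeOn {e}).E = M.E :=
      Set.sdiff_union_of_subset (Set.singleton_subset_iff.2 he)
    obtain ⟨B, hB⟩ := M.exists_isBase
    have hk : flatRank M (tp M) = B.ncard := by
      rw [flatRank, Matroid.eRk_ground, ← hB.encard_eq_eRank]; rfl
    have ht : Trunc ((M.restrict (M.E \ {e})).disjointSum _ hd) M B.ncard := by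
      refine ⟨by rw [Matroid.disjointSum_ground_eq, hE], fun Z => ?_⟩
      rw [Matroid.disjointSum_indep_iff, hE, Matroid.restrict_indep_iff, Matroid.freeOn_indep_iff]
      constructor
      · intro h2
        refine ⟨⟨⟨h2.inter_right _, Set.inter_subset_right⟩, Set.inter_subset_right,
          h2.subset_ground⟩, ?_⟩
        have := h2.encard_le_eRank
        rw [← hB.encard_eq_eRank, ← (Set.toFinite Z).cast_ncard_eq,
          ← (Set.toFinite B).cast_ncard_eq] at this
        exact_mod_cast this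
      · rintro ⟨⟨⟨h2, -⟩, -, h3⟩, h4⟩
        refine (hI Z).2 ⟨h3, fun a => ?_⟩
        by_cases h5 : e ∈ H a
        · have h6 := ((hI B).1 hB.indep).2 a
          rw [Set.inter_eq_left.2 (hB.subset_ground.trans (hmax a h5))] at h6
          exact (Set.ncard_le_ncard Set.inter_subset_left (Set.toFinite _)).trans (h4.trans h6)
        · refine le_trans (Set.ncard_le_ncard (fun x hx => ?_) (Set.toFinite _))
            (((hI _).1 h2).2 a)
          exact ⟨⟨hx.1, h3 hx.1, fun h6 => h5 (h6 ▸ hx.2)⟩, hx.2⟩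
    refine ⟨_, h1.trunc ht hk ?_⟩
    obtain ⟨-, -, h2, -⟩ := h1
    have h3 := ((ht.indep B).1 hB.indep).1.encard_le_eRank
    rw [← Matroid.eRk_ground, ← cast_rank (tp _), h2, ← (Set.toFinite B).cast_ncard_eq] at h3
    exact_mod_cast h3

theorem IsNested.main (h : IsNested M) {k : ℕ} (hk : M.eRank = k) :
    (∃! Q, IsInvKL (flatRank M) Q) ∧ ∀ Q, IsInvKL (flatRank M) Q →
      (invZ (flatRank M) Q ⟨M.E, M.ground_isFlat⟩).natDegree = k ∧
      (∀ i ≤ k, 0 < (invZ (flatRank M) Q ⟨M.E, M.ground_isFlat⟩).coeff i) ∧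
      ∀ i, (invZ (flatRank M) Q ⟨M.E, M.ground_isFlat⟩).coeff i *
          (invZ (flatRank M) Q ⟨M.E, M.ground_isFlat⟩).coeff (i + 2) ≤
        (invZ (flatRank M) Q ⟨M.E, M.ground_isFlat⟩).coeff (i + 1) ^ 2 := by
  obtain ⟨l, h1⟩ := h.good2
  have h2 := h1.good.main
  have h3 : l = k := by
    have := h2.1.symm.trans hk
    exact_mod_cast this
  exact h3 ▸ h2.2

end Pool.Agent.Lib.MP_147f4d_co.Split
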