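import Mathlib

namespace Pool.Agent.Lib.MP_147f4d_co

open Polynomial Finset

/-- symmetric of formal degree `n` -/
structure Sym (n : ℕ) (p : ℚ[X]) : Prop where
  hi : ∀ j, n < j → p.coeff j = 0
  sym : ∀ j k, j + k = n → p.coeff j = p.coeff k

lemma Sym.natDegree_le {n : ℕ} {p : ℚ[X]} (h : Sym n p) : p.natDegree ≤ n :=
  natDegree_le_iff_coeff_eq_zero.2 h.hi

lemma Sym.reflect_eq {n : ℕ} {p : ℚ[X]} (h : Sym n p) : reflect n p = p := by
  ext i
  rw [coeff_reflect]
  by_cases hi : i ≤ n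
  · rw [revAt_le hi]; exact h.sym _ _ (by omega)
  · rw [revAt_eq_self_of_lt (by omega)]

lemma sym_of_reflect {n : ℕ} {p : ℚ[X]} (h1 : p.natDegree ≤ n) (h2 : reflect n p = p) :
    Sym n p := by
  refine ⟨natDegree_le_iff_coeff_eq_zero.1 h1, fun j k hjk => ?_⟩
  have := congrArg (fun q => q.coeff j) h2
  simp only [coeff_reflect] at this
  rw [revAt_le (by omega)] at this
  rw [← this]; congr 1; omega

lemma Sym.mul {a b : ℕ} {p q : ℚ[X]} (hp : Sym a p) (hq : Sym b q) : Sym (a + b) (p * q) := by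
  refine sym_of_reflect (natDegree_mul_le.trans (add_le_add hp.natDegree_le hq.natDegree_le)) ?_
  rw [reflect_mul _ _ hp.natDegree_le hq.natDegree_le, hp.reflect_eq, hq.reflect_eq]

lemma Sym.add {a : ℕ} {p q : ℚ[X]} (hp : Sym a p) (hq : Sym a q) : Sym a (p + q) :=
  ⟨fun j hj => by simp [hp.hi j hj, hq.hi j hj],
   fun j k h => by simp [hp.sym j k h, hq.sym j k h]⟩

lemma Sym.sub {a : ℕ} {p q : ℚ[X]} (hp : Sym a p) (hq : Sym a q) : Sym a (p - q) :=
  ⟨fun j hj => by simp [hp.hi j hj, hq.hi j hj],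
   fun j k h => by simp [hp.sym j k h, hq.sym j k h]⟩

lemma Sym.smul {a : ℕ} {p : ℚ[X]} (hp : Sym a p) (c : ℚ) : Sym a (c • p) :=
  ⟨fun j hj => by simp [hp.hi j hj], fun j k h => by simp [hp.sym j k h]⟩

lemma sym_zero (a : ℕ) : Sym a 0 := ⟨fun _ _ => by simp, fun _ _ _ => by simp⟩

lemma sym_one : Sym 0 1 :=
  ⟨fun j hj => by rw [coeff_one, if_neg (by omega)], fun j k h => by
    have h1 : j = 0 := by omega
    have h2 : k = 0 := by omega
    rw [h1, h2]⟩

lemma sym_sum {ι : Type*} {a : ℕ} (s : Finset ι) (f : ι → ℚ[X]) (h : ∀ i ∈ s, Sym a (f i)) :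
    Sym a (∑ i ∈ s, f i) :=
  Finset.sum_induction f (Sym a) (fun _ _ => Sym.add) (sym_zero a) h

lemma sym_prod {ι : Type*} (s : Finset ι) (d : ι → ℕ) (f : ι → ℚ[X])
    (h : ∀ i ∈ s, Sym (d i) (f i)) : Sym (∑ i ∈ s, d i) (∏ i ∈ s, f i) := by
  classical
  induction s using Finset.induction_on with
  | empty => simpa using sym_one
  | insert x s hx ih =>
    rw [sum_insert hx, prod_insert hx]
    exact (h x (mem_insert_self _ _)).mul (ih fun i hi => h i (mem_insert_of_mem hi))

/-- symmetric, nonnegative and unimodal -/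
structure Uni (n : ℕ) (p : ℚ[X]) : Prop extends Sym n p where
  nonneg : ∀ j, 0 ≤ p.coeff j
  mono : ∀ j, 2 * (j + 1) ≤ n → p.coeff j ≤ p.coeff (j + 1)

/-- the class `P` -/
structure PP (n : ℕ) (p : ℚ[X]) : Prop extends Sym n p where
  nonneg : ∀ j, 0 ≤ p.coeff j
  grow : ∀ j, 2 * (j + 1) ≤ n → (n : ℚ) / 2 * p.coeff j ≤ (j + 1) * p.coeff (j + 1)

lemma PP.uni {n : ℕ} {p : ℚ[X]} (h : PP n p) : Uni n p := by
  refine ⟨h.toSym, h.nonneg, fun j hj => ?_⟩
  have h1 := h.grow j hj
  have h2 : ((j : ℚ) + 1) ≤ (n : ℚ) / 2 := by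
    have : ((2 * (j + 1) : ℕ) : ℚ) ≤ n := by exact_mod_cast hj
    push_cast at this; linarith
  have h3 := h.nonneg j
  have h4 : (0 : ℚ) < (j : ℚ) + 1 := by positivity
  nlinarith

lemma Uni.zero_le {n : ℕ} {p : ℚ[X]} (h : Uni n p) (j : ℕ) (hj : j ≤ n) :
    p.coeff 0 ≤ p.coeff j := by
  have key : ∀ j, 2 * j ≤ n → p.coeff 0 ≤ p.coeff j := by
    intro j
    induction j with
    | zero => intro _; exact le_rfl
    | succ j ih => intro hj; exact (ih (by omega)).trans (h.mono j hj)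
  by_cases h2 : 2 * j ≤ n
  · exact key j h2
  · rw [h.sym j (n - j) (by omega)]; exact key _ (by omega)

/-- `Gam s g = g' - (s/2) g` -/
noncomputable def Gam (s : ℕ) (g : ℚ[X]) : ℚ[X] := derivative g - ((s : ℚ) / 2) • g

lemma coeff_Gam (s : ℕ) (g : ℚ[X]) (j : ℕ) :
    (Gam s g).coeff j = (j + 1) * g.coeff (j + 1) - (s : ℚ) / 2 * g.coeff j := by
  simp [Gam, coeff_derivative]; ring

lemma Gam_mul (a b : ℕ) (p q : ℚ[X]) :
    Gam (a + b) (p * q) = Gam a p * q + Gam b q * p := by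
  simp only [Gam, derivative_mul, smul_eq_C_mul]
  push_cast
  rw [add_div, C_add]; ring

section window
variable {s : ℕ} {g : ℚ[X]}

lemma partial_sum (g : ℚ[X]) (s B : ℕ) : ∑ j ∈ range B, (Gam s g).coeff j =
    B * g.coeff B + ∑ j ∈ range B, ((j : ℚ) - (s : ℚ) / 2) * g.coeff j := by
  induction B with
  | zero => simp
  | succ B ih => rw [sum_range_succ, sum_range_succ, ih, coeff_Gam]; push_cast; ring

lemma T_total (h : Sym s g) : ∑ j ∈ range (s + 1), ((j : ℚ) - (s : ℚ) / 2) * g.coeff j = 0 := by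
  have h1 := sum_range_reflect (fun j => ((j : ℚ) - (s : ℚ) / 2) * g.coeff j) (s + 1)
  have h2 : ∑ j ∈ range (s + 1), (((s + 1 - 1 - j : ℕ) : ℚ) - (s : ℚ) / 2) * g.coeff (s + 1 - 1 - j)
      = ∑ j ∈ range (s + 1), -(((j : ℚ) - (s : ℚ) / 2) * g.coeff j) := by
    refine sum_congr rfl fun j hj => ?_
    have hj' : j ≤ s := by simpa [Nat.lt_succ_iff] using hj
    rw [h.sym (s + 1 - 1 - j) j (by omega), show s + 1 - 1 - j = s - j by omega, Nat.cast_sub hj']
    ring
  rw [h2, sum_neg_distrib] at h1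
  linarith

lemma T_refl (h : Sym s g) (C : ℕ) (hC : C ≤ s + 1) :
    ∑ j ∈ range (s + 1 - C), ((j : ℚ) - (s : ℚ) / 2) * g.coeff j =
    ∑ j ∈ range C, ((j : ℚ) - (s : ℚ) / 2) * g.coeff j := by
  induction C with
  | zero => simpa using T_total h
  | succ C ih =>
    have ih' := ih (by omega)
    rw [show s + 1 - C = (s - C) + 1 by omega, sum_range_succ] at ih'
    rw [show s + 1 - (C + 1) = s - C by omega, sum_range_succ,
      ← ih', h.sym (s - C) C (by omega), Nat.cast_sub (by omega)]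
    ring

lemma S_mono (h : PP s g) (A B : ℕ) (hAB : A ≤ B) (hB : 2 * B ≤ s) :
    ∑ j ∈ range A, (Gam s g).coeff j ≤ ∑ j ∈ range B, (Gam s g).coeff j := by
  induction B, hAB using Nat.le_induction with
  | base => exact le_rfl
  | succ B hAB ih =>
    rw [sum_range_succ, coeff_Gam]
    have := h.grow B hB
    have := ih (by omega)
    linarith

lemma S_window (h : PP s g) (A B : ℕ) (hAB : A ≤ B) (hB : A + B ≤ s ∨ A = 0) :
    ∑ j ∈ range A, (Gam s g).coeff j ≤ ∑ j ∈ range B, (Gam s g).coeff j := by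
  by_cases h1 : 2 * B ≤ s
  · exact S_mono h A B hAB h1
  by_cases h2 : B ≤ s
  · obtain ⟨C, rfl⟩ : ∃ C, B = s - C := ⟨s - B, by omega⟩
    by_cases hC : C ≤ s
    · refine (S_mono h A C (by omega) (by omega)).trans ?_
      have h3 := T_refl h.toSym (C + 1) (by omega)
      rw [show s + 1 - (C + 1) = s - C by omega, sum_range_succ] at h3
      rw [partial_sum, partial_sum, h3, h.sym (s - C) C (by omega), Nat.cast_sub hC]
      have h4 := h.nonneg C
      have h5 : (C : ℚ) ≤ (s : ℚ) / 2 := by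
        have : ((2 * C : ℕ) : ℚ) ≤ s := by exact_mod_cast (by omega : 2 * C ≤ s)
        push_cast at this; linarith
      nlinarith
    · omega
  · have hA : A = 0 := by omega
    subst hA
    rw [partial_sum g s B, h.hi B (by omega)]
    obtain ⟨d, rfl⟩ : ∃ d, B = s + 1 + d := ⟨B - (s + 1), by omega⟩
    rw [sum_range_add, T_total h.toSym]
    have : ∑ x ∈ range d, (((s + 1 + x : ℕ) : ℚ) - (s : ℚ) / 2) * g.coeff (s + 1 + x) = 0 :=
      sum_eq_zero fun x _ => by rw [h.hi _ (by omega), mul_zero]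
    rw [this]; simp

lemma coeff_mul_block (e : ℚ[X]) (r i : ℕ) :
    (e * ∑ l ∈ range (r + 1), X ^ l).coeff i =
      ∑ j ∈ range (i + 1), e.coeff j - ∑ j ∈ range (i - r), e.coeff j := by
  induction r with
  | zero => simp [sum_range_succ]
  | succ r ih =>
    rw [sum_range_succ, mul_add, coeff_add, ih, coeff_mul_X_pow']
    by_cases h : r + 1 ≤ i
    · rw [if_pos h, show i - r = (i - (r + 1)) + 1 by omega, sum_range_succ _ (i - (r + 1))]; ring
    · rw [if_neg h, show i - r = i - (r + 1) by omega]; ring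

lemma coeff_block (r j : ℕ) :
    (∑ l ∈ range (r + 1), (X : ℚ[X]) ^ l).coeff j = if j ≤ r then 1 else 0 := by
  simp [coeff_X_pow]

lemma lemW (h : PP s g) : ∀ (r : ℕ) (R : ℚ[X]), Uni r R → ∀ i, 2 * (i + 1) ≤ s + r →
    0 ≤ (Gam s g * R).coeff i := by
  intro r
  induction r using Nat.strong_induction_on with
  | _ r ih =>
    intro R hR i hi
    set B : ℚ[X] := ∑ l ∈ range (r + 1), X ^ l with hB
    set R' : ℚ[X] := divX (R - R.coeff 0 • B) with hR'
    have hc : ∀ j, R'.coeff j = R.coeff (j + 1) - R.coeff 0 * if j + 1 ≤ r then 1 else 0 := by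
      intro j
      rw [hR', coeff_divX, coeff_sub, coeff_smul, hB, coeff_block, smul_eq_mul]
    have hdec : R = R.coeff 0 • B + X * R' := by
      ext j
      rcases j with _ | j
      · rw [coeff_add, coeff_smul, hB, coeff_block]; simp
      · rw [coeff_add, coeff_smul, hB, coeff_block, coeff_X_mul, hc]; simp
    have h1 : 0 ≤ (Gam s g * B).coeff i := by
      rw [hB, coeff_mul_block, sub_nonneg]
      exact S_window h _ _ (by omega) (by omega)
    have h2 : 0 ≤ (Gam s g * (X * R')).coeff i := by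
      rw [mul_left_comm]
      rcases i with _ | i
      · simp
      rw [coeff_X_mul]
      by_cases hr : 2 ≤ r
      · refine ih (r - 2) (by omega) R' ⟨⟨fun j hj => ?_, fun j k hjk => ?_⟩, fun j => ?_,
          fun j hj => ?_⟩ i (by omega)
        · rw [hc]
          by_cases h3 : j + 1 ≤ r
          · rw [if_pos h3, hR.sym (j + 1) 0 (by omega)]; ring
          · rw [if_neg h3, hR.hi _ (by omega)]; ring
        · rw [hc, hc, if_pos (by omega), if_pos (by omega), hR.sym (j + 1) (k + 1) (by omega)]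
        · rw [hc]
          by_cases h3 : j + 1 ≤ r
          · rw [if_pos h3]; have := hR.zero_le (j + 1) h3; linarith
          · rw [if_neg h3, hR.hi _ (by omega)]; simp
        · rw [hc, hc, if_pos (by omega), if_pos (by omega)]
          have := hR.mono (j + 1) (by omega); linarith
      · have : R' = 0 := by
          ext j
          rw [hc, coeff_zero]
          by_cases h3 : j + 1 ≤ r
          · rw [if_pos h3, hR.sym (j + 1) 0 (by omega)]; ring
          · rw [if_neg h3, hR.hi _ (by omega)]; ring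
        rw [this]; simp
    rw [hdec, mul_add, coeff_add, mul_smul_comm, coeff_smul, smul_eq_mul]
    have := hR.nonneg 0
    positivity

end window

lemma PP.mul {a b : ℕ} {p q : ℚ[X]} (hp : PP a p) (hq : PP b q) : PP (a + b) (p * q) := by
  refine ⟨hp.toSym.mul hq.toSym, fun j => ?_, fun j hj => ?_⟩
  · rw [coeff_mul]
    exact sum_nonneg fun x _ => mul_nonneg (hp.nonneg _) (hq.nonneg _)
  · have h1 := lemW hp b q hq.uni j hj
    have h2 := lemW hq a p hp.uni j (by omega)
    have h3 := coeff_Gam (a + b) (p * q) j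
    rw [Gam_mul, coeff_add] at h3
    linarith

lemma PP.add {a : ℕ} {p q : ℚ[X]} (hp : PP a p) (hq : PP a q) : PP a (p + q) := by
  refine ⟨hp.toSym.add hq.toSym, fun j => ?_, fun j hj => ?_⟩
  · rw [coeff_add]; exact add_nonneg (hp.nonneg _) (hq.nonneg _)
  · have := hp.grow j hj
    have := hq.grow j hj
    simp only [coeff_add]; linarith

lemma PP.smul {a : ℕ} {p : ℚ[X]} (hp : PP a p) {c : ℚ} (hc : 0 ≤ c) : PP a (c • p) := by
  refine ⟨hp.toSym.smul c, fun j => ?_, fun j hj => ?_⟩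
  · rw [coeff_smul]; exact mul_nonneg hc (hp.nonneg _)
  · have := mul_le_mul_of_nonneg_left (hp.grow j hj) hc
    simp only [coeff_smul, smul_eq_mul]; linarith

lemma pp_zero (a : ℕ) : PP a 0 := ⟨sym_zero a, fun _ => by simp, fun _ _ => by simp⟩

lemma PP.cast {a b : ℕ} {p : ℚ[X]} (hp : PP a p) (h : a = b) : PP b p := h ▸ hp

/-- unnormalised Poisson weights with mean `c / 2` -/
noncomputable def pois (c i : ℕ) : ℚ := ((c : ℚ) / 2) ^ i / i.factorial

lemma pois_succ (c i : ℕ) : ((i : ℚ) + 1) * pois c (i + 1) = (c : ℚ) / 2 * pois c i := by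
  have : (i.factorial : ℚ) ≠ 0 := by positivity
  have h2 : (i : ℚ) + 1 ≠ 0 := by positivity
  simp only [pois, Nat.factorial_succ, pow_succ]; push_cast; field_simp

lemma pois_nonneg (c i : ℕ) : 0 ≤ pois c i := by unfold pois; positivity

lemma pois_zero (c : ℕ) : pois c 0 = 1 := by simp [pois]

/-- folded Poisson polynomial of degree `d` -/
noncomputable def fold (c d : ℕ) : ℚ[X] :=
  ∑ i ∈ range (d + 1), monomial i (pois c (min i (d - i)))

lemma coeff_fold (c d j : ℕ) :
    (fold c d).coeff j = if j ≤ d then pois c (min j (d - j)) else 0 := by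
  simp [fold, coeff_monomial]

lemma coeff_fold_low (c d j : ℕ) (h : 2 * j ≤ d) : (fold c d).coeff j = pois c j := by
  rw [coeff_fold, if_pos (by omega), min_eq_left (by omega)]

lemma sym_fold (c d : ℕ) : Sym d (fold c d) := by
  refine ⟨fun j hj => by rw [coeff_fold, if_neg (by omega)], fun j k h => ?_⟩
  rw [coeff_fold, coeff_fold, if_pos (by omega), if_pos (by omega),
    show d - j = k by omega, show d - k = j by omega, min_comm]

/-- the cycle weight -/
noncomputable def psi (c : ℕ) : ℚ[X] := fold c c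

lemma pp_psi (c : ℕ) : PP c (psi c) := by
  refine ⟨sym_fold c c, fun j => ?_, fun j hj => ?_⟩
  · rw [psi, coeff_fold]; split_ifs
    · exact pois_nonneg _ _
    · exact le_rfl
  · rw [psi, coeff_fold_low _ _ _ hj, coeff_fold_low _ _ _ (by omega), pois_succ]

lemma psi_zero (c : ℕ) : (psi c).coeff 0 = 1 := by
  rw [psi, coeff_fold_low _ _ _ (by omega), pois_zero]

/-- a member of the class with constant term `1` dominates `psi` inside the class -/
lemma PP.sub_psi {n : ℕ} {p : ℚ[X]} (hp : PP n p) (h0 : p.coeff 0 = 1) : PP n (p - psi n) := by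
  have hg : ∀ j, 2 * (j + 1) ≤ n →
      (n : ℚ) / 2 * (p - psi n).coeff j ≤ (j + 1) * (p - psi n).coeff (j + 1) := by
    intro j hj
    have h1 := hp.grow j hj
    have h2 := pois_succ n j
    rw [coeff_sub, coeff_sub, psi, coeff_fold_low _ _ _ hj, coeff_fold_low _ _ _ (by omega)]
    linarith
  have hs : Sym n (p - psi n) := hp.toSym.sub (pp_psi n).toSym
  have key : ∀ j, 2 * j ≤ n → 0 ≤ (p - psi n).coeff j := by
    intro j
    induction j with
    | zero => intro _; rw [coeff_sub, h0, psi_zero]; simp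
    | succ j ih =>
      intro hj
      have h1 := hg j hj
      have h2 := ih (by omega)
      have h3 : (0 : ℚ) ≤ (n : ℚ) / 2 * (p - psi n).coeff j := by positivity
      have h4 : (0 : ℚ) < (j : ℚ) + 1 := by positivity
      exact nonneg_of_mul_nonneg_right (h3.trans h1) h4 |> fun h => h
  refine ⟨hs, fun j => ?_, hg⟩
  by_cases h1 : 2 * j ≤ n
  · exact key j h1
  by_cases h2 : j ≤ n
  · rw [hs.sym j (n - j) (by omega)]; exact key _ (by omega)
  · rw [hs.hi j (by omega)]

lemma pp_split (a b : ℕ) : PP (a + b) (psi a * psi b - psi (a + b)) :=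
  ((pp_psi a).mul (pp_psi b)).sub_psi (by rw [mul_coeff_zero, psi_zero, psi_zero, mul_one])

/-- Feller-coupling form of the Ewens average of products of cycle weights -/
noncomputable def Phi (θ : ℚ) : ℕ → ℕ → ℚ[X]
  | 0, c => psi (c + 1)
  | j + 1, c => (θ / (θ + j + 1)) • (psi (c + 1) * Phi θ j 0) +
      (1 - θ / (θ + j + 1)) • Phi θ j (c + 1)

lemma prob_nonneg {θ : ℚ} (hθ : 0 < θ) (j : ℕ) : 0 ≤ θ / (θ + j + 1) := by positivity

lemma prob_le_one {θ : ℚ} (hθ : 0 < θ) (j : ℕ) : 0 ≤ 1 - θ / (θ + j + 1) := by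
  rw [sub_nonneg, div_le_one (by positivity)]
  have : (0 : ℚ) ≤ j := by positivity
  linarith

lemma pp_Phi {θ : ℚ} (hθ : 0 < θ) (j : ℕ) : ∀ c, PP (j + c + 1) (Phi θ j c) := by
  induction j with
  | zero => intro c; exact (pp_psi (c + 1)).cast (by omega)
  | succ j ih =>
    intro c
    exact ((((pp_psi (c + 1)).mul (ih 0)).cast (by omega)).smul (prob_nonneg hθ j)).add
      (((ih (c + 1)).cast (by omega)).smul (prob_le_one hθ j))

lemma Phi_zero (θ : ℚ) (j : ℕ) : ∀ c, (Phi θ j c).coeff 0 = 1 := by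
  induction j with
  | zero => intro c; exact psi_zero _
  | succ j ih =>
    intro c
    simp only [Phi, coeff_add, coeff_smul, mul_coeff_zero, psi_zero, ih, smul_eq_mul]
    ring

lemma pp_Phi_split {θ : ℚ} (hθ : 0 < θ) (j : ℕ) :
    ∀ a c, PP (j + c + a + 1) (psi a * Phi θ j c - Phi θ j (c + a)) := by
  induction j with
  | zero =>
    intro a c
    have := pp_split a (c + 1)
    rw [show a + (c + 1) = c + a + 1 by omega] at this
    exact this.cast (by omega)
  | succ j ih =>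
    intro a c
    have h1 := ((pp_split a (c + 1)).mul (pp_Phi hθ j 0)).smul (prob_nonneg hθ j)
    have h2 := (ih a (c + 1)).smul (prob_le_one hθ j)
    have h3 := (h1.cast (b := j + 1 + c + a + 1) (by omega)).add (h2.cast (by omega))
    have e : psi a * Phi θ (j + 1) c - Phi θ (j + 1) (c + a) =
        (θ / (θ + j + 1)) • ((psi a * psi (c + 1) - psi (a + (c + 1))) * Phi θ j 0) +
        (1 - θ / (θ + j + 1)) • (psi a * Phi θ j (c + 1) - Phi θ j (c + 1 + a)) := by
      simp only [Phi, smul_eq_C_mul]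
      rw [show a + (c + 1) = c + a + 1 by omega, show c + 1 + a = c + a + 1 by omega]
      ring
    rw [e]; exact h3

lemma pp_Phi_mono {θ η : ℚ} (hθ : 0 < θ) (h : θ ≤ η) (j : ℕ) :
    ∀ c, PP (j + c + 1) (Phi η j c - Phi θ j c) := by
  have hη : 0 < η := hθ.trans_le h
  induction j with
  | zero => intro c; simp only [Phi, sub_self]; exact pp_zero _
  | succ j ih =>
    intro c
    have hp : 0 ≤ η / (η + j + 1) - θ / (θ + j + 1) := by
      rw [sub_nonneg, div_le_div_iff₀ (by positivity) (by positivity)]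
      have : (0 : ℚ) ≤ j := by positivity
      nlinarith
    have h1 := (pp_Phi_split hη j (c + 1) 0).smul hp
    have h2 := ((pp_psi (c + 1)).mul (ih 0)).smul (prob_nonneg hθ j)
    have h3 := (ih (c + 1)).smul (prob_le_one hθ j)
    have h4 := ((h1.cast (b := j + 1 + c + 1) (by omega)).add (h2.cast (by omega))).add
      (h3.cast (by omega))
    have e : Phi η (j + 1) c - Phi θ (j + 1) c =
        (η / (η + j + 1) - θ / (θ + j + 1)) • (psi (c + 1) * Phi η j 0 - Phi η j (0 + (c + 1))) +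
        (θ / (θ + j + 1)) • (psi (c + 1) * (Phi η j 0 - Phi θ j 0)) +
        (1 - θ / (θ + j + 1)) • (Phi η j (c + 1) - Phi θ j (c + 1)) := by
      simp only [Phi, smul_eq_C_mul, zero_add, C_sub, C_1]
      ring
    rw [e]; exact h4

lemma pois_succ_le (n i : ℕ) (h : 2 * i ≤ n) : pois (n + 1) i ≤ 2 * pois n i := by
  have h1 : (0 : ℚ) < (n : ℚ) + 1 := by positivity
  have h2 := one_add_mul_le_pow (a := -(1 / ((n : ℚ) + 1))) (by
    have : 1 / ((n : ℚ) + 1) ≤ 1 := by
      rw [div_le_one h1]; have : (0 : ℚ) ≤ n := by positivity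
      linarith
    linarith) i
  have h3 : (1 : ℚ) / 2 ≤ 1 + i * -(1 / ((n : ℚ) + 1)) := by
    have : ((2 * i : ℕ) : ℚ) ≤ n := by exact_mod_cast h
    push_cast at this
    have h5 : (i : ℚ) * (1 / ((n : ℚ) + 1)) ≤ 1 / 2 := by
      rw [mul_one_div, div_le_iff₀ h1]; linarith
    linarith
  have h4 : (n : ℚ) / 2 = ((n : ℚ) + 1) / 2 * (1 + -(1 / ((n : ℚ) + 1))) := by
    field_simp; ring
  have h5 : (0 : ℚ) < i.factorial := by positivity
  have h6 : (0 : ℚ) ≤ (((n : ℚ) + 1) / 2) ^ i := by positivity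
  unfold pois
  rw [h4, mul_pow, ← mul_div_assoc]
  push_cast
  apply div_le_div_of_nonneg_right _ h5.le
  nlinarith

/-- log-concavity from the two-sided derivative bound -/
lemma lc_of_bounds {n : ℕ} {e : ℚ[X]} (h : PP n e)
    (hup : ∀ j, 2 * (j + 1) ≤ n → ((j : ℚ) + 1) * e.coeff (j + 1) ≤ ((n : ℚ) / 2 + 1) * e.coeff j)
    (i : ℕ) : e.coeff i * e.coeff (i + 2) ≤ e.coeff (i + 1) ^ 2 := by
  have low : ∀ i, 2 * (i + 2) ≤ n → e.coeff i * e.coeff (i + 2) ≤ e.coeff (i + 1) ^ 2 := by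
    intro i hi
    have h1 := hup (i + 1) hi
    have h2 := h.grow i (by omega)
    have h3 : (i : ℚ) + 2 ≤ (n : ℚ) / 2 := by
      have : ((2 * (i + 2) : ℕ) : ℚ) ≤ n := by exact_mod_cast hi
      push_cast at this; linarith
    have h4 := h.nonneg i
    have h5 := h.nonneg (i + 1)
    have h6 := h.nonneg (i + 2)
    have h7 : (0 : ℚ) ≤ i := by positivity
    push_cast at h1
    have h8 := mul_le_mul h1 h2 (by positivity) (by positivity)
    have h9 : (0 : ℚ) < ((i : ℚ) + 2) * ((n : ℚ) / 2) := by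
      apply mul_pos <;> linarith
    have h10 : ((n : ℚ) / 2 + 1) * (i + 1) ≤ ((i : ℚ) + 2) * ((n : ℚ) / 2) := by nlinarith
    have h11 := mul_le_mul_of_nonneg_right h10 (sq_nonneg (e.coeff (i + 1)))
    refine le_of_mul_le_mul_left ?_ h9
    nlinarith
  have hu := h.uni
  by_cases h0 : n < i + 2
  · rw [h.hi _ h0, mul_zero]; positivity
  by_cases h1 : 2 * (i + 2) ≤ n
  · exact low i h1
  by_cases h2 : 2 * (n - i) ≤ n
  · have := low (n - i - 2) (by omega)
    rw [h.sym i (n - i - 2 + 2) (by omega), h.sym (i + 2) (n - i - 2) (by omega),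
      h.sym (i + 1) (n - i - 2 + 1) (by omega), mul_comm]
    exact this
  have h3 := h.nonneg i
  have h4 := h.nonneg (i + 1)
  have h5 := h.nonneg (i + 2)
  have a1 : e.coeff i ≤ e.coeff (i + 1) := by
    by_cases h6 : 2 * (i + 1) ≤ n
    · exact hu.mono i h6
    · rw [h.sym i (i + 1) (by omega)]
  have a2 : e.coeff (i + 2) ≤ e.coeff (i + 1) := by
    by_cases h6 : n = 2 * i + 3
    · rw [h.sym (i + 2) (i + 1) (by omega)]
    · rw [h.sym (i + 2) (n - i - 2) (by omega), h.sym (i + 1) (n - i - 2 + 1) (by omega)]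
      exact hu.mono _ (by omega)
  nlinarith

lemma lc_Phi {θ : ℚ} (hθ : 0 < θ) (hθ1 : θ ≤ 1) (j : ℕ)
    (hone : ∀ i, 2 * i ≤ j + 1 → (Phi 1 j 0).coeff i = pois (j + 2) i) (i : ℕ) :
    (Phi θ j 0).coeff i * (Phi θ j 0).coeff (i + 2) ≤ (Phi θ j 0).coeff (i + 1) ^ 2 := by
  have hp : PP (j + 1) (Phi θ j 0) := (pp_Phi hθ j 0).cast (by omega)
  refine lc_of_bounds hp (fun l hl => ?_) i
  have h1 := ((pp_Phi_mono hθ hθ1 j 0).cast (b := j + 1) (by omega)).grow l hl
  rw [coeff_sub, coeff_sub, hone l (by omega), hone (l + 1) hl] at h1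
  have h2 := pois_succ (j + 2) l
  have h3 := pois_succ_le (j + 1) l (by omega)
  have h4 := (hp.sub_psi (Phi_zero θ j 0)).nonneg l
  rw [coeff_sub, psi, coeff_fold_low _ _ _ (by omega)] at h4
  push_cast at h1 h2 h3 ⊢
  linarith

lemma pos_Phi {θ : ℚ} (hθ : 0 < θ) (j i : ℕ) (hi : i ≤ j + 1) : 0 < (Phi θ j 0).coeff i := by
  have hp : PP (j + 1) (Phi θ j 0) := (pp_Phi hθ j 0).cast (by omega)
  have := hp.uni.zero_le i hi
  rw [Phi_zero] at this
  linarith

end Pool.Agent.Lib.MP_147f4d_co
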