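import Pool.Agent.Lib.MP_147f4d_co.SplitSum

namespace Pool.Agent.Lib.MP_147f4d_co.Split

open Polynomial Finset

/-- irredundant hypergraph data of an elementary split matroid of rank `d + 1`; the set `H a` has
rank `s a + 1` -/
structure Cfg (α ι : Type) [DecidableEq α] where
  E : Finset α
  H : ι → Finset α
  s : ι → ℕ
  m : ι → ℕ
  d : ℕ
  sub : ∀ a, H a ⊆ E
  hd : ∀ a, s a + m a + 1 = d
  big : ∀ a, s a + 2 ≤ #(H a)
  co : ∀ a, m a + 1 ≤ #(E \ H a)
  inter : ∀ a b, a ≠ b → #(H a ∩ H b) + d ≤ s a + s b + 1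
  d_lt : d < #E

namespace Cfg

variable {α ι : Type} [DecidableEq α] (c : Cfg α ι)

lemma card_E (a : ι) : #(c.H a) + #(c.E \ c.H a) = #c.E := by
  rw [add_comm, card_sdiff_add_card_eq_card (c.sub a)]

lemma card_split (Z V : Finset α) : #(Z ∩ V) + #(Z \ V) = #Z := by
  rw [add_comm, card_sdiff_add_card_inter]

lemma two' (Z V V' : Finset α) : #(Z ∩ V) + #(Z ∩ V') ≤ #Z + #(Z ∩ (V ∩ V')) := by
  have h1 := card_union_add_card_inter (Z ∩ V) (Z ∩ V')
  have h2 : #(Z ∩ V ∪ Z ∩ V') ≤ #Z := card_le_card (union_subset inter_subset_left inter_subset_left)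
  rw [← inter_inter_distrib_left] at h1
  omega

lemma two {a b : ι} (h : a ≠ b) (Z : Finset α) :
    #(Z ∩ c.H a) + #(Z ∩ c.H b) + c.d ≤ #Z + c.s a + c.s b + 1 := by
  have h1 := two' Z (c.H a) (c.H b)
  have h2 : #(Z ∩ (c.H a ∩ c.H b)) ≤ #(c.H a ∩ c.H b) := card_le_card inter_subset_right
  have h3 := c.inter a b h
  omega

/-- sets that are independent flats meeting every `H a` in fewer points than its rank -/
def Free (Z : Finset α) : Prop := Z ⊆ c.E ∧ #Z ≤ c.d ∧ ∀ a, #(Z ∩ c.H a) ≤ c.s a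

/-- `Z` is `H a` together with few outside points -/
def Over (a : ι) (Z : Finset α) : Prop := c.H a ⊆ Z ∧ #(Z \ c.H a) ≤ c.m a

instance (a : ι) (Z : Finset α) : Decidable (c.Over a Z) := by unfold Over; infer_instance

instance [Fintype ι] (Z : Finset α) : Decidable (c.Free Z) := by unfold Free; infer_instance

lemma Free.mono {c : Cfg α ι} {Z V : Finset α} (h : c.Free Z) (hV : V ⊆ Z) : c.Free V :=
  ⟨hV.trans h.1, (card_le_card hV).trans h.2.1,
    fun a => (card_le_card (inter_subset_inter_right hV)).trans (h.2.2 a)⟩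

lemma Free.not_sub {c : Cfg α ι} {Z : Finset α} (h : c.Free Z) (a : ι) : ¬ c.H a ⊆ Z := fun h1 => by
  have h2 := h.2.2 a
  have h3 := c.big a
  rw [inter_eq_right.2 h1] at h2
  omega

lemma Over.eq {c : Cfg α ι} {a b : ι} {Z : Finset α} (h : #(Z \ c.H a) ≤ c.m a)
    (hb : c.s b < #(Z ∩ c.H b)) : b = a := by
  by_contra hne
  have h1 := c.inter b a hne
  have h2 := card_split (Z ∩ c.H b) (c.H a)
  have h3 : #(Z ∩ c.H b ∩ c.H a) ≤ #(c.H b ∩ c.H a) :=
    card_le_card (inter_subset_inter_right inter_subset_right)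
  have h4 : #((Z ∩ c.H b) \ c.H a) ≤ #(Z \ c.H a) :=
    card_le_card (sdiff_subset_sdiff_left _ inter_subset_left)
  have h5 := c.hd a
  omega

lemma free_iff {a : ι} {Z : Finset α} (hZ : Z ⊆ c.E) (h : #(Z \ c.H a) ≤ c.m a) :
    c.Free Z ↔ #(Z ∩ c.H a) ≤ c.s a := by
  refine ⟨fun h1 => h1.2.2 a, fun h1 => ⟨hZ, ?_, fun b => ?_⟩⟩
  · have := card_split Z (c.H a)
    have := c.hd a
    omega
  · by_contra h2
    have := Over.eq h (not_le.1 h2)
    subst this
    exact h2 h1

/-- signed inverse `Z`-polynomial of the uniform matroid on `H a` -/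
noncomputable def Ya (a : ι) : ℚ[X] :=
  C ((-1) ^ (c.s a + 1) * kap #(c.H a) (c.s a)) * Yf #(c.H a) (c.s a)

variable [Fintype ι]

/-- signed inverse `Z`-polynomial of a proper flat, and zero on other sets -/
noncomputable def Yc (Z : Finset α) : ℚ[X] :=
  (if c.Free Z then u ^ #Z else 0) + ∑ a, if c.Over a Z then c.Ya a * u ^ #(Z \ c.H a) else 0

lemma Yc_free {Z : Finset α} (h : c.Free Z) : c.Yc Z = u ^ #Z := by
  rw [Yc, if_pos h, sum_eq_zero fun a _ => if_neg fun h1 => h.not_sub a h1.1, add_zero]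

lemma Yc_small {a : ι} {Z : Finset α} (hZ : Z ⊆ c.E) (h : #(Z \ c.H a) ≤ c.m a) :
    c.Yc Z = ((if #(Z ∩ c.H a) ≤ c.s a then u ^ #(Z ∩ c.H a) else 0) +
      if Z ∩ c.H a = c.H a then c.Ya a else 0) * u ^ #(Z \ c.H a) := by
  rw [Yc, sum_eq_single a, add_mul]
  · congr 1
    · simp only [c.free_iff hZ h, ite_mul, zero_mul, ← pow_add, card_split]
    · simp only [Over, h, and_true, inter_eq_right, ite_mul, zero_mul]
  · intro b _ hb
    refine if_neg fun h1 => hb (Over.eq h ?_)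
    have := c.big b
    rw [inter_eq_right.2 h1.1]; omega
  · intro h1; exact absurd (mem_univ a) h1

lemma Yc_over {a : ι} {Z : Finset α} (hZ : Z ⊆ c.E) (h : c.Over a Z) :
    c.Yc Z = c.Ya a * u ^ #(Z \ c.H a) := by
  have := c.big a
  rw [c.Yc_small hZ h.2, inter_eq_right.2 h.1, if_neg (by omega), if_pos rfl, zero_add]

lemma Yc_zero {Z : Finset α} (h : ¬ c.Free Z) (h' : ∀ a, ¬ c.Over a Z) : c.Yc Z = 0 := by
  rw [Yc, if_neg h, sum_eq_zero fun a _ => if_neg (h' a), add_zero]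

lemma sum_Yc_free {Z : Finset α} (h : c.Free Z) : ∑ V ∈ Z.powerset, c.Yc V = (-X) ^ #Z := by
  rw [← sum_u]
  exact sum_congr rfl fun V hV => c.Yc_free (h.mono (mem_powerset.1 hV))

lemma sum_Yc_over {a : ι} {Z : Finset α} (hZ : Z ⊆ c.E) (h : c.Over a Z) :
    ∑ V ∈ Z.powerset, c.Yc V = C ((-1) ^ (c.s a + 1) * kap #(c.H a) (c.s a)) *
      ((Yf #(c.H a) (c.s a) - W #(c.H a) (c.s a)) * (-X) ^ #(Z \ c.H a)) := by
  have h1 := c.big a
  rw [sum_congr rfl fun V hV => c.Yc_small (a := a) ((mem_powerset.1 hV).trans hZ)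
      ((card_le_card (sdiff_subset_sdiff_left _ (mem_powerset.1 hV))).trans h.2),
    sum_split h.1 (fun I => (if #I ≤ c.s a then u ^ #I else 0) + if I = c.H a then c.Ya a else 0)
      (fun J => u ^ #J), sum_u, sum_add_distrib, alt_eq _ _ (by omega), sum_ite_eq',
    if_pos (mem_powerset_self _), Ya]
  simp only [map_mul, map_pow, map_neg, map_one]
  ring

/-- number of free sets of the largest size -/
def N0 : ℕ := #(c.E.powerset.filter fun Z => c.Free Z ∧ #Z = c.d)

/-- the constant attached to `H a` -/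
def ka (a : ι) : ℚ := kap #(c.H a) (c.s a) * kap #(c.E \ c.H a) (c.m a)

omit [Fintype ι] in
lemma ka_pos (a : ι) : 0 < c.ka a := by
  have := c.big a
  have := c.co a
  exact mul_pos (kap_pos (by omega)) (kap_pos (by omega))

lemma card_bd {Z : Finset α} (h : c.Free Z) :
    (#(c.E.filter fun e => e ∉ Z ∧ ¬ c.Free (insert e Z)) : ℚ) =
      (if #Z = c.d then (#c.E - c.d : ℚ) else 0) +
      ∑ a, if #(Z ∩ c.H a) = c.s a ∧ #(Z \ c.H a) ≤ c.m a then (#(c.H a) - c.s a : ℚ) else 0 := by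
  classical
  split_ifs with hd
  · rw [sum_eq_zero, add_zero, ← hd, eq_sub_iff_add_eq, ← Nat.cast_add, Nat.cast_inj,
      ← card_sdiff_add_card_eq_card h.1, sdiff_eq_filter]
    · congr 2
      refine filter_congr fun e _ => ⟨fun h1 => h1.1, fun h1 => ⟨h1, fun h2 => ?_⟩⟩
      have := h2.2.1
      rw [card_insert_of_notMem h1] at this
      omega
    · intro a _
      have := card_split Z (c.H a)
      have := c.hd a
      exact if_neg (by omega)
  have hd' : #Z < c.d := lt_of_le_of_ne h.2.1 hd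
  have e : (c.E.filter fun e => e ∉ Z ∧ ¬ c.Free (insert e Z)) =
      (univ.filter fun a => #(Z ∩ c.H a) = c.s a ∧ #(Z \ c.H a) ≤ c.m a).biUnion
        fun a => c.H a \ Z := by
    ext e
    simp only [mem_filter, mem_biUnion, mem_univ, true_and, mem_sdiff]
    constructor
    · rintro ⟨h1, h2, h3⟩
      have h4 : ¬ ∀ a, #(insert e Z ∩ c.H a) ≤ c.s a := fun h4 =>
        h3 ⟨insert_subset h1 h.1, by rw [card_insert_of_notMem h2]; omega, h4⟩
      obtain ⟨a, ha⟩ := not_forall.1 h4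
      have h5 := h.2.2 a
      by_cases h6 : e ∈ c.H a
      · rw [insert_inter_of_mem h6, card_insert_of_notMem (fun h7 => h2 (mem_inter.1 h7).1)] at ha
        have := card_split Z (c.H a)
        have := c.hd a
        exact ⟨a, by omega, h6, h2⟩
      · rw [insert_inter_of_notMem h6] at ha
        exact absurd h5 ha
    · rintro ⟨a, h1, h2, h3⟩
      refine ⟨c.sub a h2, h3, fun h4 => ?_⟩
      have h5 := h4.2.2 a
      rw [insert_inter_of_mem h2, card_insert_of_notMem (fun h7 => h3 (mem_inter.1 h7).1)] at h5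
      omega
  rw [e, card_biUnion, zero_add, Nat.cast_sum, sum_filter]
  · refine sum_congr rfl fun a _ => ?_
    split_ifs with h1
    · rw [eq_sub_iff_add_eq, ← h1.1, inter_comm, ← Nat.cast_add, card_sdiff_add_card_inter]
    · rfl
  · intro a ha b hb hab
    rw [Function.onFun, disjoint_left]
    intro e h1 h2
    simp only [coe_filter, mem_univ, true_and, Set.mem_ofPred_eq] at ha hb
    rw [mem_sdiff] at h1 h2
    have h3 := c.two hab (insert e Z)
    rw [insert_inter_of_mem h1.1, insert_inter_of_mem h2.1, card_insert_of_notMem h1.2,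
      card_insert_of_notMem (fun h7 => h1.2 (mem_inter.1 h7).1),
      card_insert_of_notMem (fun h7 => h1.2 (mem_inter.1 h7).1)] at h3
    omega

lemma T_free : T #c.E (∑ Z ∈ c.E.powerset, if c.Free Z then u ^ #Z else 0) =
    C ((-1) ^ c.d) * (C (c.N0 * (#c.E - c.d : ℚ)) * (1 + X) ^ c.d -
      ∑ a, C (c.ka a) * ((1 + X) ^ c.s a * W #(c.E \ c.H a) (c.m a))) := by
  rw [pairing c.E c.Free (fun _ h => h.1) fun _ e h => h.mono (erase_subset e _)]
  have e1 : ∀ Z ∈ c.E.powerset, (if c.Free Z then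
      (#(c.E.filter fun e => e ∉ Z ∧ ¬ c.Free (insert e Z)) : ℚ[X]) * u ^ #Z else 0) =
      (if c.Free Z ∧ #Z = c.d then C (#c.E - c.d : ℚ) * u ^ c.d else 0) +
      ∑ a, (if #(Z ∩ c.H a) = c.s a then C (#(c.H a) - c.s a : ℚ) * u ^ #(Z ∩ c.H a) else 0) *
        (if #(Z \ c.H a) ≤ c.m a then u ^ #(Z \ c.H a) else 0) := by
    intro Z hZ
    by_cases h : c.Free Z
    · rw [if_pos h, ← map_natCast C, c.card_bd h, map_add, map_sum, add_mul, sum_mul]
      congr 1
      · simp only [h, true_and]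
        split_ifs with h1
        · rw [h1]
        · simp
      · refine sum_congr rfl fun a _ => ?_
        by_cases h1 : #(Z ∩ c.H a) = c.s a <;> by_cases h2 : #(Z \ c.H a) ≤ c.m a
        · rw [if_pos ⟨h1, h2⟩, if_pos h1, if_pos h2, mul_assoc, ← pow_add, card_split]
        all_goals simp [h1, h2]
    · rw [if_neg h, if_neg (fun h1 => h h1.1), zero_add, sum_eq_zero]
      intro a _
      by_cases h2 : #(Z \ c.H a) ≤ c.m a
      · rw [if_neg (fun h1 => h ((c.free_iff (mem_powerset.1 hZ) h2).2 h1.le)), zero_mul]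
      · rw [if_neg h2, mul_zero]
  rw [sum_congr rfl e1, sum_add_distrib, ← sum_filter, sum_const, sum_comm, mul_sub, mul_sum,
    sub_eq_add_neg (C _ * _), ← sum_neg_distrib]
  congr 1
  · rw [nsmul_eq_mul, u_pow, N0, map_mul, map_natCast]; ring
  · refine sum_congr rfl fun a _ => ?_
    have h1 := c.co a
    rw [sum_split (c.sub a) (fun I => if #I = c.s a then C (#(c.H a) - c.s a : ℚ) * u ^ #I else 0)
      (fun J => if #J ≤ c.m a then u ^ #J else 0), alt_eq _ _ (by omega),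
      sum_card_eq _ _ (fun j => C (#(c.H a) - c.s a : ℚ) * u ^ j), u_pow, ka,
      show kap #(c.H a) (c.s a) = (#(c.H a) - c.s a : ℚ) * (#(c.H a)).choose (c.s a) from rfl,
      ← c.hd a]
    simp only [map_mul, map_pow, map_neg, map_one, map_natCast]
    ring

/-- lower half of the inverse `Z`-polynomial -/
noncomputable def y (i : ℕ) : ℚ := (-1) ^ c.d * (∑ Z ∈ c.E.powerset, c.Yc Z).coeff i

/-- contribution of `H a` -/
noncomputable def za (a : ι) (i : ℕ) : ℚ := z #(c.H a) (c.s a) #(c.E \ c.H a) (c.m a) i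

lemma y_eq {i : ℕ} (hi : i < #c.E) : c.y i =
    c.N0 * (#c.E - c.d : ℚ) * ((c.d.choose i : ℚ) / (#c.E - i)) + ∑ a, c.ka a * c.za a i := by
  have h0 : (#c.E : ℚ) - i ≠ 0 := by
    have : (i : ℚ) < #c.E := by exact_mod_cast hi
    linarith
  have hs : ((-1 : ℚ) ^ c.d) * (-1) ^ c.d = 1 := by rw [← mul_pow]; simp
  have h1 := congrArg (fun p => p.coeff i) c.T_free
  simp only [coeff_T, coeff_C_mul, coeff_sub, finsetSum_coeff (s := univ), coeff_pw] at h1
  have h2 : ∀ a, ∑ Z ∈ c.E.powerset, (if c.Over a Z then c.Ya a * u ^ #(Z \ c.H a) else 0) =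
      C ((-1) ^ c.d * c.ka a) * (Yf #(c.H a) (c.s a) * W #(c.E \ c.H a) (c.m a)) := fun a => by
    have h3 := c.co a
    have h4 := sum_split (c.sub a) (fun I => if I = c.H a then c.Ya a else 0)
      (fun J => if #J ≤ c.m a then u ^ #J else 0)
    rw [alt_eq _ _ (by omega), sum_ite_eq', if_pos (mem_powerset_self _)] at h4
    rw [sum_congr rfl (g := fun Z => (if Z ∩ c.H a = c.H a then c.Ya a else 0) *
      (if #(Z \ c.H a) ≤ c.m a then u ^ #(Z \ c.H a) else 0)) fun Z _ => by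
        simp only [Over, inter_eq_right, ite_and]; split_ifs <;> simp, h4, Ya, ka, ← c.hd a]
    simp only [map_mul, map_pow, map_neg, map_one]
    ring
  simp only [y, Yc]
  rw [sum_add_distrib, sum_comm, coeff_add, finsetSum_coeff (s := univ)]
  simp only [h2, coeff_C_mul]
  have h5 : ∑ a, c.ka a * c.za a i = ∑ a, c.ka a * (Yf #(c.H a) (c.s a) *
      W #(c.E \ c.H a) (c.m a)).coeff i - (∑ a, c.ka a * ((1 + X) ^ c.s a *
      W #(c.E \ c.H a) (c.m a)).coeff i) / (#c.E - i) := by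
    rw [sum_div, ← sum_sub_distrib]
    refine sum_congr rfl fun a _ => ?_
    rw [za, z, ← Nat.cast_add, c.card_E]; ring
  rw [h5, mul_add, mul_sum]
  simp only [← mul_assoc, hs, one_mul]
  field_simp
  linear_combination ((-1 : ℚ) ^ c.d) * h1 + (c.N0 * (#c.E - c.d : ℚ) * (c.d.choose i : ℚ) -
    ∑ a, c.ka a * ((1 + X) ^ c.s a * W #(c.E \ c.H a) (c.m a)).coeff i) * hs

end Cfg

end Pool.Agent.Lib.MP_147f4d_co.Split
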