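import Pool.Agent.Lib.MP_147f4d_co.Defs

namespace Pool.Agent.Lib.MP_147f4d_co.Split

/-- Elementary split matroids, in the hypergraph form of Berczi, Kiraly, Schwarcz, Yamaguchi and
Yokoi: `M` has rank `k`, and there are sets `H a` and numbers `r a` with
`|H a ∩ H b| ≤ r a + r b - k` for `a ≠ b` such that the independent sets are the subsets `X` of the
ground set with `|X| ≤ k` and `|X ∩ H a| ≤ r a` for all `a`. -/
def IsElemSplit {α : Type} (M : Matroid α) : Prop :=
  ∃ (k q : ℕ) (H : Fin q → Set α) (r : Fin q → ℕ), M.eRank = k ∧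
    (∀ a b, a ≠ b → (H a ∩ H b).ncard + k ≤ r a + r b) ∧
    ∀ X, M.Indep X ↔ X ⊆ M.E ∧ X.ncard ≤ k ∧ ∀ a, (X ∩ H a).ncard ≤ r a

/-- Finite direct sums of elementary split matroids. -/
inductive IsSplitSum {α : Type} : Matroid α → Prop
  | elem {M : Matroid α} : IsElemSplit M → IsSplitSum M
  | sum {M N : Matroid α} (h : Disjoint M.E N.E) :
      IsSplitSum M → IsSplitSum N → IsSplitSum (M.disjointSum N h)

end Pool.Agent.Lib.MP_147f4d_co.Split
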