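import Pool.Agent.Lib.MP_147f4d_co.SplitCfg

namespace Pool.Agent.Lib.MP_147f4d_co.Split

open Polynomial Finset

namespace Cfg

variable {α ι : Type} [DecidableEq α] (c : Cfg α ι)

/-- nullity of `H a` -/
def x (a : ι) : ℚ := #(c.H a) - c.s a - 1

/-- nullity of the contraction by `H a` -/
def w (a : ι) : ℚ := #(c.E \ c.H a) - c.m a - 1

lemma x_pos (a : ι) : 0 < c.x a := by
  have : (c.s a : ℚ) + 2 ≤ #(c.H a) := by exact_mod_cast c.big a
  rw [x]; linarith

lemma w_nonneg (a : ι) : 0 ≤ c.w a := by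
  have : (c.m a : ℚ) + 1 ≤ #(c.E \ c.H a) := by exact_mod_cast c.co a
  rw [w]; linarith

lemma count (a : ι) {j l : ℕ} (h : j + l = c.d) (v : ℚ) :
    ∑ Z ∈ c.E.powerset, (if #Z = c.d ∧ #(Z ∩ c.H a) = j then v else 0) =
      (#(c.H a)).choose j * v * (#(c.E \ c.H a)).choose l := by
  have h1 := sum_split (c.sub a) (fun I => if #I = j then v else 0)
    (fun J => if #J = l then (1 : ℚ) else 0)
  rw [sum_card_eq _ _ (fun _ => v), sum_card_eq _ _ (fun _ => (1 : ℚ)), mul_one] at h1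
  rw [← h1]
  refine sum_congr rfl fun Z _ => ?_
  have := card_split Z (c.H a)
  split_ifs <;> first | omega | simp

lemma G_cmp {a b : ι} (hab : a ≠ b) (i : ℕ) :
    G (c.m a) (c.w a) (c.s a) i ≤ G (c.s b) (c.x b) (c.m b) i := by
  have h1 := c.inter b a hab.symm
  have h2 := c.hd a
  have h3 := c.hd b
  obtain ⟨e, he⟩ : ∃ e, c.s b = c.m a + e := ⟨c.s b - c.m a, by omega⟩
  have h4 : c.x b ≤ c.w a := by
    have a1 := card_split (c.H b) (c.H a)
    have a2 : #(c.H b \ c.H a) ≤ #(c.E \ c.H a) :=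
      card_le_card (sdiff_subset_sdiff_left _ (c.sub b))
    have a3 : #(c.H b) + c.m a ≤ #(c.E \ c.H a) + c.s b := by omega
    have a4 : (#(c.H b) : ℚ) + c.m a ≤ #(c.E \ c.H a) + c.s b := by exact_mod_cast a3
    rw [x, w]; linarith
  refine (G_anti _ (c.x_pos b).le h4 _ _).trans ?_
  rw [he, show c.s a = c.m b + e by omega]
  exact G_mono _ (c.x_pos b) _ _ _

lemma near_card {a : ι} {Z : Finset α} (h : #(Z ∩ c.H a) = c.s a) :
    (#(c.H a \ Z) : ℚ) = c.x a + 1 := by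
  have := card_sdiff_add_card_inter (c.H a) Z
  rw [inter_comm, h] at this
  rw [x, ← this]; push_cast; ring

lemma near_pair {a b : ι} (hab : a ≠ b) {Z : Finset α} (hZ : #Z = c.d)
    (ha : #(Z ∩ c.H a) = c.s a) (hb : #(Z ∩ c.H b) = c.s b) :
    #((c.H a \ Z) ∩ (c.H b \ Z)) ≤ 1 := by
  have h1 := two' Z (c.H a) (c.H b)
  have h2 := c.inter a b hab
  have h3 := card_sdiff_add_card_inter (c.H a ∩ c.H b) Z
  rw [inter_comm _ Z] at h3
  rw [show (c.H a \ Z) ∩ (c.H b \ Z) = (c.H a ∩ c.H b) \ Z by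
    ext e; simp only [mem_inter, mem_sdiff]; tauto]
  omega

variable [Fintype ι]

lemma alloc {Z : Finset α} (hE : Z ⊆ c.E) (hZ : #Z = c.d) (i : ℕ) :
    ∑ a, (if #(Z ∩ c.H a) = c.s a then (c.x a + 1) * c.x a * G (c.m a) (c.w a) (c.s a) i else 0) ≤
      (if c.Free Z then (#c.E - c.d : ℚ) * (#c.E - c.d - 1) * c.d.choose i else 0) +
      ∑ b, if #(Z ∩ c.H b) = c.s b + 1 then
        (c.w b + 1) * c.w b * G (c.s b) (c.x b) (c.m b) i else 0 := by
  classical
  have hn : ∀ b, 0 ≤ if #(Z ∩ c.H b) = c.s b + 1 then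
      (c.w b + 1) * c.w b * G (c.s b) (c.x b) (c.m b) i else 0 := fun b => by
    have h1 := c.w_nonneg b
    have h2 := G_nonneg (c.s b) (c.x_pos b).le (c.m b) i
    split_ifs
    · positivity
    · exact le_rfl
  set A := univ.filter fun a => #(Z ∩ c.H a) = c.s a with hA
  have mA : ∀ a, a ∈ A ↔ #(Z ∩ c.H a) = c.s a := fun a => by simp [hA]
  have key : ∀ (U : Finset α) (g : ℚ), 0 ≤ g → (∀ a ∈ A, c.H a \ Z ⊆ U) →
      (∀ a ∈ A, G (c.m a) (c.w a) (c.s a) i ≤ g) →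
      ∑ a ∈ A, (c.x a + 1) * c.x a * G (c.m a) (c.w a) (c.s a) i ≤ #U * (#U - 1) * g := by
    intro U g hg h1 h2
    have h3 := packing A (fun a => c.H a \ Z) U h1 fun a ha b hb hab =>
      c.near_pair hab hZ ((mA a).1 ha) ((mA b).1 hb)
    refine le_trans ?_ (mul_le_mul_of_nonneg_right h3 hg)
    rw [sum_mul]
    refine sum_le_sum fun a ha => ?_
    rw [c.near_card ((mA a).1 ha), add_sub_cancel_right]
    have := c.x_pos a
    exact mul_le_mul_of_nonneg_left (h2 a ha) (by positivity)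
  rw [← sum_filter, ← hA]
  by_cases hF : c.Free Z
  · rw [if_pos hF]
    refine le_add_of_le_of_nonneg ?_ (sum_nonneg fun b _ => hn b)
    have h1 := key (c.E \ Z) (c.d.choose i) (by positivity)
      (fun a _ => sdiff_subset_sdiff_left _ (c.sub a)) fun a _ => by
        have := G_le (c.m a) (c.w_nonneg a) (c.s a) i
        rwa [show c.m a + 1 + c.s a = c.d by have := c.hd a; omega] at this
    have h2 : (#(c.E \ Z) : ℚ) = #c.E - c.d := by
      rw [← card_sdiff_add_card_eq_card hE, hZ]; push_cast; ring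
    rwa [h2] at h1
  rw [if_neg hF, zero_add]
  rcases A.eq_empty_or_nonempty with h0 | ⟨a0, ha0⟩
  · rw [h0, sum_empty]; exact sum_nonneg fun b _ => hn b
  have h1 : ¬ ∀ b, #(Z ∩ c.H b) ≤ c.s b := fun h => hF ⟨hE, hZ.le, h⟩
  obtain ⟨b, hb⟩ := not_forall.1 h1
  have hne : ∀ a ∈ A, a ≠ b := fun a ha hab => hb (hab ▸ ((mA a).1 ha).le)
  have hb' : #(Z ∩ c.H b) = c.s b + 1 := by
    have := c.two (hne a0 ha0) Z
    have := (mA a0).1 ha0
    omega
  refine le_trans ?_ (single_le_sum (fun b _ => hn b) (mem_univ b))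
  rw [if_pos hb']
  have h2 := key ((c.E \ c.H b) \ Z) _ (G_nonneg (c.s b) (c.x_pos b).le (c.m b) i)
    (fun a ha e he => by
      rw [mem_sdiff] at he
      refine mem_sdiff.2 ⟨mem_sdiff.2 ⟨c.sub a he.1, fun h3 => ?_⟩, he.2⟩
      have h4 := c.two (hne a ha) (insert e Z)
      have h5 := (mA a).1 ha
      rw [insert_inter_of_mem he.1, insert_inter_of_mem h3, card_insert_of_notMem he.2,
        card_insert_of_notMem (fun h7 => he.2 (mem_inter.1 h7).1),
        card_insert_of_notMem (fun h7 => he.2 (mem_inter.1 h7).1)] at h4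
      omega) fun a ha => c.G_cmp (hne a ha) i
  have h3 : (#((c.E \ c.H b) \ Z) : ℚ) = c.w b + 1 := by
    have a1 := card_sdiff_add_card_inter (c.E \ c.H b) Z
    have a2 : (c.E \ c.H b) ∩ Z = Z \ c.H b := by
      ext e; have := @hE e; simp only [mem_inter, mem_sdiff]; tauto
    have a3 := card_split Z (c.H b)
    have a4 := c.hd b
    rw [a2, show #(Z \ c.H b) = c.m b by omega] at a1
    rw [w, ← a1]; push_cast; ring
  rwa [h3, add_sub_cancel_right] at h2

lemma total (i : ℕ) :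
    ∑ a, c.ka a * (c.x a * (W #(c.E \ c.H a) (c.m a) * (1 + X) ^ c.s a).coeff i) ≤
      c.N0 * ((#c.E - c.d : ℚ) * (#c.E - c.d - 1) * c.d.choose i) +
      ∑ a, c.ka a * (c.w a * (W #(c.H a) (c.s a) * (1 + X) ^ c.m a).coeff i) := by
  have e1 : ∀ a, c.ka a * (c.x a * (W #(c.E \ c.H a) (c.m a) * (1 + X) ^ c.s a).coeff i) =
      ∑ Z ∈ c.E.powerset, if #Z = c.d ∧ #(Z ∩ c.H a) = c.s a then
        (c.x a + 1) * c.x a * G (c.m a) (c.w a) (c.s a) i else 0 := fun a => by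
    rw [c.count a (l := c.m a + 1) (c.hd a), ka, kap_eq _ (c.m a), kap, G,
      show (c.m a : ℚ) + 1 + c.w a = #(c.E \ c.H a) by rw [w]; ring, x]
    ring
  have e2 : ∀ a, c.ka a * (c.w a * (W #(c.H a) (c.s a) * (1 + X) ^ c.m a).coeff i) =
      ∑ Z ∈ c.E.powerset, if #Z = c.d ∧ #(Z ∩ c.H a) = c.s a + 1 then
        (c.w a + 1) * c.w a * G (c.s a) (c.x a) (c.m a) i else 0 := fun a => by
    rw [c.count a (l := c.m a) (by have := c.hd a; omega), ka, kap_eq _ (c.s a), kap, G,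
      show (c.s a : ℚ) + 1 + c.x a = #(c.H a) by rw [x]; ring, w]
    ring
  simp only [e1, e2]
  rw [sum_comm, sum_comm (s := univ), N0, ← nsmul_eq_mul, ← sum_const, sum_filter,
    ← sum_add_distrib]
  refine sum_le_sum fun Z hZ => ?_
  by_cases h : #Z = c.d
  · simp only [h, true_and, and_true]
    exact c.alloc (mem_powerset.1 hZ) h i
  · simp [h]

omit [Fintype ι] in
lemma hyp (a : ι) : (c.s a : ℚ) + 2 ≤ #(c.H a) ∧ (c.m a : ℚ) + 1 ≤ #(c.E \ c.H a) ∧
    (c.d : ℚ) = c.s a + c.m a + 1 ∧ (#c.E : ℚ) = #(c.H a) + #(c.E \ c.H a) :=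
  ⟨by exact_mod_cast c.big a, by exact_mod_cast c.co a, by exact_mod_cast (c.hd a).symm,
    by exact_mod_cast (c.card_E a).symm⟩

lemma y_zero : 0 < c.y 0 := by
  have h0 := c.d_lt
  have h1 : (c.d : ℚ) < #c.E := by exact_mod_cast h0
  have h2 : (0 : ℚ) ≤ c.d := by positivity
  have h3 : ∀ a, 0 < c.ka a * c.za a 0 := fun a =>
    mul_pos (c.ka_pos a) (z_zero (c.hyp a).1 (c.hyp a).2.1)
  rw [c.y_eq (by omega)]
  simp only [Nat.choose_zero_right, Nat.cast_one, Nat.cast_zero, sub_zero]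
  have h4 : (0 : ℚ) < #c.E - c.d := by linarith
  have h5 : (0 : ℚ) < #c.E := by linarith
  rcases isEmpty_or_nonempty ι with h | h
  · obtain ⟨Z, hZ, hd⟩ := exists_subset_card_eq h0.le
    have h6 : 0 < c.N0 := card_pos.2 ⟨Z, mem_filter.2 ⟨mem_powerset.2 hZ,
      ⟨hZ, hd.le, fun a => isEmptyElim a⟩, hd⟩⟩
    have h7 : (0 : ℚ) < c.N0 := by exact_mod_cast h6
    exact add_pos_of_pos_of_nonneg (by positivity) (sum_nonneg fun a _ => (h3 a).le)
  · exact add_pos_of_nonneg_of_pos (by positivity) (sum_pos (fun a _ => h3 a) univ_nonempty)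

lemma y_grow {i : ℕ} (hi : 2 * (i + 1) ≤ c.d + 1) {v : ℚ} (h0 : 0 ≤ v) (h1 : v ≤ c.d - i)
    (h : ∀ a, v * c.za a i ≤ (i + 1) * c.za a (i + 1)) : v * c.y i ≤ (i + 1) * c.y (i + 1) := by
  have h2 := c.d_lt
  have h3 : (c.d : ℚ) < #c.E := by exact_mod_cast h2
  have h4 : (i : ℚ) + 1 < #c.E := by exact_mod_cast (by omega : i + 1 < #c.E)
  rw [c.y_eq (by omega), c.y_eq (by omega), mul_add, mul_add, mul_sum, mul_sum]
  refine add_le_add ?_ (sum_le_sum fun a _ => ?_)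
  · have h5 := grow_div (g0 := c.d.choose i) (g1 := c.d.choose (i + 1)) (c' := i + 1)
      (N := #c.E - i) (by positivity) h0 (by
        rw [choose_succ_q]; exact mul_le_mul_of_nonneg_right h1 (by positivity)) (by linarith)
    have h6 : (0 : ℚ) ≤ c.N0 * (#c.E - c.d : ℚ) := mul_nonneg (by positivity) (by linarith)
    have h7 := mul_le_mul_of_nonneg_left h5 h6
    push_cast
    rw [show (#c.E : ℚ) - (i + 1) = #c.E - i - 1 by ring]
    linarith
  · have := mul_le_mul_of_nonneg_left (h a) (c.ka_pos a).le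
    linarith

lemma y_low {i : ℕ} (hi : 2 * (i + 1) ≤ c.d + 1) :
    ((c.d : ℚ) - 1 - i) * c.y i ≤ (i + 1) * c.y (i + 1) := by
  have h1 : (i : ℚ) + 1 ≤ c.d := by exact_mod_cast (by omega : i + 1 ≤ c.d)
  refine c.y_grow hi (by linarith) (by linarith) fun a => ?_
  obtain ⟨a1, a2, a3, -⟩ := c.hyp a
  have := z_low a1 a2 (i := i) (by have := c.hd a; omega)
  rwa [show (c.s a : ℚ) + c.m a - i = c.d - 1 - i by rw [a3]; ring] at this

lemma y_mid {i : ℕ} (hi : 2 * (i + 1) = c.d + 1) : c.y i ≤ c.y (i + 1) := by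
  have h1 : 2 * ((i : ℚ) + 1) = c.d + 1 := by exact_mod_cast hi
  have h2 : (0 : ℚ) < i + 1 := by positivity
  refine le_of_mul_le_mul_left (c.y_grow hi.le h2.le (by linarith) fun a => ?_) h2
  obtain ⟨a1, a2, -, -⟩ := c.hyp a
  exact mul_le_mul_of_nonneg_left (z_mid a1 a2 (by have := c.hd a; omega)) h2.le

lemma y_up {i : ℕ} (hi : 2 * (i + 1) ≤ c.d + 1) :
    ((i : ℚ) + 1) * c.y (i + 1) ≤ (c.d + 1 - i) * c.y i := by
  have h2 := c.d_lt
  have h4 : (i : ℚ) + 1 < #c.E := by exact_mod_cast (by omega : i + 1 < #c.E)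
  have n1 : (0 : ℚ) < #c.E - i - 1 := by linarith
  have n2 : (0 : ℚ) < #c.E - i := by linarith
  have h5 : ∑ a, c.ka a * (c.w a * (W #(c.H a) (c.s a) * (1 + X) ^ c.m a).coeff i) -
      ∑ a, c.ka a * (c.x a * (W #(c.E \ c.H a) (c.m a) * (1 + X) ^ c.s a).coeff i) ≤
      ((c.d + 1 - i : ℚ) * ∑ a, c.ka a * c.za a i - (i + 1) * ∑ a, c.ka a * c.za a (i + 1)) *
        ((#c.E - i) * (#c.E - i - 1)) := by
    rw [mul_sum, mul_sum, ← sum_sub_distrib, ← sum_sub_distrib, sum_mul]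
    refine sum_le_sum fun a _ => ?_
    obtain ⟨a1, a2, a3, a4⟩ := c.hyp a
    have := mul_le_mul_of_nonneg_left (z_up a1 a2 (i := i) (by have := c.hd a; omega))
      (c.ka_pos a).le
    rw [za, za, w, x, a3, a4]
    linarith
  have h6 := c.total i
  have h7 : ((c.d + 1 - i : ℚ) * ((c.d.choose i : ℚ) / (#c.E - i)) -
      (i + 1) * ((c.d.choose (i + 1) : ℚ) / (#c.E - i - 1))) * ((#c.E - i) * (#c.E - i - 1)) =
      (#c.E - c.d - 1 : ℚ) * c.d.choose i := by
    rw [← mul_div_assoc (i + 1 : ℚ), choose_succ_q]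
    field_simp; ring
  rw [← sub_nonneg]
  refine le_of_mul_le_mul_right ?_ (mul_pos n2 n1)
  rw [c.y_eq (by omega), c.y_eq (by omega)]
  push_cast
  rw [show (#c.E : ℚ) - (i + 1) = #c.E - i - 1 by ring]
  linear_combination h5 + h6 - (c.N0 * (#c.E - c.d : ℚ)) * h7

/-- the inverse `Z`-polynomial -/
noncomputable def top : ℚ[X] := pal (c.d + 1) (C ((-1) ^ c.d) * ∑ Z ∈ c.E.powerset, c.Yc Z)

lemma coeff_top {i : ℕ} (hi : 2 * i ≤ c.d + 1) : c.top.coeff i = c.y i := by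
  rw [top, coeff_pal_low _ hi, coeff_C_mul, y]

lemma top_lc : (∀ i ≤ c.d + 1, 0 < c.top.coeff i) ∧
    ∀ i, c.top.coeff i * c.top.coeff (i + 2) ≤ c.top.coeff (i + 1) ^ 2 := by
  refine lc_of_window (sym_pal _ _) ?_ (fun i hi => ?_) (fun i hi => ?_) fun i hi => ?_
  · rw [c.coeff_top (by omega)]; exact c.y_zero
  · rw [c.coeff_top (by omega), c.coeff_top hi]
    have := c.y_low hi
    push_cast
    linarith
  · rw [c.coeff_top (by omega), c.coeff_top hi.le]; exact c.y_mid hi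
  · rw [c.coeff_top (i := i) (by omega), c.coeff_top hi]
    have := c.y_up hi
    push_cast
    linarith

end Cfg

end Pool.Agent.Lib.MP_147f4d_co.Split
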