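import Pool.Agent.Lib.MP_147f4d_co.SplitProd
import Pool.Agent.Lib.MP_147f4d_co.SplitDefs

namespace Pool.Agent.Lib.MP_147f4d_co.Split

open Polynomial Finset

variable {α : Type} [Finite α] {M : Matroid α}

lemma good_of_rank_zero (h : M.eRank = 0) : Good M 0 :=
  good_zero (by rw [flatRank, Matroid.eRk_ground, h]; rfl)

lemma IsElemSplit.good_loopless [M.Loopless] (h : IsElemSplit M) : ∃ k, Good M k := by
  classical
  obtain ⟨k, q, H, r, hk, hH, hI⟩ := h
  rcases k with _ | d
  · exact ⟨0, good_of_rank_zero hk⟩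
  obtain ⟨E, hE⟩ : ∃ E : Finset α, M.E = E := ⟨(Set.toFinite M.E).toFinset, by simp⟩
  obtain ⟨K, hK⟩ : ∃ K : Fin q → Finset α, ∀ a, H a = K a :=
    ⟨fun a => (Set.toFinite (H a)).toFinset, by simp⟩
  have hI' : ∀ Z : Finset α, M.Indep Z ↔ Z ⊆ E ∧ #Z ≤ d + 1 ∧ ∀ a, #(Z ∩ K a) ≤ r a := fun Z => by
    simp only [hI, hE, hK, coe_subset, ← coe_inter, Set.ncard_coe_finset]
  obtain ⟨B', hB⟩ := M.exists_isBase
  lift B' to Finset α using Set.toFinite B' with B
  have hBc : #B = d + 1 := by
    have := hB.encard_eq_eRank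
    rw [hk, Set.encard_coe_eq_coe_finsetCard] at this
    exact_mod_cast this
  have hB' := (hI' B).1 hB.indep
  have hr : ∀ a, r a < #(K a ∩ E) → 0 < r a := fun a ha => by
    obtain ⟨e, he⟩ := card_pos.1 (show 0 < #(K a ∩ E) by omega)
    rw [mem_inter] at he
    have h1 : M.Indep ({e} : Finset α) := by
      rw [coe_singleton]
      exact Matroid.subsingleton_indep Set.subsingleton_singleton
        (by rw [hE]; simpa using he.2)
    have h2 := ((hI' _).1 h1).2.2 a
    rwa [singleton_inter_of_mem he.1, card_singleton] at h2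
  let c : Cfg α {a // r a ≤ d ∧ r a < #(K a ∩ E)} :=
    { E := E
      H := fun a => K a ∩ E
      s := fun a => r a - 1
      m := fun a => d - r a
      d := d
      sub := fun _ => inter_subset_right
      hd := fun a => by have := hr a a.2.2; have := a.2.1; omega
      big := fun a => by have := hr a a.2.2; have := a.2.2; omega
      co := fun a => by
        have h1 := Cfg.card_split B (K a)
        have h2 := hB'.2.2 a
        have h3 : #(B \ K a) ≤ #(E \ (K a ∩ E)) := card_le_card fun e he => by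
          have := @hB'.1 e
          simp only [mem_sdiff, mem_inter] at he ⊢
          tauto
        have := a.2.1
        omega
      inter := fun a b hab => by
        have h1 := hH a b fun h2 => hab (Subtype.ext h2)
        rw [hK, hK, ← coe_inter, Set.ncard_coe_finset] at h1
        have h2 : #(K a ∩ E ∩ (K b ∩ E)) ≤ #(K a ∩ K b) :=
          card_le_card (inter_subset_inter inter_subset_left inter_subset_left)
        have := hr a a.2.2
        have := hr b b.2.2
        omega
      d_lt := by have := card_le_card hB'.1; omega }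
  refine ⟨_, Rep.good (c := c) ⟨hE, fun Z => ?_⟩⟩
  rw [hI']
  refine and_congr_right fun hZ => and_congr_right fun hd => ?_
  have e : ∀ a, Z ∩ (K a ∩ E) = Z ∩ K a := fun a => by
    rw [inter_comm (K a), ← inter_assoc, inter_eq_left.2 hZ]
  constructor
  · intro h1 a
    have := h1 a
    have := hr a a.2.2
    change #(Z ∩ (K a ∩ E)) ≤ r a - 1 + 1
    rw [e]; omega
  · intro h1 a
    by_cases h2 : r a ≤ d ∧ r a < #(K a ∩ E)
    · have h3 : #(Z ∩ (K a ∩ E)) ≤ r a - 1 + 1 := h1 ⟨a, h2⟩
      have := hr a h2.2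
      rw [e] at h3; omega
    · have h3 : #(Z ∩ K a) ≤ #Z := card_le_card inter_subset_left
      have h4 : #(Z ∩ (K a ∩ E)) ≤ #(K a ∩ E) := card_le_card inter_subset_right
      have h5 : #Z ≤ d + 1 := hd
      rw [e] at h4; omega

omit [Finite α] in
lemma IsElemSplit.removeLoops (h : IsElemSplit M) : IsElemSplit M.removeLoops := by
  obtain ⟨k, q, H, r, hk, hH, hI⟩ := h
  refine ⟨k, q, H, r, ?_, hH, fun Z => ?_⟩
  · obtain ⟨B, hB⟩ := M.exists_isBase
    rw [← hk, ← hB.encard_eq_eRank]
    exact (Matroid.IsBase.encard_eq_eRank (by rwa [Matroid.removeLoops_isBase_eq])).symm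
  · rw [Matroid.removeLoops_indep_eq]
    exact ⟨fun h1 => ⟨fun e he => h1.isNonloop_of_mem he, ((hI Z).1 h1).2⟩,
      fun h1 => (hI Z).2 ⟨h1.1.trans M.removeLoops_isRestriction.subset, h1.2⟩⟩

lemma IsElemSplit.good (h : IsElemSplit M) : ∃ k, Good M k := by
  obtain ⟨k, hk⟩ := h.removeLoops.good_loopless
  have hd : Disjoint (M.restrict M.loops).E M.removeLoops.E :=
    Set.disjoint_left.2 fun e he he' => Matroid.IsNonloop.not_isLoop he' he
  have hE : (M.restrict M.loops).E ∪ M.removeLoops.E = M.E := by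
    ext e
    exact ⟨fun he => he.elim (fun h1 => M.loops_subset_ground h1) fun h1 => h1.mem_ground,
      fun he => (M.isLoop_or_isNonloop e he).elim Or.inl Or.inr⟩
  have e : M = (M.restrict M.loops).disjointSum M.removeLoops hd := by
    refine Matroid.ext_indep (by rw [Matroid.disjointSum_ground_eq, hE]) fun Z hZ => ?_
    rw [Matroid.disjointSum_indep_iff, hE, Matroid.removeLoops_indep_eq, Matroid.restrict_indep_iff]
    constructor
    · intro h1
      exact ⟨⟨h1.inter_right _, Set.inter_subset_right⟩, h1.inter_right _, hZ⟩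
    · rintro ⟨⟨h1, h2⟩, h3, -⟩
      have h4 := h1.eq_empty_of_subset_loops h2
      refine h3.subset fun x hx => ⟨hx, ?_⟩
      refine (hE.ge (hZ hx)).resolve_left fun h5 => ?_
      exact (Set.eq_empty_iff_forall_notMem.1 h4) x ⟨hx, h5⟩
  have h0 : Good (M.restrict M.loops) 0 :=
    good_of_rank_zero (by rw [Matroid.eRank_restrict, Matroid.eRk_loops])
  exact ⟨0 + k, e ▸ h0.sum hk⟩

lemma IsSplitSum.good (h : IsSplitSum M) : ∃ k, Good M k := by
  induction h with
  | elem h => exact h.good
  | sum _ _ _ h1 h2 =>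
    obtain ⟨k, h1⟩ := h1
    obtain ⟨l, h2⟩ := h2
    exact ⟨k + l, h1.sum h2⟩

theorem IsSplitSum.main (h : IsSplitSum M) {k : ℕ} (hk : M.eRank = k) :
    (∃! Q, IsInvKL (flatRank M) Q) ∧ ∀ Q, IsInvKL (flatRank M) Q →
      (invZ (flatRank M) Q ⟨M.E, M.ground_isFlat⟩).natDegree = k ∧
      (∀ i ≤ k, 0 < (invZ (flatRank M) Q ⟨M.E, M.ground_isFlat⟩).coeff i) ∧
      ∀ i, (invZ (flatRank M) Q ⟨M.E, M.ground_isFlat⟩).coeff i *
          (invZ (flatRank M) Q ⟨M.E, M.ground_isFlat⟩).coeff (i + 2) ≤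
        (invZ (flatRank M) Q ⟨M.E, M.ground_isFlat⟩).coeff (i + 1) ^ 2 := by
  obtain ⟨l, h1⟩ := h.good
  have h2 := h1.main
  have h3 : l = k := by
    have := h2.1.symm.trans hk
    exact_mod_cast this
  exact h3 ▸ h2.2

/-- paving matroids are elementary split -/
theorem paving_elemSplit {k : ℕ} (hk : M.eRank = k) (h : ∀ C, M.IsCircuit C → k ≤ C.ncard) :
    IsElemSplit M := by
  classical
  have small : ∀ Z, Z ⊆ M.E → Z.ncard < k → M.Indep Z := fun Z hZ hc => by
    by_contra h1
    obtain ⟨C, hC, h2⟩ := (Matroid.dep_of_not_indep h1 hZ).exists_isCircuit_subset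
    have := h C h2
    have := Set.ncard_le_ncard hC (Set.toFinite _)
    omega
  have le : ∀ {Z V : Set α} {j : ℕ}, M.Indep Z → Z ⊆ V → M.eRk V = j → Z.ncard ≤ j :=
    fun {Z V j} h1 h2 h3 => by
      have := h1.encard_le_eRk_of_subset h2
      rw [h3, ← (Set.toFinite Z).cast_ncard_eq] at this
      exact_mod_cast this
  rcases k with _ | d
  · refine ⟨0, 0, Fin.elim0, Fin.elim0, hk, fun a => a.elim0, fun Z => ⟨fun h1 =>
      ⟨h1.subset_ground, le h1 h1.subset_ground (M.eRk_ground.trans hk), fun a => a.elim0⟩,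
      fun h1 => ?_⟩⟩
    rw [(Set.ncard_eq_zero (Set.toFinite _)).1 (Nat.le_zero.1 h1.2.1)]
    exact M.empty_indep
  let S := {F : Flat M // M.eRk F.1 = d}
  have : Fintype S := Fintype.ofFinite _
  let e := (Fintype.equivFin S).symm
  refine ⟨d + 1, _, fun a => (e a).1.1, fun _ => d, hk, fun a b hab => ?_, fun Z => ⟨fun h1 =>
    ⟨h1.subset_ground, le h1 h1.subset_ground (M.eRk_ground.trans hk), fun a =>
      le (h1.inter_right _) Set.inter_subset_right (e a).2⟩, fun h1 => ?_⟩⟩
  · by_contra h1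
    beta_reduce at h1
    obtain ⟨I, hI, hc⟩ := Set.exists_subset_card_eq (s := (e a).1.1 ∩ (e b).1.1) (n := d)
      (by omega)
    have key : ∀ F : S, I ⊆ F.1.1 → M.closure I = F.1.1 := fun F hF => by
      have h2 := small I (hF.trans F.1.2.subset_ground) (by omega)
      rw [(h2.isBasis_of_eRk_ge (Set.toFinite _) hF (by
        rw [F.2, h2.eRk_eq_encard, ← (Set.toFinite I).cast_ncard_eq, hc])
        F.1.2.subset_ground).closure_eq_closure, F.1.2.closure]
    exact hab (e.injective (Subtype.ext (Subtype.ext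
      ((key _ (hI.trans Set.inter_subset_left)).symm.trans
        (key _ (hI.trans Set.inter_subset_right))))))
  · by_cases h2 : Z.ncard < d + 1
    · exact small Z h1.1 h2
    by_contra h3
    obtain ⟨I, hI, hc⟩ := Set.exists_subset_card_eq (s := Z) (n := d) (by omega)
    have h4 := small I (hI.trans h1.1) (by omega)
    have h5 : M.eRk Z < Z.encard := (Matroid.dep_of_not_indep h3 h1.1).eRk_lt_encard
    have h6 : M.eRk I = d := by rw [h4.eRk_eq_encard, ← (Set.toFinite I).cast_ncard_eq, hc]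
    have h7 : M.eRk Z ≤ M.eRk I := by
      rw [← (Set.toFinite Z).cast_ncard_eq, show Z.ncard = d + 1 by omega] at h5
      rw [h6]
      exact Order.le_of_lt_add_one (by exact_mod_cast h5)
    have h8 := (h4.isBasis_of_eRk_ge (Set.toFinite _) hI h7 h1.1).subset_closure
    have h9 := h1.2.2 (e.symm ⟨⟨M.closure I, M.isFlat_closure I⟩, by
      rw [Matroid.eRk_closure_eq, h6]⟩)
    beta_reduce at h9
    rw [Equiv.apply_symm_apply, Set.inter_eq_left.2 h8] at h9
    omega

end Pool.Agent.Lib.MP_147f4d_co.Split
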