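import Pool.Agent.Lib.MP_147f4d_co.SplitIneq

namespace Pool.Agent.Lib.MP_147f4d_co.Split

open Polynomial Finset

variable {α : Type} [Finite α]

/-- the signed inverse `Z`-polynomials exist and the top one is positive and log-concave -/
def Good (M : Matroid α) (k : ℕ) : Prop :=
  ∃ (Y : Flat M → ℚ[X]) (p : ℚ[X]), Cand (flatRank M) Y ∧
    flatRank M ⟨M.E, M.ground_isFlat⟩ = k ∧ Y ⟨M.E, M.ground_isFlat⟩ = C ((-1) ^ k) * p ∧
    (∀ i ≤ k, 0 < p.coeff i) ∧ ∀ i, p.coeff i * p.coeff (i + 2) ≤ p.coeff (i + 1) ^ 2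

lemma flatRank_mono (M : Matroid α) : Monotone (flatRank M) := fun _ G h =>
  ENat.toNat_le_toNat (M.eRk_mono h) (Matroid.eRk_ne_top_iff.2 (M.isRkFinite_set G.1))

lemma flat_min (M : Matroid α) (G : Flat M) (h : flatRank M G = 0) (F : Flat M) (hF : F ≤ G) :
    F = G := by
  have h1 : M.eRk G.1 = 0 := by
    rcases ENat.toNat_eq_zero.1 h with h1 | h1
    · exact h1
    · exact absurd h1 (Matroid.eRk_ne_top_iff.2 (M.isRkFinite_set G.1))
  refine le_antisymm hF ?_
  change G.1 ⊆ F.1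
  rw [← F.2.closure]
  exact ((Matroid.eRk_eq_zero_iff G.2.subset_ground).1 h1).trans (M.closure_subset_closure (Set.empty_subset _))

theorem Good.main {M : Matroid α} {k : ℕ} (h : Good M k) :
    M.eRank = k ∧ (∃! Q, IsInvKL (flatRank M) Q) ∧ ∀ Q, IsInvKL (flatRank M) Q →
      (invZ (flatRank M) Q ⟨M.E, M.ground_isFlat⟩).natDegree = k ∧
      (∀ i ≤ k, 0 < (invZ (flatRank M) Q ⟨M.E, M.ground_isFlat⟩).coeff i) ∧
      ∀ i, (invZ (flatRank M) Q ⟨M.E, M.ground_isFlat⟩).coeff i *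
          (invZ (flatRank M) Q ⟨M.E, M.ground_isFlat⟩).coeff (i + 2) ≤
        (invZ (flatRank M) Q ⟨M.E, M.ground_isFlat⟩).coeff (i + 1) ^ 2 := by
  obtain ⟨Y, p, c, hk, hY, hpos, hlc⟩ := h
  refine ⟨?_, ?_, fun Q hQ => ?_⟩
  · rw [← hk, flatRank, ENat.natCast_toNat (Matroid.eRk_ne_top_iff.2 (M.isRkFinite_set _)),
      Matroid.eRk_ground]
  · obtain ⟨Q, hQ⟩ := c.exists_Q
    exact ⟨Q, hQ, fun Q' hQ' => c.unique hQ' hQ⟩
  set T : Flat M := ⟨M.E, M.ground_isFlat⟩ with hT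
  have h5 : ((-1 : ℚ) ^ k) * (-1) ^ k = 1 := by rw [← mul_pow]; simp
  have e : ∀ i, (((invZ (flatRank M) Q T).coeff i : ℤ) : ℚ) = p.coeff i := fun i => by
    have h3 := congrArg (fun p => p.coeff i) (c.eq_hatY hQ T)
    simp only [coeff_map, hY, coeff_C_mul, eq_intCast] at h3
    have h4 : invZ (flatRank M) Q T = C ((-1) ^ k) * hatY (flatRank M) Q T := by
      rw [invZ, hatY, neg_one_pow_eq_C, hk]
    rw [h4, coeff_C_mul]
    push_cast
    rw [h3, ← mul_assoc, h5, one_mul]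
  have hp : ∀ i ≤ k, 0 < (invZ (flatRank M) Q T).coeff i := fun i hi => by
    have h1 := hpos i hi
    rw [← e] at h1
    exact_mod_cast h1
  refine ⟨le_antisymm (natDegree_le_iff_coeff_eq_zero.2 fun i hi => ?_)
    (le_natDegree_of_ne_zero (hp k le_rfl).ne'), hp, fun i => ?_⟩
  · have h1 := (c.sym T).hi i (hk ▸ hi)
    rw [hY, coeff_C_mul, ← e] at h1
    have h2 : ((-1 : ℚ) ^ k) ≠ 0 := pow_ne_zero _ (by norm_num)
    exact_mod_cast (mul_eq_zero.1 h1).resolve_left h2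
  · have h1 := hlc i
    simp only [← e] at h1
    exact_mod_cast h1

lemma good_zero {M : Matroid α} (h : flatRank M ⟨M.E, M.ground_isFlat⟩ = 0) : Good M 0 := by
  have h0 : ∀ G : Flat M, flatRank M G = 0 := fun G =>
    Nat.le_zero.1 (h ▸ flatRank_mono M (show G ≤ ⟨M.E, M.ground_isFlat⟩ from G.2.subset_ground))
  refine ⟨fun _ => 1, 1, ⟨flatRank_mono M, flat_min M, fun _ _ => rfl, fun G => ?_, fun G => ?_⟩,
    h, by simp, fun i hi => ?_, fun i => ?_⟩
  · rw [h0]; exact sym_one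
  · rw [h0]; exact hw_zero _
  · rw [Nat.le_zero.1 hi]; simp
  · rw [coeff_one (n := i + 2), if_neg (by omega), mul_zero]; positivity

/-- a flat as a finset -/
noncomputable def fs {M : Matroid α} (F : Flat M) : Finset α := (Set.toFinite F.1).toFinset

lemma coe_fs {M : Matroid α} (F : Flat M) : (fs F : Set α) = F.1 := Set.Finite.coe_toFinset _

lemma fs_le {M : Matroid α} {F G : Flat M} : fs F ⊆ fs G ↔ F ≤ G := by
  rw [← coe_subset, coe_fs, coe_fs]; rfl

lemma sym_u (j : ℕ) : Sym j (u ^ j) := by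
  rw [u_pow, ← smul_eq_C_mul]; exact (sym_pw j).smul _

lemma coeff_negX (q : ℚ[X]) (j i : ℕ) (h : j ≤ i → q.coeff (i - j) = 0) :
    (q * (-X) ^ j).coeff i = 0 := by
  have e : q * (-X) ^ j = C ((-1) ^ j) * (q * X ^ j) := by
    rw [neg_pow]; simp only [map_pow, map_neg, map_one]; ring
  rw [e, coeff_C_mul, coeff_mul_X_pow']
  split_ifs with h1
  · rw [h h1, mul_zero]
  · rw [mul_zero]

variable {ι : Type} [DecidableEq α] {c : Cfg α ι} {M : Matroid α}

/-- the matroid is the one described by the hypergraph data -/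
structure Rep (c : Cfg α ι) (M : Matroid α) : Prop where
  ground : M.E = c.E
  indep : ∀ Z : Finset α, M.Indep Z ↔ Z ⊆ c.E ∧ #Z ≤ c.d + 1 ∧ ∀ a, #(Z ∩ c.H a) ≤ c.s a + 1

omit [Finite α] in
lemma card_ins (e : α) (Z V : Finset α) : #(insert e Z ∩ V) ≤ #(Z ∩ V) + 1 := by
  by_cases h : e ∈ V
  · rw [insert_inter_of_mem h]; exact card_insert_le _ _
  · rw [insert_inter_of_notMem h]; omega

omit [Finite α] in
lemma Rep.mem_cl (h : Rep c M) {I : Finset α} (hI : M.Indep I) (e : α) :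
    e ∈ M.closure I ↔ e ∈ c.E ∧ (M.Indep (insert e I : Finset α) → e ∈ I) := by
  rw [hI.mem_closure_iff', h.ground, coe_insert, mem_coe, mem_coe]

omit [Finite α] in
lemma Rep.cl_free (h : Rep c M) {I : Finset α} (hI : c.Free I) : M.closure I = I := by
  have h1 : M.Indep I := (h.indep I).2 ⟨hI.1, hI.2.1.trans (by omega),
    fun a => (hI.2.2 a).trans (by omega)⟩
  ext e
  rw [h.mem_cl h1, mem_coe]
  refine ⟨fun h2 => h2.2 ((h.indep _).2 ⟨insert_subset h2.1 hI.1, ?_, fun a => ?_⟩),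
    fun h2 => ⟨hI.1 h2, fun _ => h2⟩⟩
  · have := card_insert_le e I
    have := hI.2.1
    omega
  · have := card_ins e I (c.H a)
    have := hI.2.2 a
    omega

omit [Finite α] in
lemma Rep.cl_tight (h : Rep c M) {I : Finset α} {a : ι} (hE : I ⊆ c.E) (hd : #I ≤ c.d)
    (ha : #(I ∩ c.H a) = c.s a + 1) : M.closure I = (I ∪ c.H a : Finset α) := by
  have h0 : ∀ b, b ≠ a → #(I ∩ c.H b) ≤ c.s b := fun b hb => by
    have := c.two hb I
    omega
  have h1 : M.Indep I := (h.indep I).2 ⟨hE, by omega, fun b => by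
    by_cases hb : b = a
    · rw [hb, ha]
    · exact (h0 b hb).trans (by omega)⟩
  ext e
  rw [h.mem_cl h1, mem_coe, mem_union]
  constructor
  · rintro ⟨h2, h3⟩
    by_contra h4
    rw [not_or] at h4
    refine h4.1 (h3 ((h.indep _).2 ⟨insert_subset h2 hE, ?_, fun b => ?_⟩))
    · have := card_insert_le e I
      omega
    · by_cases hb : b = a
      · rw [hb, insert_inter_of_notMem h4.2, ha]
      · have := card_ins e I (c.H b)
        have := h0 b hb
        omega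
  · rintro (h2 | h2)
    · exact ⟨hE h2, fun _ => h2⟩
    · refine ⟨c.sub a h2, fun h3 => ?_⟩
      by_contra h4
      have h5 := ((h.indep _).1 h3).2.2 a
      rw [insert_inter_of_mem h2, card_insert_of_notMem (fun h7 => h4 (mem_inter.1 h7).1)] at h5
      omega

omit [Finite α] in
lemma Rep.cl_full (h : Rep c M) {I : Finset α} (hI : M.Indep I) (hd : c.d < #I) :
    M.closure I = c.E := by
  ext e
  rw [h.mem_cl hI, mem_coe]
  refine ⟨fun h2 => h2.1, fun h2 => ⟨h2, fun h3 => ?_⟩⟩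
  by_contra h4
  have h5 := ((h.indep _).1 h3).2.1
  rw [card_insert_of_notMem h4] at h5
  omega

omit [Finite α] in
lemma Rep.flat_over (h : Rep c M) {Z : Finset α} {a : ι} (hE : Z ⊆ c.E) (ha : c.Over a Z) :
    M.IsFlat Z := by
  obtain ⟨I, hI, hc⟩ := exists_subset_card_eq (s := c.H a) (n := c.s a + 1)
    (by have := c.big a; omega)
  have h1 : (I ∪ Z \ c.H a) ∩ c.H a = I := by
    ext e; have := @hI e; simp only [mem_inter, mem_union, mem_sdiff]; tauto
  have h2 : I ∪ Z \ c.H a ∪ c.H a = Z := by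
    ext e; have := @hI e; have := @ha.1 e; simp only [mem_union, mem_sdiff]; tauto
  have h3 := h.cl_tight (I := I ∪ Z \ c.H a) (a := a)
    (union_subset (hI.trans (c.sub a)) (sdiff_subset.trans hE)) (by
      have := card_union_le I (Z \ c.H a)
      have := ha.2
      have := c.hd a
      omega) (by rw [h1, hc])
  rw [h2] at h3
  rw [← h3]
  exact Matroid.isFlat_closure _

lemma Rep.fs_sub (h : Rep c M) (F : Flat M) : fs F ⊆ c.E := by
  rw [← coe_subset, coe_fs, ← h.ground]; exact F.2.subset_ground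

lemma Rep.cases (h : Rep c M) (F : Flat M) :
    (fs F = c.E ∧ flatRank M F = c.d + 1) ∨ (c.Free (fs F) ∧ flatRank M F = #(fs F)) ∨
      ∃ a, c.Over a (fs F) ∧ flatRank M F = c.s a + 1 + #(fs F \ c.H a) := by
  obtain ⟨I', hI'⟩ := M.exists_isBasis F.1 F.2.subset_ground
  lift I' to Finset α using Set.toFinite I' with I
  have h1 : flatRank M F = #I := by
    rw [flatRank, ← hI'.encard_eq_eRk, Set.encard_coe_eq_coe_finsetCard, ENat.toNat_natCast]
  have h2 : M.closure I = fs F := by rw [hI'.closure_eq_closure, F.2.closure, coe_fs]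
  have h3 := (h.indep I).1 hI'.indep
  by_cases hd : c.d < #I
  · rw [h.cl_full hI'.indep hd, coe_inj] at h2
    exact Or.inl ⟨h2.symm, by omega⟩
  by_cases hf : ∀ a, #(I ∩ c.H a) ≤ c.s a
  · have h4 : c.Free I := ⟨h3.1, not_lt.1 hd, hf⟩
    rw [h.cl_free h4, coe_inj] at h2
    exact Or.inr (Or.inl (h2 ▸ ⟨h4, h1⟩))
  obtain ⟨a, ha⟩ := not_forall.1 hf
  have h4 := h3.2.2 a
  rw [h.cl_tight h3.1 (not_lt.1 hd) (a := a) (by omega), coe_inj] at h2
  have h5 := Cfg.card_split I (c.H a)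
  have h6 := c.hd a
  refine Or.inr (Or.inr ⟨a, ?_⟩)
  rw [← h2, Cfg.Over, union_sdiff_right]
  exact ⟨⟨subset_union_right, by omega⟩, by omega⟩

variable [Fintype ι]

lemma Rep.sum_Yc (h : Rep c M) (G : Flat M) :
    ∑ F ∈ univ.filter (fun F => F ≤ G), c.Yc (fs F) = ∑ V ∈ (fs G).powerset, c.Yc V := by
  refine sum_of_injOn fs (fun F _ F' _ hF => le_antisymm (fs_le.1 hF.le) (fs_le.1 hF.ge))
    (fun F hF => ?_) (fun V hV hn => ?_) fun _ _ => rfl
  · rw [mem_coe, mem_filter] at hF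
    exact mem_coe.2 (mem_powerset.2 (fs_le.2 hF.2))
  · have h1 : ¬ M.IsFlat V := fun h1 => hn ⟨⟨V, h1⟩, by
      rw [mem_coe, mem_filter, ← fs_le, show fs ⟨V, h1⟩ = V from coe_inj.1 (coe_fs _)]
      exact ⟨mem_univ _, mem_powerset.1 hV⟩, coe_inj.1 (coe_fs _)⟩
    refine c.Yc_zero (fun h2 => h1 ?_) fun a h2 =>
      h1 (h.flat_over ((mem_powerset.1 hV).trans (h.fs_sub G)) h2)
    rw [← h.cl_free h2]; exact Matroid.isFlat_closure _

theorem Rep.good (h : Rep c M) : Good M (c.d + 1) := by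
  have nf : ¬ c.Free c.E := fun h1 => absurd h1.2.1 (not_le.2 c.d_lt)
  have no : ∀ a, ¬ c.Over a c.E := fun a h1 => by
    have := h1.2
    have := c.co a
    omega
  set T : Flat M := ⟨M.E, M.ground_isFlat⟩ with hT
  have fT : fs T = c.E := coe_inj.1 ((coe_fs T).trans h.ground)
  have eT : ∀ F : Flat M, fs F = c.E ↔ F = T := fun F =>
    ⟨fun h1 => le_antisymm (fs_le.1 (h1.trans fT.symm).le) (fs_le.1 (h1.trans fT.symm).ge),
      fun h1 => h1 ▸ fT⟩
  set Y : Flat M → ℚ[X] := fun F =>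
    (if F = T then C ((-1) ^ (c.d + 1)) * c.top else 0) + c.Yc (fs F) with hY
  have YT : Y T = C ((-1) ^ (c.d + 1)) * c.top := by
    simp only [hY, if_true, fT, c.Yc_zero nf no, add_zero]
  have YF : ∀ F, F ≠ T → Y F = c.Yc (fs F) := fun F hF => by simp only [hY, if_neg hF, zero_add]
  have sumY : ∀ G, ∑ F ∈ univ.filter (fun F => F ≤ G), Y F =
      (if G = T then C ((-1) ^ (c.d + 1)) * c.top else 0) + ∑ V ∈ (fs G).powerset, c.Yc V := by
    intro G
    simp only [hY]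
    rw [sum_add_distrib, h.sum_Yc, sum_ite_eq']
    congr 2
    rw [mem_filter, eq_iff_iff]
    exact ⟨fun h1 => le_antisymm (show G ≤ T from G.2.subset_ground) h1.2,
      fun h1 => ⟨mem_univ _, h1.ge⟩⟩
  have rT : flatRank M T = c.d + 1 := by
    rcases h.cases T with h1 | h1 | ⟨a, h1⟩
    · exact h1.2
    · exact absurd (fT ▸ h1.1) nf
    · exact absurd (fT ▸ h1.1) (no a)
  refine ⟨Y, c.top, ⟨flatRank_mono M, flat_min M, fun G h0 => ?_, fun G => ?_, fun G => ?_⟩,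
    rT, YT, c.top_lc⟩
  · rcases h.cases G with h1 | h1 | ⟨a, h1⟩
    · omega
    · rw [YF G fun h2 => nf (fT ▸ h2 ▸ h1.1), c.Yc_free h1.1, ← h1.2, h0, pow_zero]
    · omega
  · rcases h.cases G with h1 | h1 | ⟨a, h1⟩
    · rw [h1.2, (eT G).1 h1.1, YT, ← smul_eq_C_mul]
      exact (sym_pal _ _).smul _
    · rw [YF G fun h2 => nf (fT ▸ h2 ▸ h1.1), c.Yc_free h1.1, h1.2]
      exact sym_u _
    · rw [YF G fun h2 => no a (fT ▸ h2 ▸ h1.1), c.Yc_over (h.fs_sub G) h1.1, h1.2, Cfg.Ya,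
        ← smul_eq_C_mul]
      exact ((sym_pal _ _).smul _).mul (sym_u _)
  · intro h0 i hi
    rw [coeff_cc, sumY]
    rcases h.cases G with h1 | h1 | ⟨a, h1⟩
    · rw [h1.2] at hi
      rw [if_pos ((eT G).1 h1.1), h1.1, coeff_add, coeff_C_mul, c.coeff_top hi, Cfg.y,
        ← mul_assoc, ← pow_add, Odd.neg_one_pow ⟨c.d, by ring⟩]
      ring
    · rw [if_neg fun h2 : G = T => nf (fT ▸ h2 ▸ h1.1), zero_add, c.sum_Yc_free h1.1,
        ← one_mul ((-X) ^ _)]
      exact coeff_negX _ _ _ fun h2 => by omega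
    · rw [if_neg fun h2 : G = T => no a (fT ▸ h2 ▸ h1.1), zero_add, c.sum_Yc_over (h.fs_sub G) h1.1,
        coeff_C_mul, coeff_negX _ _ _ fun _ => q_low _ (by omega), mul_zero]

end Pool.Agent.Lib.MP_147f4d_co.Split
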