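import Pool.Agent.Lib.MP_147f4d_co.SplitMat

namespace Pool.Agent.Lib.MP_147f4d_co.Split

open Polynomial Finset Finset.HasAntidiagonal

/-- positive and log-concave of degree `k` -/
structure LCP (k : ℕ) (p : ℚ[X]) : Prop where
  hi : ∀ i, k < i → p.coeff i = 0
  pos : ∀ i ≤ k, 0 < p.coeff i
  lc : ∀ i, p.coeff i * p.coeff (i + 2) ≤ p.coeff (i + 1) ^ 2

lemma LCP.nn {k : ℕ} {p : ℚ[X]} (h : LCP k p) : Nn p := fun i => by
  by_cases hi : i ≤ k
  · exact (h.pos i hi).le
  · exact (h.hi i (not_le.1 hi)).ge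

lemma LCP.tp {k : ℕ} {p : ℚ[X]} (h : LCP k p) {i j : ℕ} (hij : i ≤ j) :
    p.coeff i * p.coeff (j + 1) ≤ p.coeff (i + 1) * p.coeff j := by
  induction j, hij using Nat.le_induction with
  | base => rw [mul_comm]
  | succ j _ ih =>
    by_cases h1 : k < j + 1 + 1
    · rw [h.hi _ h1, mul_zero]; exact mul_nonneg (h.nn _) (h.nn _)
    have a1 := h.pos j (by omega)
    have a2 := h.pos (j + 1) (by omega)
    have a3 := mul_le_mul ih (h.lc j) (mul_nonneg a1.le (h.nn _)) (mul_nonneg (h.nn _) a1.le)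
    refine le_of_mul_le_mul_right ?_ (mul_pos a1 a2)
    nlinarith

lemma LCP.tp' {k : ℕ} {p : ℚ[X]} (h : LCP k p) {i j : ℕ} (hij : i ≤ j) :
    (X * p).coeff i * p.coeff j ≤ p.coeff i * (X * p).coeff j := by
  rcases i with _ | i
  · rw [coeff_X_mul_zero, zero_mul]
    rcases j with _ | j
    · rw [coeff_X_mul_zero, mul_zero]
    · rw [coeff_X_mul]; exact mul_nonneg (h.nn _) (h.nn _)
  · obtain ⟨j, rfl⟩ : ∃ l, j = l + 1 := ⟨j - 1, by omega⟩
    rw [coeff_X_mul, coeff_X_mul]
    exact h.tp (by omega)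

lemma LCP.mul {k l : ℕ} {p q : ℚ[X]} (hp : LCP k p) (hq : LCP l q) : LCP (k + l) (p * q) := by
  refine ⟨fun i hi => ?_, fun i hi => ?_, fun i => ?_⟩
  · rw [coeff_mul]
    refine sum_eq_zero fun x hx => ?_
    have := mem_antidiagonal.1 hx
    by_cases h1 : k < x.1
    · rw [hp.hi _ h1, zero_mul]
    · rw [hq.hi _ (by omega), mul_zero]
  · rw [coeff_mul]
    refine sum_pos' (fun x _ => mul_nonneg (hp.nn _) (hq.nn _))
      ⟨(min i k, i - min i k), mem_antidiagonal.2 (by omega), ?_⟩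
    exact mul_pos (hp.pos _ (by omega)) (hq.pos _ (by omega))
  have e0 : (p * q).coeff i = ((X * p) * (X * q)).coeff (i + 2) := by
    rw [show X * p * (X * q) = X * (X * (p * q)) by ring, coeff_X_mul, coeff_X_mul]
  have e1 : (p * q).coeff (i + 1) = (p * (X * q)).coeff (i + 2) := by
    rw [mul_left_comm, coeff_X_mul]
  have e2 : (p * q).coeff (i + 1) = ((X * p) * q).coeff (i + 2) := by
    rw [mul_assoc, coeff_X_mul]
  have key : 0 ≤ ∑ x ∈ antidiagonal (i + 2), ∑ y ∈ antidiagonal (i + 2),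
      (p.coeff x.1 * (X * p).coeff y.1 - p.coeff y.1 * (X * p).coeff x.1) *
        ((X * q).coeff x.2 * q.coeff y.2 - q.coeff x.2 * (X * q).coeff y.2) := by
    refine sum_nonneg fun x hx => sum_nonneg fun y hy => ?_
    have h1 := mem_antidiagonal.1 hx
    have h2 := mem_antidiagonal.1 hy
    rcases le_total x.1 y.1 with h | h
    · have a1 := hp.tp' h
      have a2 := hq.tp' (show y.2 ≤ x.2 by omega)
      exact mul_nonneg (by linarith) (by linarith)
    · have a1 := hp.tp' h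
      have a2 := hq.tp' (show x.2 ≤ y.2 by omega)
      exact mul_nonneg_of_nonpos_of_nonpos (by linarith) (by linarith)
  have e3 : ∑ x ∈ antidiagonal (i + 2), ∑ y ∈ antidiagonal (i + 2),
      (p.coeff x.1 * (X * p).coeff y.1 - p.coeff y.1 * (X * p).coeff x.1) *
        ((X * q).coeff x.2 * q.coeff y.2 - q.coeff x.2 * (X * q).coeff y.2) =
      (p * (X * q)).coeff (i + 2) * ((X * p) * q).coeff (i + 2) -
        (p * q).coeff (i + 2) * ((X * p) * (X * q)).coeff (i + 2) -
        ((X * p) * (X * q)).coeff (i + 2) * (p * q).coeff (i + 2) +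
        ((X * p) * q).coeff (i + 2) * (p * (X * q)).coeff (i + 2) := by
    simp only [coeff_mul _ _ (i + 2), sum_mul_sum, ← sum_sub_distrib, ← sum_add_distrib]
    exact sum_congr rfl fun x _ => sum_congr rfl fun y _ => by ring
  rw [e3, ← e0, ← e1, ← e2] at key
  nlinarith

variable {α : Type} {M N : Matroid α} {h : Disjoint M.E N.E}

lemma sum_basis (Z : Set α) (hZ : Z ⊆ M.E ∪ N.E) : ∃ I J, M.IsBasis I (Z ∩ M.E) ∧
    N.IsBasis J (Z ∩ N.E) ∧ (I ∪ J) ∩ M.E = I ∧ (I ∪ J) ∩ N.E = J ∧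
    (M.disjointSum N h).IsBasis (I ∪ J) Z := by
  obtain ⟨I, hI⟩ := M.exists_isBasis (Z ∩ M.E) Set.inter_subset_right
  obtain ⟨J, hJ⟩ := N.exists_isBasis (Z ∩ N.E) Set.inter_subset_right
  have hd := Set.disjoint_left.1 h
  have hIs := hI.subset
  have hJs := hJ.subset
  have h1 : (I ∪ J) ∩ M.E = I := by
    ext e
    have := @hIs e
    have := @hJs e
    have := @hd e
    simp only [Set.mem_inter_iff, Set.mem_union] at *
    tauto
  have h2 : (I ∪ J) ∩ N.E = J := by
    ext e
    have := @hIs e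
    have := @hJs e
    have := @hd e
    simp only [Set.mem_inter_iff, Set.mem_union] at *
    tauto
  refine ⟨I, J, hI, hJ, h1, h2, Matroid.disjointSum_isBasis_iff.2 ⟨by rwa [h1], by rwa [h2],
    Set.union_subset (hI.subset.trans Set.inter_subset_left)
      (hJ.subset.trans Set.inter_subset_left), hZ⟩⟩

lemma sum_closure (Z : Set α) (hZ : Z ⊆ M.E ∪ N.E) :
    (M.disjointSum N h).closure Z = M.closure (Z ∩ M.E) ∪ N.closure (Z ∩ N.E) := by
  obtain ⟨I, J, hI, hJ, h1, h2, hB⟩ := sum_basis (h := h) Z hZ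
  have hd := Set.disjoint_left.1 h
  have hIE := hI.indep.subset_ground
  have hJE := hJ.indep.subset_ground
  rw [← hB.closure_eq_closure, ← hI.closure_eq_closure, ← hJ.closure_eq_closure]
  ext e
  rw [Set.mem_union, hB.indep.mem_closure_iff', hI.indep.mem_closure_iff',
    hJ.indep.mem_closure_iff', Matroid.disjointSum_indep_iff, Matroid.disjointSum_ground_eq,
    Set.mem_union, Set.mem_union]
  have hs : e ∈ M.E ∪ N.E → insert e (I ∪ J) ⊆ M.E ∪ N.E := fun he =>
    Set.insert_subset he (Set.union_subset_union hIE hJE)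
  by_cases hM : e ∈ M.E
  · have hN := hd hM
    have := hs (Or.inl hM)
    have := hJ.indep
    have := @hJE e
    rw [Set.insert_inter_of_mem hM, Set.insert_inter_of_notMem hN, h1, h2]
    tauto
  by_cases hN : e ∈ N.E
  · have := hs (Or.inr hN)
    have := hI.indep
    have := @hIE e
    rw [Set.insert_inter_of_mem hN, Set.insert_inter_of_notMem hM, h1, h2]
    tauto
  · tauto

lemma sum_eRk (Z : Set α) (hZ : Z ⊆ M.E ∪ N.E) :
    (M.disjointSum N h).eRk Z = M.eRk (Z ∩ M.E) + N.eRk (Z ∩ N.E) := by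
  obtain ⟨I, J, hI, hJ, -, -, hB⟩ := sum_basis (h := h) Z hZ
  rw [← hB.encard_eq_eRk, ← hI.encard_eq_eRk, ← hJ.encard_eq_eRk,
    Set.encard_union_eq (h.mono hI.indep.subset_ground hJ.indep.subset_ground)]

lemma inter_left {A B : Set α} (h : Disjoint M.E N.E) (hA : A ⊆ M.E) (hB : B ⊆ N.E) :
    (A ∪ B) ∩ M.E = A := by
  rw [Set.union_inter_distrib_right, Set.inter_eq_left.2 hA,
    (h.symm.mono_left hB).inter_eq, Set.union_empty]

lemma inter_right {A B : Set α} (h : Disjoint M.E N.E) (hA : A ⊆ M.E) (hB : B ⊆ N.E) :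
    (A ∪ B) ∩ N.E = B := by
  rw [Set.union_comm]; exact inter_left h.symm hB hA

lemma sum_sub (F : Flat (M.disjointSum N h)) : F.1 ⊆ M.E ∪ N.E :=
  Matroid.disjointSum_ground_eq (h := h) ▸ F.2.subset_ground

/-- first component of a flat of a direct sum -/
def fl (F : Flat (M.disjointSum N h)) : Flat M := ⟨F.1 ∩ M.E, by
  have h1 := sum_closure (h := h) F.1 (sum_sub F)
  rw [F.2.closure] at h1
  have h2 := inter_left h (M.closure_subset_ground (F.1 ∩ M.E)) (N.closure_subset_ground (F.1 ∩ N.E))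
  rw [← h1] at h2
  exact Matroid.isFlat_iff_closure_eq.2 h2.symm⟩

/-- second component of a flat of a direct sum -/
def fr (F : Flat (M.disjointSum N h)) : Flat N := ⟨F.1 ∩ N.E, by
  have h1 := sum_closure (h := h) F.1 (sum_sub F)
  rw [F.2.closure] at h1
  have h2 := inter_right h (M.closure_subset_ground (F.1 ∩ M.E)) (N.closure_subset_ground (F.1 ∩ N.E))
  rw [← h1] at h2
  exact Matroid.isFlat_iff_closure_eq.2 h2.symm⟩

/-- union of flats of the summands -/
def fj (h : Disjoint M.E N.E) (A : Flat M) (B : Flat N) : Flat (M.disjointSum N h) :=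
  ⟨A.1 ∪ B.1, Matroid.isFlat_iff_closure_eq.2 (by
    rw [sum_closure _ (Set.union_subset_union A.2.subset_ground B.2.subset_ground),
      inter_left h A.2.subset_ground B.2.subset_ground,
      inter_right h A.2.subset_ground B.2.subset_ground, A.2.closure, B.2.closure])⟩

lemma fl_fj (A : Flat M) (B : Flat N) : fl (fj h A B) = A :=
  Subtype.ext (inter_left h A.2.subset_ground B.2.subset_ground)

lemma fr_fj (A : Flat M) (B : Flat N) : fr (fj h A B) = B :=
  Subtype.ext (inter_right h A.2.subset_ground B.2.subset_ground)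

lemma fj_fl (F : Flat (M.disjointSum N h)) : fj h (fl F) (fr F) = F :=
  Subtype.ext (by
    change F.1 ∩ M.E ∪ F.1 ∩ N.E = F.1
    rw [← Set.inter_union_distrib_left, Set.inter_eq_left.2 (sum_sub F)])

variable [Finite α]

lemma sum_rank (F : Flat (M.disjointSum N h)) :
    flatRank _ F = flatRank M (fl F) + flatRank N (fr F) := by
  rw [flatRank, sum_eRk _ (sum_sub F),
    ENat.toNat_add (Matroid.eRk_ne_top_iff.2 (M.isRkFinite_set _))
      (Matroid.eRk_ne_top_iff.2 (N.isRkFinite_set _))]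
  rfl

lemma Good.lcp {k : ℕ} (hM : Good M k) : ∃ (Y : Flat M → ℚ[X]) (p : ℚ[X]), Cand (flatRank M) Y ∧
    flatRank M ⟨M.E, M.ground_isFlat⟩ = k ∧ Y ⟨M.E, M.ground_isFlat⟩ = C ((-1) ^ k) * p ∧
    LCP k p := by
  obtain ⟨Y, p, c, hk, hY, h1, h2⟩ := hM
  refine ⟨Y, p, c, hk, hY, fun i hi => ?_, h1, h2⟩
  have h3 := (c.sym _).hi i (hk ▸ hi)
  rw [hY, coeff_C_mul] at h3
  exact (mul_eq_zero.1 h3).resolve_left (pow_ne_zero _ (by norm_num))

theorem Good.sum {k l : ℕ} (hM : Good M k) (hN : Good N l) : Good (M.disjointSum N h) (k + l) := by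
  obtain ⟨Y, p, c, hk, hY, hp⟩ := hM.lcp
  obtain ⟨Y', p', c', hk', hY', hp'⟩ := hN.lcp
  have t1 : fl ⟨(M.disjointSum N h).E, Matroid.ground_isFlat _⟩ = ⟨M.E, M.ground_isFlat⟩ :=
    Subtype.ext (by
      change (M.disjointSum N h).E ∩ M.E = M.E
      rw [Matroid.disjointSum_ground_eq, inter_left h le_rfl le_rfl])
  have t2 : fr ⟨(M.disjointSum N h).E, Matroid.ground_isFlat _⟩ = ⟨N.E, N.ground_isFlat⟩ :=
    Subtype.ext (by
      change (M.disjointSum N h).E ∩ N.E = N.E
      rw [Matroid.disjointSum_ground_eq, inter_right h le_rfl le_rfl])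
  refine ⟨fun F => Y (fl F) * Y' (fr F), p * p', ⟨flatRank_mono _, flat_min _, fun G h0 => ?_,
    fun G => ?_, fun G => ?_⟩, ?_, ?_, (hp.mul hp').pos, (hp.mul hp').lc⟩
  · rw [sum_rank] at h0
    rw [c.one _ (by omega), c'.one _ (by omega), one_mul]
  · rw [sum_rank]; exact (c.sym _).mul (c'.sym _)
  · have e : ∑ F ∈ univ.filter (fun F => F ≤ G), Y (fl F) * Y' (fr F) =
        (∑ A ∈ univ.filter (fun A => A ≤ fl G), Y A) *
          ∑ B ∈ univ.filter (fun B => B ≤ fr G), Y' B := by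
      rw [sum_mul_sum, ← sum_product']
      refine sum_nbij' (fun F => (fl F, fr F)) (fun x => fj h x.1 x.2) (fun F hF => ?_)
        (fun x hx => ?_) (fun F _ => fj_fl F) (fun x _ => Prod.ext (fl_fj _ _) (fr_fj _ _))
        fun _ _ => rfl
      · simp only [mem_product, mem_filter, mem_univ, true_and] at hF ⊢
        exact ⟨Set.inter_subset_inter_left _ hF, Set.inter_subset_inter_left _ hF⟩
      · simp only [mem_product, mem_filter, mem_univ, true_and] at hx ⊢
        exact Set.union_subset (Set.Subset.trans hx.1 Set.inter_subset_left)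
          (Set.Subset.trans hx.2 Set.inter_subset_left)
    rw [e, map_mul, sum_rank]
    exact (c.high _).mul (c'.high _)
  · rw [sum_rank, t1, t2, hk, hk']
  · simp only [t1, t2, hY, hY', pow_add, map_mul]; ring

end Pool.Agent.Lib.MP_147f4d_co.Split
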