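import Pool.Agent.Lib.MP_147f4d_co.SplitZ

namespace Pool.Agent.Lib.MP_147f4d_co.Split

open Polynomial Finset

/-- the signed weight of a point -/
noncomputable def u : ℚ[X] := -(1 + X)

lemma u_pow (j : ℕ) : u ^ j = C ((-1) ^ j) * (1 + X) ^ j := by
  rw [u, neg_pow]; simp

/-- the constant `(b - m) C(b, m)` -/
def kap (b m : ℕ) : ℚ := ((b : ℚ) - m) * b.choose m

lemma kap_eq (b m : ℕ) : kap b m = (m + 1) * b.choose (m + 1) := (choose_succ_q b m).symm

lemma kap_pos {b m : ℕ} (h : m < b) : 0 < kap b m := by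
  have h1 : (m : ℚ) < b := by exact_mod_cast h
  have h2 : (0 : ℚ) < b.choose m := by exact_mod_cast Nat.choose_pos h.le
  exact mul_pos (by linarith) h2

variable {α : Type} [DecidableEq α]

omit [DecidableEq α] in
lemma sum_card_eq {R : Type} [Semiring R] (B : Finset α) (c : ℕ) (f : ℕ → R) :
    ∑ J ∈ B.powerset, (if #J = c then f #J else 0) = (#B).choose c * f c := by
  rw [← sum_filter, ← powersetCard_eq_filter, sum_congr rfl (g := fun _ => f c)
    (fun J hJ => by rw [(mem_powersetCard.1 hJ).2]), sum_const, card_powersetCard, nsmul_eq_mul]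

omit [DecidableEq α] in
lemma alt_eq (B : Finset α) (m : ℕ) (h : m < #B) :
    ∑ J ∈ B.powerset, (if #J ≤ m then u ^ #J else 0) = C ((-1) ^ m * kap #B m) * W #B m := by
  induction m with
  | zero =>
    have hb : (#B : ℚ) ≠ 0 := by exact_mod_cast h.ne'
    simp only [Nat.le_zero]
    rw [sum_card_eq B 0 (fun j => u ^ j)]
    ext l
    rw [coeff_C_mul, coeff_W, kap]
    rcases l with _ | l
    · simp [hb]
    · simp [coeff_one]
  | succ m ih =>
    have e : ∀ J : Finset α, (if #J ≤ m + 1 then u ^ #J else 0) =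
        (if #J ≤ m then u ^ #J else 0) + (if #J = m + 1 then u ^ #J else 0) := fun J => by
      split_ifs <;> first | omega | simp
    simp only [e]
    rw [sum_add_distrib, ih (by omega), sum_card_eq B (m + 1) (fun j => u ^ j), u_pow]
    ext l
    rw [coeff_add, coeff_C_mul, coeff_C_mul, coeff_natCast_mul, coeff_C_mul, coeff_pw]
    by_cases hl : m + 1 < l
    · rw [coeff_W_hi _ hl, coeff_W_hi _ (by omega : m < l), Nat.choose_eq_zero_of_lt hl]; simp
    have h1 : (l : ℚ) < #B := by exact_mod_cast (by omega : l < #B)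
    have h2 : (#B : ℚ) - l ≠ 0 := by linarith
    have h3 := succ_choose_q m l
    rw [coeff_W, coeff_W, kap_eq #B m, kap]
    push_cast
    field_simp
    linear_combination ((-1 : ℚ) ^ m * ((#B).choose (m + 1) : ℚ)) * h3

omit [DecidableEq α] in
lemma sum_u (B : Finset α) : ∑ J ∈ B.powerset, u ^ #J = (-X) ^ #B := by
  have := sum_pow_mul_eq_add_pow u 1 B
  simp only [one_pow, mul_one] at this
  rw [this, u]; congr 1; ring

lemma sum_split {R : Type} [CommSemiring R] {E H : Finset α} (h : H ⊆ E) (f g : Finset α → R) :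
    ∑ Z ∈ E.powerset, f (Z ∩ H) * g (Z \ H) =
      (∑ I ∈ H.powerset, f I) * ∑ J ∈ (E \ H).powerset, g J := by
  rw [sum_mul_sum, ← sum_product']
  refine sum_nbij' (fun Z => (Z ∩ H, Z \ H)) (fun p => p.1 ∪ p.2) (fun Z hZ => ?_) (fun p hp => ?_)
    (fun Z _ => ?_) (fun p hp => ?_) fun _ _ => rfl
  · simp only [mem_product, mem_powerset] at hZ ⊢
    exact ⟨inter_subset_right, sdiff_subset_sdiff_left _ hZ⟩
  · simp only [mem_product, mem_powerset] at hp ⊢
    exact union_subset (hp.1.trans h) (hp.2.trans sdiff_subset)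
  · ext x; simp only [mem_union, mem_inter, mem_sdiff]; tauto
  · simp only [mem_product, mem_powerset] at hp
    refine Prod.ext ?_ ?_ <;> ext x <;> have a1 := @hp.1 x <;> have a2 := @hp.2 x <;>
      simp only [mem_union, mem_inter, mem_sdiff] at a2 ⊢ <;> tauto

lemma T_u (n : ℚ) (j : ℕ) : T n (u ^ j) = C (n - j) * u ^ j - C (j : ℚ) * u ^ (j - 1) := by
  rcases j with _ | j
  · simp [T]
  · simp only [T, derivative_pow_succ, u, derivative_neg, derivative_one,
      derivative_X, add_tsub_cancel_right, map_sub, map_natCast, map_add, map_one]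
    push_cast
    ring

lemma T_sum {ι : Type} (n : ℚ) (s : Finset ι) (f : ι → ℚ[X]) :
    T n (∑ i ∈ s, f i) = ∑ i ∈ s, T n (f i) := by
  simp only [T, derivative_sum, mul_sum, sum_sub_distrib]

/-- cancellation along the edges of a down-closed family -/
lemma pairing (E : Finset α) (P : Finset α → Prop) [DecidablePred P]
    (hE : ∀ Z, P Z → Z ⊆ E) (hP : ∀ Z e, P Z → P (Z.erase e)) :
    T #E (∑ Z ∈ E.powerset, if P Z then u ^ #Z else 0) =
      ∑ Z ∈ E.powerset, if P Z then
        (#(E.filter fun e => e ∉ Z ∧ ¬ P (insert e Z)) : ℚ[X]) * u ^ #Z else 0 := by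
  rw [← sum_filter, ← sum_filter, T_sum]
  simp only [T_u]
  set F := E.powerset.filter P with hF
  have mF : ∀ Z, Z ∈ F ↔ P Z := fun Z => by
    rw [hF, mem_filter, mem_powerset]; exact ⟨fun h => h.2, fun h => ⟨hE Z h, h⟩⟩
  have e1 : ∑ Z ∈ F, C (#Z : ℚ) * u ^ (#Z - 1) =
      ∑ Z ∈ F, ∑ e ∈ E, if e ∈ Z then u ^ (#Z - 1) else 0 := by
    refine sum_congr rfl fun Z hZ => ?_
    rw [← sum_filter, sum_const, filter_mem_eq_inter, inter_eq_right.2 (hE Z ((mF Z).1 hZ)),
      nsmul_eq_mul, map_natCast]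
  have e2 : ∑ Z ∈ F, (∑ e ∈ E, if e ∈ Z then u ^ (#Z - 1) else 0) =
      ∑ Z ∈ F, ∑ e ∈ E, if e ∉ Z ∧ P (insert e Z) then u ^ #Z else 0 := by
    rw [sum_comm, sum_comm (s := F)]
    refine sum_congr rfl fun e _ => ?_
    rw [← sum_filter, ← sum_filter]
    refine sum_nbij' (fun Z => Z.erase e) (fun Z => insert e Z) (fun Z hZ => ?_) (fun Z hZ => ?_)
      (fun Z hZ => ?_) (fun Z hZ => ?_) fun Z hZ => ?_
    all_goals simp only [mem_filter, mF] at hZ ⊢
    · exact ⟨hP Z e hZ.1, notMem_erase _ _, by rw [insert_erase hZ.2]; exact hZ.1⟩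
    · exact ⟨hZ.2.2, mem_insert_self _ _⟩
    · exact insert_erase hZ.2
    · exact erase_insert hZ.2.1
    · rw [card_erase_of_mem hZ.2]
  rw [sum_sub_distrib, e1, e2, ← sum_sub_distrib]
  refine sum_congr rfl fun Z hZ => ?_
  have e3 : #(E.filter fun e => e ∉ Z ∧ P (insert e Z)) +
      #(E.filter fun e => e ∉ Z ∧ ¬ P (insert e Z)) + #Z = #E := by
    rw [← filter_filter, ← filter_filter, card_filter_add_card_filter_not, ← sdiff_eq_filter,
      card_sdiff_add_card_eq_card (hE Z ((mF Z).1 hZ))]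
  rw [← sum_filter, sum_const, nsmul_eq_mul, ← e3]
  simp only [map_sub, map_natCast, Nat.cast_add, map_add]
  ring

/-- sets that pairwise share at most one point -/
lemma packing {ι : Type} (A : Finset ι) (Z : ι → Finset α) (U : Finset α) (hU : ∀ a ∈ A, Z a ⊆ U)
    (h : ∀ a ∈ A, ∀ b ∈ A, a ≠ b → #(Z a ∩ Z b) ≤ 1) :
    ∑ a ∈ A, (#(Z a) : ℚ) * (#(Z a) - 1) ≤ #U * (#U - 1) := by
  have e : ∀ V : Finset α, (#V : ℚ) * (#V - 1) = #V.offDiag := fun V => by
    rw [offDiag_card, Nat.cast_sub (Nat.le_mul_self _)]; push_cast; ring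
  simp only [e]
  rw [← Nat.cast_sum, Nat.cast_le, ← card_biUnion]
  · exact card_le_card (biUnion_subset.2 fun a ha => offDiag_mono (hU a ha))
  · intro a ha b hb hab
    rw [Function.onFun, disjoint_left]
    intro p h1 h2
    rw [mem_offDiag] at h1 h2
    exact h1.2.2 (card_le_one.1 (h a ha b hb hab) _ (mem_inter.2 ⟨h1.1, h2.1⟩) _
      (mem_inter.2 ⟨h1.2.1, h2.2.1⟩))

end Pool.Agent.Lib.MP_147f4d_co.Split
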