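import Pool.Agent.Lib.MP_147f4d_co.KLS

namespace Pool.Agent.Lib.MP_147f4d_co.Split

open Polynomial Finset

/-- all coefficients are nonnegative -/
def Nn (p : ℚ[X]) : Prop := ∀ i, 0 ≤ p.coeff i

lemma Nn.mul {p q : ℚ[X]} (hp : Nn p) (hq : Nn q) : Nn (p * q) := fun i => by
  rw [coeff_mul]; exact sum_nonneg fun x _ => mul_nonneg (hp _) (hq _)

lemma Nn.add {p q : ℚ[X]} (hp : Nn p) (hq : Nn q) : Nn (p + q) := fun i => by
  rw [coeff_add]; exact add_nonneg (hp _) (hq _)

lemma coeff_pw (m i : ℕ) : ((1 + X : ℚ[X]) ^ m).coeff i = m.choose i := coeff_one_add_X_pow ℚ m i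

lemma nn_pw (m : ℕ) : Nn ((1 + X) ^ m) := fun i => by
  rw [coeff_pw]; positivity

/-- the polynomial with coefficients `C(m, l) / (b - l)` -/
noncomputable def W (b : ℚ) (m : ℕ) : ℚ[X] :=
  ∑ l ∈ range (m + 1), monomial l ((m.choose l : ℚ) / (b - l))

lemma coeff_W (b : ℚ) (m l : ℕ) : (W b m).coeff l = (m.choose l : ℚ) / (b - l) := by
  rw [W, finsetSum_coeff]
  simp only [coeff_monomial]
  rw [sum_ite_eq' (range (m + 1)) l]
  split_ifs with h
  · rfl
  · rw [Nat.choose_eq_zero_of_lt (by simpa using h)]; simp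

lemma coeff_W_hi (b : ℚ) {m l : ℕ} (h : m < l) : (W b m).coeff l = 0 := by
  rw [coeff_W, Nat.choose_eq_zero_of_lt h]; simp

lemma nn_W {b : ℚ} {m : ℕ} (h : (m : ℚ) < b) : Nn (W b m) := fun l => by
  by_cases hl : m < l
  · rw [coeff_W_hi b hl]
  · rw [coeff_W]
    have : (l : ℚ) ≤ m := by exact_mod_cast not_lt.1 hl
    exact div_nonneg (by positivity) (by linarith)

/-- `D d p = d p - (1 + t) p'` -/
noncomputable def D (d : ℚ) (p : ℚ[X]) : ℚ[X] := C d * p - (1 + X) * derivative p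

/-- `T d p = d p - t p'` -/
noncomputable def T (d : ℚ) (p : ℚ[X]) : ℚ[X] := C d * p - X * derivative p

lemma coeff_X_der (p : ℚ[X]) (i : ℕ) : (X * derivative p).coeff i = i * p.coeff i := by
  rcases i with _ | i
  · simp
  · rw [coeff_X_mul, coeff_derivative]; push_cast; ring

lemma coeff_T (d : ℚ) (p : ℚ[X]) (i : ℕ) : (T d p).coeff i = (d - i) * p.coeff i := by
  rw [T, coeff_sub, coeff_C_mul, coeff_X_der]; ring

lemma coeff_D (d : ℚ) (p : ℚ[X]) (i : ℕ) :
    (D d p).coeff i = (d - i) * p.coeff i - (i + 1) * p.coeff (i + 1) := by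
  rw [D, coeff_sub, coeff_C_mul, add_mul, one_mul, coeff_add, coeff_X_der, coeff_derivative]; ring

lemma T_mul (d e : ℚ) (p q : ℚ[X]) : T (d + e) (p * q) = T d p * q + p * T e q := by
  simp only [T, derivative_mul, C_add]; ring

lemma D_mul (d e : ℚ) (p q : ℚ[X]) : D (d + e) (p * q) = D d p * q + p * D e q := by
  simp only [D, derivative_mul, C_add]; ring

lemma D_succ (d : ℚ) (p : ℚ[X]) : D (d + 1) p = D d p + p := by
  simp only [D, C_add, C_1]; ring

lemma D_sub (d : ℚ) (p q : ℚ[X]) : D d (p - q) = D d p - D d q := by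
  simp only [D, derivative_sub]; ring

lemma choose_succ_q (m i : ℕ) : ((i : ℚ) + 1) * m.choose (i + 1) = ((m : ℚ) - i) * m.choose i := by
  by_cases h : i ≤ m
  · have := Nat.choose_succ_right_eq m i
    have h2 : ((m.choose (i + 1) * (i + 1) : ℕ) : ℚ) = ((m.choose i * (m - i) : ℕ) : ℚ) := by
      rw [this]
    push_cast [Nat.cast_sub h] at h2
    linarith
  · rw [Nat.choose_eq_zero_of_lt (by omega), Nat.choose_eq_zero_of_lt (by omega)]; simp

lemma succ_choose_q (m i : ℕ) :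
    ((m : ℚ) + 1) * m.choose i = ((m : ℚ) + 1 - i) * (m + 1).choose i := by
  have h1 := choose_succ_q (m + 1) i
  have h2 : (((m + 1) * m.choose i : ℕ) : ℚ) = (((m + 1).choose (i + 1) * (i + 1) : ℕ) : ℚ) := by
    rw [← Nat.add_one_mul_choose_eq]
  push_cast at h1 h2
  linarith

lemma succ_choose_q' (m i : ℕ) :
    ((m : ℚ) + 1) * m.choose i = ((i : ℚ) + 1) * (m + 1).choose (i + 1) := by
  have h1 := choose_succ_q (m + 1) i
  rw [succ_choose_q, h1]; push_cast; ring

lemma D_pw (m : ℕ) : D m ((1 + X) ^ m) = 0 := by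
  ext i
  rw [coeff_D, coeff_pw, coeff_pw, choose_succ_q]; simp

lemma T_W {b : ℚ} {m : ℕ} (h : (m : ℚ) < b) : T b (W b m) = (1 + X) ^ m := by
  ext l
  rw [coeff_T, coeff_pw]
  by_cases hl : m < l
  · rw [coeff_W_hi b hl, Nat.choose_eq_zero_of_lt hl]; simp
  · have : (l : ℚ) ≤ m := by exact_mod_cast not_lt.1 hl
    rw [coeff_W, mul_div_cancel₀ _ (by linarith)]

/-- the basic growth of the coefficients of `W` -/
lemma W_grow {b : ℚ} {m : ℕ} (h : (m : ℚ) < b) (l : ℕ) :
    ((m : ℚ) - l) * (W b m).coeff l ≤ (l + 1) * (W b m).coeff (l + 1) := by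
  by_cases hl : l < m
  · have h1 : (l : ℚ) + 1 ≤ m := by exact_mod_cast hl
    rw [coeff_W, coeff_W, ← mul_div_assoc, ← mul_div_assoc, choose_succ_q]
    push_cast
    exact div_le_div_of_nonneg_left (mul_nonneg (by linarith) (by positivity)) (by linarith)
      (by linarith)
  · rw [coeff_W_hi b (l := l + 1) (by omega), mul_zero]
    have h1 : (m : ℚ) ≤ l := by exact_mod_cast not_lt.1 hl
    exact mul_nonpos_of_nonpos_of_nonneg (by linarith) (nn_W h l)

lemma nn_negD_W {b : ℚ} {m : ℕ} (h : (m : ℚ) < b) : Nn (-D m (W b m)) := fun l => by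
  rw [coeff_neg, coeff_D]; linarith [W_grow h l]

lemma coeff_D_W {b : ℚ} {m l : ℕ} (h : (l : ℚ) + 1 < b) :
    (D (m + 1) (W b m)).coeff l = (b - m - 1) * m.choose l / ((b - l) * (b - l - 1)) := by
  rw [coeff_D, coeff_W, coeff_W, ← mul_div_assoc (l + 1 : ℚ), choose_succ_q]
  have h1 : b - l ≠ 0 := by linarith
  have h2 : b - l - 1 ≠ 0 := by linarith
  push_cast
  rw [show b - (l + 1) = b - l - 1 by ring]
  field_simp; ring

lemma nn_D_W {b : ℚ} {m : ℕ} (h : (m : ℚ) + 1 ≤ b) : Nn (D (m + 1) (W b m)) := fun l => by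
  rcases lt_trichotomy l m with hl | hl | hl
  · have h1 : (l : ℚ) + 1 ≤ m := by exact_mod_cast hl
    rw [coeff_D_W (by linarith)]
    exact div_nonneg (mul_nonneg (by linarith) (by positivity))
      (mul_nonneg (by linarith) (by linarith))
  · rw [coeff_D, coeff_W_hi b (l := l + 1) (by omega), hl]
    have := nn_W (b := b) (m := m) (by linarith) m
    linarith
  · rw [coeff_D, coeff_W_hi b (l := l + 1) (by omega), coeff_W_hi b hl]; simp

lemma T_D_W {b : ℚ} {m : ℕ} (h : (m : ℚ) + 1 < b) :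
    T (b - 1) (D (m + 1) (W b m)) = C (b - m - 1) * W b m := by
  ext l
  rw [coeff_T, coeff_C_mul]
  by_cases hl : m < l
  · rw [coeff_D, coeff_W_hi b (l := l + 1) (by omega), coeff_W_hi b hl]; simp
  · have h0 : (l : ℚ) ≤ m := by exact_mod_cast not_lt.1 hl
    have h1 : b - l ≠ 0 := by linarith
    have h2 : b - l - 1 ≠ 0 := by linarith
    rw [coeff_D_W (by linarith), coeff_W, show b - 1 - l = b - l - 1 by ring]
    field_simp

lemma choose_mono_half {m l l' : ℕ} (h1 : l ≤ l') (h2 : l' ≤ m / 2) : m.choose l ≤ m.choose l' := by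
  induction l', h1 using Nat.le_induction with
  | base => exact le_rfl
  | succ j _ ih => exact (ih (by omega)).trans (Nat.choose_le_succ_of_lt_half_left (by omega))

lemma W_mono {b : ℚ} {m : ℕ} (h : (m : ℚ) < b) {l l' : ℕ} (h1 : l ≤ l') (h2 : l + l' ≤ m) :
    (W b m).coeff l ≤ (W b m).coeff l' := by
  rw [coeff_W, coeff_W]
  have h3 : m.choose l ≤ m.choose l' := by
    by_cases h4 : l' ≤ m / 2
    · exact choose_mono_half h1 h4
    · rw [← Nat.choose_symm (k := l') (by omega)]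
      exact choose_mono_half (by omega) (by omega)
  have h4 : (l' : ℚ) ≤ m := by exact_mod_cast (by omega : l' ≤ m)
  have h5 : (l : ℚ) ≤ l' := by exact_mod_cast h1
  have h6 : (m.choose l : ℚ) ≤ m.choose l' := by exact_mod_cast h3
  exact div_le_div₀ (by positivity) h6 (by linarith) (by linarith)

/-- palindromic completion of the lower half of `p` in degree `k` -/
noncomputable def pal (k : ℕ) (p : ℚ[X]) : ℚ[X] :=
  ∑ j ∈ range (k + 1), monomial j (p.coeff (min j (k - j)))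

lemma coeff_pal (k : ℕ) (p : ℚ[X]) (j : ℕ) :
    (pal k p).coeff j = if j ≤ k then p.coeff (min j (k - j)) else 0 := by
  rw [pal, finsetSum_coeff]
  simp only [coeff_monomial]
  rw [sum_ite_eq' (range (k + 1)) j]
  simp

lemma sym_pal (k : ℕ) (p : ℚ[X]) : Sym k (pal k p) :=
  ⟨fun j hj => by rw [coeff_pal, if_neg (by omega)], fun j l h => by
    rw [coeff_pal, coeff_pal, if_pos (by omega), if_pos (by omega)]; congr 1; omega⟩

lemma coeff_pal_low {k j : ℕ} (p : ℚ[X]) (h : 2 * j ≤ k) : (pal k p).coeff j = p.coeff j := by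
  rw [coeff_pal, if_pos (by omega), min_eq_left (by omega)]

/-- normalised inverse `Z`-polynomial of a uniform matroid of rank `s + 1` -/
noncomputable def Yf (h : ℚ) (s : ℕ) : ℚ[X] := pal (s + 1) (W h s)

lemma q_low (h : ℚ) {s j : ℕ} (hj : 2 * j ≤ s + 1) : (Yf h s - W h s).coeff j = 0 := by
  rw [coeff_sub, Yf, coeff_pal_low _ hj, sub_self]

lemma nn_q {h : ℚ} {s : ℕ} (hh : (s : ℚ) + 1 ≤ h) : Nn (Yf h s - W h s) := fun j => by
  by_cases h1 : 2 * j ≤ s + 1
  · rw [q_low h h1]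
  rw [coeff_sub, Yf, coeff_pal]
  split_ifs with h2
  swap
  · rw [coeff_W_hi h (by omega)]; simp
  rw [min_eq_right (by omega)]
  by_cases h3 : s < j
  · rw [coeff_W_hi h h3, sub_zero]; exact nn_W (by linarith) _
  obtain ⟨l, hl⟩ : ∃ l, s = j + l := ⟨s - j, by omega⟩
  rw [show s + 1 - j = l + 1 by omega, coeff_W, coeff_W, sub_nonneg]
  have h4 : s.choose j = s.choose l := by rw [hl]; exact Nat.choose_symm_add
  have h5 := choose_succ_q s l
  have h6 : (s : ℚ) = j + l := by rw [hl]; push_cast; ring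
  have h7 : (l : ℚ) + 1 ≤ j := by exact_mod_cast (by omega : l + 1 ≤ j)
  have h8 : (0 : ℚ) ≤ s.choose l := by positivity
  have h9 : (0 : ℚ) ≤ l := by positivity
  push_cast
  rw [h4, div_le_div_iff₀ (by linarith) (by linarith)]
  refine le_of_mul_le_mul_left ?_ (show (0 : ℚ) < l + 1 by linarith)
  rw [← mul_assoc (l + 1 : ℚ) (s.choose (l + 1) : ℚ), h5]
  have h10 : (0 : ℚ) ≤ (j - (l + 1)) * (h - (s + 1)) := mul_nonneg (by linarith) (by linarith)
  have h11 : ((l : ℚ) + 1) * (h - (l + 1)) ≤ (s - l) * (h - j) := by rw [h6] at h10 ⊢; nlinarith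
  nlinarith [mul_le_mul_of_nonneg_left h11 h8]

end Pool.Agent.Lib.MP_147f4d_co.Split
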