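import Pool.Agent.Lib.MP_147f4d_co.SplitW

namespace Pool.Agent.Lib.MP_147f4d_co.Split

open Polynomial Finset Finset.HasAntidiagonal

/-- contribution of one cyclic flat to the lower half of the inverse `Z`-polynomial -/
noncomputable def z (h : ℚ) (s : ℕ) (b : ℚ) (m : ℕ) (i : ℕ) : ℚ :=
  (Yf h s * W b m).coeff i - ((1 + X) ^ s * W b m).coeff i / (h + b - i)

lemma WW_eq {h b : ℚ} {s m : ℕ} (hh : (s : ℚ) < h) (hb : (m : ℚ) < b) (i : ℕ) :
    (h + b - i) * (W h s * W b m).coeff i =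
      ((1 + X) ^ s * W b m).coeff i + (W h s * (1 + X) ^ m).coeff i := by
  rw [← coeff_T, T_mul, T_W hh, T_W hb, coeff_add]

lemma z_eq {h b : ℚ} {s m : ℕ} (hh : (s : ℚ) < h) (hb : (m : ℚ) < b) {i : ℕ}
    (hi : (i : ℚ) < h + b) : z h s b m i =
      (W h s * (1 + X) ^ m).coeff i / (h + b - i) + ((Yf h s - W h s) * W b m).coeff i := by
  have h1 := WW_eq hh hb i
  have h2 : h + b - i ≠ 0 := by linarith
  rw [z, sub_mul, coeff_sub]
  field_simp
  linarith

lemma grow_div {g0 g1 c c' N : ℚ} (h0 : 0 ≤ g0) (hc : 0 ≤ c) (h1 : c * g0 ≤ c' * g1)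
    (hN : 1 < N) : c * (g0 / N) ≤ c' * (g1 / (N - 1)) := by
  rw [← mul_div_assoc, ← mul_div_assoc]
  exact div_le_div₀ ((mul_nonneg hc h0).trans h1) h1 (by linarith) (by linarith)

lemma qW_grow {p V : ℚ[X]} {s i : ℕ} {c c' : ℚ} (hp : Nn p) (hV : Nn V)
    (h0 : ∀ j, 2 * j ≤ s + 1 → p.coeff j = 0) (hc : 0 ≤ c')
    (h : ∀ j l, j + l = i → s + 2 ≤ 2 * j → c * V.coeff l ≤ c' * V.coeff (l + 1)) :
    c * (p * V).coeff i ≤ c' * (p * V).coeff (i + 1) := by
  rw [coeff_mul, coeff_mul, Nat.sum_antidiagonal_succ', mul_add, mul_sum, mul_sum]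
  refine le_add_of_nonneg_of_le (mul_nonneg hc (mul_nonneg (hp _) (hV _))) ?_
  refine sum_le_sum fun x hx => ?_
  by_cases h1 : 2 * x.1 ≤ s + 1
  · rw [h0 _ h1]; simp
  · have := mul_le_mul_of_nonneg_left (h x.1 x.2 (mem_antidiagonal.1 hx) (by omega)) (hp x.1)
    linarith

lemma nn_f {h : ℚ} {s : ℕ} (hh : (s : ℚ) < h) (m : ℕ) : Nn (W h s * (1 + X) ^ m) :=
  (nn_W hh).mul (nn_pw m)

lemma f_grow {h : ℚ} {s : ℕ} (hh : (s : ℚ) < h) (m i : ℕ) :
    ((s : ℚ) + m - i) * (W h s * (1 + X) ^ m).coeff i ≤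
      (i + 1) * (W h s * (1 + X) ^ m).coeff (i + 1) := by
  have h1 := ((nn_negD_W hh).mul (nn_pw m)) i
  have h2 := congrArg (fun p => p.coeff i) (D_mul s m (W h s) ((1 + X) ^ m))
  simp only [D_pw, mul_zero, add_zero] at h2
  rw [neg_mul, coeff_neg, ← h2, coeff_D] at h1
  linarith

section main
variable {h b : ℚ} {s m i : ℕ}

lemma z_nonneg (hh : (s : ℚ) + 2 ≤ h) (hb : (m : ℚ) + 1 ≤ b) (hi : (i : ℚ) < h + b) :
    0 ≤ z h s b m i := by
  rw [z_eq (by linarith) (by linarith) hi]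
  exact add_nonneg (div_nonneg (nn_f (by linarith) m i) (by linarith))
    ((nn_q (by linarith)).mul (nn_W (by linarith)) i)

lemma z_zero (hh : (s : ℚ) + 2 ≤ h) (hb : (m : ℚ) + 1 ≤ b) : 0 < z h s b m 0 := by
  have h1 : (0 : ℚ) ≤ s := by positivity
  have h2 : (0 : ℚ) ≤ m := by positivity
  rw [z_eq (by linarith) (by linarith) (by push_cast; linarith)]
  refine add_pos_of_pos_of_nonneg (div_pos ?_ (by push_cast; linarith))
    ((nn_q (by linarith)).mul (nn_W (by linarith)) 0)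
  rw [mul_coeff_zero, coeff_W, coeff_pw]
  simp only [Nat.choose_zero_right, Nat.cast_one, Nat.cast_zero, sub_zero, mul_one]
  exact div_pos one_pos (by linarith)

lemma z_low (hh : (s : ℚ) + 2 ≤ h) (hb : (m : ℚ) + 1 ≤ b) (hi : 2 * (i + 1) ≤ s + m + 2) :
    ((s : ℚ) + m - i) * z h s b m i ≤ (i + 1) * z h s b m (i + 1) := by
  have h1 : 2 * ((i : ℚ) + 1) ≤ s + m + 2 := by exact_mod_cast hi
  have h2 : (0 : ℚ) ≤ i := by positivity
  rw [z_eq (by linarith) (by linarith) (by linarith),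
    z_eq (by linarith) (by linarith) (by push_cast; linarith), mul_add, mul_add]
  refine add_le_add ?_ ?_
  · have := grow_div (nn_f (h := h) (s := s) (by linarith) m i) (by linarith)
      (f_grow (by linarith) m i) (N := h + b - i) (by linarith)
    push_cast
    rwa [show h + b - (i + 1) = h + b - i - 1 by ring]
  · refine qW_grow (s := s) (nn_q (by linarith)) (nn_W (by linarith)) (fun j hj => q_low h hj)
      (by linarith) fun j l hjl hj => ?_
    have h3 := W_grow (b := b) (m := m) (by linarith) l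
    have h4 := nn_W (b := b) (m := m) (by linarith) l
    have h5 : (j : ℚ) + l = i := by exact_mod_cast hjl
    have h6 : (s : ℚ) + 2 ≤ 2 * j := by exact_mod_cast hj
    have h7 : (0 : ℚ) ≤ l := by positivity
    have h8 : (0 : ℚ) ≤ s := by positivity
    have h9 : (0 : ℚ) ≤ m := by positivity
    have h10 : ((s : ℚ) + m - i) * (l + 1) ≤ (i + 1) * (m - l) := by
      have e : l = (i : ℚ) - j := by linarith
      rw [e]
      nlinarith [mul_le_mul_of_nonneg_left h6 (show (0 : ℚ) ≤ s + m + 1 by linarith),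
        mul_le_mul_of_nonneg_left h1 h8]
    refine le_of_mul_le_mul_left ?_ (show (0 : ℚ) < l + 1 by linarith)
    nlinarith [mul_le_mul_of_nonneg_right h10 h4,
      mul_le_mul_of_nonneg_left h3 (show (0 : ℚ) ≤ i + 1 by linarith)]

lemma sym_pw (m : ℕ) : Sym m ((1 + X : ℚ[X]) ^ m) :=
  ⟨fun j hj => by rw [coeff_pw, Nat.choose_eq_zero_of_lt hj]; simp, fun j l h => by
    rw [coeff_pw, coeff_pw, ← h, Nat.choose_symm_add]⟩

lemma z_mul (hh : (s : ℚ) + 2 ≤ h) (hb : (m : ℚ) + 1 ≤ b) (hi : (i : ℚ) < h + b) :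
    (h + b - i) * z h s b m i =
      (Yf h s * (1 + X) ^ m).coeff i + (T h (Yf h s - W h s) * W b m).coeff i := by
  have h2 : h + b - i ≠ 0 := by linarith
  rw [z_eq (by linarith) (by linarith) hi, mul_add, mul_div_cancel₀ _ h2, ← coeff_T, T_mul,
    T_W (by linarith), coeff_add, sub_mul (Yf h s), coeff_sub]
  ring

lemma z_mid (hh : (s : ℚ) + 2 ≤ h) (hb : (m : ℚ) + 1 ≤ b) (hi : 2 * (i + 1) = s + m + 2) :
    z h s b m i ≤ z h s b m (i + 1) := by
  have h1 : 2 * ((i : ℚ) + 1) = s + m + 2 := by exact_mod_cast hi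
  have h2 : (0 : ℚ) ≤ i := by positivity
  have e1 := z_mul hh hb (i := i) (by linarith)
  have e2 := z_mul hh hb (i := i + 1) (by push_cast; linarith)
  have e3 := ((sym_pal (s + 1) (W h s)).mul (sym_pw m)).sym i (i + 1) (by omega)
  have hq : Nn (T h (Yf h s - W h s)) := fun j => by
    rw [coeff_T]
    by_cases hj : j ≤ s + 1
    · have : (j : ℚ) ≤ s + 1 := by exact_mod_cast hj
      exact mul_nonneg (by linarith) (nn_q (by linarith) j)
    · rw [coeff_sub, Yf, (sym_pal _ _).hi j (by omega), coeff_W_hi h (by omega)]; simp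
  have e4 := qW_grow (s := s) (i := i) (c := 1) (c' := 1) hq (nn_W (b := b) (m := m) (by linarith))
    (fun j hj => by rw [coeff_T, q_low h hj, mul_zero]) zero_le_one fun j l hjl hj => by
      rw [one_mul, one_mul]
      exact W_mono (by linarith) (by omega) (by omega)
  have e5 := z_nonneg hh hb (i := i + 1) (by push_cast; linarith)
  rw [Yf] at e1 e2
  rw [Yf] at e4
  push_cast at e2
  refine le_of_mul_le_mul_left ?_ (show (0 : ℚ) < h + b - i by linarith)
  linarith

lemma coeff_DY_hi (h : ℚ) {s j : ℕ} (hj : s < j) : (D (s + 1) (Yf h s)).coeff j = 0 := by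
  rw [coeff_D, Yf, (sym_pal _ _).hi (j + 1) (by omega)]
  by_cases h1 : j = s + 1
  · rw [h1]; simp
  · rw [(sym_pal _ _).hi j (by omega)]; simp

lemma coeff_DY_symm (h : ℚ) {s j l : ℕ} (hj : j + l = s) :
    (D (s + 1) (Yf h s)).coeff l = -(D (s + 1) (Yf h s)).coeff j := by
  have h1 : (j : ℚ) + l = s := by exact_mod_cast hj
  rw [coeff_D, coeff_D, Yf, (sym_pal _ _).sym (j + 1) l (by omega),
    (sym_pal _ _).sym (l + 1) j (by omega), ← h1]
  ring

lemma coeff_DY_low (hh : (s : ℚ) + 1 ≤ h) {j : ℕ} (hj : 2 * j ≤ s) :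
    0 ≤ (D (s + 1) (Yf h s)).coeff j := by
  by_cases h1 : 2 * j = s
  · have := coeff_DY_symm h (s := s) (j := j) (l := j) (by omega)
    linarith
  · have := nn_D_W hh j
    rwa [coeff_D, ← coeff_pal_low (k := s + 1) _ (by omega : 2 * j ≤ s + 1),
      ← coeff_pal_low (k := s + 1) _ (by omega : 2 * (j + 1) ≤ s + 1), ← Yf, ← coeff_D] at this

lemma DYW_nonneg (hh : (s : ℚ) + 1 ≤ h) (hb : (m : ℚ) < b) (hi : 2 * i ≤ s + m) :
    0 ≤ (D (s + 1) (Yf h s) * W b m).coeff i := by
  set δ := D (s + 1) (Yf h s) with hδ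
  set V : ℕ → ℚ := fun j => if j ≤ i then (W b m).coeff (i - j) else 0 with hV
  have e1 : δ = ∑ j ∈ range (s + 1), C (δ.coeff j) * X ^ j := by
    ext l
    rw [finsetSum_coeff]
    simp only [coeff_C_mul, coeff_X_pow, mul_ite, mul_one, mul_zero]
    rw [sum_ite_eq (range (s + 1)) l]
    split_ifs with h1
    · rfl
    · exact coeff_DY_hi h (by simpa using h1)
  have e2 : (δ * W b m).coeff i = ∑ j ∈ range (s + 1), δ.coeff j * V j := by
    conv_lhs => rw [e1, sum_mul, finsetSum_coeff]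
    refine sum_congr rfl fun j _ => ?_
    rw [mul_assoc, coeff_C_mul, coeff_X_pow_mul']
  have e3 : ∑ j ∈ range (s + 1), δ.coeff j * V j =
      ∑ j ∈ range (s + 1), -(δ.coeff j * V (s - j)) := by
    rw [← sum_range_reflect]
    refine sum_congr rfl fun j hj => ?_
    have := mem_range.1 hj
    rw [show s + 1 - 1 - j = s - j by omega, hδ, coeff_DY_symm h (j := j) (l := s - j) (by omega)]
    ring
  have key : ∀ j l, j + l = s → j ≤ l → V l ≤ V j := fun j l hjl hle => by
    simp only [hV]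
    split_ifs with h1 h2 h2
    · exact W_mono hb (by omega) (by omega)
    · omega
    · exact nn_W hb _
    · exact le_rfl
  have e4 : 0 ≤ ∑ j ∈ range (s + 1), (δ.coeff j * V j + -(δ.coeff j * V (s - j))) := by
    refine sum_nonneg fun j hj => ?_
    have := mem_range.1 hj
    by_cases h1 : 2 * j ≤ s
    · have a1 := coeff_DY_low hh h1
      have a2 := key j (s - j) (by omega) (by omega)
      nlinarith
    · have a1 := coeff_DY_low hh (j := s - j) (by omega)
      rw [coeff_DY_symm h (j := j) (l := s - j) (by omega)] at a1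
      have a2 := key (s - j) j (by omega) (by omega)
      nlinarith
  rw [sum_add_distrib, ← e3] at e4
  rw [e2]; linarith

lemma z_up (hh : (s : ℚ) + 2 ≤ h) (hb : (m : ℚ) + 1 ≤ b) (hi : 2 * (i + 1) ≤ s + m + 2) :
    (b - m - 1) * (W h s * (1 + X) ^ m).coeff i - (h - s - 1) * (W b m * (1 + X) ^ s).coeff i ≤
      (((s : ℚ) + m + 2 - i) * z h s b m i - (i + 1) * z h s b m (i + 1)) *
        ((h + b - i) * (h + b - i - 1)) := by
  have h1 : 2 * ((i : ℚ) + 1) ≤ s + m + 2 := by exact_mod_cast hi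
  have h2 : (0 : ℚ) ≤ i := by positivity
  have n1 : 0 < h + b - i - 1 := by linarith
  have n2 : 0 < h + b - i := by linarith
  set π := D (s + 1) (W h s) with hπ
  set f := W h s * (1 + X) ^ m with hf
  set q := Yf h s - W h s with hq
  have e1 : ((s : ℚ) + m + 2 - i) * f.coeff i - (i + 1) * f.coeff (i + 1) =
      (π * (1 + X) ^ m).coeff i + f.coeff i := by
    rw [← coeff_D, show (s : ℚ) + m + 2 = (s + 1 + m) + 1 by ring, D_succ, hf, D_mul, D_pw,
      mul_zero, add_zero, coeff_add]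
  have e2 : -(π * W b m).coeff i ≤ ((s : ℚ) + m + 2 - i) * (q * W b m).coeff i -
      (i + 1) * (q * W b m).coeff (i + 1) := by
    rw [← coeff_D, show (s : ℚ) + m + 2 = (s + 1) + (m + 1) by ring, D_mul, hq, D_sub, sub_mul,
      coeff_add, coeff_sub]
    have a1 := DYW_nonneg (h := h) (b := b) (s := s) (m := m) (i := i) (by linarith) (by linarith)
      (by omega)
    have a2 := (nn_q (h := h) (s := s) (by linarith)).mul (nn_D_W hb) i
    linarith
  have e3 : (h + b - i - 1) * (π * W b m).coeff i =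
      (h - s - 1) * (W h s * W b m).coeff i + (π * (1 + X) ^ m).coeff i := by
    rw [show h + b - i - 1 = (h - 1) + b - i by ring, ← coeff_T, T_mul, hπ, T_D_W (by linarith),
      T_W (by linarith), coeff_add, mul_assoc, coeff_C_mul]
  have e4 := WW_eq (h := h) (b := b) (s := s) (m := m) (by linarith) (by linarith) i
  rw [z_eq (by linarith) (by linarith) (by linarith),
    z_eq (by linarith) (by linarith) (by push_cast; linarith), ← hf, ← hq, mul_comm (W b m)]
  rw [← hf] at e4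
  push_cast
  rw [show h + b - (i + 1) = h + b - i - 1 by ring]
  have e5 : (((s : ℚ) + m + 2 - i) * (f.coeff i / (h + b - i) + (q * W b m).coeff i) -
      (i + 1) * (f.coeff (i + 1) / (h + b - i - 1) + (q * W b m).coeff (i + 1))) *
        ((h + b - i) * (h + b - i - 1)) =
      (h + b - i) * (((s : ℚ) + m + 2 - i) * f.coeff i - (i + 1) * f.coeff (i + 1)) -
        ((s : ℚ) + m + 2 - i) * f.coeff i +
      (((s : ℚ) + m + 2 - i) * (q * W b m).coeff i - (i + 1) * (q * W b m).coeff (i + 1)) *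
        ((h + b - i) * (h + b - i - 1)) := by
    field_simp; ring
  rw [e5, e1]
  have e6 := mul_le_mul_of_nonneg_right e2 (mul_pos n2 n1).le
  have e7 : (π * W b m).coeff i * ((h + b - i) * (h + b - i - 1)) =
      (h - s - 1) * (((1 + X) ^ s * W b m).coeff i + f.coeff i) +
        (h + b - i) * (π * (1 + X) ^ m).coeff i := by
    rw [← e4]; linear_combination (h + b - i) * e3
  linarith

end main

/-- the weight attached to a tight set -/
noncomputable def G (s : ℕ) (x : ℚ) (m i : ℕ) : ℚ :=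
  (s + 1) * (W (s + 1 + x) s * (1 + X) ^ m).coeff i

lemma G_nonneg (s : ℕ) {x : ℚ} (hx : 0 ≤ x) (m i : ℕ) : 0 ≤ G s x m i :=
  mul_nonneg (by positivity) (nn_f (by linarith) m i)

lemma coeff_mul_le {p q V : ℚ[X]} (h : ∀ j, p.coeff j ≤ q.coeff j) (hV : Nn V) (i : ℕ) :
    (p * V).coeff i ≤ (q * V).coeff i := by
  have h1 : Nn (q - p) := fun j => by rw [coeff_sub]; linarith [h j]
  have := h1.mul hV i
  rw [sub_mul, coeff_sub] at this
  linarith

lemma G_anti (s : ℕ) {x x' : ℚ} (hx : 0 ≤ x) (h : x ≤ x') (m i : ℕ) : G s x' m i ≤ G s x m i := by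
  refine mul_le_mul_of_nonneg_left (coeff_mul_le (fun j => ?_) (nn_pw m) i) (by positivity)
  by_cases hj : s < j
  · rw [coeff_W_hi _ hj, coeff_W_hi _ hj]
  · have : (j : ℚ) ≤ s := by exact_mod_cast not_lt.1 hj
    rw [coeff_W, coeff_W]
    exact div_le_div_of_nonneg_left (by positivity) (by linarith) (by linarith)

lemma G_le (s : ℕ) {x : ℚ} (hx : 0 ≤ x) (m i : ℕ) : G s x m i ≤ (s + 1 + m).choose i := by
  refine (G_anti s le_rfl hx m i).trans ?_
  rw [G, ← coeff_C_mul, ← mul_assoc, ← coeff_pw, pow_add]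
  refine coeff_mul_le (fun j => ?_) (nn_pw m) i
  rw [coeff_C_mul, coeff_pw]
  by_cases hj : s < j
  · rw [coeff_W_hi _ hj, mul_zero]; positivity
  · have : (j : ℚ) ≤ s := by exact_mod_cast not_lt.1 hj
    rw [coeff_W, ← mul_div_assoc, succ_choose_q, add_zero,
      mul_div_cancel_left₀ _ (by linarith)]

lemma G_step (s : ℕ) {x : ℚ} (hx : 0 < x) (m i : ℕ) : G s x (m + 1) i ≤ G (s + 1) x m i := by
  rw [G, G, ← coeff_C_mul, ← coeff_C_mul, pow_succ', ← mul_assoc, ← mul_assoc, ← mul_assoc]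
  refine coeff_mul_le (fun j => ?_) (nn_pw m) i
  rw [mul_add, mul_one, coeff_add, coeff_C_mul, coeff_C_mul]
  push_cast
  by_cases hj : s + 1 < j
  · obtain ⟨l, rfl⟩ : ∃ l, j = l + 1 := ⟨j - 1, by omega⟩
    rw [coeff_mul_X, coeff_C_mul, coeff_W_hi _ hj, coeff_W_hi _ (by omega : s < l + 1),
      coeff_W_hi _ (by omega : s < l)]
    simp
  have h1 : (j : ℚ) ≤ s + 1 := by exact_mod_cast not_lt.1 hj
  have h2 : (C ((s : ℚ) + 1) * W (s + 1 + x) s * X).coeff j =
      j * (s + 1).choose j / (s + 1 + 1 + x - j) := by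
    rcases j with _ | l
    · simp
    · rw [coeff_mul_X, coeff_C_mul, coeff_W, ← mul_div_assoc, succ_choose_q']
      push_cast
      congr 1; ring
  rw [h2, coeff_W, coeff_W, ← mul_div_assoc, succ_choose_q, ← mul_div_assoc, ← sub_nonneg]
  have d1 : (0 : ℚ) < s + 1 + x - j := by linarith
  have d2 : (0 : ℚ) < s + 1 + 1 + x - j := by linarith
  have e : ((s : ℚ) + 1 + 1) * (s + 1).choose j / (s + 1 + 1 + x - j) -
      (((s : ℚ) + 1 - j) * (s + 1).choose j / (s + 1 + x - j) +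
        j * (s + 1).choose j / (s + 1 + 1 + x - j)) =
      x * (s + 1).choose j / ((s + 1 + x - j) * (s + 1 + 1 + x - j)) := by
    field_simp; ring
  rw [e]; positivity

lemma G_mono (s : ℕ) {x : ℚ} (hx : 0 < x) (m i d : ℕ) : G s x (m + d) i ≤ G (s + d) x m i := by
  induction d generalizing s with
  | zero => exact le_rfl
  | succ d ih =>
    refine (G_step s hx (m + d) i).trans ?_
    rw [show s + (d + 1) = s + 1 + d by omega]
    exact ih (s + 1)

/-- log-concavity from a two-sided window on consecutive ratios -/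
lemma lc_of_window {k : ℕ} {p : ℚ[X]} (hs : Sym k p) (h0 : 0 < p.coeff 0)
    (hl : ∀ i, 2 * (i + 1) ≤ k → ((k : ℚ) - 2 - i) * p.coeff i ≤ (i + 1) * p.coeff (i + 1))
    (hm : ∀ i, 2 * (i + 1) = k → p.coeff i ≤ p.coeff (i + 1))
    (hu : ∀ i, 2 * (i + 1) ≤ k → ((i : ℚ) + 1) * p.coeff (i + 1) ≤ (k - i) * p.coeff i) :
    (∀ i ≤ k, 0 < p.coeff i) ∧ ∀ i, p.coeff i * p.coeff (i + 2) ≤ p.coeff (i + 1) ^ 2 := by
  have step : ∀ i, 2 * (i + 1) ≤ k → 0 < p.coeff i → p.coeff i ≤ p.coeff (i + 1) := by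
    intro i hi hp
    by_cases h1 : 2 * (i + 1) = k
    · exact hm i h1
    have h2 := hl i hi
    have h3 : 2 * ((i : ℚ) + 1) + 1 ≤ k := by exact_mod_cast (by omega : 2 * (i + 1) + 1 ≤ k)
    have h4 : (0 : ℚ) < (i : ℚ) + 1 := by positivity
    refine le_of_mul_le_mul_left ?_ h4
    nlinarith
  have low : ∀ i, 2 * i ≤ k → 0 < p.coeff i := by
    intro i
    induction i with
    | zero => intro _; exact h0
    | succ i ih => intro hi; exact (ih (by omega)).trans_le (step i hi (ih (by omega)))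
  have pos : ∀ i ≤ k, 0 < p.coeff i := fun i hi => by
    by_cases h1 : 2 * i ≤ k
    · exact low i h1
    · rw [hs.sym i (k - i) (by omega)]; exact low _ (by omega)
  have lc : ∀ i, 2 * (i + 2) ≤ k → p.coeff i * p.coeff (i + 2) ≤ p.coeff (i + 1) ^ 2 := by
    intro i hi
    have h1 := hu (i + 1) hi
    have h2 := hl i (by omega)
    have h3 : 2 * ((i : ℚ) + 2) ≤ k := by exact_mod_cast hi
    have h4 := low i (by omega)
    have h5 := low (i + 1) (by omega)
    have h6 := low (i + 2) (by omega)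
    have h7 : (0 : ℚ) ≤ i := by positivity
    push_cast at h1
    have h8 := mul_le_mul h1 h2 (mul_nonneg (by linarith) h4.le) (mul_nonneg (by linarith) h5.le)
    have h9 : (0 : ℚ) < ((i : ℚ) + 2) * (k - 2 - i) := mul_pos (by linarith) (by linarith)
    have h10 : ((k : ℚ) - (i + 1)) * (i + 1) ≤ ((i : ℚ) + 2) * (k - 2 - i) := by nlinarith
    have h11 := mul_le_mul_of_nonneg_right h10 (sq_nonneg (p.coeff (i + 1)))
    refine le_of_mul_le_mul_left ?_ h9
    nlinarith
  refine ⟨pos, fun i => ?_⟩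
  by_cases h0 : k < i + 2
  · rw [hs.hi _ h0, mul_zero]; positivity
  by_cases h1 : 2 * (i + 2) ≤ k
  · exact lc i h1
  by_cases h2 : 2 * (k - i) ≤ k
  · have := lc (k - i - 2) (by omega)
    rw [hs.sym i (k - i - 2 + 2) (by omega), hs.sym (i + 2) (k - i - 2) (by omega),
      hs.sym (i + 1) (k - i - 2 + 1) (by omega), mul_comm]
    exact this
  have h3 := pos i (by omega)
  have h4 := pos (i + 1) (by omega)
  have h5 := pos (i + 2) (by omega)
  have a1 : p.coeff i ≤ p.coeff (i + 1) := by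
    by_cases h6 : 2 * (i + 1) ≤ k
    · exact step i h6 h3
    · rw [hs.sym i (i + 1) (by omega)]
  have a2 : p.coeff (i + 2) ≤ p.coeff (i + 1) := by
    by_cases h6 : k = 2 * i + 3
    · rw [hs.sym (i + 2) (i + 1) (by omega)]
    · rw [hs.sym (i + 2) (k - i - 2) (by omega), hs.sym (i + 1) (k - i - 2 + 1) (by omega)]
      exact step _ (by omega) (pos _ (by omega))
  nlinarith

end Pool.Agent.Lib.MP_147f4d_co.Split
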