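import Pool.Agent.Lib.MP_147f4d_co.Lab
import Pool.Agent.Lib.MP_147f4d_co.Exp

namespace Pool.Agent.Lib.MP_147f4d_co

open Finset Finset.HasAntidiagonal

/-- signed braid polynomials -/
noncomputable def kap : ℕ → Polynomial ℚ
  | 0 => 1
  | s + 1 => ((s.factorial : ℚ) * (-1) ^ s) • fold (s + 1) s

/-- partition sums -/
noncomputable def EE (a : ℚ) (s : ℕ) : Polynomial ℚ :=
  ((s.factorial : ℚ) * (-a) ^ s) • PowerSeries.coeff s (ee (1 / a))

/-- signed Dowling polynomials -/
noncomputable def DD (a : ℚ) (s : ℕ) : Polynomial ℚ :=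
  ((s.factorial : ℚ) * (-a) ^ s) • PowerSeries.coeff s (dd (1 / a))

lemma EE_zero (a : ℚ) : EE a 0 = 1 := by rw [EE, coeff_zero_ee]; simp

lemma DD_zero (a : ℚ) : DD a 0 = 1 := by rw [DD, coeff_zero_dd]; simp

lemma EE_succ {a : ℚ} (ha : a ≠ 0) (s : ℕ) : EE a (s + 1) =
    ∑ j ∈ range (s + 1), s.choose j • (a ^ j • (kap (j + 1) * EE a (s - j))) := by
  rw [EE, ee_rec, Nat.sum_antidiagonal_eq_sum_range_succ_mk, smul_smul, smul_sum]
  refine sum_congr rfl fun j hj => ?_
  have hj' : j ≤ s := by simpa [Nat.lt_succ_iff] using hj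
  obtain ⟨k, rfl⟩ := Nat.exists_eq_add_of_le hj'
  rw [kap, EE, smul_mul_smul_comm, smul_smul, ← Nat.cast_smul_eq_nsmul ℚ, smul_smul,
    Nat.add_sub_cancel_left]
  congr 1
  have h1 : (((j + k).choose j : ℕ) : ℚ) * j.factorial * k.factorial = (j + k).factorial := by
    have := Nat.choose_mul_factorial_mul_factorial (Nat.le_add_right j k)
    rw [Nat.add_sub_cancel_left] at this
    exact_mod_cast this
  have h2 : ((j + k : ℕ) : ℚ) + 1 ≠ 0 := by positivity
  have h3 : (-a) ^ j = a ^ j * (-1) ^ j := by rw [← mul_pow]; simp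
  rw [Nat.factorial_succ, pow_succ, pow_add, h3, Nat.cast_mul, ← h1, Nat.cast_add _ 1, Nat.cast_one]
  field_simp

lemma DD_EE (a : ℚ) (u : ℕ) : ∑ j ∈ range (u + 1), u.choose j • (DD a j * EE a (u - j)) =
    ((u.factorial : ℚ) * (-a) ^ u) • PowerSeries.coeff u (dd (1 / a) * ee (1 / a)) := by
  rw [PowerSeries.coeff_mul, Nat.sum_antidiagonal_eq_sum_range_succ_mk, smul_sum]
  refine sum_congr rfl fun j hj => ?_
  have hj' : j ≤ u := by simpa [Nat.lt_succ_iff] using hj
  obtain ⟨k, rfl⟩ := Nat.exists_eq_add_of_le hj'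
  rw [DD, EE, smul_mul_smul_comm, ← Nat.cast_smul_eq_nsmul ℚ, smul_smul, Nat.add_sub_cancel_left]
  congr 1
  have h1 : (((j + k).choose j : ℕ) : ℚ) * j.factorial * k.factorial = (j + k).factorial := by
    have := Nat.choose_mul_factorial_mul_factorial (Nat.le_add_right j k)
    rw [Nat.add_sub_cancel_left] at this
    exact_mod_cast this
  rw [pow_add, ← h1]; ring

lemma cc_smul (c : ℚ) (p : Polynomial ℚ) : cc (c • p) = c • cc p := by
  ext i; rw [PowerSeries.coeff_smul, coeff_cc, coeff_cc, Polynomial.coeff_smul]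

lemma hw_EE_one (s : ℕ) : HW (s - 1) (cc (EE 1 s)) := by
  rcases s with _ | s
  · exact hw_zero _
  · rw [EE, cc_smul, div_one]; exact (hw_ee_one s).smul _

lemma sym_kap (s : ℕ) : Sym (s - 1) (kap s) := by
  rcases s with _ | s
  · exact sym_one
  · exact (sym_fold _ _).smul _

lemma sym_DD (a : ℚ) (s : ℕ) : Sym s (DD a s) := (sym_dd _ s).smul _

variable {n : ℕ} {G : Type} [Group G] [Fintype G] [DecidableEq G]

/-- the vertices in a given orbit -/
def fib (x : Lab n G) (c : Option (Fin n)) : Finset (Fin n) := univ.filter fun i => blk (x i) = c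

omit [Group G] [Fintype G] [DecidableEq G] in
lemma mem_fib {x : Lab n G} {c : Option (Fin n)} {i : Fin n} : i ∈ fib x c ↔ blk (x i) = c := by
  simp [fib]

/-- product of block weights -/
noncomputable def WW (y : Lab n G) : Polynomial ℚ := ∏ r, kap #(fib y (some r))

/-- compatibility -/
def Cmp (x y : Lab n G) : Prop := ∀ i j g, y i ≠ none → y i = act g (y j) → x i = act g (x j)

open Classical in
/-- normalised labellings with support `S` refining `x` -/
noncomputable def AA (x : Lab n G) (S : Finset (Fin n)) : Finset (Lab n G) :=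
  univ.filter fun y => Norm y ∧ (∀ i, y i = none ↔ i ∉ S) ∧ Cmp x y

omit [DecidableEq G] in
lemma mem_AA {x y : Lab n G} {S : Finset (Fin n)} :
    y ∈ AA x S ↔ Norm y ∧ (∀ i, y i = none ↔ i ∉ S) ∧ Cmp x y := by
  simp [AA]

/-- the gains in the block of `p` -/
def zof (p : Fin n) (y : Lab n G) (i : Fin n) : Option G :=
  (y i).bind fun q => if q.1 = p then some q.2 else none

omit [Group G] [Fintype G] [DecidableEq G] in
lemma zof_eq_some {p : Fin n} {y : Lab n G} {i : Fin n} {g : G} :
    zof p y i = some g ↔ y i = some (p, g) := by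
  unfold zof
  rcases y i with _ | ⟨r, a⟩ <;> simp

omit [Group G] [Fintype G] [DecidableEq G] in
lemma zof_eq_none {p : Fin n} {y : Lab n G} {i : Fin n} :
    zof p y i = none ↔ blk (y i) ≠ some p := by
  unfold zof
  rcases y i with _ | ⟨r, a⟩ <;> simp

/-- add a block -/
def glue (p : Fin n) (z : Fin n → Option G) (y : Lab n G) : Lab n G := fun i =>
  match z i with
  | some g => some (p, g)
  | none => y i

/-- support -/
def supp (z : Fin n → Option G) : Finset (Fin n) := univ.filter fun i => z i ≠ none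

omit [Group G] [Fintype G] [DecidableEq G] in
lemma mem_supp {z : Fin n → Option G} {i : Fin n} : i ∈ supp z ↔ z i ≠ none := by simp [supp]

open Classical in
/-- possible blocks of `p` -/
noncomputable def ZZ (x : Lab n G) (S : Finset (Fin n)) (p : Fin n) : Finset (Fin n → Option G) :=
  univ.filter fun z => z p = some 1 ∧ (∀ i, z i ≠ none → i ∈ S) ∧
    ∀ i g, z i = some g → x i = act g (x p)

lemma mem_ZZ {x : Lab n G} {S : Finset (Fin n)} {p : Fin n} {z : Fin n → Option G} :
    z ∈ ZZ x S p ↔ z p = some 1 ∧ (∀ i, z i ≠ none → i ∈ S) ∧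
      ∀ i g, z i = some g → x i = act g (x p) := by
  simp [ZZ]

lemma zof_mem {x y : Lab n G} {S : Finset (Fin n)} {p : Fin n} (hp : p ∈ S) (hmin : ∀ i ∈ S, p ≤ i)
    (hy : y ∈ AA x S) : zof p y ∈ ZZ x S p := by
  obtain ⟨h1, h2, h3⟩ := mem_AA.1 hy
  have hyp : y p = some (p, 1) := by
    rcases h : y p with _ | ⟨r, a⟩
    · exact absurd hp ((h2 p).1 h)
    · obtain ⟨h4, h5⟩ := h1 p r a h
      have h6 : r ∈ S := by
        by_contra h7; rw [(h2 r).2 h7] at h5; simp at h5
      have h7 : r = p := le_antisymm h4 (hmin r h6)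
      subst h7; rw [← h, h5]
  refine mem_ZZ.2 ⟨zof_eq_some.2 hyp, fun i hi => ?_, fun i g hi => ?_⟩
  · by_contra h4
    apply hi
    rw [zof_eq_none, (h2 i).2 h4]; simp
  · have h4 := zof_eq_some.1 hi
    exact h3 i p g (by rw [h4]; simp) (by rw [h4, hyp]; simp)

omit [Group G] [Fintype G] [DecidableEq G] in
lemma killV_of_ne {p : Fin n} {a : Option (Fin n × G)} (h : blk a ≠ some p) : killV p a = a :=
  if_neg h

omit [Group G] [Fintype G] [DecidableEq G] in
lemma killV_of_eq {p : Fin n} {a : Option (Fin n × G)} (h : blk a = some p) : killV p a = none :=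
  if_pos h

omit [Group G] [Fintype G] [DecidableEq G] in
lemma WW_kill (p : Fin n) (y : Lab n G) :
    WW y = kap #(supp (zof p y)) * WW (fun i => killV p (y i)) := by
  unfold WW
  rw [← mul_prod_erase univ _ (mem_univ p), ← mul_prod_erase univ _ (mem_univ p)]
  have h1 : fib y (some p) = supp (zof p y) := by
    ext i; rw [mem_fib, mem_supp, Ne, zof_eq_none, not_not]
  have h2 : fib (fun i => killV p (y i)) (some p) = ∅ := by
    ext i
    rw [mem_fib]
    simp only [notMem_empty, iff_false]
    by_cases h : blk (y i) = some p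
    · rw [killV_of_eq h]; simp
    · rw [killV_of_ne h]; exact h
  rw [h1, h2, card_empty, kap, one_mul]
  congr 1
  refine prod_congr rfl fun r hr => ?_
  have hr' : r ≠ p := (mem_erase.1 hr).1
  congr 2
  ext i
  rw [mem_fib, mem_fib]
  by_cases h : blk (y i) = some p
  · rw [killV_of_eq h, h]; simp [hr'.symm]
  · rw [killV_of_ne h]

lemma fiber_sum {x : Lab n G} {S : Finset (Fin n)} {p : Fin n} (hmin : ∀ i ∈ S, p ≤ i)
    {z : Fin n → Option G} (hz : z ∈ ZZ x S p) :
    ∑ y ∈ (AA x S).filter (fun y => zof p y = z), WW y =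
      kap #(supp z) * ∑ y ∈ AA x (S \ supp z), WW y := by
  obtain ⟨z1, z2, z3⟩ := mem_ZZ.1 hz
  have notp : ∀ y ∈ AA x (S \ supp z), ∀ i, blk (y i) ≠ some p := by
    intro y hy i hi
    obtain ⟨h1, h2, -⟩ := mem_AA.1 hy
    obtain ⟨a, ha⟩ := blk_eq_some.1 hi
    have h3 := (h1 i p a ha).2
    have h4 : y p = none := (h2 p).2 (by simp [mem_supp, z1])
    rw [h4] at h3; simp at h3
  have gs : ∀ (y : Lab n G) i g, z i = some g → glue p z y i = some (p, g) := fun y i g h => by
    simp [glue, h]
  have gn : ∀ (y : Lab n G) i, z i = none → glue p z y i = y i := fun y i h => by simp [glue, h]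
  rw [mul_sum]
  refine sum_nbij' (fun y i => killV p (y i)) (glue p z) ?_ ?_ ?_ ?_ ?_
  · intro y hy
    rw [mem_filter] at hy
    obtain ⟨hy, rfl⟩ := hy
    obtain ⟨h1, h2, h3⟩ := mem_AA.1 hy
    have key : ∀ i, killV p (y i) ≠ none → killV p (y i) = y i ∧ blk (y i) ≠ some p := by
      intro i hi
      by_cases h : blk (y i) = some p
      · exact absurd (killV_of_eq h) hi
      · exact ⟨killV_of_ne h, h⟩
    refine mem_AA.2 ⟨fun i r a hi => ?_, fun i => ?_, fun i j g hi hij => ?_⟩
    · obtain ⟨h4, h5⟩ := key i (by simp only [hi]; simp)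
      simp only [h4] at hi
      obtain ⟨h6, h7⟩ := h1 i r a hi
      refine ⟨h6, ?_⟩
      rw [hi] at h5
      simp only [h7]
      exact killV_of_ne h5
    · rw [mem_sdiff, mem_supp, Ne, zof_eq_none, not_not]
      by_cases h : blk (y i) = some p
      · simp only [killV_of_eq h, h]; simp
      · simp only [killV_of_ne h, h2 i]; simp [h]
    · have hj : killV p (y j) ≠ none := fun h => hi (by simp only [hij, h]; rfl)
      simp only [(key i hi).1, (key j hj).1] at hi hij
      exact h3 i j g hi hij
  · intro y hy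
    have hnp := notp y hy
    obtain ⟨h1, h2, h3⟩ := mem_AA.1 hy
    have zn : ∀ i, y i ≠ none → z i = none := fun i hi => by
      by_contra h
      exact hi ((h2 i).2 (by simp [mem_supp, h]))
    rw [mem_filter]
    refine ⟨mem_AA.2 ⟨fun i r a hi => ?_, fun i => ?_, fun i j g hi hij => ?_⟩, ?_⟩
    · rcases hzi : z i with _ | g
      · rw [gn y i hzi] at hi
        obtain ⟨h4, h5⟩ := h1 i r a hi
        exact ⟨h4, by rw [gn y r (zn r (by rw [h5]; simp)), h5]⟩
      · rw [gs y i g hzi] at hi
        have h4 : p = r := congrArg Prod.fst (Option.some.inj hi)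
        subst h4
        exact ⟨hmin i (z2 i (by rw [hzi]; simp)), gs y p 1 z1⟩
    · rcases hzi : z i with _ | g
      · rw [gn y i hzi, h2 i]; simp [mem_supp, hzi]
      · rw [gs y i g hzi]; simpa using z2 i (by rw [hzi]; simp)
    · rcases hzi : z i with _ | a <;> rcases hzj : z j with _ | b
      · rw [gn y i hzi] at hi hij
        rw [gn y j hzj] at hij
        exact h3 i j g hi hij
      · rw [gn y i hzi, gs y j b hzj] at hij
        exact absurd (by rw [hij]; rfl) (hnp i)
      · rw [gs y i a hzi, gn y j hzj] at hij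
        have := congrArg blk hij
        rw [blk_act] at this
        exact absurd this.symm (hnp j)
      · rw [gs y i a hzi, gs y j b hzj] at hij
        have h4 : a = g * b := by simpa using hij
        rw [z3 i a hzi, z3 j b hzj, act_act, h4]
    · funext i
      rcases hzi : z i with _ | g
      · rw [zof_eq_none, gn y i hzi]; exact hnp i
      · rw [zof_eq_some, gs y i g hzi]
  · intro y hy
    rw [mem_filter] at hy
    obtain ⟨-, rfl⟩ := hy
    funext i
    rcases hzi : zof p y i with _ | g
    · rw [gn _ i hzi]; exact killV_of_ne (zof_eq_none.1 hzi)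
    · rw [gs _ i g hzi, zof_eq_some.1 hzi]
  · intro y hy
    funext i
    rcases hzi : z i with _ | g
    · simp only [gn y i hzi]; exact killV_of_ne (notp y hy i)
    · simp only [gs y i g hzi]
      rw [killV_of_eq rfl]
      exact (((mem_AA.1 hy).2.1 i).2 (by simp [mem_supp, hzi])).symm
  · intro y hy
    rw [mem_filter] at hy
    obtain ⟨-, rfl⟩ := hy
    exact WW_kill p y

/-- number of gains between two vertices of the same orbit -/
def mult (G : Type) [Fintype G] {n : ℕ} : Option (Fin n) → ℕ
  | none => Fintype.card G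
  | some _ => 1

lemma card_gain {a b : Option (Fin n × G)} (h : blk a = blk b) :
    #(univ.filter fun g : G => a = act g b) = mult G (blk b) := by
  rcases a with _ | ⟨r, a⟩ <;> rcases b with _ | ⟨s, b⟩
  · simp [mult]
  · simp at h
  · simp at h
  · have h1 : r = s := by simpa using h
    subst h1
    rw [blk_some, mult, card_eq_one]
    refine ⟨a * b⁻¹, ?_⟩
    ext g
    simp [eq_mul_inv_iff_mul_eq, eq_comm]

lemma ZZ_sum (x : Lab n G) {S : Finset (Fin n)} {p : Fin n} (hp : p ∈ S)
    (f : Finset (Fin n) → Polynomial ℚ) :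
    ∑ z ∈ ZZ x S p, f (supp z) = ∑ B ∈ ((S ∩ fib x (blk (x p))).erase p).powerset,
      (mult G (blk (x p))) ^ #B • f (insert p B) := by
  rw [← sum_fiberwise_of_maps_to (s := ZZ x S p) (t := ((S ∩ fib x (blk (x p))).erase p).powerset)
    (g := fun z => (supp z).erase p)]
  · refine sum_congr rfl fun B hB => ?_
    have hB' := mem_powerset.1 hB
    have hpB : p ∉ B := fun h => (mem_erase.1 (hB' h)).1 rfl
    have h1 : ∀ z ∈ (ZZ x S p).filter (fun z => (supp z).erase p = B), supp z = insert p B := by
      intro z hz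
      rw [mem_filter, mem_ZZ] at hz
      obtain ⟨hz, rfl⟩ := hz
      rw [insert_erase (mem_supp.2 (by rw [hz.1]; simp))]
    rw [sum_congr rfl fun z hz => by rw [h1 z hz], sum_const]
    congr 1
    have h2 : (ZZ x S p).filter (fun z => (supp z).erase p = B) =
        Fintype.piFinset fun i => if i ∈ B then
          (univ.filter fun g : G => x i = act g (x p)).map ⟨some, Option.some_injective _⟩
          else if i = p then {some 1} else {none} := by
      ext z
      rw [mem_filter, mem_ZZ, Fintype.mem_piFinset]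
      constructor
      · rintro ⟨⟨z1, z2, z3⟩, rfl⟩ i
        split_ifs with h3 h4
        · rcases hzi : z i with _ | g
          · exact absurd hzi (mem_supp.1 (mem_erase.1 h3).2)
          · simpa using z3 i g hzi
        · rw [h4, z1]; simp
        · rw [mem_singleton]
          by_contra h5
          exact h3 (mem_erase.2 ⟨h4, mem_supp.2 h5⟩)
      · intro h
        have z1 : z p = some 1 := by simpa [hpB] using h p
        have z2 : ∀ i, i ∉ B → i ≠ p → z i = none := fun i h3 h4 => by simpa [h3, h4] using h i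
        have z3 : ∀ i ∈ B, ∃ g, x i = act g (x p) ∧ some g = z i := fun i h3 => by
          simpa [h3] using h i
        refine ⟨⟨z1, fun i hi => ?_, fun i g hi => ?_⟩, ?_⟩
        · by_cases h3 : i ∈ B
          · exact (mem_inter.1 (mem_erase.1 (hB' h3)).2).1
          · by_cases h4 : i = p
            · exact h4 ▸ hp
            · exact absurd (z2 i h3 h4) hi
        · by_cases h3 : i ∈ B
          · obtain ⟨g', h4, h5⟩ := z3 i h3
            rw [hi] at h5
            rw [h4, Option.some.inj h5]
          · by_cases h4 : i = p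
            · subst h4
              rw [z1] at hi
              rw [← Option.some.inj hi, act_one]
            · rw [z2 i h3 h4] at hi; simp at hi
        · ext i
          rw [mem_erase, mem_supp]
          constructor
          · rintro ⟨h3, h4⟩
            by_contra h5
            exact h4 (z2 i h5 h3)
          · intro h3
            obtain ⟨g', -, h5⟩ := z3 i h3
            exact ⟨fun h6 => hpB (h6 ▸ h3), by rw [← h5]; simp⟩
    rw [h2, Fintype.card_piFinset, ← prod_const, ← prod_filter_mul_prod_filter_not univ (· ∈ B)]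
    have h3 : univ.filter (· ∈ B) = B := by ext; simp
    rw [h3, prod_eq_one (s := univ.filter _), mul_one]
    · refine prod_congr rfl fun i hi => ?_
      rw [if_pos hi, card_map, card_gain (mem_fib.1 (mem_inter.1 (mem_erase.1 (hB' hi)).2).2)]
    · intro i hi
      rw [if_neg (mem_filter.1 hi).2]
      split_ifs <;> simp
  · intro z hz
    obtain ⟨z1, z2, z3⟩ := mem_ZZ.1 hz
    refine mem_powerset.2 (erase_subset_erase _ fun i hi => ?_)
    have h1 := mem_supp.1 hi
    refine mem_inter.2 ⟨z2 i h1, mem_fib.2 ?_⟩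
    rcases hzi : z i with _ | g
    · exact absurd hzi h1
    · rw [z3 i g hzi, blk_act]

omit [DecidableEq G] in
lemma mult_ne_zero (c : Option (Fin n)) : (mult G c : ℚ) ≠ 0 := by
  rcases c with _ | r
  · simp [mult]
  · simp [mult]

theorem AA_sum (x : Lab n G) (S : Finset (Fin n)) :
    ∑ y ∈ AA x S, WW y = ∏ c, EE (mult G c) #(S ∩ fib x c) := by
  induction S using Finset.strongInduction with
  | H S ih =>
    rcases S.eq_empty_or_nonempty with rfl | hne
    · have : AA x ∅ = {fun _ => none} := by
        ext y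
        rw [mem_AA, mem_singleton]
        constructor
        · rintro ⟨-, h, -⟩; funext i; exact (h i).2 (by simp)
        · rintro rfl
          exact ⟨fun i r a h => by simp at h, fun i => by simp, fun i j g h => absurd rfl h⟩
      rw [this, sum_singleton]
      simp [WW, fib, kap, EE_zero]
    set p := S.min' hne with hp
    have hpS : p ∈ S := min'_mem _ _
    have hmin : ∀ i ∈ S, p ≤ i := fun i hi => min'_le _ _ hi
    rw [← sum_fiberwise_of_maps_to (s := AA x S) (t := ZZ x S p) (g := zof p)
      (fun y hy => zof_mem hpS hmin hy), sum_congr rfl fun z hz => fiber_sum hmin hz,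
      ZZ_sum x hpS (fun B => kap #B * ∑ y ∈ AA x (S \ B), WW y)]
    set c := blk (x p) with hc
    have hpc : p ∈ S ∩ fib x c := mem_inter.2 ⟨hpS, mem_fib.2 rfl⟩
    obtain ⟨s, hs⟩ : ∃ s, #((S ∩ fib x c).erase p) = s := ⟨_, rfl⟩
    have hs' : #(S ∩ fib x c) = s + 1 := by rw [← hs, card_erase_add_one hpc]
    rw [← mul_prod_erase univ _ (mem_univ c), hs', EE_succ (mult_ne_zero c), ← hs,
      ← sum_powerset_apply_card (fun j => (mult G c : ℚ) ^ j • (kap (j + 1) *
        EE (mult G c) (#((S ∩ fib x c).erase p) - j))), sum_mul]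
    refine sum_congr rfl fun B hB => ?_
    have hB' := mem_powerset.1 hB
    have hpB : p ∉ B := fun h => (mem_erase.1 (hB' h)).1 rfl
    have hsub : insert p B ⊆ S ∩ fib x c := insert_subset hpc (hB'.trans (erase_subset _ _))
    rw [ih (S \ insert p B) (sdiff_ssubset (hsub.trans inter_subset_left) (insert_nonempty _ _)),
      ← mul_prod_erase univ _ (mem_univ c), card_insert_of_notMem hpB,
      ← Nat.cast_smul_eq_nsmul ℚ, Nat.cast_pow, smul_mul_assoc, mul_assoc]
    have h1 : #((S \ insert p B) ∩ fib x c) = #((S ∩ fib x c).erase p) - #B := by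
      have : (S \ insert p B) ∩ fib x c = ((S ∩ fib x c).erase p) \ B := by
        ext i; simp only [mem_inter, mem_sdiff, mem_insert, mem_erase]; tauto
      rw [this, card_sdiff_of_subset hB']
    rw [h1]
    congr 3
    refine prod_congr rfl fun c' hc' => ?_
    congr 2
    ext i
    simp only [mem_inter, mem_sdiff]
    refine ⟨fun h => ⟨h.1.1, h.2⟩, fun h => ⟨⟨h.1, fun h2 => ?_⟩, h.2⟩⟩
    exact (mem_erase.1 hc').1 ((mem_fib.1 h.2).symm.trans (mem_fib.1 (mem_inter.1 (hsub h2)).2))

/-- the candidate signed inverse `Z`-polynomial of a flat -/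
noncomputable def wt (y : Lab n G) : Polynomial ℚ := DD (Fintype.card G) #(fib y none) * WW y

open Classical in
theorem sum_wt (x : Lab n G) :
    ∑ y ∈ univ.filter (fun y => Norm y ∧ Le y x), wt y =
      (∑ j ∈ range (#(fib x none) + 1), (#(fib x none)).choose j •
        (DD (Fintype.card G) j * EE (Fintype.card G) (#(fib x none) - j))) *
      ∏ r, EE 1 #(fib x (some r)) := by
  rw [← sum_fiberwise_of_maps_to (t := (fib x none).powerset) (g := fun y => fib y none),
    ← sum_powerset_apply_card (fun j =>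
      DD (Fintype.card G) j * EE (Fintype.card G) (#(fib x none) - j)), sum_mul]
  · refine sum_congr rfl fun U hU => ?_
    have hU' := mem_powerset.1 hU
    have h1 : (univ.filter (fun y : Lab n G => Norm y ∧ Le y x)).filter
        (fun y => fib y none = U) = AA x Uᶜ := by
      ext y
      simp only [mem_filter, mem_univ, true_and, mem_AA, mem_compl, not_not]
      constructor
      · rintro ⟨⟨h1, h2⟩, rfl⟩
        exact ⟨h1, fun i => by rw [mem_fib, blk_eq_none], fun i j g _ h => h2.2 i j g h⟩
      · rintro ⟨h1, h2, h3⟩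
        have h4 : ∀ i, y i = none → x i = none := fun i hi =>
          blk_eq_none.1 (mem_fib.1 (hU' ((h2 i).1 hi)))
        refine ⟨⟨h1, h4, fun i j g h => ?_⟩, ?_⟩
        · by_cases h5 : y i = none
          · rw [h4 i h5, h4 j (act_eq_none.1 (h ▸ h5))]; rfl
          · exact h3 i j g h5 h
        · ext i; rw [mem_fib, blk_eq_none, h2]
    have h2 : ∀ y ∈ (univ.filter (fun y : Lab n G => Norm y ∧ Le y x)).filter
        (fun y => fib y none = U), wt y = DD (Fintype.card G) #U * WW y := fun y hy => by
      rw [wt, (mem_filter.1 hy).2]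
    rw [sum_congr rfl h2, h1, ← mul_sum, AA_sum, Fintype.prod_option, mul_assoc]
    have h3 : #(Uᶜ ∩ fib x none) = #(fib x none) - #U := by
      rw [← card_sdiff_of_subset hU']; congr 1; ext i; simp [and_comm]
    rw [h3]
    congr 2
    refine prod_congr rfl fun r _ => ?_
    have h4 : Uᶜ ∩ fib x (some r) = fib x (some r) := by
      refine inter_eq_right.2 fun i hi => mem_compl.2 fun h => ?_
      have := (mem_fib.1 hi).symm.trans (mem_fib.1 (hU' h))
      simp at this
    rw [h4]; simp [mult]
  · intro y hy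
    refine mem_powerset.2 fun i hi => ?_
    rw [mem_fib, blk_eq_none] at hi ⊢
    exact (mem_filter.1 hy).2.2.1 i hi

omit [Group G] [Fintype G] [DecidableEq G] in
lemma rank_eq (x : Lab n G) :
    n - #(blocks x) = #(fib x none) + ∑ r, (#(fib x (some r)) - 1) := by
  have h1 : ∑ c, #(fib x c) = n := by
    have := card_eq_sum_card_fiberwise (s := univ) (t := univ) (f := fun i => blk (x i))
      (fun _ _ => mem_univ _)
    rw [card_univ, Fintype.card_fin] at this
    exact this.symm
  rw [Fintype.sum_option] at h1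
  have h2 : ∑ r, #(fib x (some r)) = ∑ r, (#(fib x (some r)) - 1) + #(blocks x) := by
    rw [blocks, card_filter, ← sum_add_distrib]
    refine sum_congr rfl fun r _ => ?_
    split_ifs with h
    · obtain ⟨i, hi⟩ := h
      have : 0 < #(fib x (some r)) := card_pos.2 ⟨i, mem_fib.2 hi⟩
      omega
    · have : fib x (some r) = ∅ := eq_empty_of_forall_notMem fun i hi => h ⟨i, mem_fib.1 hi⟩
      rw [this]; simp
  omega

omit [Group G] [DecidableEq G] in
lemma sym_wt (x : Lab n G) : Sym (n - #(blocks x)) (wt x) := by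
  rw [rank_eq]
  exact (sym_DD _ _).mul (sym_prod _ _ _ fun r _ => sym_kap _)

open Classical in
lemma hw_sum_wt (x : Lab n G) : HW (n - #(blocks x))
    (cc (∑ y ∈ univ.filter (fun y => Norm y ∧ Le y x), wt y)) := by
  rw [sum_wt, rank_eq, map_mul, map_prod, DD_EE, cc_smul]
  exact ((hw_dd_ee _ _).smul _).mul (hw_prod _ _ _ fun r _ => hw_EE_one _)

omit [Group G] [DecidableEq G] in
lemma wt_one (x : Lab n G) (h : n - #(blocks x) = 0) : wt x = 1 := by
  rw [rank_eq] at h
  have h1 : #(fib x none) = 0 := by omega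
  have h2 : ∑ r, (#(fib x (some r)) - 1) = 0 := by omega
  rw [wt, h1, DD_zero, one_mul]
  refine prod_eq_one fun r _ => ?_
  have h3 := sum_eq_zero_iff.1 h2 r (mem_univ _)
  have h4 : #(fib x (some r)) = 0 ∨ #(fib x (some r)) = 1 := by omega
  rcases h4 with h4 | h4 <;> rw [h4]
  · rfl
  · simp [kap, fold, pois_zero]

end Pool.Agent.Lib.MP_147f4d_co
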